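import Mathlib

/-! The polynomials `R j` (sl₂ representation theory). -/

namespace Pool.Agent.Helper922.MR


open MvPolynomial in
/-- aux: weighted Euler derivation -/
noncomputable def A1_exists_R_E (w : Fin 3 ⊕ Fin 3 → ℕ) :
    Derivation ℂ (MvPolynomial (Fin 3 ⊕ Fin 3) ℂ) (MvPolynomial (Fin 3 ⊕ Fin 3) ℂ) :=
  mkDerivation ℂ (fun i => (w i : ℂ) • (X i : MvPolynomial (Fin 3 ⊕ Fin 3) ℂ))

open MvPolynomial in
/-- aux -/
noncomputable def A1_exists_R_F :
    Derivation ℂ (MvPolynomial (Fin 3 ⊕ Fin 3) ℂ) (MvPolynomial (Fin 3 ⊕ Fin 3) ℂ) :=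
  mkDerivation ℂ (Sum.elim (fun _ => 0) (fun i => X (Sum.inl i)))

open MvPolynomial in
/-- aux -/
noncomputable def A1_exists_R_G :
    Derivation ℂ (MvPolynomial (Fin 3 ⊕ Fin 3) ℂ) (MvPolynomial (Fin 3 ⊕ Fin 3) ℂ) :=
  mkDerivation ℂ (Sum.elim (fun i => X (Sum.inr i)) (fun _ => 0))

/-- aux -/
def A1_exists_R_wa : Fin 3 ⊕ Fin 3 → ℕ := Sum.elim (fun _ => 1) (fun _ => 0)
/-- aux -/
def A1_exists_R_wk : Fin 3 ⊕ Fin 3 → ℕ := Sum.elim (fun _ => 0) (fun _ => 1)

open MvPolynomial in
theorem A1_exists_R_FG : ⁅A1_exists_R_F, A1_exists_R_G⁆ = A1_exists_R_E A1_exists_R_wa - A1_exists_R_E A1_exists_R_wk := by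
  apply MvPolynomial.derivation_ext
  rintro (i | i) <;>
  simp [Derivation.commutator_apply, A1_exists_R_F, A1_exists_R_G, A1_exists_R_E, A1_exists_R_wa, A1_exists_R_wk,
    mkDerivation_X]

open MvPolynomial in
theorem A1_exists_R_EaF : ⁅A1_exists_R_E A1_exists_R_wa, A1_exists_R_F⁆ = A1_exists_R_F := by
  apply MvPolynomial.derivation_ext
  rintro (i | i) <;>
  simp [Derivation.commutator_apply, A1_exists_R_F, A1_exists_R_G, A1_exists_R_E, A1_exists_R_wa, A1_exists_R_wk,
    mkDerivation_X]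

open MvPolynomial in
theorem A1_exists_R_EkF : ⁅A1_exists_R_E A1_exists_R_wk, A1_exists_R_F⁆ = - A1_exists_R_F := by
  apply MvPolynomial.derivation_ext
  rintro (i | i) <;>
  simp [Derivation.commutator_apply, A1_exists_R_F, A1_exists_R_G, A1_exists_R_E, A1_exists_R_wa, A1_exists_R_wk,
    mkDerivation_X]

open MvPolynomial in
theorem A1_exists_R_EaG : ⁅A1_exists_R_E A1_exists_R_wa, A1_exists_R_G⁆ = - A1_exists_R_G := by
  apply MvPolynomial.derivation_ext
  rintro (i | i) <;>
  simp [Derivation.commutator_apply, A1_exists_R_F, A1_exists_R_G, A1_exists_R_E, A1_exists_R_wa, A1_exists_R_wk,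
    mkDerivation_X]

open MvPolynomial in
theorem A1_exists_R_EkG : ⁅A1_exists_R_E A1_exists_R_wk, A1_exists_R_G⁆ = A1_exists_R_G := by
  apply MvPolynomial.derivation_ext
  rintro (i | i) <;>
  simp [Derivation.commutator_apply, A1_exists_R_F, A1_exists_R_G, A1_exists_R_E, A1_exists_R_wa, A1_exists_R_wk,
    mkDerivation_X]

theorem A1_exists_R_EaF' (v : MvPolynomial (Fin 3 ⊕ Fin 3) ℂ) :
    A1_exists_R_E A1_exists_R_wa (A1_exists_R_F v) = A1_exists_R_F (A1_exists_R_E A1_exists_R_wa v) + A1_exists_R_F v := by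
  have h := DFunLike.congr_fun A1_exists_R_EaF v
  rw [Derivation.commutator_apply] at h
  linear_combination h

theorem A1_exists_R_EkF' (v : MvPolynomial (Fin 3 ⊕ Fin 3) ℂ) :
    A1_exists_R_E A1_exists_R_wk (A1_exists_R_F v) = A1_exists_R_F (A1_exists_R_E A1_exists_R_wk v) - A1_exists_R_F v := by
  have h := DFunLike.congr_fun A1_exists_R_EkF v
  rw [Derivation.commutator_apply, Derivation.neg_apply] at h
  linear_combination h

theorem A1_exists_R_EaG' (v : MvPolynomial (Fin 3 ⊕ Fin 3) ℂ) :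
    A1_exists_R_E A1_exists_R_wa (A1_exists_R_G v) = A1_exists_R_G (A1_exists_R_E A1_exists_R_wa v) - A1_exists_R_G v := by
  have h := DFunLike.congr_fun A1_exists_R_EaG v
  rw [Derivation.commutator_apply, Derivation.neg_apply] at h
  linear_combination h

theorem A1_exists_R_EkG' (v : MvPolynomial (Fin 3 ⊕ Fin 3) ℂ) :
    A1_exists_R_E A1_exists_R_wk (A1_exists_R_G v) = A1_exists_R_G (A1_exists_R_E A1_exists_R_wk v) + A1_exists_R_G v := by
  have h := DFunLike.congr_fun A1_exists_R_EkG v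
  rw [Derivation.commutator_apply] at h
  linear_combination h

theorem A1_exists_R_FG' (v : MvPolynomial (Fin 3 ⊕ Fin 3) ℂ) :
    A1_exists_R_F (A1_exists_R_G v) = A1_exists_R_G (A1_exists_R_F v) + A1_exists_R_E A1_exists_R_wa v
      - A1_exists_R_E A1_exists_R_wk v := by
  have h := DFunLike.congr_fun A1_exists_R_FG v
  rw [Derivation.commutator_apply, Derivation.sub_apply] at h
  linear_combination h

/-- aux: iterated G raises weights -/
theorem A1_exists_R_Giter (p q : ℤ) (W : MvPolynomial (Fin 3 ⊕ Fin 3) ℂ)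
    (ha : A1_exists_R_E A1_exists_R_wa W = (p : ℂ) • W) (hk : A1_exists_R_E A1_exists_R_wk W = (q : ℂ) • W)
    (m : ℕ) :
    A1_exists_R_E A1_exists_R_wa ((A1_exists_R_G)^[m] W) = ((p : ℂ) - m) • ((A1_exists_R_G)^[m] W) ∧
    A1_exists_R_E A1_exists_R_wk ((A1_exists_R_G)^[m] W) = ((q : ℂ) + m) • ((A1_exists_R_G)^[m] W) ∧
    A1_exists_R_F ((A1_exists_R_G)^[m + 1] W) = (A1_exists_R_G)^[m + 1] (A1_exists_R_F W) +
      (((m : ℂ) + 1) * (p - q - m)) • ((A1_exists_R_G)^[m] W) := by
  induction m with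
  | zero =>
    refine ⟨by simpa using ha, by simpa using hk, ?_⟩
    simp only [zero_add, Function.iterate_one, Function.iterate_zero, id_eq]
    rw [A1_exists_R_FG', ha, hk]
    simp only [Nat.cast_zero, zero_add, one_mul, sub_zero, sub_smul]
    abel
  | succ m ih =>
    obtain ⟨h1, h2, h3⟩ := ih
    have e1 : A1_exists_R_E A1_exists_R_wa ((A1_exists_R_G)^[m + 1] W) =
        ((p : ℂ) - (m + 1 : ℕ)) • ((A1_exists_R_G)^[m + 1] W) := by
      rw [Function.iterate_succ_apply', A1_exists_R_EaG', h1, Derivation.map_smul]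
      push_cast
      module
    have e2 : A1_exists_R_E A1_exists_R_wk ((A1_exists_R_G)^[m + 1] W) =
        ((q : ℂ) + (m + 1 : ℕ)) • ((A1_exists_R_G)^[m + 1] W) := by
      rw [Function.iterate_succ_apply', A1_exists_R_EkG', h2, Derivation.map_smul]
      push_cast
      module
    refine ⟨e1, e2, ?_⟩
    rw [Function.iterate_succ_apply' (⇑A1_exists_R_G) (m + 1) W, A1_exists_R_FG', e1, e2, h3, map_add,
      Derivation.map_smul, Function.iterate_succ_apply' (⇑A1_exists_R_G) (m + 1) (A1_exists_R_F W),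
      ← Function.iterate_succ_apply' (⇑A1_exists_R_G) m W]
    push_cast
    module

/-- aux: key solvability -/
theorem A1_exists_R_key (n : ℕ) : ∀ (m : ℕ) (p q : ℤ) (W : MvPolynomial (Fin 3 ⊕ Fin 3) ℂ),
    (A1_exists_R_F)^[n] W = 0 → A1_exists_R_E A1_exists_R_wa W = (p : ℂ) • W →
    A1_exists_R_E A1_exists_R_wk W = (q : ℂ) • W → 0 < p - q - m →
    ∃ T, A1_exists_R_F T = (A1_exists_R_G)^[m] W ∧ A1_exists_R_E A1_exists_R_wa T = ((p : ℂ) - m - 1) • T ∧
      A1_exists_R_E A1_exists_R_wk T = ((q : ℂ) + m + 1) • T := by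
  induction n with
  | zero =>
    intro m p q W h0 _ _ _
    simp only [Function.iterate_zero, id_eq] at h0
    subst h0
    refine ⟨0, ?_, by simp, by simp⟩
    rw [map_zero]
    have : ∀ m : ℕ, (A1_exists_R_G)^[m] (0 : MvPolynomial (Fin 3 ⊕ Fin 3) ℂ) = 0 := by
      intro m
      induction m with
      | zero => rfl
      | succ m ih => rw [Function.iterate_succ_apply', ih, map_zero]
    rw [this]
  | succ n ih =>
    intro m p q W h0 ha hk hpos
    obtain ⟨h1, h2, h3⟩ := A1_exists_R_Giter p q W ha hk m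
    obtain ⟨h1', h2', _⟩ := A1_exists_R_Giter p q W ha hk (m + 1)
    obtain ⟨T', hT1, hT2, hT3⟩ := ih (m + 1) (p + 1) (q - 1) (A1_exists_R_F W)
      (by rw [← Function.iterate_succ_apply]; exact h0)
      (by rw [A1_exists_R_EaF', ha, Derivation.map_smul]; push_cast; module)
      (by rw [A1_exists_R_EkF', hk, Derivation.map_smul]; push_cast; module)
      (by push_cast; linarith)
    have hc : (((m : ℂ) + 1) * (p - q - m)) ≠ 0 := by
      apply mul_ne_zero
      · exact_mod_cast Nat.succ_ne_zero m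
      · have : ((p - q - m : ℤ) : ℂ) ≠ 0 := by
          exact_mod_cast hpos.ne'
        push_cast at this
        exact this
    refine ⟨(((m : ℂ) + 1) * (p - q - m))⁻¹ • ((A1_exists_R_G)^[m + 1] W - T'), ?_, ?_, ?_⟩
    · rw [Derivation.map_smul, map_sub, hT1, h3, add_sub_cancel_left, smul_smul,
        inv_mul_cancel₀ hc, one_smul]
    · rw [Derivation.map_smul, map_sub, hT2, h1']
      push_cast
      module
    · rw [Derivation.map_smul, map_sub, hT3, h2']
      push_cast
      module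

open MvPolynomial in
/-- aux: E on monomials -/
theorem A1_exists_R_Emon (w : Fin 3 ⊕ Fin 3 → ℕ) (s : (Fin 3 ⊕ Fin 3) →₀ ℕ) :
    A1_exists_R_E w (monomial s (1 : ℂ)) = ((∑ i, w i * s i : ℕ) : ℂ) • monomial s (1 : ℂ) := by
  classical
  induction s using Finsupp.induction_linear with
  | zero => simp
  | add f g hf hg =>
    have : (monomial (f + g) (1 : ℂ)) = monomial f 1 * monomial g 1 := by
      rw [monomial_mul, one_mul]
    rw [this, Derivation.leibniz, hf, hg]
    simp only [Finsupp.coe_add, Pi.add_apply, mul_add, Finset.sum_add_distrib, Nat.cast_add,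
      add_smul, smul_eq_mul]
    rw [mul_smul_comm, mul_smul_comm, mul_comm (monomial g 1)]
    abel
  | single a b =>
    have h1 : (monomial (Finsupp.single a b) (1 : ℂ)) = X a ^ b := by
      rw [X_pow_eq_monomial]
    rw [h1, Derivation.leibniz_pow]
    have h2 : (∑ i, w i * (Finsupp.single a b) i : ℕ) = w a * b := by
      rw [Finset.sum_eq_single a]
      · simp
      · intro i _ hi
        rw [Finsupp.single_eq_of_ne hi, mul_zero]
      · simp
    rw [h2, A1_exists_R_E, mkDerivation_X]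
    rcases b with _ | b
    · simp
    · simp only [Nat.add_sub_cancel, smul_eq_mul]
      rw [mul_smul_comm, ← pow_succ, ← Nat.cast_smul_eq_nsmul ℂ, smul_smul]
      push_cast
      congr 1
      ring

open MvPolynomial in
/-- aux -/
theorem A1_exists_R_coeff (w : Fin 3 ⊕ Fin 3 → ℕ) (V : MvPolynomial (Fin 3 ⊕ Fin 3) ℂ)
    (s : (Fin 3 ⊕ Fin 3) →₀ ℕ) :
    coeff s (A1_exists_R_E w V) = ((∑ i, w i * s i : ℕ) : ℂ) * coeff s V := by
  classical
  induction V using MvPolynomial.induction_on' with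
  | monomial u a =>
    have : (monomial u a : MvPolynomial (Fin 3 ⊕ Fin 3) ℂ) = a • monomial u 1 := by
      rw [smul_monomial, smul_eq_mul, mul_one]
    rw [this, Derivation.map_smul, A1_exists_R_Emon, coeff_smul, coeff_smul, coeff_smul,
      coeff_monomial]
    split_ifs with h
    · subst h
      simp only [smul_eq_mul]
      ring
    · simp
  | add p q hp hq => rw [map_add, coeff_add, hp, hq, coeff_add]; ring

open MvPolynomial in
/-- aux: F nilpotent -/
theorem A1_exists_R_nil (q : ℕ) (V : MvPolynomial (Fin 3 ⊕ Fin 3) ℂ)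
    (hk : A1_exists_R_E A1_exists_R_wk V = (q : ℂ) • V) : (A1_exists_R_F)^[q + 1] V = 0 := by
  have h1 : ∀ n : ℕ, A1_exists_R_E A1_exists_R_wk ((A1_exists_R_F)^[n] V) =
      ((q : ℂ) - n) • ((A1_exists_R_F)^[n] V) := by
    intro n
    induction n with
    | zero => simpa using hk
    | succ n ih =>
      rw [Function.iterate_succ_apply', A1_exists_R_EkF', ih, Derivation.map_smul]
      push_cast
      module
  have h2 := h1 (q + 1)
  ext s
  have h3 := congrArg (coeff s) h2
  rw [A1_exists_R_coeff, coeff_smul, smul_eq_mul] at h3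
  have h4 : (((∑ i, A1_exists_R_wk i * s i : ℕ) : ℂ) + 1) * coeff s ((A1_exists_R_F)^[q + 1] V) = 0 := by
    push_cast at h3 ⊢
    linear_combination h3
  rw [coeff_zero]
  rcases mul_eq_zero.mp h4 with h | h
  · exfalso
    exact (Nat.cast_add_one_ne_zero (R := ℂ) _) h
  · exact h

open MvPolynomial in
/-- aux: homogeneity -/
theorem A1_exists_R_hom (w : Fin 3 ⊕ Fin 3 → ℕ) (n : ℕ) (V : MvPolynomial (Fin 3 ⊕ Fin 3) ℂ)
    (h : A1_exists_R_E w V = (n : ℂ) • V) (y : Fin 3 ⊕ Fin 3 → ℂ) (c : ℂ) :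
    eval (fun i => c ^ (w i) * y i) V = c ^ n * eval y V := by
  classical
  rw [eval_eq', eval_eq', Finset.mul_sum]
  refine Finset.sum_congr rfl fun d hd => ?_
  have hd' : coeff d V ≠ 0 := by simpa [mem_support_iff] using hd
  have h1 := congrArg (coeff d) h
  rw [A1_exists_R_coeff, coeff_smul, smul_eq_mul] at h1
  have h2 := mul_right_cancel₀ hd' h1
  have h3 : (∑ i, w i * d i : ℕ) = n := by exact_mod_cast h2
  have h4 : ∏ i, (c ^ w i * y i) ^ d i = c ^ n * ∏ i, y i ^ d i := by
    rw [← h3, ← Finset.prod_pow_eq_pow_sum, ← Finset.prod_mul_distrib]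
    refine Finset.prod_congr rfl fun i _ => ?_
    rw [mul_pow, ← pow_mul]
  rw [h4]
  ring

open MvPolynomial in
/-- aux -/
noncomputable def A1_exists_R_mu (j : ℕ) : MvPolynomial (Fin 3 ⊕ Fin 3) ℂ :=
  if j % 3 = 0 then X (Sum.inl 0) else if j % 3 = 1 then X (Sum.inl 1) * X (Sum.inl 2)
    else X (Sum.inl 0) * X (Sum.inl 1) * X (Sum.inl 2)

/-- aux -/
def A1_exists_R_P (j : ℕ) : ℕ := if j % 3 = 0 then j else j - 1

open MvPolynomial in
/-- aux -/
theorem A1_exists_R_step (j : ℕ) (t : MvPolynomial (Fin 3 ⊕ Fin 3) ℂ)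
    (ha : A1_exists_R_E A1_exists_R_wa t = ((A1_exists_R_P j : ℕ) : ℂ) • t)
    (hk : A1_exists_R_E A1_exists_R_wk t = (j : ℂ) • t) :
    ∃ t', A1_exists_R_F t' = A1_exists_R_mu j * t ∧
      A1_exists_R_E A1_exists_R_wa t' = ((A1_exists_R_P (j + 1) : ℕ) : ℂ) • t' ∧
      A1_exists_R_E A1_exists_R_wk t' = ((j + 1 : ℕ) : ℂ) • t' := by
  have key : ∀ (μ : MvPolynomial (Fin 3 ⊕ Fin 3) ℂ) (d : ℕ),
      A1_exists_R_E A1_exists_R_wa μ = (d : ℂ) • μ → A1_exists_R_E A1_exists_R_wk μ = 0 →
      A1_exists_R_P (j + 1) + 1 = A1_exists_R_P j + d → j < A1_exists_R_P j + d →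
      ∃ t', A1_exists_R_F t' = μ * t ∧
      A1_exists_R_E A1_exists_R_wa t' = ((A1_exists_R_P (j + 1) : ℕ) : ℂ) • t' ∧
      A1_exists_R_E A1_exists_R_wk t' = ((j + 1 : ℕ) : ℂ) • t' := by
    intro μ d h1 h2 h3 h4
    have e1 : A1_exists_R_E A1_exists_R_wa (μ * t) = (((A1_exists_R_P j + d : ℕ) : ℤ) : ℂ) • (μ * t) := by
      rw [Derivation.leibniz, ha, h1]
      simp only [smul_eq_mul]
      rw [mul_smul_comm, mul_smul_comm, mul_comm t μ]
      push_cast
      module
    have e2 : A1_exists_R_E A1_exists_R_wk (μ * t) = (j : ℂ) • (μ * t) := by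
      rw [Derivation.leibniz, hk, h2]
      simp only [smul_eq_mul]
      rw [mul_smul_comm, mul_zero, add_zero]
    obtain ⟨T, hT1, hT2, hT3⟩ := A1_exists_R_key (j + 1) 0 ((A1_exists_R_P j + d : ℕ) : ℤ) (j : ℤ) (μ * t)
      (A1_exists_R_nil j _ e2) e1 (by rw [e2]; push_cast; rfl) (by push_cast; omega)
    refine ⟨T, by simpa using hT1, ?_, ?_⟩
    · rw [hT2, ← h3]
      push_cast
      module
    · rw [hT3]
      push_cast
      module
  have h3 : j % 3 = 0 ∨ j % 3 = 1 ∨ j % 3 = 2 := by omega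
  unfold A1_exists_R_mu
  rcases h3 with h | h | h
  · rw [if_pos h]
    apply key (X (Sum.inl 0)) 1
    · simp [A1_exists_R_E, A1_exists_R_wa, mkDerivation_X]
    · simp [A1_exists_R_E, A1_exists_R_wk, mkDerivation_X]
    · unfold A1_exists_R_P
      rw [if_neg (by omega), if_pos h]; omega
    · unfold A1_exists_R_P
      rw [if_pos h]; omega
  · rw [if_neg (by omega), if_pos h]
    apply key (X (Sum.inl 1) * X (Sum.inl 2)) 2
    · simp [A1_exists_R_E, A1_exists_R_wa, mkDerivation_X]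
      rw [mul_comm (X (Sum.inl 2))]
      module
    · simp [A1_exists_R_E, A1_exists_R_wk, mkDerivation_X]
    · unfold A1_exists_R_P
      rw [if_neg (by omega), if_neg (by omega)]; omega
    · unfold A1_exists_R_P
      rw [if_neg (by omega)]; omega
  · rw [if_neg (by omega), if_neg (by omega)]
    apply key (X (Sum.inl 0) * X (Sum.inl 1) * X (Sum.inl 2)) 3
    · simp [A1_exists_R_E, A1_exists_R_wa, mkDerivation_X]
      have e : (C (3 : ℂ) : MvPolynomial (Fin 3 ⊕ Fin 3) ℂ) = 3 := map_ofNat C 3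
      rw [MvPolynomial.smul_eq_C_mul, e]
      ring
    · simp [A1_exists_R_E, A1_exists_R_wk, mkDerivation_X]
    · unfold A1_exists_R_P
      rw [if_pos (by omega), if_neg (by omega)]; omega
    · unfold A1_exists_R_P
      rw [if_neg (by omega)]; omega

/-- aux -/
theorem A1_exists_R_T : ∃ T : ℕ → MvPolynomial (Fin 3 ⊕ Fin 3) ℂ, T 0 = 1 ∧
    (∀ j, A1_exists_R_F (T (j + 1)) = A1_exists_R_mu j * T j) ∧
    (∀ j, A1_exists_R_E A1_exists_R_wa (T j) = ((A1_exists_R_P j : ℕ) : ℂ) • T j) ∧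
    (∀ j, A1_exists_R_E A1_exists_R_wk (T j) = (j : ℂ) • T j) := by
  choose f hf1 hf2 hf3 using A1_exists_R_step
  let g : ∀ j : ℕ, {t : MvPolynomial (Fin 3 ⊕ Fin 3) ℂ //
      A1_exists_R_E A1_exists_R_wa t = ((A1_exists_R_P j : ℕ) : ℂ) • t ∧
      A1_exists_R_E A1_exists_R_wk t = (j : ℂ) • t} := fun j =>
    Nat.rec ⟨1, by simp [A1_exists_R_P], by simp⟩
      (fun j t => ⟨f j t.1 t.2.1 t.2.2, hf2 j t.1 t.2.1 t.2.2, hf3 j t.1 t.2.1 t.2.2⟩) j
  refine ⟨fun j => (g j).1, rfl, fun j => ?_, fun j => (g j).2.1, fun j => (g j).2.2⟩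
  exact hf1 j (g j).1 (g j).2.1 (g j).2.2

/-- aux -/
def A1_exists_R_ev (j : ℕ) (x : Fin 3 → ℂ) : ℂ :=
  if j % 3 = 0 then x 0 else if j % 3 = 1 then (x 1) ^ 2 * (x 2) ^ 2
    else (x 0) ^ 2 * x 1 * x 2

open MvPolynomial in
/-- aux -/
noncomputable def A1_exists_R_e (j : ℕ) : MvPolynomial (Fin 3 ⊕ Fin 3) ℂ :=
  if j % 3 = 0 then X (Sum.inl 0) else if j % 3 = 1 then (X (Sum.inl 1)) ^ 2 * (X (Sum.inl 2)) ^ 2
    else (X (Sum.inl 0)) ^ 2 * X (Sum.inl 1) * X (Sum.inl 2)

open MvPolynomial in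
theorem A1_exists_R_e_eval (j : ℕ) (x κ : Fin 3 → ℂ) :
    eval (Sum.elim x κ) (A1_exists_R_e j) = A1_exists_R_ev j x := by
  unfold A1_exists_R_e A1_exists_R_ev
  split_ifs <;> simp

open MvPolynomial in
theorem A1_exists_R_mu_eval (j : ℕ) (x κ : Fin 3 → ℂ) :
    A1_exists_R_ev (j + 1) x * eval (Sum.elim (fun i => x i ^ 3) κ) (A1_exists_R_mu j) =
      (x 0 * x 1 * x 2) ^ 2 * A1_exists_R_ev j x := by
  have h3 : j % 3 = 0 ∨ j % 3 = 1 ∨ j % 3 = 2 := by omega
  unfold A1_exists_R_mu A1_exists_R_ev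
  rcases h3 with h | h | h
  · have h' : (j + 1) % 3 = 1 := by omega
    simp [h, h']; ring
  · have h' : (j + 1) % 3 = 2 := by omega
    simp [h, h']; ring
  · have h' : (j + 1) % 3 = 0 := by omega
    simp [h, h']; ring

theorem A1_exists_R_ev_hom (j : ℕ) (x : Fin 3 → ℂ) (c : ℂ) :
    A1_exists_R_ev j (c • x) * (c ^ 3) ^ (A1_exists_R_P j) = c ^ (3 * j + 1) * A1_exists_R_ev j x := by
  have h3 : j % 3 = 0 ∨ j % 3 = 1 ∨ j % 3 = 2 := by omega
  unfold A1_exists_R_ev A1_exists_R_P
  rcases h3 with h | h | h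
  · rw [if_pos h, if_pos h, if_pos h, ← pow_mul]
    simp only [Pi.smul_apply, smul_eq_mul]
    ring
  · rw [if_neg (by omega), if_pos h, if_neg (by omega), if_neg (by omega), if_pos h]
    obtain ⟨k, rfl⟩ : ∃ k, j = k + 1 := ⟨j - 1, by omega⟩
    simp only [Pi.smul_apply, smul_eq_mul, Nat.add_sub_cancel, ← pow_mul]
    ring
  · rw [if_neg (by omega), if_neg (by omega), if_neg (by omega), if_neg (by omega),
      if_neg (by omega)]
    obtain ⟨k, rfl⟩ : ∃ k, j = k + 1 := ⟨j - 1, by omega⟩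
    simp only [Pi.smul_apply, smul_eq_mul, Nat.add_sub_cancel, ← pow_mul]
    ring

/-- aux: one-variable restriction -/
noncomputable def A1_exists_R_Phi (a κ : Fin 3 → ℂ) :
    MvPolynomial (Fin 3 ⊕ Fin 3) ℂ →ₐ[ℂ] Polynomial ℂ :=
  MvPolynomial.aeval (Sum.elim (fun i => Polynomial.C (a i))
    (fun i => Polynomial.C (κ i) + Polynomial.X * Polynomial.C (a i)))

theorem A1_exists_R_Phi_der (a κ : Fin 3 → ℂ) (t : MvPolynomial (Fin 3 ⊕ Fin 3) ℂ) :
    Polynomial.derivative (A1_exists_R_Phi a κ t) = A1_exists_R_Phi a κ (A1_exists_R_F t) := by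
  induction t using MvPolynomial.induction_on with
  | C c =>
    have h1 : A1_exists_R_F (MvPolynomial.C c) = 0 := by
      exact (A1_exists_R_F).map_algebraMap c
    have h2 : A1_exists_R_Phi a κ (MvPolynomial.C c) = Polynomial.C c := by
      unfold A1_exists_R_Phi
      rw [MvPolynomial.aeval_C]
      rfl
    rw [h1, h2, Polynomial.derivative_C, map_zero]
  | add p q hp hq => rw [map_add, map_add, map_add, map_add, hp, hq]
  | mul_X p i hp =>
    rw [map_mul, Polynomial.derivative_mul, hp, Derivation.leibniz, map_add, smul_eq_mul,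
      smul_eq_mul, map_mul, map_mul]
    have h : Polynomial.derivative (A1_exists_R_Phi a κ (MvPolynomial.X i)) =
        A1_exists_R_Phi a κ (A1_exists_R_F (MvPolynomial.X i)) := by
      unfold A1_exists_R_Phi A1_exists_R_F
      rw [MvPolynomial.mkDerivation_X]
      rcases i with i | i <;> simp
    rw [h]
    ring

theorem A1_exists_R_Phi_eval (a κ : Fin 3 → ℂ) (l : ℂ) (t : MvPolynomial (Fin 3 ⊕ Fin 3) ℂ) :
    Polynomial.eval l (A1_exists_R_Phi a κ t) =
      MvPolynomial.eval (Sum.elim a (fun i => κ i + l * a i)) t := by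
  induction t using MvPolynomial.induction_on with
  | C c =>
    have h2 : A1_exists_R_Phi a κ (MvPolynomial.C c) = Polynomial.C c := by
      unfold A1_exists_R_Phi
      rw [MvPolynomial.aeval_C]
      rfl
    rw [h2, Polynomial.eval_C, MvPolynomial.eval_C]
  | add p q hp hq => rw [map_add, Polynomial.eval_add, hp, hq, map_add]
  | mul_X p i hp =>
    rw [map_mul, Polynomial.eval_mul, hp, map_mul]
    congr 1
    unfold A1_exists_R_Phi
    rcases i with i | i
    · simp
    · simp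
      ring

theorem exists_R : ∃ R : ℕ → MvPolynomial (Fin 3 ⊕ Fin 3) ℂ,
    (∀ x κ : Fin 3 → ℂ, MvPolynomial.eval (Sum.elim x κ) (R 0) = x 0) ∧
    (∀ (j : ℕ) (x κ : Fin 3 → ℂ) (l : ℂ),
      MvPolynomial.eval (Sum.elim x (fun i => κ i + l * x i ^ 3)) (R j) =
        ∑ i ∈ Finset.range (j + 1), (l * (x 0 * x 1 * x 2) ^ 2) ^ i / (i.factorial : ℂ) *
          MvPolynomial.eval (Sum.elim x κ) (R (j - i))) ∧
    (∀ (j : ℕ) (x κ : Fin 3 → ℂ) (c : ℂ), MvPolynomial.eval (Sum.elim x (c • κ)) (R j) =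
      c ^ j * MvPolynomial.eval (Sum.elim x κ) (R j)) ∧
    (∀ (j : ℕ) (x κ : Fin 3 → ℂ) (c : ℂ), MvPolynomial.eval (Sum.elim (c • x) κ) (R j) =
      c ^ (3 * j + 1) * MvPolynomial.eval (Sum.elim x κ) (R j)) := by
  
  obtain ⟨T, hT0, hTF, hTa, hTk⟩ := A1_exists_R_T
  let S : MvPolynomial (Fin 3 ⊕ Fin 3) ℂ →ₐ[ℂ] MvPolynomial (Fin 3 ⊕ Fin 3) ℂ :=
    MvPolynomial.aeval (Sum.elim (fun i => MvPolynomial.X (Sum.inl i) ^ 3)
      (fun i => MvPolynomial.X (Sum.inr i)))
  have hS : ∀ (x κ : Fin 3 → ℂ) (t : MvPolynomial (Fin 3 ⊕ Fin 3) ℂ),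
      MvPolynomial.eval (Sum.elim x κ) (S t) =
        MvPolynomial.eval (Sum.elim (fun i => x i ^ 3) κ) t := by
    intro x κ t
    induction t using MvPolynomial.induction_on with
    | C c =>
      have h2 : S (MvPolynomial.C c) = MvPolynomial.C c := by
        simp only [S]
        rw [MvPolynomial.aeval_C]
        rfl
      rw [h2, MvPolynomial.eval_C, MvPolynomial.eval_C]
    | add p q hp hq => rw [map_add, map_add, hp, hq, map_add]
    | mul_X p i hp =>
      rw [map_mul, map_mul, hp, map_mul]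
      congr 1
      simp only [S]
      rcases i with i | i <;> simp
  have hR : ∀ (j : ℕ) (x κ : Fin 3 → ℂ),
      MvPolynomial.eval (Sum.elim x κ) (A1_exists_R_e j * S (T j)) =
        A1_exists_R_ev j x * MvPolynomial.eval (Sum.elim (fun i => x i ^ 3) κ) (T j) := by
    intro j x κ
    rw [map_mul, A1_exists_R_e_eval, hS]
  refine ⟨fun j => A1_exists_R_e j * S (T j), ?_, ?_, ?_, ?_⟩
  · intro x κ
    simp only [hR]
    rw [hT0]
    simp [A1_exists_R_ev]
  · intro j x κ l
    simp only [hR]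
    set M : ℂ := (x 0 * x 1 * x 2) ^ 2 with hM
    set a : Fin 3 → ℂ := fun i => x i ^ 3 with ha
    set p : ℕ → Polynomial ℂ := fun j => Polynomial.C (A1_exists_R_ev j x) * A1_exists_R_Phi a κ (T j)
      with hp
    set r : ℕ → ℂ := fun j => A1_exists_R_ev j x * MvPolynomial.eval (Sum.elim a κ) (T j) with hr
    have hpe : ∀ j l, Polynomial.eval l (p j) =
        A1_exists_R_ev j x * MvPolynomial.eval (Sum.elim a (fun i => κ i + l * a i)) (T j) := by
      intro j l
      simp only [hp]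
      rw [Polynomial.eval_mul, Polynomial.eval_C, A1_exists_R_Phi_eval]
    have hp0 : ∀ j, (p j).coeff 0 = r j := by
      intro j
      rw [Polynomial.coeff_zero_eq_eval_zero, hpe]
      simp [hr]
    have hmuC : ∀ j, A1_exists_R_Phi a κ (A1_exists_R_mu j) =
        Polynomial.C (MvPolynomial.eval (Sum.elim a κ) (A1_exists_R_mu j)) := by
      intro j
      unfold A1_exists_R_mu A1_exists_R_Phi
      split_ifs <;> simp
    have hpd : ∀ j, Polynomial.derivative (p (j + 1)) = Polynomial.C M * p j := by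
      intro j
      simp only [hp]
      rw [Polynomial.derivative_C_mul, A1_exists_R_Phi_der, hTF, map_mul, hmuC, ← mul_assoc,
        ← Polynomial.C_mul, ← mul_assoc, ← Polynomial.C_mul, ha, A1_exists_R_mu_eval]
    have hpz : ∀ i, (p 0).coeff (i + 1) = 0 := by
      intro i
      simp only [hp]
      rw [hT0, map_one, mul_one, Polynomial.coeff_C_succ]
    have hco : ∀ i j, (p j).coeff i = if i ≤ j then M ^ i / (i.factorial : ℂ) * r (j - i) else 0 := by
      intro i
      induction i with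
      | zero => intro j; simp [hp0]
      | succ i ih =>
        intro j
        rcases j with _ | j
        · rw [hpz, if_neg (by omega)]
        · have h1 := congrArg (fun q => Polynomial.coeff q i) (hpd j)
          simp only [Polynomial.coeff_derivative, Polynomial.coeff_C_mul] at h1
          rw [ih] at h1
          have hne : ((i : ℂ) + 1) ≠ 0 := Nat.cast_add_one_ne_zero i
          by_cases hij : i ≤ j
          · rw [if_pos hij] at h1
            rw [if_pos (by omega), Nat.succ_sub_succ, eq_comm]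
            have hf : ((i + 1).factorial : ℂ) = (i + 1) * i.factorial := by
              rw [Nat.factorial_succ]; push_cast; ring
            have hf0 : (i.factorial : ℂ) ≠ 0 := by exact_mod_cast i.factorial_ne_zero
            rw [hf]
            have h2 : (p (j + 1)).coeff (i + 1) = M * (M ^ i / (i.factorial : ℂ) * r (j - i)) / (i + 1) := by
              rw [eq_div_iff hne]; exact h1
            rw [h2]
            field_simp
            ring
          · rw [if_neg hij, mul_zero] at h1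
            rw [if_neg (by omega)]
            rcases mul_eq_zero.mp h1 with h | h
            · exact h
            · exact absurd h hne
    have hdeg : (p j).natDegree < j + 1 := by
      rw [Nat.lt_succ_iff, Polynomial.natDegree_le_iff_coeff_eq_zero]
      intro N hN
      rw [hco, if_neg (by omega)]
    have hfin := Polynomial.eval_eq_sum_range' hdeg l
    rw [hpe] at hfin
    rw [hfin]
    refine Finset.sum_congr rfl fun i hi => ?_
    rw [hco, if_pos (by have := Finset.mem_range.mp hi; omega)]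
    simp only [hr]
    rw [mul_pow]
    ring
  · intro j x κ c
    simp only [hR]
    have h := A1_exists_R_hom A1_exists_R_wk j (T j) (hTk j) (Sum.elim (fun i => x i ^ 3) κ) c
    have h2 : (fun i => c ^ (A1_exists_R_wk i) * (Sum.elim (fun i => x i ^ 3) κ) i) =
        Sum.elim (fun i => x i ^ 3) (c • κ) := by
      funext i
      rcases i with i | i <;> simp [A1_exists_R_wk]
    rw [h2] at h
    rw [h]
    ring
  · intro j x κ c
    simp only [hR]
    have h := A1_exists_R_hom A1_exists_R_wa (A1_exists_R_P j) (T j) (hTa j)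
      (Sum.elim (fun i => x i ^ 3) κ) (c ^ 3)
    have h2 : (fun i => (c ^ 3) ^ (A1_exists_R_wa i) * (Sum.elim (fun i => x i ^ 3) κ) i) =
        Sum.elim (fun i => ((c • x) i) ^ 3) κ := by
      funext i
      rcases i with i | i <;> simp [A1_exists_R_wa, mul_pow]
    rw [h2] at h
    rw [h, ← mul_assoc, A1_exists_R_ev_hom, mul_assoc]

end Pool.Agent.Helper922.MR
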