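import Mathlib

/-! Elliptic functions with prescribed principal parts. -/

open scoped Topology

namespace Pool.Agent.Helper922.MR

/-- pole of order at most `N` at `0` -/
def A2_exists_e_PoleLe (N : ℕ) (f : ℂ → ℂ) : Prop :=
  ∃ g : ℂ → ℂ, AnalyticAt ℂ g 0 ∧ ∀ᶠ z in 𝓝[≠] (0 : ℂ), z ^ N * f z = g z

/-- periodic and holomorphic off the lattice -/
def A2_exists_e_Ell (L : PeriodPair) (q : ℂ → ℂ) : Prop :=
  (∀ z, ∀ l ∈ L.lattice, q (z + l) = q z) ∧ DifferentiableOn ℂ q ((L.lattice : Set ℂ)ᶜ)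

theorem A2_exists_e_mono {N M : ℕ} (h : N ≤ M) {f : ℂ → ℂ} (hf : A2_exists_e_PoleLe N f) :
    A2_exists_e_PoleLe M f := by
  obtain ⟨g, hg, he⟩ := hf
  refine ⟨fun z => z ^ (M - N) * g z, (analyticAt_id.pow _).mul hg, ?_⟩
  filter_upwards [he] with z hz
  rw [← hz, ← mul_assoc, ← pow_add, Nat.sub_add_cancel h]

theorem A2_exists_e_add {N : ℕ} {f g : ℂ → ℂ} (hf : A2_exists_e_PoleLe N f) (hg : A2_exists_e_PoleLe N g) :
    A2_exists_e_PoleLe N (fun z => f z + g z) := by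
  obtain ⟨a, ha, h1⟩ := hf
  obtain ⟨b, hb, h2⟩ := hg
  refine ⟨fun z => a z + b z, ha.add hb, ?_⟩
  filter_upwards [h1, h2] with z h1 h2
  rw [mul_add, h1, h2]

theorem A2_exists_e_fin_add {f g : ℂ → ℂ} (hf : ∃ N, A2_exists_e_PoleLe N f) (hg : ∃ N, A2_exists_e_PoleLe N g) :
    ∃ N, A2_exists_e_PoleLe N (fun z => f z + g z) := by
  obtain ⟨N, hf⟩ := hf
  obtain ⟨M, hg⟩ := hg
  exact ⟨max N M, A2_exists_e_add (A2_exists_e_mono (le_max_left _ _) hf) (A2_exists_e_mono (le_max_right _ _) hg)⟩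

theorem A2_exists_e_mul {N M : ℕ} {f g : ℂ → ℂ} (hf : A2_exists_e_PoleLe N f) (hg : A2_exists_e_PoleLe M g) :
    A2_exists_e_PoleLe (N + M) (fun z => f z * g z) := by
  obtain ⟨a, ha, h1⟩ := hf
  obtain ⟨b, hb, h2⟩ := hg
  refine ⟨fun z => a z * b z, ha.mul hb, ?_⟩
  filter_upwards [h1, h2] with z h1 h2
  rw [← h1, ← h2, pow_add]
  ring

theorem A2_exists_e_fin_mul {f g : ℂ → ℂ} (hf : ∃ N, A2_exists_e_PoleLe N f) (hg : ∃ N, A2_exists_e_PoleLe N g) :
    ∃ N, A2_exists_e_PoleLe N (fun z => f z * g z) := by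
  obtain ⟨N, hf⟩ := hf
  obtain ⟨M, hg⟩ := hg
  exact ⟨N + M, A2_exists_e_mul hf hg⟩

theorem A2_exists_e_const (c : ℂ) : A2_exists_e_PoleLe 0 (fun _ => c) :=
  ⟨fun _ => c, analyticAt_const, Filter.Eventually.of_forall (fun z => by rw [pow_zero, one_mul])⟩

theorem A2_exists_e_inv (k : ℕ) : A2_exists_e_PoleLe k (fun z => (z⁻¹) ^ k) := by
  refine ⟨fun _ => 1, analyticAt_const, ?_⟩
  filter_upwards [self_mem_nhdsWithin] with z hz
  have hz' : z ≠ 0 := hz
  rw [← mul_pow, mul_inv_cancel₀ hz', one_pow]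

theorem A2_exists_e_fin_sum {ι : Type} (s : Finset ι) (f : ι → ℂ → ℂ)
    (h : ∀ i ∈ s, ∃ N, A2_exists_e_PoleLe N (f i)) : ∃ N, A2_exists_e_PoleLe N (fun z => ∑ i ∈ s, f i z) := by
  classical
  induction s using Finset.induction_on with
  | empty =>
    refine ⟨0, ?_⟩
    simp only [Finset.sum_empty]
    exact A2_exists_e_const 0
  | insert a s ha ih =>
    simp only [Finset.sum_insert ha]
    exact A2_exists_e_fin_add (h a (Finset.mem_insert_self a s))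
      (ih (fun i hi => h i (Finset.mem_insert_of_mem hi)))

theorem A2_exists_e_Ell_add {L : PeriodPair} {p q : ℂ → ℂ} (hp : A2_exists_e_Ell L p) (hq : A2_exists_e_Ell L q) :
    A2_exists_e_Ell L (fun z => p z + q z) :=
  ⟨fun z l hl => by
    show p (z + l) + q (z + l) = p z + q z
    rw [hp.1 z l hl, hq.1 z l hl], hp.2.add hq.2⟩

theorem A2_exists_e_Ell_mul {L : PeriodPair} {p q : ℂ → ℂ} (hp : A2_exists_e_Ell L p) (hq : A2_exists_e_Ell L q) :
    A2_exists_e_Ell L (fun z => p z * q z) :=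
  ⟨fun z l hl => by
    show p (z + l) * q (z + l) = p z * q z
    rw [hp.1 z l hl, hq.1 z l hl], hp.2.mul hq.2⟩

theorem A2_exists_e_Ell_const (L : PeriodPair) (c : ℂ) : A2_exists_e_Ell L (fun _ => c) :=
  ⟨fun _ _ _ => rfl, differentiableOn_const c⟩

theorem A2_exists_e_Ell_P (L : PeriodPair) : A2_exists_e_Ell L L.weierstrassP :=
  ⟨fun z l hl => L.weierstrassP_add_coe z ⟨l, hl⟩, L.differentiableOn_weierstrassP⟩

theorem A2_exists_e_Ell_P' (L : PeriodPair) : A2_exists_e_Ell L L.derivWeierstrassP :=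
  ⟨fun z l hl => L.derivWeierstrassP_add_coe z ⟨l, hl⟩, L.differentiableOn_derivWeierstrassP⟩

/-- STEP 1 -/
theorem A2_exists_e_step1 (L : PeriodPair) (N : ℕ) : ∃ q : ℂ → ℂ, A2_exists_e_Ell L q ∧
    ∃ g : ℂ → ℂ, AnalyticAt ℂ g 0 ∧ g 0 ≠ 0 ∧ ∀ᶠ z in 𝓝[≠] (0 : ℂ), z ^ (N + 2) * q z = g z := by
  have hP : ∃ g : ℂ → ℂ, AnalyticAt ℂ g 0 ∧ g 0 ≠ 0 ∧ ∀ᶠ z in 𝓝[≠] (0 : ℂ), z ^ 2 * L.weierstrassP z = g z := by
    refine ⟨fun z => z ^ 2 * L.weierstrassPExcept 0 z + 1, ?_, by simp, ?_⟩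
    · exact ((analyticAt_id.pow 2).mul (L.analyticAt_weierstrassPExcept 0)).add analyticAt_const
    · filter_upwards [self_mem_nhdsWithin] with z hz
      have hz' : z ≠ 0 := hz
      have h := L.weierstrassPExcept_add ⟨0, L.lattice.zero_mem⟩ z
      rw [← h]
      simp only [sub_zero]
      field_simp
      simp
  have hP' : ∃ g : ℂ → ℂ, AnalyticAt ℂ g 0 ∧ g 0 ≠ 0 ∧ ∀ᶠ z in 𝓝[≠] (0 : ℂ), z ^ 3 * L.derivWeierstrassP z = g z := by
    refine ⟨fun z => z ^ 3 * L.derivWeierstrassPExcept 0 z - 2, ?_, by simp, ?_⟩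
    · exact ((analyticAt_id.pow 3).mul (L.analyticAt_derivWeierstrassPExcept 0)).sub analyticAt_const
    · filter_upwards [self_mem_nhdsWithin] with z hz
      have hz' : z ≠ 0 := hz
      have h := L.derivWeierstrassPExcept_sub ⟨0, L.lattice.zero_mem⟩ z
      rw [← h]
      simp only [sub_zero]
      field_simp
  induction N using Nat.twoStepInduction with
  | zero => exact ⟨L.weierstrassP, A2_exists_e_Ell_P L, hP⟩
  | one => exact ⟨L.derivWeierstrassP, A2_exists_e_Ell_P' L, hP'⟩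
  | more N ih _ =>
    obtain ⟨q, hq, g, hg, hg0, he⟩ := ih
    obtain ⟨g2, hg2, hg20, he2⟩ := hP
    refine ⟨fun z => L.weierstrassP z * q z, A2_exists_e_Ell_mul (A2_exists_e_Ell_P L) hq,
      fun z => g2 z * g z, hg2.mul hg, mul_ne_zero hg20 hg0, ?_⟩
    filter_upwards [he, he2] with z h1 h2
    rw [← h1, ← h2]
    ring

/-- STEP 2 -/
theorem A2_exists_e_step2 (L : PeriodPair) (N : ℕ) : ∀ f : ℂ → ℂ, A2_exists_e_PoleLe N f →
    ∃ q : ℂ → ℂ, A2_exists_e_Ell L q ∧ (∃ M, A2_exists_e_PoleLe M q) ∧ A2_exists_e_PoleLe 1 (fun z => f z + q z) := by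
  induction N with
  | zero =>
    intro f hf
    refine ⟨fun _ => 0, A2_exists_e_Ell_const L 0, ⟨0, A2_exists_e_const 0⟩, ?_⟩
    simp only [add_zero]
    exact A2_exists_e_mono (Nat.zero_le 1) hf
  | succ n ih =>
    intro f hf
    rcases Nat.eq_zero_or_pos n with hn | hn
    · subst hn
      refine ⟨fun _ => 0, A2_exists_e_Ell_const L 0, ⟨0, A2_exists_e_const 0⟩, ?_⟩
      simp only [add_zero]
      exact hf
    · obtain ⟨m, rfl⟩ : ∃ m, n = m + 1 := ⟨n - 1, by omega⟩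
      obtain ⟨g, hg, he⟩ := hf
      obtain ⟨qN, hqN, h, hh, hh0, hhe⟩ := A2_exists_e_step1 L m
      obtain ⟨c, hc⟩ : ∃ c, c = g 0 / h 0 := ⟨_, rfl⟩
      have hG : AnalyticAt ℂ (fun z => g z - c * h z) 0 := hg.sub (analyticAt_const.mul hh)
      have hG0 : (fun z => g z - c * h z) 0 = 0 := by
        show g 0 - c * h 0 = 0
        rw [hc]
        field_simp
        ring
      obtain ⟨p, hp⟩ := hG
      have hds : AnalyticAt ℂ (dslope (fun z => g z - c * h z) 0) 0 := ⟨_, hp.has_fpower_series_dslope_fslope⟩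
      have hpole : A2_exists_e_PoleLe (m + 1) (fun z => f z + (-c) * qN z) := by
        refine ⟨dslope (fun z => g z - c * h z) 0, hds, ?_⟩
        filter_upwards [he, hhe, self_mem_nhdsWithin] with z h1 h2 hz
        have hz' : z ≠ 0 := hz
        have h3 := sub_smul_dslope (fun z => g z - c * h z) 0 z
        have hG0' : g 0 - c * h 0 = 0 := hG0
        rw [hG0', sub_zero, sub_zero, smul_eq_mul] at h3
        apply mul_left_cancel₀ hz'
        rw [h3, ← h1, ← h2]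
        ring
      obtain ⟨q, hq, hqf, hq1⟩ := ih _ hpole
      have hfinN : ∃ M, A2_exists_e_PoleLe M qN := ⟨m + 2, h, hh, hhe⟩
      refine ⟨fun z => (-c) * qN z + q z,
        A2_exists_e_Ell_add (A2_exists_e_Ell_mul (A2_exists_e_Ell_const L (-c)) hqN) hq,
        A2_exists_e_fin_add (A2_exists_e_fin_mul ⟨0, A2_exists_e_const (-c)⟩ hfinN) hqf, ?_⟩
      have : (fun z => f z + ((-c) * qN z + q z)) = (fun z => (f z + (-c) * qN z) + q z) := by
        funext z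
        ring
      rw [this]
      exact hq1

/-- STEP 3: the recursion -/
noncomputable def A2_exists_e_seq (Q : (ℂ → ℂ) → (ℂ → ℂ)) : ℕ → ℂ → ℂ
  | 0 => fun _ => 1
  | l + 1 => Q (fun z => ∑ k : Fin (l + 1), ((l + 1).choose k : ℂ) * A2_exists_e_seq Q k z * (z⁻¹) ^ (l + 1 - (k : ℕ)))

/-- Pascal -/
theorem A2_exists_e_pascal (a : ℕ → ℂ) (w : ℂ) (l : ℕ) :
    ∑ k ∈ Finset.range (l + 2), ((l + 1).choose k : ℂ) * a k * w ^ (l + 1 - k) =
      ∑ k ∈ Finset.range (l + 1), (l.choose k : ℂ) * a (k + 1) * w ^ (l - k) +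
        w * ∑ k ∈ Finset.range (l + 1), (l.choose k : ℂ) * a k * w ^ (l - k) := by
  have h2 : w * ∑ k ∈ Finset.range (l + 1), (l.choose k : ℂ) * a k * w ^ (l - k) =
      ∑ k ∈ Finset.range (l + 2), (l.choose k : ℂ) * a k * w ^ (l + 1 - k) := by
    rw [Finset.sum_range_succ _ (l + 1), Nat.choose_succ_self, Nat.cast_zero, zero_mul, zero_mul, add_zero,
      Finset.mul_sum]
    apply Finset.sum_congr rfl
    intro k hk
    rw [Finset.mem_range] at hk
    have : l + 1 - k = (l - k) + 1 := by omega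
    rw [this, pow_succ]
    ring
  rw [h2, Finset.sum_range_succ' _ (l + 1), Finset.sum_range_succ' (fun k => (l.choose k : ℂ) * a k * w ^ (l + 1 - k)) (l + 1),
    ← add_assoc, ← Finset.sum_add_distrib]
  congr 1
  · apply Finset.sum_congr rfl
    intro k _
    rw [Nat.choose_succ_succ, Nat.cast_add]
    have : l + 1 - (k + 1) = l - k := by omega
    rw [this]
    ring
  · simp

theorem exists_e (L : PeriodPair) : ∃ e : ℕ → ℂ → ℂ,
    (∀ z, e 0 z = 1) ∧
    (∀ k z, ∀ l ∈ L.lattice, e k (z + l) = e k z) ∧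
    (∀ k, DifferentiableOn ℂ (e k) ((L.lattice : Set ℂ)ᶜ)) ∧
    ∀ j l : ℕ, ∃ g : ℂ → ℂ, AnalyticAt ℂ g 0 ∧ ∀ᶠ z in 𝓝[≠] (0 : ℂ),
      z ^ (j + 1) * ∑ k ∈ Finset.range (l + 1), (l.choose k : ℂ) * e (j + k) z * (z⁻¹) ^ (l - k) =
        g z := by
  have hQ : ∀ f : ℂ → ℂ, ∃ q : ℂ → ℂ, A2_exists_e_Ell L q ∧ (∃ M, A2_exists_e_PoleLe M q) ∧
      ((∃ N, A2_exists_e_PoleLe N f) → A2_exists_e_PoleLe 1 (fun z => f z + q z)) := by
    intro f
    by_cases hf : ∃ N, A2_exists_e_PoleLe N f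
    · obtain ⟨N, hN⟩ := hf
      obtain ⟨q, h1, h2, h3⟩ := A2_exists_e_step2 L N f hN
      exact ⟨q, h1, h2, fun _ => h3⟩
    · exact ⟨fun _ => 0, A2_exists_e_Ell_const L 0, ⟨0, A2_exists_e_const 0⟩, fun h => absurd h hf⟩
  choose Q hQ1 hQ2 hQ3 using hQ
  obtain ⟨e, he⟩ : ∃ e, e = A2_exists_e_seq Q := ⟨_, rfl⟩
  have he0 : e 0 = fun _ => 1 := by rw [he, A2_exists_e_seq]
  have hes : ∀ l, e (l + 1) = Q (fun z => ∑ k : Fin (l + 1), ((l + 1).choose k : ℂ) * e k z *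
      (z⁻¹) ^ (l + 1 - (k : ℕ))) := by
    intro l
    rw [he, A2_exists_e_seq]
  have hell : ∀ k, A2_exists_e_Ell L (e k) := by
    intro k
    cases k with
    | zero => rw [he0]; exact A2_exists_e_Ell_const L 1
    | succ l => rw [hes]; exact hQ1 _
  have hfin : ∀ k, ∃ M, A2_exists_e_PoleLe M (e k) := by
    intro k
    cases k with
    | zero => rw [he0]; exact ⟨0, A2_exists_e_const 1⟩
    | succ l => rw [hes]; exact hQ2 _
  have hp : ∀ l, A2_exists_e_PoleLe 1 (fun z => ∑ k ∈ Finset.range (l + 1), (l.choose k : ℂ) * e k z *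
      (z⁻¹) ^ (l - k)) := by
    intro l
    cases l with
    | zero =>
      simp only [zero_add, Finset.sum_range_one, Nat.choose_self, Nat.cast_one, one_mul, he0, Nat.sub_self,
        pow_zero, mul_one]
      exact A2_exists_e_mono (Nat.zero_le 1) (A2_exists_e_const 1)
    | succ l =>
      have h1 := hQ3 (fun z => ∑ k : Fin (l + 1), ((l + 1).choose k : ℂ) * e k z * (z⁻¹) ^ (l + 1 - (k : ℕ)))
        (A2_exists_e_fin_sum _ _ (fun k _ => A2_exists_e_fin_mul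
          (A2_exists_e_fin_mul ⟨0, A2_exists_e_const _⟩ (hfin k)) ⟨_, A2_exists_e_inv _⟩))
      rw [← hes] at h1
      have h2 : (fun z => ∑ k ∈ Finset.range (l + 1 + 1), ((l + 1).choose k : ℂ) * e k z *
          (z⁻¹) ^ (l + 1 - k)) = (fun z => ∑ k : Fin (l + 1), ((l + 1).choose k : ℂ) * e k z *
          (z⁻¹) ^ (l + 1 - (k : ℕ)) + e (l + 1) z) := by
        funext z
        rw [Finset.sum_range_succ, Nat.choose_self, Nat.sub_self, pow_zero, Nat.cast_one, one_mul, mul_one,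
          Finset.sum_range]
      rw [h2]
      exact h1
  refine ⟨e, fun z => by rw [he0], fun k => (hell k).1, fun k => (hell k).2, ?_⟩
  intro j
  induction j with
  | zero =>
    intro l
    obtain ⟨g, hg, hge⟩ := hp l
    refine ⟨g, hg, ?_⟩
    filter_upwards [hge] with z hz
    simp only [zero_add]
    exact hz
  | succ j ih =>
    intro l
    obtain ⟨g1, hg1, h1⟩ := ih (l + 1)
    obtain ⟨g2, hg2, h2⟩ := ih l
    refine ⟨fun z => z * g1 z - g2 z, (analyticAt_id.mul hg1).sub hg2, ?_⟩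
    filter_upwards [h1, h2, self_mem_nhdsWithin] with z h1 h2 hz
    have hz' : z ≠ 0 := hz
    have h3 := A2_exists_e_pascal (fun k => e (j + k) z) (z⁻¹) l
    have h4 : ∑ k ∈ Finset.range (l + 1), (l.choose k : ℂ) * e (j + 1 + k) z * (z⁻¹) ^ (l - k) =
        ∑ k ∈ Finset.range (l + 1), (l.choose k : ℂ) * e (j + (k + 1)) z * (z⁻¹) ^ (l - k) := by
      apply Finset.sum_congr rfl
      intro k _
      rw [show j + 1 + k = j + (k + 1) by omega]
    rw [h4, ← h1, ← h2, h3]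
    have h5 : z ^ (j + 1) = z ^ (j + 1 + 1) * z⁻¹ := by
      rw [pow_succ z (j + 1), mul_assoc, mul_inv_cancel₀ hz', mul_one]
    obtain ⟨A, hA⟩ : ∃ A, A = ∑ k ∈ Finset.range (l + 1), (l.choose k : ℂ) * e (j + (k + 1)) z * (z⁻¹) ^ (l - k) :=
      ⟨_, rfl⟩
    obtain ⟨B, hB⟩ : ∃ B, B = ∑ k ∈ Finset.range (l + 1), (l.choose k : ℂ) * e (j + k) z * (z⁻¹) ^ (l - k) :=
      ⟨_, rfl⟩
    rw [← hA, ← hB]
    have h6 : z ^ (j + 1) * B = z ^ (j + 1 + 1) * z⁻¹ * B := by rw [← h5]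
    rw [h6]
    ring

end Pool.Agent.Helper922.MR
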