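import Mathlib

/-! A torus integral. -/

namespace Pool.Agent.Helper922.MR

open MeasureTheory

/-- the point of the torus with the given angles -/
noncomputable def A3_tor {n : ℕ} (θ : Fin n → ℝ) : Fin n → ℂ := fun j => circleMap 0 1 (θ j)

theorem A3_tor_insert (i : Fin 3) (t : ℝ) (q : Fin 2 → ℝ) :
    A3_tor (i.insertNth (α := fun _ => ℝ) t q) = i.insertNth (α := fun _ => ℂ) (circleMap 0 1 t) (A3_tor q) := by
  funext j
  rcases Fin.eq_self_or_eq_succAbove i j with rfl | ⟨k, rfl⟩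
  · simp [A3_tor]
  · simp [A3_tor]

theorem A3_int_zero (i : Fin 3) (Φ : (Fin 3 → ℝ) → ℂ) (hc : Continuous Φ)
    (hz : ∀ q : Fin 2 → ℝ, ∫ t in (0 : ℝ)..(2 * Real.pi),
      Φ (i.insertNth (α := fun _ => ℝ) t q) = 0) :
    Integrable Φ (Measure.pi fun _ : Fin 3 =>
      (volume : Measure ℝ).restrict (Set.Icc 0 (2 * Real.pi))) ∧
    ∫ x, Φ x ∂(Measure.pi fun _ : Fin 3 =>
      (volume : Measure ℝ).restrict (Set.Icc 0 (2 * Real.pi))) = 0 := by
  have hint : Integrable Φ (Measure.pi fun _ : Fin 3 =>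
      (volume : Measure ℝ).restrict (Set.Icc 0 (2 * Real.pi))) := by
    rw [← Measure.restrict_pi_pi]
    exact hc.continuousOn.integrableOn_compact (isCompact_univ_pi fun _ => isCompact_Icc)
  refine ⟨hint, ?_⟩
  have hmp := measurePreserving_piFinSuccAbove (fun _ : Fin 3 =>
      (volume : Measure ℝ).restrict (Set.Icc 0 (2 * Real.pi))) i
  have h1 := hmp.symm
  rw [← h1.integral_comp' (g := Φ)]
  have hint2 := (h1.integrable_comp_emb (MeasurableEquiv.measurableEmbedding _)).2 hint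
  refine (integral_prod_symm _ hint2).trans ?_
  have h2 : ∀ q : Fin 2 → ℝ, ∫ t, Φ ((MeasurableEquiv.piFinSuccAbove (fun _ : Fin 3 => ℝ) i).symm
      (t, q)) ∂((volume : Measure ℝ).restrict (Set.Icc 0 (2 * Real.pi))) = 0 := by
    intro q
    rw [integral_Icc_eq_integral_Ioc, ← intervalIntegral.integral_of_le (by positivity)]
    exact hz q
  calc _ = ∫ q : Fin 2 → ℝ, (0 : ℂ) ∂(Measure.pi fun _ : Fin 2 =>
      (volume : Measure ℝ).restrict (Set.Icc 0 (2 * Real.pi))) := by
        apply integral_congr_ae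
        exact Filter.Eventually.of_forall h2
    _ = 0 := by simp

theorem A3_tor_ne {n : ℕ} (θ : Fin n → ℝ) (j : Fin n) : A3_tor θ j ≠ 0 := by
  unfold A3_tor
  exact circleMap_ne_center one_ne_zero

theorem A3_tor_cont {n : ℕ} : Continuous (A3_tor : (Fin n → ℝ) → (Fin n → ℂ)) := by
  unfold A3_tor
  fun_prop

theorem A3_insert_cauchy (i : Fin 3) (g : (Fin 3 → ℂ) → ℂ)
    (hg : DifferentiableOn ℂ g {x : Fin 3 → ℂ | x ≠ 0}) (w : Fin 2 → ℂ) (hw : w 0 ≠ 0) :
    ∮ z in C(0, 1), g (i.insertNth (α := fun _ => ℂ) z w) = 0 := by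
  have hd : Differentiable ℂ (fun z : ℂ => g (i.insertNth (α := fun _ => ℂ) z w)) := by
    intro z
    have h1 : DifferentiableAt ℂ g (i.insertNth (α := fun _ => ℂ) z w) := by
      apply (hg _ _).differentiableAt
      · exact isOpen_ne.mem_nhds (by
          intro h0
          have := congrFun h0 (i.succAbove 0)
          rw [Fin.insertNth_apply_succAbove] at this
          exact hw this)
      · intro h0
        have := congrFun h0 (i.succAbove 0)
        rw [Fin.insertNth_apply_succAbove] at this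
        exact hw this
    have h2 : DifferentiableAt ℂ (fun z : ℂ => (i.insertNth (α := fun _ => ℂ) z w : Fin 3 → ℂ)) z := by
      rw [differentiableAt_pi]
      intro j
      rcases Fin.eq_self_or_eq_succAbove i j with rfl | ⟨k, rfl⟩
      · simp only [Fin.insertNth_apply_same]
        exact differentiableAt_id
      · simp only [Fin.insertNth_apply_succAbove]
        exact differentiableAt_const _
    exact h1.comp z h2
  exact Complex.circleIntegral_eq_zero_of_differentiable_on_off_countable zero_le_one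
    Set.countable_empty hd.continuous.continuousOn (fun z _ => hd z)

theorem torus_lemma (g : Fin 3 → (Fin 3 → ℂ) → ℂ)
    (hg : ∀ i, DifferentiableOn ℂ (g i) {x : Fin 3 → ℂ | x ≠ 0}) (C : ℂ)
    (h : ∀ x : Fin 3 → ℂ, x 0 ≠ 0 → x 1 ≠ 0 → x 2 ≠ 0 →
      ∑ i, x i ^ 3 * g i x = C * (x 0 * x 1 * x 2) ^ 2) : C = 0 := by
  let Φ : Fin 3 → (Fin 3 → ℝ) → ℂ := fun i θ =>
    A3_tor θ i ^ 3 * g i (A3_tor θ) * ((∏ j, A3_tor θ j) ^ 2)⁻¹
  have hprod : ∀ θ : Fin 3 → ℝ, (∏ j, A3_tor θ j) ≠ 0 := fun θ =>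
    Finset.prod_ne_zero_iff.2 fun j _ => A3_tor_ne θ j
  have hΦc : ∀ i, Continuous (Φ i) := by
    intro i
    have h1 : Continuous (fun θ : Fin 3 → ℝ => g i (A3_tor θ)) := by
      apply (hg i).continuousOn.comp_continuous A3_tor_cont
      intro θ h0
      exact A3_tor_ne θ 0 (congrFun h0 0)
    have h2 : Continuous (fun θ : Fin 3 → ℝ => A3_tor θ i) :=
      (continuous_apply i).comp A3_tor_cont
    have h3 : Continuous (fun θ : Fin 3 → ℝ => ∏ j, A3_tor θ j) :=
      continuous_finsetProd _ fun j _ => (continuous_apply j).comp A3_tor_cont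
    exact ((h2.pow 3).mul h1).mul ((h3.pow 2).inv₀ fun θ => pow_ne_zero 2 (hprod θ))
  have hΦz : ∀ i, ∀ q : Fin 2 → ℝ, ∫ t in (0 : ℝ)..(2 * Real.pi),
      Φ i (i.insertNth (α := fun _ => ℝ) t q) = 0 := by
    intro i q
    have h1 := A3_insert_cauchy i (g i) (hg i) (A3_tor q) (A3_tor_ne q 0)
    rw [circleIntegral] at h1
    have h2 : ∀ t : ℝ, Φ i (i.insertNth (α := fun _ => ℝ) t q) =
        ((∏ j, A3_tor q j) ^ 2)⁻¹ * Complex.I⁻¹ * (deriv (circleMap 0 1) t •
          g i (i.insertNth (α := fun _ => ℂ) (circleMap 0 1 t) (A3_tor q))) := by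
      intro t
      have hz : circleMap 0 1 t ≠ 0 := circleMap_ne_center one_ne_zero
      show A3_tor _ i ^ 3 * g i (A3_tor _) * ((∏ j, A3_tor _ j) ^ 2)⁻¹ = _
      rw [A3_tor_insert, Fin.prod_univ_succAbove _ i]
      simp only [Fin.insertNth_apply_same, Fin.insertNth_apply_succAbove]
      rw [deriv_circleMap, smul_eq_mul, mul_pow, mul_inv]
      have hI := Complex.I_ne_zero
      field_simp
    simp only [h2]
    rw [intervalIntegral.integral_const_mul, h1, mul_zero]
  have hsum : ∀ θ : Fin 3 → ℝ, ∑ i, Φ i θ = C := by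
    intro θ
    have h1 := h (A3_tor θ) (A3_tor_ne θ 0) (A3_tor_ne θ 1) (A3_tor_ne θ 2)
    show ∑ i, A3_tor θ i ^ 3 * g i (A3_tor θ) * ((∏ j, A3_tor θ j) ^ 2)⁻¹ = C
    rw [← Finset.sum_mul, h1, Fin.prod_univ_three, mul_assoc, mul_inv_cancel₀, mul_one]
    exact pow_ne_zero 2 (mul_ne_zero (mul_ne_zero (A3_tor_ne θ 0) (A3_tor_ne θ 1)) (A3_tor_ne θ 2))
  have hI : ∫ θ, ∑ i, Φ i θ ∂(Measure.pi fun _ : Fin 3 =>
      (volume : Measure ℝ).restrict (Set.Icc 0 (2 * Real.pi))) = 0 := by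
    rw [integral_finsetSum _ fun i _ => (A3_int_zero i (Φ i) (hΦc i) (hΦz i)).1]
    exact Finset.sum_eq_zero fun i _ => (A3_int_zero i (Φ i) (hΦc i) (hΦz i)).2
  simp only [hsum] at hI
  rw [integral_const] at hI
  rcases smul_eq_zero.1 hI with h0 | h0
  · exfalso
    rw [Measure.real, Measure.pi_univ] at h0
    simp only [Measure.restrict_apply_univ, Real.volume_Icc, sub_zero, Finset.prod_const,
      ENNReal.toReal_pow] at h0
    rw [ENNReal.toReal_ofReal (by positivity)] at h0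
    have : (2 * Real.pi) ≠ 0 := by positivity
    exact (pow_ne_zero _ this) h0
  · exact h0

end Pool.Agent.Helper922.MR
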