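import Mathlib

/-! The symmetric tensors `D_m`: definitions. -/

namespace Pool.Agent.Helper922.MR

/-- Properties of the polynomials `R j` (in `x = inl`, `κ = inr`). -/
structure IsR (R : ℕ → MvPolynomial (Fin 3 ⊕ Fin 3) ℂ) : Prop where
  zero : ∀ x κ : Fin 3 → ℂ, MvPolynomial.eval (Sum.elim x κ) (R 0) = x 0
  shift : ∀ (j : ℕ) (x κ : Fin 3 → ℂ) (l : ℂ),
      MvPolynomial.eval (Sum.elim x (fun i => κ i + l * x i ^ 3)) (R j) =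
        ∑ i ∈ Finset.range (j + 1), (l * (x 0 * x 1 * x 2) ^ 2) ^ i / (i.factorial : ℂ) *
          MvPolynomial.eval (Sum.elim x κ) (R (j - i))
  homK : ∀ (j : ℕ) (x κ : Fin 3 → ℂ) (c : ℂ), MvPolynomial.eval (Sum.elim x (c • κ)) (R j) =
      c ^ j * MvPolynomial.eval (Sum.elim x κ) (R j)
  homX : ∀ (j : ℕ) (x κ : Fin 3 → ℂ) (c : ℂ), MvPolynomial.eval (Sum.elim (c • x) κ) (R j) =
      c ^ (3 * j + 1) * MvPolynomial.eval (Sum.elim x κ) (R j)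

/-- `B_k = Σ_{j ≤ k} k!/(k-j)! s^j θ^(k-j) R_j(x, K)`. -/
noncomputable def Bk (R : ℕ → MvPolynomial (Fin 3 ⊕ Fin 3) ℂ) (k : ℕ) (x K : Fin 3 → ℂ)
    (s θ : ℂ) : ℂ :=
  ∑ j ∈ Finset.range (k + 1), (k.descFactorial j : ℂ) * s ^ j * θ ^ (k - j) *
    MvPolynomial.eval (Sum.elim x K) (R j)

/-- `D_m = Σ_{k ≤ m} C(m,k) e_k τ^(m-k) B_k`. -/
noncomputable def Dm (R : ℕ → MvPolynomial (Fin 3 ⊕ Fin 3) ℂ) (e : ℕ → ℂ) (m : ℕ)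
    (x K : Fin 3 → ℂ) (s τ θ : ℂ) : ℂ :=
  ∑ k ∈ Finset.range (m + 1), (m.choose k : ℂ) * e k * τ ^ (m - k) * Bk R k x K s θ

/-- The general local form: `Σ_j s^j R_j(x,κ) m!/(m-j)! Σ_l C(m-j,l) τ^(m-j-l) θ^l Γ_{j,l}`. -/
noncomputable def DG (R : ℕ → MvPolynomial (Fin 3 ⊕ Fin 3) ℂ) (Γ : ℕ → ℕ → ℂ) (m : ℕ)
    (x K : Fin 3 → ℂ) (s τ θ : ℂ) : ℂ :=
  ∑ j ∈ Finset.range (m + 1), s ^ j * MvPolynomial.eval (Sum.elim x K) (R j) *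
    (m.descFactorial j : ℂ) * ∑ l ∈ Finset.range (m - j + 1), ((m - j).choose l : ℂ) *
      τ ^ (m - j - l) * θ ^ l * Γ j l

end Pool.Agent.Helper922.MR
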