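import Pool.Agent.Helper922.MR.Model

/-! Frames exist. -/

open scoped LinearAlgebra.Projectivization Topology

namespace Pool.Agent.Helper922.MR

theorem C1_fr_mk_eq {u v : Fin 3 → ℂ} (hu : u ≠ 0) (hv : v ≠ 0) (a : ℂ) (h : v = a • u) :
    (Projectivization.mk ℂ v hv : ℙ ℂ (Fin 3 → ℂ)) = Projectivization.mk ℂ u hu := by
  rw [Projectivization.mk_eq_mk_iff']
  exact ⟨a, h.symm⟩

theorem continuous_mk_elU (hc : Continuous
      (fun z : {z : Fin 3 → ℂ // z ≠ 0} => (Projectivization.mk ℂ z.1 z.2 : ℙ ℂ (Fin 3 → ℂ)))) :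
    Continuous (fun t : ℂ => (Projectivization.mk ℂ (elU t) (elU_ne t) : ℙ ℂ (Fin 3 → ℂ))) := by
  rw [continuous_iff_continuousAt]
  intro w₀
  obtain ⟨r, hr, l, hl, hd, -⟩ := elU_props.2.2.2.2 w₀
  have hon : ContinuousOn (fun t : ℂ => (Projectivization.mk ℂ (elU t) (elU_ne t) :
      ℙ ℂ (Fin 3 → ℂ))) (Metric.ball w₀ r) := by
    rw [continuousOn_iff_continuous_domRestrict]
    have hne : ∀ t : Metric.ball w₀ r, l t • elU t ≠ 0 :=
      fun t => smul_ne_zero (hl t t.2) (elU_ne t)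
    have h1 : Continuous (fun t : Metric.ball w₀ r =>
        (⟨l t • elU t, hne t⟩ : {z : Fin 3 → ℂ // z ≠ 0})) := by
      refine Continuous.subtype_mk ?_ _
      exact continuousOn_iff_continuous_domRestrict.1 hd.continuousOn
    have h2 := hc.comp h1
    have h3 : (Metric.ball w₀ r).domRestrict (fun t : ℂ => (Projectivization.mk ℂ (elU t) (elU_ne t) :
      ℙ ℂ (Fin 3 → ℂ))) = ((fun z : {z : Fin 3 → ℂ // z ≠ 0} =>
        (Projectivization.mk ℂ z.1 z.2 : ℙ ℂ (Fin 3 → ℂ))) ∘ (fun t : Metric.ball w₀ r =>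
        (⟨l t • elU t, hne t⟩ : {z : Fin 3 → ℂ // z ≠ 0}))) := by
      funext t
      exact (C1_fr_mk_eq (elU_ne t) (hne t) (l t) rfl).symm
    rw [h3]
    exact h2
  exact hon.continuousAt (Metric.ball_mem_nhds w₀ hr)

theorem C1_fr_pre (w₀ : ℂ) : ∃ (r : ℝ) (U : ℂ → Fin 3 → ℂ) (G : ℂ → Fin 2 → ℂ) (σ c : ℂ → ℂ), 0 < r ∧
    DifferentiableOn ℂ U (Metric.ball w₀ r) ∧ DifferentiableOn ℂ G (Metric.ball w₀ r) ∧
    DifferentiableOn ℂ σ (Metric.ball w₀ r) ∧ (∀ t ∈ Metric.ball w₀ r, c t ≠ 0) ∧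
    (∀ t ∈ Metric.ball w₀ r, U t = c t ^ 3 • elU t) ∧
    (∀ t ∈ Metric.ball w₀ r, G t = c t ^ 2 • elG t) ∧
    (∀ t ∈ Metric.ball w₀ r, σ t = c t * elsg t) ∧
    (∀ a : ℂ, deriv U w₀ ≠ a • U w₀) ∧
    ((∀ t ∈ Metric.ball w₀ r, t ∉ elS ∧ c t = 1) ∨
    (w₀ ∈ elS ∧ ∀ t ∈ Metric.ball w₀ r, t ≠ w₀ → t ∉ elS ∧ c t = t - w₀)) := by
  classical
  by_cases hw₀ : w₀ ∈ elS
  · obtain ⟨r, hr, hball⟩ := Metric.mem_nhds_iff.mp
      (elL.compl_lattice_sdiff_singleton_mem_nhds w₀)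
    have hb : ∀ w ∈ Metric.ball w₀ r, w ∈ elS → w = w₀ := by
      intro w hw hwS
      by_contra hne
      exact hball hw ⟨hwS, hne⟩
    refine ⟨r, elV w₀, fun t => ![(t - w₀) ^ 2, (t - w₀) ^ 2 * elL.weierstrassPExcept w₀ t + 1 -
      (t - w₀) ^ 2 / w₀ ^ 2], fun t => t - w₀, fun t => if t = w₀ then 1 else t - w₀, hr,
      fun w hw => (el_V_diff w₀ w (hb w hw)).differentiableWithinAt, ?_, ?_, ?_, ?_, ?_, ?_,
      el_V_deriv w₀, Or.inr ⟨hw₀, ?_⟩⟩
    · intro w hw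
      have hmem : w ∈ ((elL.lattice : Set ℂ) \ {w₀})ᶜ := by
        rintro ⟨h1, h2⟩
        exact h2 (hb w hw h1)
      have h1 : DifferentiableAt ℂ (elL.weierstrassPExcept w₀) w :=
        (elL.analyticOnNhd_weierstrassPExcept w₀ w hmem).differentiableAt
      apply DifferentiableAt.differentiableWithinAt
      rw [differentiableAt_pi]
      intro i
      fin_cases i
      · show DifferentiableAt ℂ (fun w => (w - w₀) ^ 2) w
        fun_prop
      · show DifferentiableAt ℂ (fun w => (w - w₀) ^ 2 * elL.weierstrassPExcept w₀ w + 1 -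
          (w - w₀) ^ 2 / w₀ ^ 2) w
        fun_prop
    · fun_prop
    · intro t _
      show (if t = w₀ then (1:ℂ) else t - w₀) ≠ 0
      split_ifs with h
      · exact one_ne_zero
      · exact sub_ne_zero.mpr h
    · intro t ht
      rw [← el_local w₀ hw₀ t (hb t ht)]
      congr 1
      by_cases h : t = w₀
      · simp [h]
      · simp [h]
    · intro t ht
      by_cases h : t = w₀
      · subst h
        simp [elG, hw₀]
      · have hn : t ∉ elS := fun h' => h (hb t ht h')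
        have h0 : t - w₀ ≠ 0 := sub_ne_zero.mpr h
        have e1 : elP t = elL.weierstrassPExcept w₀ t + (1 / (t - w₀) ^ 2 - 1 / w₀ ^ 2) :=
          (elL.weierstrassPExcept_add ⟨w₀, hw₀⟩ t).symm
        simp only [elG, if_neg hn, if_neg h]
        rw [e1]
        funext i
        fin_cases i
        · simp
        · simp only [Pi.smul_apply, smul_eq_mul]
          show (t - w₀) ^ 2 * elL.weierstrassPExcept w₀ t + 1 - (t - w₀) ^ 2 / w₀ ^ 2 =
            (t - w₀) ^ 2 * (elL.weierstrassPExcept w₀ t + (1 / (t - w₀) ^ 2 - 1 / w₀ ^ 2))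
          have : (t - w₀) ^ 2 * (1 / (t - w₀) ^ 2) = 1 := by field_simp
          rw [mul_add, mul_sub, this]
          ring
    · intro t ht
      by_cases h : t = w₀
      · subst h
        simp [elsg, hw₀]
      · have hn : t ∉ elS := fun h' => h (hb t ht h')
        simp [elsg, hn, h]
    · intro t ht hne
      exact ⟨fun h' => hne (hb t ht h'), if_neg hne⟩
  · obtain ⟨r, hr, hball⟩ := Metric.mem_nhds_iff.mp (el_closed.isOpen_compl.mem_nhds hw₀)
    refine ⟨r, elU, elG, fun _ => 1, fun _ => 1, hr,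
      fun w hw => (el_diff_away w (hball hw)).differentiableWithinAt, ?_, ?_,
      fun _ _ => one_ne_zero, ?_, ?_, ?_, ?_, Or.inl fun t ht => ⟨hball ht, rfl⟩⟩
    · intro w hw
      have hn : w ∉ elS := hball hw
      have hP := (el_hasDerivP w hn).differentiableAt
      have h1 : DifferentiableAt ℂ (fun z => ![1, elP z]) w := by
        rw [differentiableAt_pi]
        intro i
        fin_cases i
        · simp
        · simpa using hP
      apply DifferentiableAt.differentiableWithinAt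
      apply h1.congr_of_eventuallyEq
      filter_upwards [el_closed.isOpen_compl.mem_nhds hn] with y hy
      exact if_neg hy
    · fun_prop
    · intro t _; simp
    · intro t _; simp
    · intro t ht
      have hn : t ∉ elS := hball ht
      simp [elsg, hn]
    · intro a
      refine el_away w₀ hw₀ (fun _ => 1) 0 (hasDerivAt_const w₀ (1 : ℂ)) one_ne_zero elU ?_ a
      filter_upwards [el_closed.isOpen_compl.mem_nhds hw₀] with z hz
      rw [one_smul, elU_notMem hz]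

/-- every point is congruent to a point of a compact set -/
theorem C1_fr_red (t : ℂ) : ∃ l ∈ elS, t - l ∈ Metric.closedBall (0 : ℂ) 2 := by
  refine ⟨(⌊t.re⌋ : ℂ) + (⌊t.im⌋ : ℂ) * Complex.I, ?_, ?_⟩
  · show (⌊t.re⌋ : ℂ) + (⌊t.im⌋ : ℂ) * Complex.I ∈ elL.lattice
    refine PeriodPair.mem_lattice.mpr ⟨⌊t.re⌋, ⌊t.im⌋, ?_⟩
    have e1 : elL.ω₁ = 1 := rfl
    have e2 : elL.ω₂ = Complex.I := rfl
    rw [e1, e2]
    ring
  · rw [mem_closedBall_zero_iff]
    refine (Complex.norm_le_abs_re_add_abs_im _).trans ?_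
    have h1 : (t - ((⌊t.re⌋ : ℂ) + (⌊t.im⌋ : ℂ) * Complex.I)).re = Int.fract t.re := by
      simp
    have h2 : (t - ((⌊t.re⌋ : ℂ) + (⌊t.im⌋ : ℂ) * Complex.I)).im = Int.fract t.im := by
      simp
    rw [h1, h2, abs_of_nonneg (Int.fract_nonneg _), abs_of_nonneg (Int.fract_nonneg _)]
    have := (Int.fract_lt_one t.re).le
    have := (Int.fract_lt_one t.im).le
    linarith

/-- translates of the ball -/
def C1_frBS (w₀ : ℂ) (r : ℝ) : Set ℂ := {t | ∃ l ∈ elS, t - l ∈ Metric.ball w₀ r}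

theorem C1_frBS_open (w₀ : ℂ) (r : ℝ) : IsOpen (C1_frBS w₀ r) := by
  have : C1_frBS w₀ r = ⋃ l ∈ elS, (fun t : ℂ => t - l) ⁻¹' Metric.ball w₀ r := by
    ext t
    simp [C1_frBS]
  rw [this]
  refine isOpen_biUnion fun l _ => ?_
  exact Metric.isOpen_ball.preimage (by fun_prop)

theorem C1_frBS_add (w₀ : ℂ) (r : ℝ) (t t' : ℂ) (h : t - t' ∈ elS) (ht : t ∈ C1_frBS w₀ r) :
    t' ∈ C1_frBS w₀ r := by
  obtain ⟨l, hl, hl2⟩ := ht
  refine ⟨l - (t - t'), elL.lattice.sub_mem hl h, ?_⟩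
  have : t' - (l - (t - t')) = t - l := by ring
  rw [this]
  exact hl2

/-- the bad set -/
def C1_frBad (w₀ : ℂ) (r : ℝ) : Set (ℙ ℂ (Fin 3 → ℂ)) :=
  (fun t : ℂ => (Projectivization.mk ℂ (elU t) (elU_ne t) : ℙ ℂ (Fin 3 → ℂ))) ''
    (Metric.closedBall (0 : ℂ) 2 \ C1_frBS w₀ r)

theorem C1_frBad_iff (w₀ : ℂ) (r : ℝ) (t : ℂ) :
    (Projectivization.mk ℂ (elU t) (elU_ne t) : ℙ ℂ (Fin 3 → ℂ)) ∈ C1_frBad w₀ r ↔ t ∉ C1_frBS w₀ r := by
  constructor
  · rintro ⟨t', ⟨-, ht'⟩, h⟩ ht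
    have h' : (Projectivization.mk ℂ (elU t') (elU_ne t') : ℙ ℂ (Fin 3 → ℂ)) =
        Projectivization.mk ℂ (elU t) (elU_ne t) := h
    rw [Projectivization.mk_eq_mk_iff'] at h'
    obtain ⟨a, ha⟩ := h'
    have h1 := elU_sep t' t a ha.symm
    refine ht' (C1_frBS_add w₀ r t t' ?_ ht)
    have h2 : t - t' = -(t' - t) := by ring
    rw [h2]
    exact elL.lattice.neg_mem h1
  · intro ht
    obtain ⟨l, hl, hl2⟩ := C1_fr_red t
    refine ⟨t - l, ⟨hl2, fun h => ht (C1_frBS_add w₀ r (t - l) t ?_ h)⟩, ?_⟩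
    · have h2 : t - l - t = -l := by ring
      rw [h2]
      exact elL.lattice.neg_mem hl
    · have h3 : elU t = elU (t - l) := by
        have := el_period l hl (t - l)
        rw [sub_add_cancel] at this
        exact this
      exact (C1_fr_mk_eq (elU_ne _) (elU_ne _) 1 (by rw [one_smul, h3])).symm

theorem C1_frBad_closed (hT : T2Space (ℙ ℂ (Fin 3 → ℂ))) (hc : Continuous
      (fun z : {z : Fin 3 → ℂ // z ≠ 0} => (Projectivization.mk ℂ z.1 z.2 : ℙ ℂ (Fin 3 → ℂ))))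
    (w₀ : ℂ) (r : ℝ) : IsClosed (C1_frBad w₀ r) := by
  have h1 : IsCompact (Metric.closedBall (0 : ℂ) 2 \ C1_frBS w₀ r) :=
    (isCompact_closedBall _ _).diff (C1_frBS_open w₀ r)
  exact (h1.image (continuous_mk_elU hc)).isClosed

theorem exists_frame (hT : T2Space (ℙ ℂ (Fin 3 → ℂ))) (hc : Continuous
      (fun z : {z : Fin 3 → ℂ // z ≠ 0} => (Projectivization.mk ℂ z.1 z.2 : ℙ ℂ (Fin 3 → ℂ))))
    (w₀ : ℂ) : Nonempty (Frame w₀) := by
  obtain ⟨r, U, G, σ, c, hr, dU, dG, dσ, c_ne, U_eq, G_eq, σ_eq, hder, htype⟩ := C1_fr_pre w₀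
  have hw₀ : w₀ ∈ Metric.ball w₀ r := Metric.mem_ball_self hr
  have hnhds : Metric.ball w₀ r ∈ 𝓝 w₀ := Metric.ball_mem_nhds w₀ hr
  have hU0 : U w₀ ≠ 0 := by
    rw [U_eq w₀ hw₀]
    exact smul_ne_zero (pow_ne_zero _ (c_ne w₀ hw₀)) (elU_ne w₀)
  have hG0 : G w₀ ≠ 0 := by
    rw [G_eq w₀ hw₀]
    exact smul_ne_zero (pow_ne_zero _ (c_ne w₀ hw₀)) (elG_ne w₀)
  obtain ⟨b₀, hb₀⟩ := Function.ne_iff.mp hU0
  obtain ⟨l₀, hl₀⟩ := Function.ne_iff.mp hG0
  simp only [Pi.zero_apply] at hb₀ hl₀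
  have dUb : ∀ b, DifferentiableOn ℂ (fun t => U t b) (Metric.ball w₀ r) := fun b =>
    differentiableOn_pi.1 dU b
  have dGb : ∀ b, DifferentiableOn ℂ (fun t => G t b) (Metric.ball w₀ r) := fun b =>
    differentiableOn_pi.1 dG b
  have hUder : ∀ b, HasDerivAt (fun t => U t b) (deriv U w₀ b) w₀ := by
    intro b
    exact hasDerivAt_pi.1 (dU.differentiableAt hnhds).hasDerivAt b
  obtain ⟨b₁, hb₁⟩ : ∃ b₁, deriv U w₀ b₁ * U w₀ b₀ - U w₀ b₁ * deriv U w₀ b₀ ≠ 0 := by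
    by_contra hcon
    push Not at hcon
    apply hder (deriv U w₀ b₀ / U w₀ b₀)
    funext b
    simp only [Pi.smul_apply, smul_eq_mul]
    rw [div_mul_eq_mul_div, eq_div_iff hb₀]
    linear_combination hcon b
  set f : ℂ → ℂ := fun t => U t b₁ / U t b₀ with hf
  have hfd : HasDerivAt f ((deriv U w₀ b₁ * U w₀ b₀ - U w₀ b₁ * deriv U w₀ b₀) / U w₀ b₀ ^ 2) w₀ :=
    (hUder b₁).div (hUder b₀) hb₀
  -- nonvanishing near `w₀`
  have hev0 : ∀ᶠ t in 𝓝 w₀, U t b₀ ≠ 0 :=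
    ((dUb b₀).differentiableAt hnhds).continuousAt.eventually_ne hb₀
  have hev1 : ∀ᶠ t in 𝓝 w₀, G t l₀ ≠ 0 :=
    ((dGb l₀).differentiableAt hnhds).continuousAt.eventually_ne hl₀
  have hfan : AnalyticAt ℂ f w₀ := by
    rw [Complex.analyticAt_iff_eventually_differentiableAt]
    filter_upwards [hev0, Metric.isOpen_ball.mem_nhds hw₀] with t ht ht2
    exact ((dUb b₁).differentiableAt (Metric.isOpen_ball.mem_nhds ht2)).div
      ((dUb b₀).differentiableAt (Metric.isOpen_ball.mem_nhds ht2)) ht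
  have hder0 : deriv f w₀ ≠ 0 := by
    rw [hfd.deriv]
    exact div_ne_zero hb₁ (pow_ne_zero _ hb₀)
  have hev2 : ∀ᶠ t in 𝓝 w₀, deriv f t ≠ 0 := hfan.deriv.continuousAt.eventually_ne hder0
  have hev3 : ∀ᶠ t in 𝓝 w₀, DifferentiableAt ℂ f t :=
    Complex.analyticAt_iff_eventually_differentiableAt.1 hfan
  have hstrict : HasStrictFDerivAt f
      ((ContinuousLinearEquiv.unitsEquivAut ℂ (Units.mk0 (deriv f w₀) hder0) : ℂ ≃L[ℂ] ℂ) :
        ℂ →L[ℂ] ℂ) w₀ := by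
    have h1 := hfan.hasStrictDerivAt
    exact h1.hasStrictFDerivAt_equiv hder0
  set F := hstrict.toOpenPartialHomeomorph f with hF
  have hFs : w₀ ∈ F.source := hstrict.mem_toOpenPartialHomeomorph_source
  have hFc : ∀ t, F t = f t := fun t => rfl
  obtain ⟨r', hr', hsub⟩ := Metric.mem_nhds_iff.1 (Filter.inter_mem
    (Filter.inter_mem (Filter.inter_mem hev0 hev1) (Filter.inter_mem hev2 hev3))
    (Filter.inter_mem (F.open_source.mem_nhds hFs) hnhds))
  have s0 : ∀ t ∈ Metric.ball w₀ r', U t b₀ ≠ 0 := fun t ht => (hsub ht).1.1.1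
  have s1 : ∀ t ∈ Metric.ball w₀ r', G t l₀ ≠ 0 := fun t ht => (hsub ht).1.1.2
  have s2 : ∀ t ∈ Metric.ball w₀ r', deriv f t ≠ 0 := fun t ht => (hsub ht).1.2.1
  have s3 : ∀ t ∈ Metric.ball w₀ r', DifferentiableAt ℂ f t := fun t ht => (hsub ht).1.2.2
  have s4 : Metric.ball w₀ r' ⊆ F.source := fun t ht => (hsub ht).2.1
  have s5 : Metric.ball w₀ r' ⊆ Metric.ball w₀ r := fun t ht => (hsub ht).2.2
  set D : Set ℂ := F '' Metric.ball w₀ r' with hD
  have hDo : IsOpen D := F.isOpen_image_of_subset_source Metric.isOpen_ball s4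
  have hsymm : ∀ t ∈ Metric.ball w₀ r', F.symm (f t) = t := fun t ht => F.left_inv (s4 ht)
  have hDdiff : ∀ d ∈ D, DifferentiableAt ℂ F.symm d := by
    rintro _ ⟨t, ht, rfl⟩
    have h1 : HasDerivAt F (deriv f t) (F.symm (F t)) := by
      rw [F.left_inv (s4 ht)]
      exact (s3 t ht).hasDerivAt
    exact (F.hasDerivAt_symm (F.map_source (s4 ht)) (s2 t ht) h1).differentiableAt
  have hDmem : ∀ d ∈ D, F.symm d ∈ Metric.ball w₀ r' := by
    rintro _ ⟨t, ht, rfl⟩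
    rw [F.left_inv (s4 ht)]
    exact ht
  -- the open cone
  set O1 : Set (Fin 3 → ℂ) := {u | ∃ hu : u ≠ 0,
    (Projectivization.mk ℂ u hu : ℙ ℂ (Fin 3 → ℂ)) ∉ C1_frBad w₀ r'} with hO1
  have hO1o : IsOpen O1 := by
    have h1 : O1 = Subtype.val '' ((fun z : {z : Fin 3 → ℂ // z ≠ 0} =>
        (Projectivization.mk ℂ z.1 z.2 : ℙ ℂ (Fin 3 → ℂ))) ⁻¹' (C1_frBad w₀ r')ᶜ) := by
      ext u
      constructor
      · rintro ⟨hu, h⟩
        exact ⟨⟨u, hu⟩, h, rfl⟩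
      · rintro ⟨⟨u, hu⟩, h, rfl⟩
        exact ⟨hu, h⟩
    rw [h1]
    have h2 : IsOpen {z : Fin 3 → ℂ | z ≠ 0} := isOpen_ne
    exact h2.isOpenMap_subtype_val _ ((C1_frBad_closed hT hc w₀ r').isOpen_compl.preimage hc)
  set O2 : Set (Fin 3 → ℂ) := {u | u b₀ ≠ 0} ∩ (fun u : Fin 3 → ℂ => u b₁ / u b₀) ⁻¹' D with hO2
  have hO2o : IsOpen O2 := by
    have h1 : IsOpen {u : Fin 3 → ℂ | u b₀ ≠ 0} :=
      isOpen_ne_fun (continuous_apply b₀) continuous_const
    refine ContinuousOn.isOpen_inter_preimage ?_ h1 hDo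
    intro u hu
    have h2 : ContinuousAt (fun u : Fin 3 → ℂ => u b₁ / u b₀) u :=
      ContinuousAt.div (f := fun u : Fin 3 → ℂ => u b₁) (g := fun u : Fin 3 → ℂ => u b₀)
        (continuous_apply b₁).continuousAt (continuous_apply b₀).continuousAt hu
    exact h2.continuousWithinAt
  have hUne : ∀ t ∈ Metric.ball w₀ r', U t ≠ 0 := by
    intro t ht h0
    apply s0 t ht
    rw [h0]
    rfl
  refine ⟨{
    r := r'
    r_pos := hr'
    U := U
    G := G
    σ := σ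
    c := c
    dU := dU.mono s5
    dG := dG.mono s5
    dσ := dσ.mono s5
    c_ne := fun t ht => c_ne t (s5 ht)
    U_eq := fun t ht => U_eq t (s5 ht)
    G_eq := fun t ht => G_eq t (s5 ht)
    σ_eq := fun t ht => σ_eq t (s5 ht)
    b₀ := b₀
    l₀ := l₀
    U_ne := s0
    G_ne := s1
    O := O1 ∩ O2
    O_open := hO1o.inter hO2o
    O_ne := fun u hu => hu.2.1
    T := fun u => F.symm (u b₁ / u b₀)
    dT := ?_
    cone := ?_
    T_mem := fun u hu => hDmem _ hu.2.2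
    T_U := ?_
    T_back := ?_
    type := ?_ }⟩
  · intro u hu
    have h1 : DifferentiableAt ℂ F.symm (u b₁ / u b₀) := hDdiff _ hu.2.2
    have h3 : u b₀ ≠ 0 := hu.2.1
    have h2 : DifferentiableAt ℂ (fun u : Fin 3 → ℂ => u b₁ / u b₀) u := by
      fun_prop (disch := assumption)
    exact (DifferentiableAt.comp u h1 h2).differentiableWithinAt
  · intro u hu a ha
    have hdiv : (a • u) b₁ / (a • u) b₀ = u b₁ / u b₀ := by
      simp only [Pi.smul_apply, smul_eq_mul]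
      exact mul_div_mul_left _ _ ha
    obtain ⟨⟨hu0, hu1⟩, hu2, hu3⟩ := hu
    refine ⟨⟨⟨smul_ne_zero ha hu0, ?_⟩, ?_, ?_⟩, ?_⟩
    · rw [C1_fr_mk_eq hu0 (smul_ne_zero ha hu0) a rfl]
      exact hu1
    · show (a • u) b₀ ≠ 0
      simp only [Pi.smul_apply, smul_eq_mul]
      exact mul_ne_zero ha hu2
    · show (a • u) b₁ / (a • u) b₀ ∈ D
      rw [hdiv]
      exact hu3
    · show F.symm ((a • u) b₁ / (a • u) b₀) = F.symm (u b₁ / u b₀)
      rw [hdiv]
  · intro t ht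
    refine ⟨⟨⟨hUne t ht, ?_⟩, s0 t ht, ⟨t, ht, rfl⟩⟩, hsymm t ht⟩
    rw [C1_fr_mk_eq (elU_ne t) (hUne t ht) (c t ^ 3) (U_eq t (s5 ht)), C1_frBad_iff, not_not]
    exact ⟨0, el_zero_mem, by rw [sub_zero]; exact ht⟩
  · rintro t ⟨⟨hu0, hu1⟩, hu2, hu3⟩
    have h1 : t ∈ C1_frBS w₀ r' := by
      by_contra h
      exact hu1 ((C1_frBad_iff w₀ r' t).2 h)
    obtain ⟨l, hl, hl2⟩ := h1
    have h3 : elU t = elU (t - l) := by
      have := el_period l hl (t - l)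
      rw [sub_add_cancel] at this
      exact this
    have h4 : elU t b₁ / elU t b₀ = f (t - l) := by
      show elU t b₁ / elU t b₀ = U (t - l) b₁ / U (t - l) b₀
      rw [h3, U_eq (t - l) (s5 hl2)]
      simp only [Pi.smul_apply, smul_eq_mul]
      exact (mul_div_mul_left _ _ (pow_ne_zero _ (c_ne _ (s5 hl2)))).symm
    show t - F.symm (elU t b₁ / elU t b₀) ∈ elS
    rw [h4, hsymm (t - l) hl2]
    have h5 : t - (t - l) = l := by ring
    rw [h5]
    exact hl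
  · rcases htype with h | ⟨h1, h2⟩
    · exact Or.inl fun t ht => h t (s5 ht)
    · exact Or.inr ⟨h1, fun t ht hne => h2 t (s5 ht) hne⟩

end Pool.Agent.Helper922.MR
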