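import Pool.Agent.Helper922.MR.Model

/-! Charts: membership, left inverse, differentiability. -/

open scoped LinearAlgebra.Projectivization

namespace Pool.Agent.Helper922.MR

variable {w₀ : ℂ}

theorem Eqn_cq (a : Fin 3) (x : Fin 3 → ℂ) (hx : x a = 1) (σ : ℂ) (ω : Fin 3 → ℂ) :
    Eqn x (cq a x σ ω) σ (ω a) := by
  unfold Eqn
  rw [← Finset.add_sum_erase _ _ (Finset.mem_univ a)]
  have h1 : ∑ i ∈ Finset.univ.erase a, x i ^ 3 * cq a x σ ω i =
      ∑ i ∈ Finset.univ.erase a, x i ^ 3 * ω i := by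
    apply Finset.sum_congr rfl
    intro i hi
    unfold cq
    rw [if_neg (Finset.ne_of_mem_erase hi)]
  have h2 : cq a x σ ω a = -(∑ j ∈ Finset.univ.erase a, x j ^ 3 * ω j +
      σ * (x 0 * x 1 * x 2) ^ 2 * ω a) := by
    unfold cq
    rw [if_pos rfl]
  rw [h1, h2, hx]
  ring

theorem Zv_frame (fr : Frame w₀) (t : ℂ) (ht : t ∈ Metric.ball w₀ fr.r) (x q : Fin 3 → ℂ) (s : ℂ) :
    Zv x (fr.U t) (fr.G t) (fr.c t • q) s = fr.c t ^ 6 • Zv x (elU t) (elG t) q s := by
  rw [fr.U_eq t ht, fr.G_eq t ht]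
  funext ⟨a, b, w⟩
  rcases w with ⟨i, k⟩ | ⟨i, l⟩
  · simp only [Zv, Sum.elim_inl, Pi.smul_apply, smul_eq_mul]
    ring
  · simp only [Zv, Sum.elim_inr, Pi.smul_apply, smul_eq_mul]
    ring

theorem Eqn_frame (fr : Frame w₀) (t : ℂ) (ht : t ∈ Metric.ball w₀ fr.r) (x q : Fin 3 → ℂ) (s : ℂ) :
    Eqn x (fr.c t • q) (fr.σ t) s ↔ Eqn x q (elsg t) s := by
  unfold Eqn
  rw [fr.σ_eq t ht]
  have e : ∑ i, x i ^ 3 * (fr.c t • q) i + fr.c t * elsg t * (x 0 * x 1 * x 2) ^ 2 * s =
      fr.c t * (∑ i, x i ^ 3 * q i + elsg t * (x 0 * x 1 * x 2) ^ 2 * s) := by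
    rw [mul_add, Finset.mul_sum]
    congr 1
    · apply Finset.sum_congr rfl
      intro i _
      simp only [Pi.smul_apply, smul_eq_mul]
      ring
    · ring
  rw [e, mul_eq_zero]
  constructor
  · intro h
    exact h.resolve_left (fr.c_ne t ht)
  · intro h
    exact Or.inr h

theorem mem_XX_of_frame (fr : Frame w₀) (t : ℂ) (ht : t ∈ Metric.ball w₀ fr.r) (x q : Fin 3 → ℂ)
    (s : ℂ) (hx : x ≠ 0) (hqs : q ≠ 0 ∨ s ≠ 0) (hE : Eqn x q (fr.σ t) s) :
    ∃ h : Zv x (fr.U t) (fr.G t) q s ≠ 0,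
      Projectivization.mk ℂ (Zv x (fr.U t) (fr.G t) q s) h ∈ XX := by
  have hc := fr.c_ne t ht
  have hq : fr.c t • ((fr.c t)⁻¹ • q) = q := by rw [smul_smul, mul_inv_cancel₀ hc, one_smul]
  have h1 := Zv_frame fr t ht x ((fr.c t)⁻¹ • q) s
  rw [hq] at h1
  have h2 : Eqn x ((fr.c t)⁻¹ • q) (elsg t) s := by
    rw [← Eqn_frame fr t ht, hq]
    exact hE
  have hqs' : (fr.c t)⁻¹ • q ≠ 0 ∨ s ≠ 0 := by
    rcases hqs with h | h
    · left
      exact smul_ne_zero (inv_ne_zero hc) h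
    · right
      exact h
  have hU : fr.U t ≠ 0 := by
    intro h
    exact fr.U_ne t ht (by rw [h]; rfl)
  have hG : fr.G t ≠ 0 := by
    intro h
    exact fr.G_ne t ht (by rw [h]; rfl)
  refine ⟨Zv_ne hx hU hG hqs, x, t, (fr.c t)⁻¹ • q, s, hx, hqs', h2, ?_⟩
  rw [Projectivization.mk_eq_mk_iff']
  exact ⟨fr.c t ^ 6, h1.symm⟩

theorem D1a_ins_same (a : Fin 3) (y : Fin 2 → ℂ) : ins a y a = 1 := by
  unfold ins
  rw [Fin.insertNth_apply_same]

theorem D1a_ins_succ (a : Fin 3) (y : Fin 2 → ℂ) (k : Fin 2) : ins a y (a.succAbove k) = y k := by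
  unfold ins
  rw [Fin.insertNth_apply_succAbove]

theorem chart_mem_XX (fr : Frame w₀) (a c : Fin 3) (v : P5) (hv : v ∈ dom fr) :
    ∃ h : chart fr a c v ≠ 0, Projectivization.mk ℂ (chart fr a c v) h ∈ XX := by
  unfold chart Psi
  apply mem_XX_of_frame fr v.2.1 hv
  · intro h
    have := congrFun h a
    rw [D1a_ins_same] at this
    exact one_ne_zero this
  · by_cases hca : c = a
    · right
      rw [← hca, D1a_ins_same]
      exact one_ne_zero
    · left
      intro h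
      have := congrFun h c
      unfold cq at this
      rw [if_neg hca, D1a_ins_same] at this
      exact one_ne_zero this
  · exact Eqn_cq a _ (D1a_ins_same a _) _ _

theorem D1a_Psi_wi (fr : Frame w₀) (a : Fin 3) (x : Fin 3 → ℂ) (hx : x a = 1) (t : ℂ) (ω : Fin 3 → ℂ)
    (a' b i : Fin 3) :
    Psi fr a x t ω (a', b, wi fr a i) = x a' * fr.U t b * (ω i * nrm fr a i t) := by
  unfold Psi Zv wi nrm
  by_cases h : i = a
  · subst h
    simp only [if_true, Sum.elim_inl]
    rw [hx]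
    ring
  · simp only [if_neg h, Sum.elim_inr]
    unfold cq
    rw [if_neg h]

theorem D1a_nrm_ne (fr : Frame w₀) (a i : Fin 3) (t : ℂ) (ht : t ∈ Metric.ball w₀ fr.r) :
    nrm fr a i t ≠ 0 := by
  unfold nrm
  split_ifs
  · exact fr.U_ne t ht
  · exact fr.G_ne t ht

theorem chart_mem_OO (fr : Frame w₀) (a c : Fin 3) (v : P5) (hv : v ∈ dom fr) :
    chart fr a c v ∈ OO fr a c ∧ chartInv fr a c (chart fr a c v) = v := by
  have ht : v.2.1 ∈ Metric.ball w₀ fr.r := hv
  have hz : ∀ a' b i, chart fr a c v (a', b, wi fr a i) =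
      ins a v.1 a' * fr.U v.2.1 b * (ins c v.2.2 i * nrm fr a i v.2.1) := fun a' b i =>
    D1a_Psi_wi fr a (ins a v.1) (D1a_ins_same a _) v.2.1 (ins c v.2.2) a' b i
  have hn := D1a_nrm_ne fr a c v.2.1 ht
  have hu : (fun b => chart fr a c v (a, b, wi fr a c)) = nrm fr a c v.2.1 • fr.U v.2.1 := by
    funext b
    rw [hz, D1a_ins_same, D1a_ins_same, Pi.smul_apply, smul_eq_mul]
    ring
  obtain ⟨k1, k2⟩ := fr.cone (fr.U v.2.1) (fr.T_U v.2.1 ht).1 _ hn
  rw [(fr.T_U v.2.1 ht).2] at k2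
  have hU := fr.U_ne v.2.1 ht
  constructor
  · unfold OO
    change (fun b => chart fr a c v (a, b, wi fr a c)) ∈ fr.O
    rw [hu]
    exact k1
  · unfold chartInv
    rw [hu, k2]
    refine Prod.ext ?_ (Prod.ext rfl ?_)
    · funext k
      change chart fr a c v (a.succAbove k, fr.b₀, wi fr a c) / chart fr a c v (a, fr.b₀, wi fr a c) =
        v.1 k
      rw [hz, hz, D1a_ins_same, D1a_ins_same, D1a_ins_succ]
      field_simp
    · funext k
      change chart fr a c v (a, fr.b₀, wi fr a (c.succAbove k)) / chart fr a c v (a, fr.b₀, wi fr a c) *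
        (nrm fr a c v.2.1 / nrm fr a (c.succAbove k) v.2.1) = v.2.2 k
      have hn' := D1a_nrm_ne fr a (c.succAbove k) v.2.1 ht
      rw [hz, hz, D1a_ins_same, D1a_ins_same, D1a_ins_succ]
      field_simp

theorem D1a_diff_ins1 (fr : Frame w₀) (a i : Fin 3) :
    DifferentiableOn ℂ (fun v : P5 => ins a v.1 i) (dom fr) := by
  rcases Fin.eq_self_or_eq_succAbove a i with h | ⟨j, h⟩
  · subst h
    simp only [D1a_ins_same]
    exact differentiableOn_const _
  · subst h
    simp only [D1a_ins_succ]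
    have : Differentiable ℂ (fun v : P5 => v.1 j) := by fun_prop
    exact this.differentiableOn

theorem D1a_diff_ins2 (fr : Frame w₀) (c i : Fin 3) :
    DifferentiableOn ℂ (fun v : P5 => ins c v.2.2 i) (dom fr) := by
  rcases Fin.eq_self_or_eq_succAbove c i with h | ⟨j, h⟩
  · subst h
    simp only [D1a_ins_same]
    exact differentiableOn_const _
  · subst h
    simp only [D1a_ins_succ]
    have : Differentiable ℂ (fun v : P5 => v.2.2 j) := by fun_prop
    exact this.differentiableOn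

theorem D1a_diff_comp21 (fr : Frame w₀) (f : ℂ → ℂ) (hf : DifferentiableOn ℂ f (Metric.ball w₀ fr.r)) :
    DifferentiableOn ℂ (fun v : P5 => f v.2.1) (dom fr) := by
  have h1 : Differentiable ℂ (fun v : P5 => v.2.1) := by fun_prop
  exact hf.comp h1.differentiableOn (fun v hv => hv)

theorem differentiableOn_chart (fr : Frame w₀) (a c : Fin 3) :
    DifferentiableOn ℂ (chart fr a c) (dom fr) := by
  rw [differentiableOn_pi]
  have hU : ∀ b, DifferentiableOn ℂ (fun v : P5 => fr.U v.2.1 b) (dom fr) := fun b =>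
    D1a_diff_comp21 fr (fun t => fr.U t b) (differentiableOn_pi.1 fr.dU b)
  have hG : ∀ b, DifferentiableOn ℂ (fun v : P5 => fr.G v.2.1 b) (dom fr) := fun b =>
    D1a_diff_comp21 fr (fun t => fr.G t b) (differentiableOn_pi.1 fr.dG b)
  have hσ : DifferentiableOn ℂ (fun v : P5 => fr.σ v.2.1) (dom fr) :=
    D1a_diff_comp21 fr fr.σ fr.dσ
  have hq : ∀ i, DifferentiableOn ℂ
      (fun v : P5 => cq a (ins a v.1) (fr.σ v.2.1) (ins c v.2.2) i) (dom fr) := by
    intro i
    unfold cq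
    by_cases h : i = a
    · simp only [if_pos h]
      apply DifferentiableOn.neg
      apply DifferentiableOn.add
      · apply DifferentiableOn.fun_sum
        intro j _
        exact ((D1a_diff_ins1 fr a j).pow 3).mul (D1a_diff_ins2 fr c j)
      · exact (hσ.mul ((((D1a_diff_ins1 fr a 0).mul (D1a_diff_ins1 fr a 1)).mul (D1a_diff_ins1 fr a 2)).pow 2)).mul
          (D1a_diff_ins2 fr c a)
    · simp only [if_neg h]
      exact D1a_diff_ins2 fr c i
  rintro ⟨a', b, w⟩
  rcases w with ⟨i, k⟩ | ⟨i, l⟩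
  · change DifferentiableOn ℂ (fun v : P5 => ins a v.1 a' * fr.U v.2.1 b *
      (ins a v.1 i ^ 3 * ins c v.2.2 a * fr.U v.2.1 k)) (dom fr)
    exact ((D1a_diff_ins1 fr a a').mul (hU b)).mul
      ((((D1a_diff_ins1 fr a i).pow 3).mul (D1a_diff_ins2 fr c a)).mul (hU k))
  · change DifferentiableOn ℂ (fun v : P5 => ins a v.1 a' * fr.U v.2.1 b *
      (cq a (ins a v.1) (fr.σ v.2.1) (ins c v.2.2) i * fr.G v.2.1 l)) (dom fr)
    exact ((D1a_diff_ins1 fr a a').mul (hU b)).mul ((hq i).mul (hG l))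

theorem isOpen_dom (fr : Frame w₀) : IsOpen (dom fr) := by
  have h1 : Continuous (fun v : P5 => v.2.1) := by fun_prop
  exact Metric.isOpen_ball.preimage h1

theorem isOpen_OO (fr : Frame w₀) (a c : Fin 3) : IsOpen (OO fr a c) := by
  have h1 : Continuous (fun (z : Idx → ℂ) (b : Fin 3) => z (a, b, wi fr a c)) := by fun_prop
  exact fr.O_open.preimage h1

theorem OO_cone (fr : Frame w₀) (a c : Fin 3) (z : Idx → ℂ) (hz : z ∈ OO fr a c) (b : ℂ)
    (hb : b ≠ 0) : b • z ∈ OO fr a c ∧ chartInv fr a c (b • z) = chartInv fr a c z := by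
  have e : (fun b' => (b • z) (a, b', wi fr a c)) = b • (fun b' => z (a, b', wi fr a c)) := rfl
  have hz' : (fun b' => z (a, b', wi fr a c)) ∈ fr.O := hz
  obtain ⟨k1, k2⟩ := fr.cone _ hz' b hb
  constructor
  · change (fun b' => (b • z) (a, b', wi fr a c)) ∈ fr.O
    rw [e]
    exact k1
  · unfold chartInv
    rw [e, k2]
    refine Prod.ext ?_ (Prod.ext rfl ?_)
    · funext k
      change (b * z (a.succAbove k, fr.b₀, wi fr a c)) / (b * z (a, fr.b₀, wi fr a c)) = _
      rw [mul_div_mul_left _ _ hb]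
    · funext k
      change (b * z (a, fr.b₀, wi fr a (c.succAbove k))) / (b * z (a, fr.b₀, wi fr a c)) * _ = _
      rw [mul_div_mul_left _ _ hb]

theorem D1a_ddiv258 {s : Set (Idx → ℂ)} {f g : (Idx → ℂ) → ℂ} (hf : DifferentiableOn ℂ f s)
    (hg : DifferentiableOn ℂ g s) (h : ∀ x ∈ s, g x ≠ 0) :
    DifferentiableOn ℂ (fun x => f x / g x) s := by
  simp only [div_eq_mul_inv]
  exact hf.mul (hg.inv h)

theorem D1a_diff_nrm (fr : Frame w₀) (a i : Fin 3) :
    DifferentiableOn ℂ (nrm fr a i) (Metric.ball w₀ fr.r) := by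
  unfold nrm
  by_cases h : i = a
  · simp only [if_pos h]
    exact differentiableOn_pi.1 fr.dU _
  · simp only [if_neg h]
    exact differentiableOn_pi.1 fr.dG _

theorem differentiableOn_chartInv (fr : Frame w₀) (a c : Fin 3) :
    DifferentiableOn ℂ (chartInv fr a c) (OO fr a c) := by
  have hlin : Differentiable ℂ (fun (z : Idx → ℂ) (b : Fin 3) => z (a, b, wi fr a c)) := by fun_prop
  have hT : DifferentiableOn ℂ (fun z : Idx → ℂ => fr.T (fun b => z (a, b, wi fr a c))) (OO fr a c) :=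
    fr.dT.comp hlin.differentiableOn (fun z hz => hz)
  have hco : ∀ p : Idx, DifferentiableOn ℂ (fun z : Idx → ℂ => z p) (OO fr a c) := by
    intro p
    have : Differentiable ℂ (fun z : Idx → ℂ => z p) := by fun_prop
    exact this.differentiableOn
  have hne : ∀ z ∈ OO fr a c, z (a, fr.b₀, wi fr a c) ≠ 0 := fun z hz =>
    fr.O_ne (fun b => z (a, b, wi fr a c)) hz
  have hnr : ∀ i, DifferentiableOn ℂ (fun z : Idx → ℂ =>
      nrm fr a i (fr.T (fun b => z (a, b, wi fr a c)))) (OO fr a c) := fun i =>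
    (D1a_diff_nrm fr a i).comp hT (fun z hz => fr.T_mem _ hz)
  unfold chartInv
  apply DifferentiableOn.prodMk
  · rw [differentiableOn_pi]
    intro k
    exact D1a_ddiv258 (hco _) (hco _) hne
  · apply DifferentiableOn.prodMk hT
    rw [differentiableOn_pi]
    intro k
    exact (D1a_ddiv258 (hco _) (hco _) hne).mul (D1a_ddiv258 (hnr c) (hnr _) (fun z hz =>
      D1a_nrm_ne fr a _ _ (fr.T_mem _ hz)))

end Pool.Agent.Helper922.MR
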