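import Pool.Agent.Helper922.MR.Model

/-! Charts: the image is everything near a point. -/

open scoped LinearAlgebra.Projectivization

namespace Pool.Agent.Helper922.MR

variable {w₀ : ℂ}

theorem Zv_scale (x U : Fin 3 → ℂ) (G : Fin 2 → ℂ) (q : Fin 3 → ℂ) (s l μ : ℂ) :
    Zv (l • x) U G ((l ^ 3 * μ) • q) (μ * s) = (l ^ 4 * μ) • Zv x U G q s := by
  funext p
  rcases p with ⟨p1, p2, p3 | p3⟩
  · simp only [Zv, Sum.elim_inl, Pi.smul_apply, smul_eq_mul]
    ring
  · simp only [Zv, Sum.elim_inr, Pi.smul_apply, smul_eq_mul]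
    ring

theorem D1b_Zv_frame (x U : Fin 3 → ℂ) (G : Fin 2 → ℂ) (q : Fin 3 → ℂ) (s c : ℂ) :
    Zv x (c ^ 3 • U) (c ^ 2 • G) (c • q) s = c ^ 6 • Zv x U G q s := by
  funext p
  rcases p with ⟨p1, p2, p3 | p3⟩
  · simp only [Zv, Sum.elim_inl, Pi.smul_apply, smul_eq_mul]
    ring
  · simp only [Zv, Sum.elim_inr, Pi.smul_apply, smul_eq_mul]
    ring

theorem D1b_ins_div (a : Fin 3) (x : Fin 3 → ℂ) (hx : x a ≠ 0) :
    ins a (fun k => x (a.succAbove k) / x a) = (x a)⁻¹ • x := by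
  funext j
  unfold ins
  rcases Fin.eq_self_or_eq_succAbove a j with rfl | ⟨k, rfl⟩
  · rw [Fin.insertNth_apply_same, Pi.smul_apply, smul_eq_mul, inv_mul_cancel₀ hx]
  · rw [Fin.insertNth_apply_succAbove, Pi.smul_apply, smul_eq_mul, div_eq_inv_mul]

/-- the reduced vertical coordinates -/
def D1b_om (a : Fin 3) (x q : Fin 3 → ℂ) (s : ℂ) : Fin 3 → ℂ := fun i =>
  if i = a then x a ^ 3 * s else q i

theorem D1b_cq_om (a : Fin 3) (x q : Fin 3 → ℂ) (σ s w : ℂ) (hx : x a ≠ 0) (hE : Eqn x q σ s) :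
    cq a ((x a)⁻¹ • x) σ (w • D1b_om a x q s) = w • q := by
  funext i
  unfold cq
  by_cases hi : i = a
  · subst hi
    rw [if_pos rfl]
    unfold Eqn at hE
    rw [← Finset.add_sum_erase Finset.univ _ (Finset.mem_univ i)] at hE
    have h1 : ∑ j ∈ Finset.univ.erase i, ((x i)⁻¹ • x) j ^ 3 * (w • D1b_om i x q s) j =
        (x i)⁻¹ ^ 3 * w * ∑ j ∈ Finset.univ.erase i, x j ^ 3 * q j := by
      rw [Finset.mul_sum]
      apply Finset.sum_congr rfl
      intro j hj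
      have hji : j ≠ i := Finset.ne_of_mem_erase hj
      simp only [D1b_om, Pi.smul_apply, smul_eq_mul, if_neg hji]
      ring
    rw [h1]
    simp only [D1b_om, Pi.smul_apply, smul_eq_mul, if_true]
    have h2 : ∑ j ∈ Finset.univ.erase i, x j ^ 3 * q j =
        -(x i ^ 3 * q i + σ * (x 0 * x 1 * x 2) ^ 2 * s) := by linear_combination hE
    rw [h2]
    field_simp
    ring
  · rw [if_neg hi]
    simp only [D1b_om, Pi.smul_apply, smul_eq_mul, if_neg hi]

theorem D1b_chart_om (fr : Frame w₀) (a c : Fin 3) (x q : Fin 3 → ℂ) (t s : ℂ) (hx : x a ≠ 0)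
    (hc : D1b_om a x q s c ≠ 0) (hE : Eqn x q (fr.σ t) s) :
    chart fr a c (fun k => x (a.succAbove k) / x a, t,
      fun k => D1b_om a x q s (c.succAbove k) / D1b_om a x q s c) =
    ((x a)⁻¹ ^ 4 * (x a ^ 3 * (D1b_om a x q s c)⁻¹)) • Zv x (fr.U t) (fr.G t) q s := by
  unfold chart Psi
  show Zv (ins a fun k => x (a.succAbove k) / x a) (fr.U t) (fr.G t)
    (cq a (ins a fun k => x (a.succAbove k) / x a) (fr.σ t)
      (ins c fun k => D1b_om a x q s (c.succAbove k) / D1b_om a x q s c))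
    (ins c (fun k => D1b_om a x q s (c.succAbove k) / D1b_om a x q s c) a) = _
  rw [D1b_ins_div a x hx, D1b_ins_div c _ hc, D1b_cq_om a x q _ s _ hx hE, ← Zv_scale]
  congr 1
  · congr 1
    field_simp
  · simp only [D1b_om, Pi.smul_apply, smul_eq_mul, if_true]
    ring

theorem D1b_frame_Eqn (fr : Frame w₀) (x q : Fin 3 → ℂ) (t s : ℂ) (ht : t ∈ Metric.ball w₀ fr.r)
    (hE : Eqn x q (elsg t) s) : Eqn x (fr.c t • q) (fr.σ t) s := by
  unfold Eqn at *
  rw [fr.σ_eq t ht]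
  have h1 : ∑ i, x i ^ 3 * (fr.c t • q) i = fr.c t * ∑ i, x i ^ 3 * q i := by
    rw [Finset.mul_sum]
    apply Finset.sum_congr rfl
    intro i _
    simp only [Pi.smul_apply, smul_eq_mul]
    ring
  rw [h1]
  linear_combination fr.c t * hE

theorem D1b_frame_Zv (fr : Frame w₀) (x q : Fin 3 → ℂ) (t s : ℂ) (ht : t ∈ Metric.ball w₀ fr.r) :
    Zv x (fr.U t) (fr.G t) (fr.c t • q) s = fr.c t ^ 6 • Zv x (elU t) (elG t) q s := by
  rw [fr.U_eq t ht, fr.G_eq t ht, D1b_Zv_frame]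

theorem D1b_Zv_wi (fr : Frame w₀) (a a' b i : Fin 3) (x q : Fin 3 → ℂ) (t s : ℂ) :
    Zv x (fr.U t) (fr.G t) q s (a', b, wi fr a i) =
      x a' * fr.U t b * (D1b_om a x q s i * nrm fr a i t) := by
  unfold Zv wi D1b_om nrm
  by_cases hi : i = a
  · simp only [if_pos hi, Sum.elim_inl]
  · simp only [if_neg hi, Sum.elim_inr]

theorem chart_back (fr : Frame w₀) (a c : Fin 3) (z : Idx → ℂ) (hz : z ∈ OO fr a c) (hz0 : z ≠ 0)
    (hX : Projectivization.mk ℂ z hz0 ∈ XX) :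
    chartInv fr a c z ∈ dom fr ∧ ∃ b : ℂ, b ≠ 0 ∧ chart fr a c (chartInv fr a c z) = b • z := by
  obtain ⟨x, t', q, s, hx, hqs, hE, heq⟩ := hX
  rw [Projectivization.mk_eq_mk_iff'] at heq
  obtain ⟨lam, hlam⟩ := heq
  have hlam0 : lam ≠ 0 := by
    rintro rfl
    rw [zero_smul] at hlam
    exact hz0 hlam.symm
  have hzO : (fun b => z (a, b, wi fr a c)) ∈ fr.O := hz
  obtain ⟨u, hu⟩ : ∃ u : Fin 3 → ℂ, u = fun b => z (a, b, wi fr a c) := ⟨_, rfl⟩
  rw [← hu] at hzO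
  obtain ⟨W, hW⟩ : ∃ W : ℂ, W = Sum.elim (fun ik : Fin 3 × Fin 3 => x ik.1 ^ 3 * s * elU t' ik.2)
    (fun il : Fin 3 × Fin 2 => q il.1 * elG t' il.2) (wi fr a c) := ⟨_, rfl⟩
  have hu2 : u = (lam * x a * W) • elU t' := by
    rw [hu]
    funext b
    rw [← hlam, hW]
    simp only [Zv, Pi.smul_apply, smul_eq_mul]
    ring
  have hub := fr.O_ne u hzO
  have hk0 : lam * x a * W ≠ 0 := by
    intro h0
    rw [hu2, h0, zero_smul] at hub
    exact hub rfl
  have hcone := fr.cone u hzO (lam * x a * W)⁻¹ (inv_ne_zero hk0)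
  have e1 : (lam * x a * W)⁻¹ • u = elU t' := by
    rw [hu2, smul_smul, inv_mul_cancel₀ hk0, one_smul]
  rw [e1] at hcone
  obtain ⟨t, ht⟩ : ∃ t : ℂ, t = fr.T u := ⟨_, rfl⟩
  have htb : t ∈ Metric.ball w₀ fr.r := by rw [ht]; exact fr.T_mem u hzO
  have hper := fr.T_back t' hcone.1
  rw [hcone.2, ← ht] at hper
  have et : t + (t' - t) = t' := by ring
  have eU : elU t' = elU t := by
    have := el_period _ hper t
    rwa [et] at this
  have eG : elG t' = elG t := by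
    have := elG_period _ hper t
    rwa [et] at this
  have eσ : elsg t' = elsg t := by
    have := elsg_period _ hper t
    rwa [et] at this
  rw [eU, eG] at hlam
  rw [eσ] at hE
  have hc0 := fr.c_ne t htb
  have hE' := D1b_frame_Eqn fr x q t s htb hE
  have hZ := D1b_frame_Zv fr x q t s htb
  obtain ⟨q', hq'⟩ : ∃ q' : Fin 3 → ℂ, q' = fr.c t • q := ⟨_, rfl⟩
  rw [← hq'] at hE' hZ
  obtain ⟨κ, hκ⟩ : ∃ κ : ℂ, κ = lam * (fr.c t ^ 6)⁻¹ := ⟨_, rfl⟩
  have hκ0 : κ ≠ 0 := by rw [hκ]; exact mul_ne_zero hlam0 (inv_ne_zero (pow_ne_zero 6 hc0))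
  have hzk : z = κ • Zv x (fr.U t) (fr.G t) q' s := by
    rw [hZ, smul_smul, hκ, mul_assoc, inv_mul_cancel₀ (pow_ne_zero 6 hc0), mul_one, hlam]
  have hcoord : ∀ a' b i : Fin 3, z (a', b, wi fr a i) =
      κ * (x a' * fr.U t b * (D1b_om a x q' s i * nrm fr a i t)) := by
    intro a' b i
    rw [hzk, Pi.smul_apply, D1b_Zv_wi, smul_eq_mul]
  have hnrm : ∀ i, nrm fr a i t ≠ 0 := by
    intro i
    unfold nrm
    split_ifs
    · exact fr.U_ne t htb
    · exact fr.G_ne t htb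
  have hub2 : z (a, fr.b₀, wi fr a c) ≠ 0 := by
    rw [hu] at hub
    exact hub
  rw [hcoord] at hub2
  have hxa : x a ≠ 0 := by
    intro h0
    apply hub2
    rw [h0]; ring
  have hωc : D1b_om a x q' s c ≠ 0 := by
    intro h0
    apply hub2
    rw [h0]; ring
  have hUb := fr.U_ne t htb
  have hinv : chartInv fr a c z = (fun k => x (a.succAbove k) / x a, t,
      fun k => D1b_om a x q' s (c.succAbove k) / D1b_om a x q' s c) := by
    unfold chartInv
    rw [← hu, ← ht]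
    refine Prod.ext ?_ (Prod.ext rfl ?_)
    · funext k
      show z (a.succAbove k, fr.b₀, wi fr a c) / z (a, fr.b₀, wi fr a c) = _
      rw [hcoord, hcoord]
      have h1 := hnrm c
      field_simp
    · funext k
      show z (a, fr.b₀, wi fr a (c.succAbove k)) / z (a, fr.b₀, wi fr a c) *
        (nrm fr a c t / nrm fr a (c.succAbove k) t) = _
      rw [hcoord, hcoord]
      have h1 := hnrm c
      have h2 := hnrm (c.succAbove k)
      field_simp
  refine ⟨?_, ?_⟩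
  · rw [hinv]
    exact htb
  · refine ⟨(x a)⁻¹ ^ 4 * (x a ^ 3 * (D1b_om a x q' s c)⁻¹) * κ⁻¹, ?_, ?_⟩
    · exact mul_ne_zero (mul_ne_zero (pow_ne_zero 4 (inv_ne_zero hxa))
        (mul_ne_zero (pow_ne_zero 3 hxa) (inv_ne_zero hωc))) (inv_ne_zero hκ0)
    · rw [hinv, D1b_chart_om fr a c x q' t s hxa hωc hE', hzk, smul_smul, mul_assoc _ κ⁻¹,
        inv_mul_cancel₀ hκ0, mul_one]

theorem XX_cover (hF : ∀ w : ℂ, Nonempty (Frame w)) (p : ℙ ℂ (Idx → ℂ)) (hp : p ∈ XX) :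
    ∃ (w₀ : ℂ) (fr : Frame w₀) (a c : Fin 3) (v : P5) (_ : v ∈ dom fr)
      (h : chart fr a c v ≠ 0), Projectivization.mk ℂ (chart fr a c v) h = p := by
  obtain ⟨x, t, q, s, hx, hqs, hE, rfl⟩ := hp
  obtain ⟨fr⟩ := hF t
  obtain ⟨a, ha⟩ := Function.ne_iff.mp hx
  rw [Pi.zero_apply] at ha
  have htb : t ∈ Metric.ball t fr.r := Metric.mem_ball_self fr.r_pos
  have hc0 := fr.c_ne t htb
  have hE' := D1b_frame_Eqn fr x q t s htb hE
  have hZ := D1b_frame_Zv fr x q t s htb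
  obtain ⟨q', hq'⟩ : ∃ q' : Fin 3 → ℂ, q' = fr.c t • q := ⟨_, rfl⟩
  rw [← hq'] at hE' hZ
  have hex : ∃ c, D1b_om a x q' s c ≠ 0 := by
    by_contra hcon
    push Not at hcon
    have hs : s = 0 := by
      have h1 := hcon a
      simp only [D1b_om, if_true] at h1
      exact (mul_eq_zero.1 h1).resolve_left (pow_ne_zero 3 ha)
    have hqi : ∀ i, i ≠ a → q' i = 0 := by
      intro i hi
      have h1 := hcon i
      simpa only [D1b_om, if_neg hi] using h1
    have hqa : q' a = 0 := by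
      unfold Eqn at hE'
      rw [hs, mul_zero, add_zero, Finset.sum_eq_single a] at hE'
      · exact (mul_eq_zero.1 hE').resolve_left (pow_ne_zero 3 ha)
      · intro j _ hj
        rw [hqi j hj, mul_zero]
      · intro h
        exact absurd (Finset.mem_univ a) h
    have hq0 : q = 0 := by
      funext i
      have h1 : q' i = 0 := by
        by_cases hi : i = a
        · rw [hi]; exact hqa
        · exact hqi i hi
      rw [hq', Pi.smul_apply, smul_eq_mul] at h1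
      exact (mul_eq_zero.1 h1).resolve_left hc0
    rcases hqs with h | h
    · exact h hq0
    · exact h hs
  obtain ⟨c, hc⟩ := hex
  have hch := D1b_chart_om fr a c x q' t s ha hc hE'
  rw [hZ, smul_smul] at hch
  have hk0 : (x a)⁻¹ ^ 4 * (x a ^ 3 * (D1b_om a x q' s c)⁻¹) * fr.c t ^ 6 ≠ 0 :=
    mul_ne_zero (mul_ne_zero (pow_ne_zero 4 (inv_ne_zero ha))
        (mul_ne_zero (pow_ne_zero 3 ha) (inv_ne_zero hc))) (pow_ne_zero 6 hc0)
  have hne : chart fr a c (fun k => x (a.succAbove k) / x a, t,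
      fun k => D1b_om a x q' s (c.succAbove k) / D1b_om a x q' s c) ≠ 0 := by
    rw [hch]
    exact smul_ne_zero hk0 (Zv_ne hx (elU_ne t) (elG_ne t) hqs)
  refine ⟨t, fr, a, c, (fun k => x (a.succAbove k) / x a, t,
      fun k => D1b_om a x q' s (c.succAbove k) / D1b_om a x q' s c), htb, hne, ?_⟩
  rw [Projectivization.mk_eq_mk_iff']
  exact ⟨_, hch.symm⟩

end Pool.Agent.Helper922.MR
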