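import Pool.Agent.Helper922.MR.Model2

/-! `XX` is compact. -/

open scoped LinearAlgebra.Projectivization

namespace Pool.Agent.Helper922.MR

theorem D4_isCompact_XX_scale (x U : Fin 3 → ℂ) (G : Fin 2 → ℂ) (q : Fin 3 → ℂ) (s l μ : ℂ) :
    Zv (l • x) U G (μ • l ^ 3 • q) (μ * s) = (μ * l ^ 4) • Zv x U G q s := by
  funext p
  rcases p with ⟨p1, p2, p3 | p3⟩
  · simp only [Zv, Sum.elim_inl, Pi.smul_apply, smul_eq_mul]
    ring
  · simp only [Zv, Sum.elim_inr, Pi.smul_apply, smul_eq_mul]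
    ring

theorem D4_isCompact_XX_eqn {x q : Fin 3 → ℂ} {σ s : ℂ} (h : Eqn x q σ s) (l μ : ℂ) :
    Eqn (l • x) (μ • l ^ 3 • q) σ (μ * s) := by
  unfold Eqn at h ⊢
  simp only [Pi.smul_apply, smul_eq_mul, Fin.sum_univ_three] at h ⊢
  linear_combination (μ * l ^ 6) * h

theorem isCompact_XX (hF : ∀ w : ℂ, Nonempty (Frame w))
    (hc : Continuous
      (fun z : {z : Idx → ℂ // z ≠ 0} => (Projectivization.mk ℂ z.1 z.2 : ℙ ℂ (Idx → ℂ))))
    (hmem : ∀ (w₀ : ℂ) (fr : Frame w₀) (t : ℂ), t ∈ Metric.ball w₀ fr.r → ∀ (x q : Fin 3 → ℂ)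
      (s : ℂ), x ≠ 0 → (q ≠ 0 ∨ s ≠ 0) → Eqn x q (fr.σ t) s →
      ∃ h : Zv x (fr.U t) (fr.G t) q s ≠ 0,
        Projectivization.mk ℂ (Zv x (fr.U t) (fr.G t) q s) h ∈ XX)
    (hZ : ∀ (w₀ : ℂ) (fr : Frame w₀) (t : ℂ), t ∈ Metric.ball w₀ fr.r → ∀ (x q : Fin 3 → ℂ) (s : ℂ),
      Zv x (fr.U t) (fr.G t) (fr.c t • q) s = fr.c t ^ 6 • Zv x (elU t) (elG t) q s)
    (hE : ∀ (w₀ : ℂ) (fr : Frame w₀) (t : ℂ), t ∈ Metric.ball w₀ fr.r → ∀ (x q : Fin 3 → ℂ) (s : ℂ),
      Eqn x (fr.c t • q) (fr.σ t) s ↔ Eqn x q (elsg t) s) :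
    IsCompact XX := by
  classical
  have fr : ∀ w, Frame w := fun w => (hF w).some
  -- the compact pieces
  set KK : ∀ w : ℂ, Set ((Fin 3 → ℂ) × ℂ × ((Fin 3 → ℂ) × ℂ)) := fun w =>
    (Metric.sphere 0 1 ×ˢ (Metric.closedBall w ((fr w).r / 2) ×ˢ Metric.sphere 0 1)) ∩
      (fun k => ∑ i, k.1 i ^ 3 * k.2.2.1 i + (fr w).σ k.2.1 * (k.1 0 * k.1 1 * k.1 2) ^ 2 * k.2.2.2)
        ⁻¹' {0} with hKK
  have hball : ∀ w, Metric.closedBall w ((fr w).r / 2) ⊆ Metric.ball w (fr w).r := fun w =>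
    Metric.closedBall_subset_ball (by have := (fr w).r_pos; linarith)
  have hBc : ∀ w, IsCompact ((Metric.sphere (0 : Fin 3 → ℂ) 1) ×ˢ
      (Metric.closedBall w ((fr w).r / 2) ×ˢ (Metric.sphere (0 : (Fin 3 → ℂ) × ℂ) 1))) := fun w =>
    (isCompact_sphere _ _).prod ((isCompact_closedBall _ _).prod (isCompact_sphere _ _))
  have hfst : ∀ w, Set.MapsTo (fun k : (Fin 3 → ℂ) × ℂ × ((Fin 3 → ℂ) × ℂ) => k.2.1)
      ((Metric.sphere (0 : Fin 3 → ℂ) 1) ×ˢ
      (Metric.closedBall w ((fr w).r / 2) ×ˢ (Metric.sphere (0 : (Fin 3 → ℂ) × ℂ) 1)))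
      (Metric.ball w (fr w).r) := fun w k hk => hball w hk.2.1
  have ht : Continuous (fun k : (Fin 3 → ℂ) × ℂ × ((Fin 3 → ℂ) × ℂ) => k.2.1) := by fun_prop
  have hcomp : ∀ w, IsCompact (KK w) := by
    intro w
    refine (hBc w).of_isClosed_subset ?_ Set.inter_subset_left
    refine ContinuousOn.preimage_isClosed_of_isClosed ?_ (hBc w).isClosed isClosed_singleton
    have hσ : ContinuousOn (fun k : (Fin 3 → ℂ) × ℂ × ((Fin 3 → ℂ) × ℂ) => (fr w).σ k.2.1)
        ((Metric.sphere (0 : Fin 3 → ℂ) 1) ×ˢ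
          (Metric.closedBall w ((fr w).r / 2) ×ˢ (Metric.sphere (0 : (Fin 3 → ℂ) × ℂ) 1))) :=
      (fr w).dσ.continuousOn.comp ht.continuousOn (hfst w)
    refine ContinuousOn.add ?_ ?_
    · exact Continuous.continuousOn (by fun_prop)
    · refine ContinuousOn.mul (ContinuousOn.mul hσ ?_) ?_
      · exact Continuous.continuousOn (by fun_prop)
      · exact Continuous.continuousOn (by fun_prop)
  have hg : ∀ w, ContinuousOn (fun k : (Fin 3 → ℂ) × ℂ × ((Fin 3 → ℂ) × ℂ) =>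
      Zv k.1 ((fr w).U k.2.1) ((fr w).G k.2.1) k.2.2.1 k.2.2.2) (KK w) := by
    intro w
    have hU : ∀ j, ContinuousOn (fun k : (Fin 3 → ℂ) × ℂ × ((Fin 3 → ℂ) × ℂ) => (fr w).U k.2.1 j)
        (KK w) := by
      intro j
      have h1 : ContinuousOn (fun t => (fr w).U t j) (Metric.ball w (fr w).r) :=
        (continuous_apply j).comp_continuousOn (fr w).dU.continuousOn
      exact h1.comp ht.continuousOn ((hfst w).mono_left Set.inter_subset_left)
    have hGc : ∀ j, ContinuousOn (fun k : (Fin 3 → ℂ) × ℂ × ((Fin 3 → ℂ) × ℂ) => (fr w).G k.2.1 j)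
        (KK w) := by
      intro j
      have h1 : ContinuousOn (fun t => (fr w).G t j) (Metric.ball w (fr w).r) :=
        (continuous_apply j).comp_continuousOn (fr w).dG.continuousOn
      exact h1.comp ht.continuousOn ((hfst w).mono_left Set.inter_subset_left)
    rw [continuousOn_pi]
    rintro ⟨p1, p2, p3 | p3⟩
    · simp only [Zv, Sum.elim_inl]
      refine ContinuousOn.mul (ContinuousOn.mul ?_ (hU p2)) (ContinuousOn.mul ?_ (hU _))
      · exact Continuous.continuousOn (by fun_prop)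
      · exact Continuous.continuousOn (by fun_prop)
    · simp only [Zv, Sum.elim_inr]
      refine ContinuousOn.mul (ContinuousOn.mul ?_ (hU p2)) (ContinuousOn.mul ?_ (hGc _))
      · exact Continuous.continuousOn (by fun_prop)
      · exact Continuous.continuousOn (by fun_prop)
  have hne : ∀ w, ∀ k ∈ KK w, k.1 ≠ 0 ∧ (k.2.2.1 ≠ 0 ∨ k.2.2.2 ≠ 0) ∧
      k.2.1 ∈ Metric.ball w (fr w).r ∧ Eqn k.1 k.2.2.1 ((fr w).σ k.2.1) k.2.2.2 := by
    rintro w k ⟨⟨h1, h2, h3⟩, h4⟩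
    refine ⟨?_, ?_, hball w h2, h4⟩
    · intro h0
      rw [mem_sphere_zero_iff_norm, h0, norm_zero] at h1
      exact zero_ne_one h1
    · by_contra hcon
      push Not at hcon
      have h0 : k.2.2 = 0 := Prod.ext hcon.1 hcon.2
      rw [mem_sphere_zero_iff_norm, h0, norm_zero] at h3
      exact zero_ne_one h3
  have hZne : ∀ w, ∀ k ∈ KK w, Zv k.1 ((fr w).U k.2.1) ((fr w).G k.2.1) k.2.2.1 k.2.2.2 ≠ 0 := by
    intro w k hk
    obtain ⟨h1, h2, h3, h4⟩ := hne w k hk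
    exact (hmem w (fr w) k.2.1 h3 k.1 k.2.2.1 k.2.2.2 h1 h2 h4).1
  set Φ : ∀ w : ℂ, KK w → ℙ ℂ (Idx → ℂ) := fun w k =>
    Projectivization.mk ℂ (Zv k.1.1 ((fr w).U k.1.2.1) ((fr w).G k.1.2.1) k.1.2.2.1 k.1.2.2.2)
      (hZne w k.1 k.2) with hΦ
  have hΦc : ∀ w, Continuous (Φ w) := by
    intro w
    have h1 : Continuous (fun k : KK w => (⟨Zv k.1.1 ((fr w).U k.1.2.1) ((fr w).G k.1.2.1)
        k.1.2.2.1 k.1.2.2.2, hZne w k.1 k.2⟩ : {z : Idx → ℂ // z ≠ 0})) :=
      Continuous.subtype_mk ((hg w).domRestrict) _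
    exact hc.comp h1
  have hΦcomp : ∀ w, IsCompact (Set.range (Φ w)) := by
    intro w
    have : CompactSpace (KK w) := isCompact_iff_compactSpace.mp (hcomp w)
    exact isCompact_range (hΦc w)
  have hΦX : ∀ w, Set.range (Φ w) ⊆ XX := by
    rintro w _ ⟨k, rfl⟩
    obtain ⟨h1, h2, h3, h4⟩ := hne w k.1 k.2
    exact (hmem w (fr w) k.1.2.1 h3 k.1.1 k.1.2.2.1 k.1.2.2.2 h1 h2 h4).2
  -- the fundamental domain
  set Q : Set ℂ := Metric.closedBall 0 2 with hQ
  have hQc : IsCompact Q := isCompact_closedBall _ _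
  obtain ⟨F, hFQ⟩ := hQc.elim_finite_subcover (fun w : ℂ => Metric.ball w ((fr w).r / 2))
    (fun w => Metric.isOpen_ball) (fun t _ => Set.mem_iUnion.mpr
      ⟨t, Metric.mem_ball_self (by have := (fr t).r_pos; linarith)⟩)
  have hXX : XX = ⋃ w ∈ F, Set.range (Φ w) := by
    apply Set.Subset.antisymm
    · rintro p ⟨x, t, q, s, hx, hqs, hE0, rfl⟩
      set l₀ : ℂ := -((⌊t.re⌋ : ℂ) + (⌊t.im⌋ : ℂ) * Complex.I) with hl₀
      have hl₀S : l₀ ∈ elS := by
        show l₀ ∈ elL.lattice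
        rw [PeriodPair.mem_lattice]
        refine ⟨-⌊t.re⌋, -⌊t.im⌋, ?_⟩
        show ((-⌊t.re⌋ : ℤ) : ℂ) * 1 + ((-⌊t.im⌋ : ℤ) : ℂ) * Complex.I = l₀
        rw [hl₀]
        push_cast
        ring
      set t₁ : ℂ := t + l₀ with ht₁
      have ht₁Q : t₁ ∈ Q := by
        have hre : t₁.re = Int.fract t.re := by
          rw [← Int.self_sub_floor, ht₁, hl₀]
          simp only [Complex.add_re, Complex.neg_re, Complex.mul_re, Complex.intCast_re,
            Complex.intCast_im, Complex.I_re, Complex.I_im]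
          ring
        have him : t₁.im = Int.fract t.im := by
          rw [← Int.self_sub_floor, ht₁, hl₀]
          simp only [Complex.add_im, Complex.neg_im, Complex.mul_im, Complex.intCast_re,
            Complex.intCast_im, Complex.I_re, Complex.I_im]
          ring
        rw [hQ, mem_closedBall_zero_iff]
        calc ‖t₁‖ ≤ |t₁.re| + |t₁.im| := Complex.norm_le_abs_re_add_abs_im t₁
          _ ≤ 1 + 1 := by
            rw [hre, him, abs_of_nonneg (Int.fract_nonneg _), abs_of_nonneg (Int.fract_nonneg _)]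
            exact add_le_add (Int.fract_lt_one _).le (Int.fract_lt_one _).le
          _ = 2 := by norm_num
      obtain ⟨w, hwF, hw⟩ : ∃ w ∈ F, t₁ ∈ Metric.ball w ((fr w).r / 2) := by
        have := hFQ ht₁Q
        simp only [Set.mem_iUnion, exists_prop] at this
        exact this
      have hwb : t₁ ∈ Metric.ball w (fr w).r :=
        Metric.ball_subset_ball (by have := (fr w).r_pos; linarith) hw
      have hcne := (fr w).c_ne t₁ hwb
      have hUt : elU t₁ = elU t := el_period l₀ hl₀S t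
      have hGt : elG t₁ = elG t := elG_period l₀ hl₀S t
      have hst : elsg t₁ = elsg t := elsg_period l₀ hl₀S t
      have hE1 : Eqn x ((fr w).c t₁ • q) ((fr w).σ t₁) s := by
        rw [hE w (fr w) t₁ hwb, hst]
        exact hE0
      set l : ℂ := ((‖x‖⁻¹ : ℝ) : ℂ) with hl
      have hxn : 0 < ‖x‖ := norm_pos_iff.mpr hx
      have hlne : l ≠ 0 := by
        rw [hl]
        exact_mod_cast (inv_pos.mpr hxn).ne'
      have hlx : ‖l • x‖ = 1 := by
        rw [norm_smul, hl, Complex.norm_real, Real.norm_of_nonneg (inv_pos.mpr hxn).le,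
          inv_mul_cancel₀ hxn.ne']
      set v : (Fin 3 → ℂ) × ℂ := (l ^ 3 • ((fr w).c t₁ • q), s) with hv
      have hvne : v ≠ 0 := by
        intro h0
        have h1 : l ^ 3 • ((fr w).c t₁ • q) = 0 := congrArg Prod.fst h0
        have h2 : s = 0 := congrArg Prod.snd h0
        rcases hqs with h | h
        · rw [smul_eq_zero, smul_eq_zero] at h1
          rcases h1 with h1 | h1 | h1
          · exact pow_ne_zero 3 hlne h1
          · exact hcne h1
          · exact h h1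
        · exact h h2
      have hvn : 0 < ‖v‖ := norm_pos_iff.mpr hvne
      set μ : ℂ := ((‖v‖⁻¹ : ℝ) : ℂ) with hμ
      have hμne : μ ≠ 0 := by
        rw [hμ]
        exact_mod_cast (inv_pos.mpr hvn).ne'
      have hμv : ‖μ • v‖ = 1 := by
        rw [norm_smul, hμ, Complex.norm_real, Real.norm_of_nonneg (inv_pos.mpr hvn).le,
          inv_mul_cancel₀ hvn.ne']
      have hE2 := D4_isCompact_XX_eqn hE1 l μ
      have hk : ((l • x, t₁, μ • v) : (Fin 3 → ℂ) × ℂ × ((Fin 3 → ℂ) × ℂ)) ∈ KK w := by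
        refine ⟨⟨?_, ?_, ?_⟩, ?_⟩
        · rw [mem_sphere_zero_iff_norm]; exact hlx
        · exact Metric.ball_subset_closedBall hw
        · rw [mem_sphere_zero_iff_norm]; exact hμv
        · exact hE2
      refine Set.mem_iUnion₂.mpr ⟨w, hwF, ⟨_, hk⟩, ?_⟩
      simp only [hΦ]
      rw [Projectivization.mk_eq_mk_iff']
      refine ⟨(μ * l ^ 4) * (fr w).c t₁ ^ 6, ?_⟩
      have h1 := D4_isCompact_XX_scale x ((fr w).U t₁) ((fr w).G t₁) ((fr w).c t₁ • q) s l μ
      have h2 := hZ w (fr w) t₁ hwb x q s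
      rw [h2, hUt, hGt] at h1
      rw [mul_smul]
      exact h1.symm
    · exact Set.iUnion₂_subset fun w _ => hΦX w
  rw [hXX]
  exact F.finite_toSet.isCompact_biUnion fun w _ => hΦcomp w

end Pool.Agent.Helper922.MR
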