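import Pool.Agent.Helper922.MR.Model

/-! The elliptic curve `YY`. -/

open scoped LinearAlgebra.Projectivization

namespace Pool.Agent.Helper922.MR

theorem D5_YY_mk_congr {v w : Fin 3 → ℂ} (hv : v ≠ 0) (hw : w ≠ 0) (h : v = w) :
    Projectivization.mk ℂ v hv = Projectivization.mk ℂ w hw := by
  subst h; rfl

theorem D5_YY_range : YY = Set.range
    (fun t : ℂ => (Projectivization.mk ℂ (elU t) (elU_ne t) : ℙ ℂ (Fin 3 → ℂ))) := by
  ext p
  constructor
  · rintro ⟨t, rfl⟩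
    exact ⟨t, rfl⟩
  · rintro ⟨t, rfl⟩
    exact ⟨t, rfl⟩

theorem D5_YY_int_mem (m n : ℤ) : (m : ℂ) + n * Complex.I ∈ elS := by
  show (m : ℂ) + n * Complex.I ∈ elL.lattice
  refine PeriodPair.mem_lattice.mpr ⟨m, n, ?_⟩
  have e1 : elL.ω₁ = 1 := rfl
  have e2 : elL.ω₂ = Complex.I := rfl
  rw [e1, e2]
  ring

theorem D5_YY_image : YY =
    (fun t : ℂ => (Projectivization.mk ℂ (elU t) (elU_ne t) : ℙ ℂ (Fin 3 → ℂ))) ''
      ((fun q : ℝ × ℝ => (q.1 : ℂ) + q.2 * Complex.I) '' (Set.Icc 0 1 ×ˢ Set.Icc 0 1)) := by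
  rw [D5_YY_range]
  apply Set.Subset.antisymm
  · rintro _ ⟨t, rfl⟩
    refine ⟨((Int.fract t.re : ℝ) : ℂ) + ((Int.fract t.im : ℝ) : ℂ) * Complex.I,
      ⟨(Int.fract t.re, Int.fract t.im),
        ⟨⟨Int.fract_nonneg _, (Int.fract_lt_one _).le⟩,
          ⟨Int.fract_nonneg _, (Int.fract_lt_one _).le⟩⟩, rfl⟩, ?_⟩
    apply D5_YY_mk_congr
    have h := el_period _ (D5_YY_int_mem ⌊t.re⌋ ⌊t.im⌋)
      (((Int.fract t.re : ℝ) : ℂ) + ((Int.fract t.im : ℝ) : ℂ) * Complex.I)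
    rw [← h]
    congr 1
    have h1 : ((Int.fract t.re : ℝ) : ℂ) + (⌊t.re⌋ : ℂ) = (t.re : ℂ) := by
      rw [← Complex.ofReal_intCast, ← Complex.ofReal_add]
      congr 1
      exact Int.fract_add_floor t.re
    have h2 : ((Int.fract t.im : ℝ) : ℂ) + (⌊t.im⌋ : ℂ) = (t.im : ℂ) := by
      rw [← Complex.ofReal_intCast, ← Complex.ofReal_add]
      congr 1
      exact Int.fract_add_floor t.im
    calc ((Int.fract t.re : ℝ) : ℂ) + ((Int.fract t.im : ℝ) : ℂ) * Complex.I +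
        ((⌊t.re⌋ : ℂ) + (⌊t.im⌋ : ℂ) * Complex.I)
        = (((Int.fract t.re : ℝ) : ℂ) + (⌊t.re⌋ : ℂ)) +
          (((Int.fract t.im : ℝ) : ℂ) + (⌊t.im⌋ : ℂ)) * Complex.I := by ring
      _ = t := by rw [h1, h2, Complex.re_add_im]
  · rintro _ ⟨t, _, rfl⟩
    exact ⟨t, rfl⟩

theorem YY_submanifold (hF : ∀ w : ℂ, Nonempty (Frame w)) (hT : T2Space (ℙ ℂ (Fin 3 → ℂ)))
    (hc : Continuous
      (fun t : ℂ => (Projectivization.mk ℂ (elU t) (elU_ne t) : ℙ ℂ (Fin 3 → ℂ))))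
    (hP : ∀ (V : Set (Fin 1 → ℂ)) (_ : IsOpen V) (φ : (Fin 1 → ℂ) → Fin 3 → ℂ)
      (_ : DifferentiableOn ℂ φ V) (hne : ∀ v ∈ V, φ v ≠ 0)
      (_ : ∀ v, ∀ hv : v ∈ V, Projectivization.mk ℂ (φ v) (hne v hv) ∈ YY)
      (O : Set (Fin 3 → ℂ)) (_ : IsOpen O) (Λ : (Fin 3 → ℂ) → Fin 1 → ℂ)
      (_ : DifferentiableOn ℂ Λ O)
      (_ : ∀ z ∈ O, ∀ c : ℂ, c ≠ 0 → c • z ∈ O ∧ Λ (c • z) = Λ z)
      (_ : ∀ v ∈ V, φ v ∈ O ∧ Λ (φ v) = v)
      (_ : ∀ z ∈ O, ∀ hz : z ≠ 0, Projectivization.mk ℂ z hz ∈ YY →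
        Λ z ∈ V ∧ ∃ c : ℂ, c ≠ 0 ∧ φ (Λ z) = c • z), ∃ P : LocalParam 1 YY, P.V = V ∧ P.φ = φ) :
    IsClosedSubmanifold 1 YY := by
  haveI := hT
  constructor
  · rw [D5_YY_image]
    apply IsCompact.isClosed
    apply IsCompact.image _ hc
    apply IsCompact.image
    · exact isCompact_Icc.prod isCompact_Icc
    · fun_prop
  · rintro p ⟨t, rfl⟩
    obtain ⟨fr⟩ := hF t
    have hUne : ∀ v : Fin 1 → ℂ, v ∈ {v : Fin 1 → ℂ | v 0 ∈ Metric.ball t fr.r} →
        fr.U (v 0) ≠ 0 := by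
      intro v hv h0
      exact fr.U_ne _ hv (congrFun h0 fr.b₀)
    obtain ⟨P, hV, hφ⟩ := hP {v | v 0 ∈ Metric.ball t fr.r}
      (Metric.isOpen_ball.preimage (continuous_apply 0)) (fun v => fr.U (v 0))
      (fr.dU.comp (differentiable_apply (𝕜 := ℂ) (0 : Fin 1)).differentiableOn
        (fun v hv => hv)) hUne
      (by
        intro v hv
        refine ⟨v 0, ?_⟩
        rw [Projectivization.mk_eq_mk_iff']
        exact ⟨fr.c (v 0) ^ 3, (fr.U_eq _ hv).symm⟩)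
      fr.O fr.O_open (fun u _ => fr.T u)
      (differentiableOn_pi.mpr fun _ => fr.dT)
      (by
        intro z hz c hc0
        exact ⟨(fr.cone z hz c hc0).1, by
          funext i
          exact (fr.cone z hz c hc0).2⟩)
      (by
        intro v hv
        refine ⟨(fr.T_U _ hv).1, ?_⟩
        funext i
        rw [Subsingleton.elim i 0]
        exact (fr.T_U _ hv).2)
      (by
        intro z hz hz0 hzY
        obtain ⟨t', ht'⟩ := hzY
        rw [Projectivization.mk_eq_mk_iff'] at ht'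
        obtain ⟨a, ha⟩ := ht'
        have ha0 : a ≠ 0 := by
          rintro rfl
          rw [zero_smul] at ha
          exact hz0 ha.symm
        have hE : elU t' = a⁻¹ • z := by
          rw [← ha, smul_smul, inv_mul_cancel₀ ha0, one_smul]
        have hcone := fr.cone z hz a⁻¹ (inv_ne_zero ha0)
        rw [← hE] at hcone
        have hb := fr.T_back t' hcone.1
        rw [hcone.2] at hb
        have hTm := fr.T_mem z hz
        have hE2 : elU t' = elU (fr.T z) := by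
          have := el_period _ hb (fr.T z)
          rw [← this]
          congr 1
          ring
        refine ⟨hTm, fr.c (fr.T z) ^ 3 * a⁻¹, mul_ne_zero (pow_ne_zero _ (fr.c_ne _ hTm))
          (inv_ne_zero ha0), ?_⟩
        show fr.U (fr.T z) = _
        rw [fr.U_eq _ hTm, ← hE2, hE, smul_smul])
    have ht : (fun _ : Fin 1 => t) ∈ P.V := by
      rw [hV]
      exact Metric.mem_ball_self fr.r_pos
    refine ⟨P, fun _ => t, ht, ?_⟩
    unfold LocalParam.pt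
    rw [Projectivization.mk_eq_mk_iff']
    refine ⟨fr.c t ^ 3, ?_⟩
    rw [hφ]
    exact (fr.U_eq _ (Metric.mem_ball_self fr.r_pos)).symm

theorem YY_connected (hc : Continuous
      (fun t : ℂ => (Projectivization.mk ℂ (elU t) (elU_ne t) : ℙ ℂ (Fin 3 → ℂ)))) :
    IsConnected YY := by
  rw [D5_YY_range]
  exact isConnected_range hc

end Pool.Agent.Helper922.MR
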