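import Pool.Agent.Helper922.MR.Model

/-! The projection `pr : XX → YY`. -/

open scoped LinearAlgebra.Projectivization

namespace Pool.Agent.Helper922.MR

theorem D6_pr_aux {x U : Fin 3 → ℂ} {G : Fin 2 → ℂ} {q : Fin 3 → ℂ} {s lam : ℂ}
    (a b : Fin 3) (w : (Fin 3 × Fin 3) ⊕ (Fin 3 × Fin 2)) :
    (lam • Zv x U G q s) (a, b, w) = (lam * x a * Sum.elim (fun ik : Fin 3 × Fin 3 => x ik.1 ^ 3 * s * U ik.2)
    (fun il : Fin 3 × Fin 2 => q il.1 * G il.2) w) * U b := by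
  simp only [Pi.smul_apply, smul_eq_mul, Zv]
  ring

theorem pr_mk (x : Fin 3 → ℂ) (t : ℂ) (q : Fin 3 → ℂ) (s : ℂ) (hx : x ≠ 0) (hqs : q ≠ 0 ∨ s ≠ 0) :
    pr (Projectivization.mk ℂ (Zv x (elU t) (elG t) q s)
      (Zv_ne hx (elU_ne t) (elG_ne t) hqs)) = Projectivization.mk ℂ (elU t) (elU_ne t) := by
  set p := Projectivization.mk ℂ (Zv x (elU t) (elG t) q s)
      (Zv_ne hx (elU_ne t) (elG_ne t) hqs) with hp
  obtain ⟨lam, hlam⟩ : ∃ lam : ℂ, lam • Zv x (elU t) (elG t) q s = p.rep := by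
    rw [← Projectivization.mk_eq_mk_iff' ℂ p.rep (Zv x (elU t) (elG t) q s) p.rep_nonzero
      (Zv_ne hx (elU_ne t) (elG_ne t) hqs), Projectivization.mk_rep]
  have hex : ∃ aw : Fin 3 × ((Fin 3 × Fin 3) ⊕ (Fin 3 × Fin 2)),
      (fun b => p.rep (aw.1, b, aw.2)) ≠ 0 := by
    obtain ⟨⟨a, b, w⟩, h⟩ := Function.ne_iff.mp p.rep_nonzero
    exact ⟨(a, w), Function.ne_iff.mpr ⟨b, h⟩⟩
  unfold pr
  rw [dif_pos hex, Projectivization.mk_eq_mk_iff']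
  refine ⟨lam * x hex.choose.1 * Sum.elim (fun ik : Fin 3 × Fin 3 => x ik.1 ^ 3 * s * elU t ik.2)
    (fun il : Fin 3 × Fin 2 => q il.1 * elG t il.2) hex.choose.2, ?_⟩
  funext b
  exact ((congrFun hlam (hex.choose.1, b, hex.choose.2)).symm.trans (D6_pr_aux _ _ _)).symm

theorem pr_mk' (z : Idx → ℂ) (hz : z ≠ 0) (hX : Projectivization.mk ℂ z hz ∈ XX) (a : Fin 3)
    (w : (Fin 3 × Fin 3) ⊕ (Fin 3 × Fin 2)) (h : (fun b => z (a, b, w)) ≠ 0) :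
    pr (Projectivization.mk ℂ z hz) = Projectivization.mk ℂ (fun b => z (a, b, w)) h := by
  obtain ⟨x, t, q, s, hx, hqs, hE, heq⟩ := hX
  obtain ⟨lam, hlam⟩ := (Projectivization.mk_eq_mk_iff' ℂ z _ hz _).mp heq
  rw [heq, pr_mk x t q s hx hqs]
  symm
  rw [Projectivization.mk_eq_mk_iff']
  refine ⟨lam * x a * Sum.elim (fun ik : Fin 3 × Fin 3 => x ik.1 ^ 3 * s * elU t ik.2)
    (fun il : Fin 3 × Fin 2 => q il.1 * elG t il.2) w, ?_⟩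
  funext b
  rw [← hlam, D6_pr_aux]
  rfl

theorem pr_image : pr '' XX = YY := by
  ext p
  constructor
  · rintro ⟨_, ⟨x, t, q, s, hx, hqs, hE, rfl⟩, rfl⟩
    exact ⟨t, pr_mk x t q s hx hqs⟩
  · rintro ⟨t, rfl⟩
    have hx : (![0, 0, 1] : Fin 3 → ℂ) ≠ 0 := by
      intro h
      have := congrFun h 2
      simp at this
    have hq : (![1, 0, 0] : Fin 3 → ℂ) ≠ 0 ∨ (0 : ℂ) ≠ 0 := Or.inl vec100_ne
    refine ⟨_, ⟨![0, 0, 1], t, ![1, 0, 0], 0, hx, hq, ?_, rfl⟩, pr_mk _ t _ _ hx hq⟩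
    unfold Eqn
    simp [Fin.sum_univ_three]

theorem pr_holomorphic : IsHolomorphicOn XX pr := by
  intro n Ω g hΩ hg hgX v hv
  obtain ⟨N, hN, hvN, γ, hγ, hγv⟩ := hg v hv
  obtain ⟨h0, hgv⟩ := hγv v hvN
  obtain ⟨⟨a, b, w⟩, hab⟩ := Function.ne_iff.mp h0
  have hd : DifferentiableOn ℂ (fun u => γ u (a, b, w)) N := differentiableOn_pi.mp hγ (a, b, w)
  refine ⟨(N ∩ (fun u => γ u (a, b, w)) ⁻¹' {(0:ℂ)}ᶜ) ∩ Ω, ?_, ⟨⟨hvN, hab⟩, hv⟩,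
    fun u b => γ u (a, b, w), ?_, ?_⟩
  · exact (hd.continuousOn.isOpen_inter_preimage hN isOpen_compl_singleton).inter hΩ
  · rw [differentiableOn_pi]
    intro b'
    exact (differentiableOn_pi.mp hγ (a, b', w)).mono fun u hu => hu.1.1
  · rintro u ⟨⟨huN, hu⟩, huΩ⟩
    obtain ⟨h1, hgu⟩ := hγv u huN
    have h2 : (fun b => γ u (a, b, w)) ≠ 0 := Function.ne_iff.mpr ⟨b, hu⟩
    refine ⟨h2, ?_⟩
    have h3 := hgX u huΩ
    rw [hgu] at h3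
    show pr (g u) = _
    rw [hgu]
    exact pr_mk' (γ u) h1 h3 a w h2

end Pool.Agent.Helper922.MR
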