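import Pool.Agent.Helper922.MR.B2
import Pool.Agent.Helper922.MR.C1
import Pool.Agent.Helper922.MR.D1a
import Pool.Agent.Helper922.MR.D1b
import Pool.Agent.Helper922.MR.D4
import Pool.Agent.Helper922.MR.D5
import Pool.Agent.Helper922.MR.D6

/-! Assembly: `XX` and `YY` are smooth projective. -/

open scoped LinearAlgebra.Projectivization

namespace Pool.Agent.Helper922.MR

variable {w₀ : ℂ}

theorem frame (w : ℂ) : Nonempty (Frame w) := exists_frame t2Space_proj continuous_mk w

theorem exists_chartParam (fr : Frame w₀) (a c : Fin 3) : ∃ P : LocalParam 5 XX,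
    P.V = e5 ⁻¹' (dom fr) ∧ P.φ = fun v => chart fr a c (e5 v) := by
  have hφ : DifferentiableOn ℂ (fun v => chart fr a c (e5 v)) (e5 ⁻¹' (dom fr)) :=
    (differentiableOn_chart fr a c).comp e5.differentiable.differentiableOn (fun v hv => hv)
  have hne : ∀ v ∈ e5 ⁻¹' (dom fr), (fun v => chart fr a c (e5 v)) v ≠ 0 := fun v hv =>
    (chart_mem_XX fr a c (e5 v) hv).choose
  have hΛ : DifferentiableOn ℂ (fun z => e5.symm (chartInv fr a c z)) (OO fr a c) :=
    e5.symm.differentiable.comp_differentiableOn (differentiableOn_chartInv fr a c)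
  refine exists_localParam XX (e5 ⁻¹' (dom fr)) ((isOpen_dom fr).preimage e5.continuous)
    (fun v => chart fr a c (e5 v)) hφ hne ?_ (OO fr a c) (isOpen_OO fr a c)
    (fun z => e5.symm (chartInv fr a c z)) hΛ ?_ ?_ ?_
  · intro v hv
    exact (chart_mem_XX fr a c (e5 v) hv).choose_spec
  · intro z hz b hb
    obtain ⟨h1, h2⟩ := OO_cone fr a c z hz b hb
    exact ⟨h1, by simp only [h2]⟩
  · intro v hv
    obtain ⟨h1, h2⟩ := chart_mem_OO fr a c (e5 v) hv
    refine ⟨h1, ?_⟩
    simp only [h2]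
    exact e5.symm_apply_apply v
  · intro z hz hz0 hX
    obtain ⟨h1, b, hb, h2⟩ := chart_back fr a c z hz hz0 hX
    refine ⟨?_, b, hb, ?_⟩
    · show e5 (e5.symm (chartInv fr a c z)) ∈ dom fr
      rw [e5.apply_symm_apply]
      exact h1
    · show chart fr a c (e5 (e5.symm (chartInv fr a c z))) = b • z
      rw [e5.apply_symm_apply]
      exact h2

theorem XX_compact : IsCompact XX :=
  isCompact_XX frame continuous_mk
    (fun _ fr t ht x q s hx hqs hE => mem_XX_of_frame fr t ht x q s hx hqs hE)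
    (fun _ fr t ht x q s => Zv_frame fr t ht x q s)
    (fun _ fr t ht x q s => Eqn_frame fr t ht x q s)

theorem XX_submanifold : IsClosedSubmanifold 5 XX := by
  have : T2Space (ℙ ℂ (Idx → ℂ)) := t2Space_proj
  refine ⟨XX_compact.isClosed, ?_⟩
  intro p hp
  obtain ⟨w₀, fr, a, c, v, hv, h, rfl⟩ := XX_cover frame p hp
  obtain ⟨P, hV, hφ⟩ := exists_chartParam fr a c
  have hmem : e5.symm v ∈ P.V := by
    rw [hV]
    show e5 (e5.symm v) ∈ dom fr
    rw [e5.apply_symm_apply]
    exact hv
  refine ⟨P, e5.symm v, hmem, ?_⟩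
  unfold LocalParam.pt
  rw [Projectivization.mk_eq_mk_iff']
  refine ⟨1, ?_⟩
  rw [one_smul, hφ]
  show chart fr a c v = chart fr a c (e5 (e5.symm v))
  rw [e5.apply_symm_apply]

theorem elU_cont : Continuous
    (fun t : ℂ => (Projectivization.mk ℂ (elU t) (elU_ne t) : ℙ ℂ (Fin 3 → ℂ))) :=
  continuous_mk_elU continuous_mk

theorem YY_closedSubmanifold : IsClosedSubmanifold 1 YY := by
  apply YY_submanifold frame t2Space_proj elU_cont
  intro V hV φ hφ hne hX O hO Λ hΛ hcone hφO hback
  exact exists_localParam YY V hV φ hφ hne hX O hO Λ hΛ hcone hφO hback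

theorem YY_smooth : IsSmoothProjectiveVariety 1 YY := ⟨YY_closedSubmanifold, YY_connected elU_cont⟩

end Pool.Agent.Helper922.MR
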