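import Pool.Agent.Helper922.MR.AlgDefs

/-! Algebraic identities for the symmetric tensors `D_m`. -/

namespace Pool.Agent.Helper922.MR

variable {R : ℕ → MvPolynomial (Fin 3 ⊕ Fin 3) ℂ}


private theorem B1_tri_aux {M : Type} [AddCommMonoid M] (F : ℕ → ℕ → M) (k : ℕ) :
    ∑ j ∈ Finset.range (k + 1), ∑ i ∈ Finset.range (j + 1), F i (j - i) =
      ∑ j ∈ Finset.range (k + 1), ∑ i ∈ Finset.range (k - j + 1), F i j := by
  rw [Finset.sum_sigma', Finset.sum_sigma']
  refine Finset.sum_nbij' (fun p => ⟨p.1 - p.2, p.2⟩) (fun p => ⟨p.1 + p.2, p.2⟩) ?_ ?_ ?_ ?_ ?_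
  · rintro ⟨a, b⟩ h
    simp only [Finset.mem_sigma, Finset.mem_range] at h ⊢
    omega
  · rintro ⟨a, b⟩ h
    simp only [Finset.mem_sigma, Finset.mem_range] at h ⊢
    omega
  · rintro ⟨a, b⟩ h
    simp only [Finset.mem_sigma, Finset.mem_range] at h
    have : a - b + b = a := by omega
    simp [this]
  · rintro ⟨a, b⟩ h
    simp
  · rintro ⟨a, b⟩ h
    rfl

private theorem B1_tri2_aux {M : Type} [AddCommMonoid M] (G : ℕ → ℕ → M) (k : ℕ) :
    ∑ a ∈ Finset.range (k + 1), ∑ j ∈ Finset.range (a + 1), G a j =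
      ∑ j ∈ Finset.range (k + 1), ∑ i ∈ Finset.range (k - j + 1), G (i + j) j := by
  rw [Finset.sum_sigma', Finset.sum_sigma']
  refine Finset.sum_nbij' (fun p => ⟨p.2, p.1 - p.2⟩) (fun p => ⟨p.2 + p.1, p.1⟩) ?_ ?_ ?_ ?_ ?_
  · rintro ⟨a, b⟩ h
    simp only [Finset.mem_sigma, Finset.mem_range] at h ⊢
    omega
  · rintro ⟨a, b⟩ h
    simp only [Finset.mem_sigma, Finset.mem_range] at h ⊢
    omega
  · rintro ⟨a, b⟩ h
    simp only [Finset.mem_sigma, Finset.mem_range] at h
    have : a - b + b = a := by omega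
    simp [this]
  · rintro ⟨a, b⟩ h
    simp
  · rintro ⟨a, b⟩ h
    simp only [Finset.mem_sigma, Finset.mem_range] at h
    have : a - b + b = a := by omega
    simp [this]

private theorem B1_desc_add (k j i : ℕ) (h : i + j ≤ k) :
    (k.descFactorial (i + j) : ℂ) = (k.descFactorial j : ℂ) * (i.factorial : ℂ) * ((k - j).choose i : ℂ) := by
  have h1 : k.descFactorial (i + j) = k.descFactorial j * (k - j).descFactorial i := by
    have h2 := Nat.descFactorial_mul_descFactorial (n := k) (k := j) (m := i + j) (by omega)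
    rw [← h2]
    rw [show i + j - j = i by omega]
    ring
  rw [h1, Nat.descFactorial_eq_factorial_mul_choose (k - j) i]
  push_cast
  ring

private theorem B1_choose_desc (m j i : ℕ) (h : i + j ≤ m) :
    (m.choose (i + j) : ℂ) * ((i + j).descFactorial j : ℂ) = (m.descFactorial j : ℂ) * ((m - j).choose i : ℂ) := by
  have h1 := Nat.choose_mul (n := m) (k := i + j) (s := j) (by omega)
  rw [show i + j - j = i by omega] at h1
  rw [Nat.descFactorial_eq_factorial_mul_choose (i + j) j, Nat.descFactorial_eq_factorial_mul_choose m j]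
  have h2 : (m.choose (i + j) : ℂ) * ((i + j).choose j : ℂ) = (m.choose j : ℂ) * ((m - j).choose i : ℂ) := by
    exact_mod_cast h1
  push_cast
  linear_combination (j.factorial : ℂ) * h2

private theorem B1_choose_choose (n k i : ℕ) (h : i + k ≤ n) :
    (n.choose (i + k) : ℂ) * ((i + k).choose k : ℂ) = (n.choose k : ℂ) * ((n - k).choose i : ℂ) := by
  have h1 := Nat.choose_mul (n := n) (k := i + k) (s := k) (by omega)
  rw [show i + k - k = i by omega] at h1
  exact_mod_cast h1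

private theorem B1_bin_aux (n : ℕ) (e : ℕ → ℂ) (j : ℕ) (τ θ d : ℂ) :
    ∑ i ∈ Finset.range (n + 1), (n.choose i : ℂ) * e (j + i) * (τ + d * θ) ^ (n - i) * θ ^ i =
      ∑ l ∈ Finset.range (n + 1), (n.choose l : ℂ) * τ ^ (n - l) * θ ^ l *
        ∑ k ∈ Finset.range (l + 1), (l.choose k : ℂ) * e (j + k) * d ^ (l - k) := by
  have hR : ∑ l ∈ Finset.range (n + 1), (n.choose l : ℂ) * τ ^ (n - l) * θ ^ l *
        ∑ k ∈ Finset.range (l + 1), (l.choose k : ℂ) * e (j + k) * d ^ (l - k) =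
      ∑ l ∈ Finset.range (n + 1), ∑ k ∈ Finset.range (l + 1),
        (n.choose l : ℂ) * τ ^ (n - l) * θ ^ l * ((l.choose k : ℂ) * e (j + k) * d ^ (l - k)) := by
    refine Finset.sum_congr rfl fun l _ => ?_
    rw [Finset.mul_sum]
  rw [hR, B1_tri2_aux (fun l k => (n.choose l : ℂ) * τ ^ (n - l) * θ ^ l * ((l.choose k : ℂ) * e (j + k) * d ^ (l - k)))]
  refine Finset.sum_congr rfl fun k hk => ?_
  rw [Finset.mem_range] at hk
  rw [add_comm τ, add_pow, Finset.mul_sum, Finset.sum_mul]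
  refine Finset.sum_congr rfl fun i hi => ?_
  rw [Finset.mem_range] at hi
  have hc := B1_choose_choose n k i (by omega)
  rw [show i + k - k = i by omega, show n - (i + k) = n - k - i by omega, pow_add, mul_pow]
  linear_combination (-(τ ^ (n - k - i) * θ ^ i * θ ^ k * e (j + k) * d ^ i)) * hc

theorem Bk_shift (hR : IsR R) (k : ℕ) (x K : Fin 3 → ℂ) (s θ l : ℂ) :
    Bk R k x (fun i => K i + l * x i ^ 3) s (θ - l * (x 0 * x 1 * x 2) ^ 2 * s) =
      Bk R k x K s θ := by
  unfold Bk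
  simp only [hR.shift]
  set a : ℂ := l * (x 0 * x 1 * x 2) ^ 2 with ha
  have h1 : ∑ j ∈ Finset.range (k + 1), (k.descFactorial j : ℂ) * s ^ j * (θ - a * s) ^ (k - j) *
      ∑ i ∈ Finset.range (j + 1), a ^ i / (i.factorial : ℂ) *
          MvPolynomial.eval (Sum.elim x K) (R (j - i)) =
      ∑ j ∈ Finset.range (k + 1), ∑ i ∈ Finset.range (j + 1),
        (fun i j' => (k.descFactorial (i + j') : ℂ) * s ^ (i + j') * (θ - a * s) ^ (k - (i + j')) *
          (a ^ i / (i.factorial : ℂ) * MvPolynomial.eval (Sum.elim x K) (R j'))) i (j - i) := by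
    refine Finset.sum_congr rfl fun j _ => ?_
    rw [Finset.mul_sum]
    refine Finset.sum_congr rfl fun i hi => ?_
    rw [Finset.mem_range] at hi
    simp only
    rw [show i + (j - i) = j by omega]
  refine (h1.trans (B1_tri_aux (fun i j' => (k.descFactorial (i + j') : ℂ) * s ^ (i + j') * (θ - a * s) ^ (k - (i + j')) *
          (a ^ i / (i.factorial : ℂ) * MvPolynomial.eval (Sum.elim x K) (R j'))) k)).trans ?_
  refine Finset.sum_congr rfl fun j hj => ?_
  rw [Finset.mem_range] at hj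
  have h2 : θ ^ (k - j) = (a * s + (θ - a * s)) ^ (k - j) := by ring_nf
  rw [h2, add_pow, Finset.mul_sum, Finset.sum_mul]
  refine Finset.sum_congr rfl fun i hi => ?_
  rw [Finset.mem_range] at hi
  rw [B1_desc_add k j i (by omega), show k - (i + j) = k - j - i by omega]
  have hf : (i.factorial : ℂ) ≠ 0 := by exact_mod_cast i.factorial_ne_zero
  clear_value a
  rw [pow_add, mul_pow a s i]
  field_simp

theorem Dm_shift (hR : IsR R) (e : ℕ → ℂ) (m : ℕ) (x K : Fin 3 → ℂ) (s τ θ l : ℂ) :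
    Dm R e m x (fun i => K i + l * x i ^ 3) s τ (θ - l * (x 0 * x 1 * x 2) ^ 2 * s) =
      Dm R e m x K s τ θ := by
  unfold Dm
  simp only [Bk_shift hR]

theorem Dm_expand (hR : IsR R) (e : ℕ → ℂ) (m : ℕ) (x K : Fin 3 → ℂ) (s τ θ c d : ℂ) :
    Dm R e m x (c • K) s (τ + d * θ) θ =
      DG R (fun j l => c ^ j * ∑ k ∈ Finset.range (l + 1), (l.choose k : ℂ) * e (j + k) *
        d ^ (l - k)) m x K s τ θ := by
  unfold Dm DG Bk
  simp only [hR.homK]
  have h1 : ∑ k ∈ Finset.range (m + 1), (m.choose k : ℂ) * e k * (τ + d * θ) ^ (m - k) *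
      ∑ j ∈ Finset.range (k + 1), (k.descFactorial j : ℂ) * s ^ j * θ ^ (k - j) *
        (c ^ j * MvPolynomial.eval (Sum.elim x K) (R j)) =
      ∑ k ∈ Finset.range (m + 1), ∑ j ∈ Finset.range (k + 1),
        (m.choose k : ℂ) * e k * (τ + d * θ) ^ (m - k) * ((k.descFactorial j : ℂ) * s ^ j * θ ^ (k - j) *
        (c ^ j * MvPolynomial.eval (Sum.elim x K) (R j))) := by
    refine Finset.sum_congr rfl fun k _ => ?_
    rw [Finset.mul_sum]
  rw [h1, B1_tri2_aux (fun k j => (m.choose k : ℂ) * e k * (τ + d * θ) ^ (m - k) *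
    ((k.descFactorial j : ℂ) * s ^ j * θ ^ (k - j) *
        (c ^ j * MvPolynomial.eval (Sum.elim x K) (R j))))]
  refine Finset.sum_congr rfl fun j hj => ?_
  rw [Finset.mem_range] at hj
  have h2 : ∑ l ∈ Finset.range (m - j + 1), ((m - j).choose l : ℂ) * τ ^ (m - j - l) * θ ^ l *
      (c ^ j * ∑ k ∈ Finset.range (l + 1), (l.choose k : ℂ) * e (j + k) * d ^ (l - k)) =
      c ^ j * ∑ l ∈ Finset.range (m - j + 1), ((m - j).choose l : ℂ) * τ ^ (m - j - l) * θ ^ l *
      ∑ k ∈ Finset.range (l + 1), (l.choose k : ℂ) * e (j + k) * d ^ (l - k) := by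
    rw [Finset.mul_sum]
    refine Finset.sum_congr rfl fun l _ => ?_
    ring
  rw [h2, ← B1_bin_aux, Finset.mul_sum, Finset.mul_sum]
  refine Finset.sum_congr rfl fun i hi => ?_
  rw [Finset.mem_range] at hi
  have hc := B1_choose_desc m j i (by omega)
  rw [show i + j - j = i by omega, show m - (i + j) = m - j - i by omega, add_comm i j] 
  rw [add_comm i j] at hc
  linear_combination (e (j + i) * (τ + d * θ) ^ (m - j - i) * s ^ j * θ ^ i * c ^ j *
    MvPolynomial.eval (Sum.elim x K) (R j)) * hc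

theorem Dm_hom (hR : IsR R) (e : ℕ → ℂ) (m : ℕ) (x K : Fin 3 → ℂ) (s τ θ c : ℂ) :
    Dm R e m x (c • K) s (c * τ) (c * θ) = c ^ m * Dm R e m x K s τ θ := by
  have hB : ∀ k, Bk R k x (c • K) s (c * θ) = c ^ k * Bk R k x K s θ := by
    intro k
    unfold Bk
    rw [Finset.mul_sum]
    refine Finset.sum_congr rfl fun j hj => ?_
    rw [Finset.mem_range] at hj
    rw [hR.homK, mul_pow]
    have : c ^ k = c ^ (k - j) * c ^ j := by
      rw [← pow_add]; congr 1; omega
    rw [this]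
    ring
  unfold Dm
  rw [Finset.mul_sum]
  refine Finset.sum_congr rfl fun k hk => ?_
  rw [Finset.mem_range] at hk
  rw [hB, mul_pow]
  have : c ^ m = c ^ (m - k) * c ^ k := by
    rw [← pow_add]; congr 1; omega
  rw [this]
  ring

theorem Dm_homs (e : ℕ → ℂ) (m : ℕ) (x K : Fin 3 → ℂ) (s τ θ c : ℂ) :
    Dm R e m x K (c * s) (c * τ) (c * θ) = c ^ m * Dm R e m x K s τ θ := by
  have hB : ∀ k, Bk R k x K (c * s) (c * θ) = c ^ k * Bk R k x K s θ := by
    intro k
    unfold Bk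
    rw [Finset.mul_sum]
    refine Finset.sum_congr rfl fun j hj => ?_
    rw [Finset.mem_range] at hj
    rw [mul_pow, mul_pow]
    have : c ^ k = c ^ (k - j) * c ^ j := by
      rw [← pow_add]; congr 1; omega
    rw [this]
    ring
  unfold Dm
  rw [Finset.mul_sum]
  refine Finset.sum_congr rfl fun k hk => ?_
  rw [Finset.mem_range] at hk
  rw [hB, mul_pow]
  have : c ^ m = c ^ (m - k) * c ^ k := by
    rw [← pow_add]; congr 1; omega
  rw [this]
  ring

theorem Dm_scale (hR : IsR R) (e : ℕ → ℂ) (m : ℕ) (x K : Fin 3 → ℂ) (s τ θ l μ : ℂ)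
    (h : l ^ 4 * μ = 1) :
    Dm R e m (l • x) (l • K) (μ * s) τ θ = l * Dm R e m x K s τ θ := by
  have hB : ∀ k, Bk R k (l • x) (l • K) (μ * s) θ = l * Bk R k x K s θ := by
    intro k
    unfold Bk
    rw [Finset.mul_sum]
    refine Finset.sum_congr rfl fun j _ => ?_
    rw [hR.homX, hR.homK, mul_pow]
    have h1 : (l ^ 4 * μ) ^ j = 1 := by rw [h, one_pow]
    have h2 : μ ^ j * l ^ (3 * j + 1) * l ^ j = l := by
      calc μ ^ j * l ^ (3 * j + 1) * l ^ j = (l ^ 4 * μ) ^ j * l := by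
            rw [mul_pow, ← pow_mul]; ring
        _ = l := by rw [h1, one_mul]
    linear_combination ((k.descFactorial j : ℂ) * s ^ j * θ ^ (k - j) *
      MvPolynomial.eval (Sum.elim x K) (R j)) * h2
  unfold Dm
  rw [Finset.mul_sum]
  refine Finset.sum_congr rfl fun k _ => ?_
  rw [hB]
  ring

theorem DG_hom (hR : IsR R) (Γ : ℕ → ℕ → ℂ) (m : ℕ) (x K : Fin 3 → ℂ) (s τ θ c : ℂ) :
    DG R Γ m x (c • K) s (c * τ) (c * θ) = c ^ m * DG R Γ m x K s τ θ := by
  unfold DG
  rw [Finset.mul_sum]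
  refine Finset.sum_congr rfl fun j hj => ?_
  rw [Finset.mem_range] at hj
  rw [hR.homK, Finset.mul_sum, Finset.mul_sum, Finset.mul_sum]
  refine Finset.sum_congr rfl fun l hl => ?_
  rw [Finset.mem_range] at hl
  rw [mul_pow, mul_pow]
  have : c ^ m = c ^ j * c ^ (m - j - l) * c ^ l := by
    rw [← pow_add, ← pow_add]; congr 1; omega
  rw [this]
  ring

theorem DG_smul (Γ : ℕ → ℕ → ℂ) (m : ℕ) (x K : Fin 3 → ℂ) (s τ θ c : ℂ) :
    DG R (fun j l => c * Γ j l) m x K s τ θ = c * DG R Γ m x K s τ θ := by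
  unfold DG
  rw [Finset.mul_sum]
  refine Finset.sum_congr rfl fun j _ => ?_
  rw [Finset.mul_sum, Finset.mul_sum, Finset.mul_sum]
  refine Finset.sum_congr rfl fun l _ => ?_
  ring

end Pool.Agent.Helper922.MR
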