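import Pool.Agent.Helper922.MR.Model

/-! The coefficients `Γ` exist. -/

open scoped Topology

namespace Pool.Agent.Helper922.MR

theorem exists_IsE (he : ∃ e : ℕ → ℂ → ℂ,
    (∀ z, e 0 z = 1) ∧
    (∀ k z, ∀ l ∈ elL.lattice, e k (z + l) = e k z) ∧
    (∀ k, DifferentiableOn ℂ (e k) ((elL.lattice : Set ℂ)ᶜ)) ∧
    ∀ j l : ℕ, ∃ g : ℂ → ℂ, AnalyticAt ℂ g 0 ∧ ∀ᶠ z in 𝓝[≠] (0 : ℂ),
      z ^ (j + 1) * ∑ k ∈ Finset.range (l + 1), (l.choose k : ℂ) * e (j + k) z * (z⁻¹) ^ (l - k) =
        g z) :
    ∃ e : ℕ → ℂ → ℂ, IsE e ∧ ∀ (w₀ : ℂ) (fr : Frame w₀), ∃ Γ : ℕ → ℕ → ℂ → ℂ, IsGam fr e Γ := by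
  obtain ⟨e, h0, hper, hdiff, hg⟩ := he
  have hdiff' : ∀ k t, t ∉ elS → DifferentiableAt ℂ (e k) t := by
    intro k t ht
    exact (hdiff k).differentiableAt (el_closed.isOpen_compl.mem_nhds ht)
  refine ⟨e, ⟨h0, fun k z l hl => hper k z l hl, hdiff⟩, fun w₀ fr => ?_⟩
  rcases fr.type with hA | ⟨hw, hB⟩
  · refine ⟨fun j l t => e (j + l) t, ?_, ?_, ?_⟩
    · intro j l
      exact (hdiff (j + l)).mono fun t ht => (hA t ht).1
    · intro j l t ht ht'
      exact absurd ht' (hA t ht).1
    · intro j l t ht _
      have hc : fr.c t = 1 := (hA t ht).2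
      have hd : deriv fr.c t = 0 := by
        have h1 : fr.c =ᶠ[𝓝 t] fun _ => (1 : ℂ) := by
          filter_upwards [Metric.isOpen_ball.mem_nhds ht] with s hs
          exact (hA s hs).2
        rw [h1.deriv_eq, deriv_const]
      rw [hc, hd, one_pow, one_mul, zero_div, Finset.sum_eq_single l]
      · simp
      · intro k hk hkl
        have hk' := Finset.mem_range.1 hk
        rw [zero_pow (by omega), mul_zero]
      · intro h
        exact absurd (Finset.mem_range.2 (Nat.lt_succ_self l)) h
  · have hbs : ∀ t ∈ Metric.ball w₀ fr.r, t ∈ elS → t = w₀ := by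
      intro t ht ht'
      by_contra hne
      exact (hB t ht hne).1 ht'
    refine ⟨fun j l t => open Classical in if t = w₀ then 0 else (t - w₀) ^ (6 + j) *
      ∑ k ∈ Finset.range (l + 1), (l.choose k : ℂ) * e (j + k) t * ((t - w₀)⁻¹) ^ (l - k),
      ?_, ?_, ?_⟩
    · intro j l t ht
      apply DifferentiableAt.differentiableWithinAt
      by_cases htw : t = w₀
      · subst htw
        obtain ⟨g, hga, hgev⟩ := hg j l
        have h1 : Filter.Tendsto (fun s : ℂ => s - t) (𝓝 t) (𝓝 0) := by
          have : Filter.Tendsto (fun s : ℂ => s - t) (𝓝 t) (𝓝 (t - t)) :=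
            (continuous_id.sub continuous_const).continuousAt
          rwa [sub_self] at this
        have h2 := h1.eventually (eventually_nhdsWithin_iff.1 hgev)
        have hga' : DifferentiableAt ℂ (fun s => (s - t) ^ 5 * g (s - t)) t := by
          have h3 : DifferentiableAt ℂ (fun s => g (s - t)) t := by
            have h4 : DifferentiableAt ℂ g (t - t) := by
              rw [sub_self]; exact hga.differentiableAt
            exact DifferentiableAt.comp (f := fun s : ℂ => s - t) t h4
              (differentiableAt_id.sub_const t)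
          exact ((differentiableAt_id.sub_const t).pow 5).mul h3
        refine hga'.congr_of_eventuallyEq ?_
        filter_upwards [h2] with s hs
        by_cases hst : s = t
        · rw [if_pos hst, hst]
          simp
        · rw [if_neg hst]
          have hne : s - t ≠ 0 := sub_ne_zero.2 hst
          have h3 := hs (by simpa using hne)
          rw [← h3]
          have h4 : ∀ k, e (j + k) (s - t) = e (j + k) s := by
            intro k
            have := hper (j + k) (s - t) t hw
            rw [sub_add_cancel] at this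
            exact this.symm
          simp_rw [h4]
          rw [← mul_assoc, ← pow_add]
          congr 2
          omega
      · have hts : t ∉ elS := (hB t ht htw).1
        have hne : t - w₀ ≠ 0 := sub_ne_zero.2 htw
        have h3 : DifferentiableAt ℂ (fun t => (t - w₀) ^ (6 + j) *
            ∑ k ∈ Finset.range (l + 1), (l.choose k : ℂ) * e (j + k) t *
              ((t - w₀)⁻¹) ^ (l - k)) t := by
          have h4 : DifferentiableAt ℂ (fun s : ℂ => s - w₀) t := differentiableAt_id.sub_const w₀
          refine (h4.pow _).mul ?_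
          refine DifferentiableAt.fun_sum fun k _ => ?_
          exact ((hdiff' (j + k) t hts).const_mul _).mul ((h4.fun_inv hne).pow _)
        refine h3.congr_of_eventuallyEq ?_
        filter_upwards [isOpen_compl_singleton.mem_nhds (show t ∈ ({w₀} : Set ℂ)ᶜ from htw)]
          with s hs
        exact if_neg hs
    · intro j l t ht ht'
      exact if_pos (hbs t ht ht')
    · intro j l t ht ht'
      have hne : t ≠ w₀ := by
        rintro rfl
        exact ht' hw
      have hd : deriv fr.c t = 1 := by
        have h1 : fr.c =ᶠ[𝓝 t] fun s => s - w₀ := by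
          filter_upwards [Metric.isOpen_ball.mem_nhds ht,
            isOpen_compl_singleton.mem_nhds (show t ∈ ({w₀} : Set ℂ)ᶜ from hne)] with s hs hs'
          exact (hB s hs hs').2
        rw [h1.deriv_eq, deriv_sub_const, deriv_id'']
      show (if t = w₀ then 0 else _) = _
      rw [if_neg hne, hd, (hB t ht hne).2, one_div]

end Pool.Agent.Helper922.MR
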