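import Pool.Agent.Helper922.MR.Model2

/-! The section `SD`: independence of the representation. -/

open scoped LinearAlgebra.Projectivization

namespace Pool.Agent.Helper922.MR

theorem rep_unique (x x' : Fin 3 → ℂ) (t t' : ℂ) (q q' : Fin 3 → ℂ) (s s' : ℂ)
    (h : Zv x' (elU t') (elG t') q' s' = Zv x (elU t) (elG t) q s)
    (h0 : Zv x (elU t) (elG t) q s ≠ 0) :
    ∃ l μ : ℂ, l ^ 4 * μ = 1 ∧ x' = l • x ∧ t' - t ∈ elS ∧ q' = (l ^ 3 * μ) • q ∧ s' = μ * s := by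
  set W : (Fin 3 × Fin 3) ⊕ (Fin 3 × Fin 2) → ℂ :=
    Sum.elim (fun ik : Fin 3 × Fin 3 => x ik.1 ^ 3 * s * elU t ik.2)
      (fun il : Fin 3 × Fin 2 => q il.1 * elG t il.2) with hW
  set W' : (Fin 3 × Fin 3) ⊕ (Fin 3 × Fin 2) → ℂ :=
    Sum.elim (fun ik : Fin 3 × Fin 3 => x' ik.1 ^ 3 * s' * elU t' ik.2)
      (fun il : Fin 3 × Fin 2 => q' il.1 * elG t' il.2) with hW'
  have hz : ∀ a b w, x' a * elU t' b * W' w = x a * elU t b * W w := fun a b w =>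
    congrFun h (a, b, w)
  obtain ⟨⟨a0, b0, w0⟩, hne⟩ := Function.ne_iff.mp h0
  have hne1 : x a0 * elU t b0 * W w0 ≠ 0 := hne
  have hne2 : x' a0 * elU t' b0 * W' w0 ≠ 0 := by rw [hz]; exact hne1
  have hxa : x a0 ≠ 0 := fun hh => hne1 (by rw [hh]; ring)
  have hub : elU t b0 ≠ 0 := fun hh => hne1 (by rw [hh]; ring)
  have hww : W w0 ≠ 0 := fun hh => hne1 (by rw [hh]; ring)
  have hxa' : x' a0 ≠ 0 := fun hh => hne2 (by rw [hh]; ring)
  have hub' : elU t' b0 ≠ 0 := fun hh => hne2 (by rw [hh]; ring)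
  have hww' : W' w0 ≠ 0 := fun hh => hne2 (by rw [hh]; ring)
  have hU : elU t' = (x a0 * W w0 / (x' a0 * W' w0)) • elU t := by
    funext b
    rw [Pi.smul_apply, smul_eq_mul]
    have := hz a0 b w0
    field_simp
    linear_combination this
  have hS : t' - t ∈ elS := elU_sep t' t _ hU
  have hU2 : elU t' = elU t := by
    have := el_period (t' - t) hS t
    rwa [add_sub_cancel] at this
  have hG2 : elG t' = elG t := by
    have := elG_period (t' - t) hS t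
    rwa [add_sub_cancel] at this
  have hz2 : ∀ a w, x' a * W' w = x a * W w := by
    intro a w
    have := hz a b0 w
    rw [hU2] at this
    have e : elU t b0 * (x' a * W' w) = elU t b0 * (x a * W w) := by linear_combination this
    exact mul_left_cancel₀ hub e
  set l : ℂ := W w0 / W' w0 with hl
  have hl0 : l ≠ 0 := div_ne_zero hww hww'
  have hx' : ∀ a, x' a = l * x a := by
    intro a
    have := hz2 a w0
    rw [hl]
    field_simp
    linear_combination this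
  have hw2 : ∀ w, l * W' w = W w := by
    intro w
    have := hz2 a0 w
    rw [hx'] at this
    have e : x a0 * (l * W' w) = x a0 * W w := by linear_combination this
    exact mul_left_cancel₀ hxa e
  refine ⟨l, (l ^ 4)⁻¹, mul_inv_cancel₀ (pow_ne_zero _ hl0), funext fun a => hx' a, hS, ?_, ?_⟩
  · obtain ⟨g0, hg0⟩ := Function.ne_iff.mp (elG_ne t)
    funext i
    have := hw2 (Sum.inr (i, g0))
    simp only [hW, hW', Sum.elim_inr, hG2] at this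
    have e : l * q' i = q i := by
      have e2 : elG t g0 * (l * q' i) = elG t g0 * q i := by linear_combination this
      exact mul_left_cancel₀ hg0 e2
    rw [Pi.smul_apply, smul_eq_mul, ← e]
    field_simp
  · have := hw2 (Sum.inl (a0, b0))
    simp only [hW, hW', Sum.elim_inl, hU2, hx'] at this
    have e : l ^ 4 * s' = s := by
      have e2 : (x a0 ^ 3 * elU t b0) * (l ^ 4 * s') = (x a0 ^ 3 * elU t b0) * s := by
        linear_combination this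
      exact mul_left_cancel₀ (mul_ne_zero (pow_ne_zero _ hxa) hub) e2
    rw [← e]
    field_simp

theorem D12_SD_Zv_scale (x U : Fin 3 → ℂ) (G : Fin 2 → ℂ) (q : Fin 3 → ℂ) (s l μ : ℂ)
    (hlm : l ^ 4 * μ = 1) : Zv (l • x) U G ((l ^ 3 * μ) • q) (μ * s) = Zv x U G q s := by
  funext ⟨a, b, w⟩
  rcases w with ⟨i, k⟩ | ⟨i, k⟩
  · simp only [Zv, Sum.elim_inl, Pi.smul_apply, smul_eq_mul]
    linear_combination (x a * U b * (x i ^ 3 * s * U k)) * hlm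
  · simp only [Zv, Sum.elim_inr, Pi.smul_apply, smul_eq_mul]
    linear_combination (x a * U b * (q i * G k)) * hlm

theorem D12_SD_Zv_smul (x U : Fin 3 → ℂ) (G : Fin 2 → ℂ) (q : Fin 3 → ℂ) (s b : ℂ) :
    Zv x U G (b • q) (b * s) = b • Zv x U G q s := by
  funext ⟨a, c, w⟩
  rcases w with ⟨i, k⟩ | ⟨i, k⟩
  · simp only [Zv, Sum.elim_inl, Pi.smul_apply, smul_eq_mul]
    ring
  · simp only [Zv, Sum.elim_inr, Pi.smul_apply, smul_eq_mul]
    ring

theorem D12_SD_Zq_smul (x U : Fin 3 → ℂ) (G : Fin 2 → ℂ) (i : Fin 3) (l : ℂ) :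
    Zq (l • x) U G i = l • Zq x U G i := by
  funext ⟨a, c, w⟩
  rcases w with ⟨i, k⟩ | ⟨i, k⟩
  · simp only [Zq, Zv, Sum.elim_inl, Pi.smul_apply, smul_eq_mul]
    ring
  · simp only [Zq, Zv, Sum.elim_inr, Pi.smul_apply, smul_eq_mul]
    ring

theorem D12_SD_Dfun_inv {R : ℕ → MvPolynomial (Fin 3 ⊕ Fin 3) ℂ} {e : ℕ → ℂ → ℂ} (he : IsE e)
    (hDs : ∀ (e : ℕ → ℂ) (m : ℕ) (x K : Fin 3 → ℂ) (s τ θ l μ : ℂ), l ^ 4 * μ = 1 →
      Dm R e m (l • x) (l • K) (μ * s) τ θ = l * Dm R e m x K s τ θ)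
    (m : ℕ) (x : Fin 3 → ℂ) (t t' : ℂ) (q : Fin 3 → ℂ) (s l μ : ℂ) (hlm : l ^ 4 * μ = 1)
    (hS : t' - t ∈ elS) (α : (Idx → ℂ) →L[ℂ] ℂ) :
    Dfun R e m (l • x) t' ((l ^ 3 * μ) • q) (μ * s) α = Dfun R e m x t q s α := by
  have hU2 : elU t' = elU t := by
    have := el_period (t' - t) hS t
    rwa [add_sub_cancel] at this
  have hG2 : elG t' = elG t := by
    have := elG_period (t' - t) hS t
    rwa [add_sub_cancel] at this
  have he2 : (fun k => e k t') = fun k => e k t := by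
    funext k
    have := he.period k t (t' - t) hS
    rwa [add_sub_cancel] at this
  have hd1 : (fun t'' => Zv (l • x) (elU t'') (elG t'') ((l ^ 3 * μ) • q) (μ * s)) =
      fun t'' => Zv x (elU t'') (elG t'') q s := by
    funext t''
    exact D12_SD_Zv_scale x _ _ q s l μ hlm
  have hd2 : deriv (fun t'' => Zv x (elU t'') (elG t'') q s) t' =
      deriv (fun t'' => Zv x (elU t'') (elG t'') q s) t := by
    have h1 := deriv_comp_add_const (fun t'' => Zv x (elU t'') (elG t'') q s) (t' - t) t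
    rw [add_sub_cancel] at h1
    rw [← h1]
    congr 1
    funext y
    rw [el_period _ hS, elG_period _ hS]
  have hK : (fun i => α (Zq (l • x) (elU t) (elG t) i)) =
      l • fun i => α (Zq x (elU t) (elG t) i) := by
    funext i
    rw [D12_SD_Zq_smul, map_smul]
    rfl
  have hθ : (∑ i, ((l ^ 3 * μ) • q) i * α (Zq (l • x) (elU t) (elG t) i)) =
      ∑ i, q i * α (Zq x (elU t) (elG t) i) := by
    refine Finset.sum_congr rfl fun i _ => ?_
    rw [D12_SD_Zq_smul, map_smul, Pi.smul_apply, smul_eq_mul, smul_eq_mul]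
    linear_combination (q i * α (Zq x (elU t) (elG t) i)) * hlm
  unfold Dfun
  rw [hd1, hd2, he2, hU2, hG2, hθ, hK, hDs _ m x _ s _ _ l μ hlm, Pi.smul_apply, smul_eq_mul]
  linear_combination (x 0 ^ 3 * s * Dm R (fun k => e k t) m x
    (fun i => α (Zq x (elU t) (elG t) i)) s
    (α (deriv (fun t' => Zv x (elU t') (elG t') q s) t))
    (∑ i, q i * α (Zq x (elU t) (elG t) i))) * hlm

theorem SD_eq {R : ℕ → MvPolynomial (Fin 3 ⊕ Fin 3) ℂ} {e : ℕ → ℂ → ℂ} (hR : IsR R) (he : IsE e)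
    (hDs : ∀ (e : ℕ → ℂ) (m : ℕ) (x K : Fin 3 → ℂ) (s τ θ l μ : ℂ), l ^ 4 * μ = 1 →
      Dm R e m (l • x) (l • K) (μ * s) τ θ = l * Dm R e m x K s τ θ)
    (m : ℕ) (x : Fin 3 → ℂ) (t : ℂ) (q : Fin 3 → ℂ) (s : ℂ) (hx : x ≠ 0) (hqs : q ≠ 0 ∨ s ≠ 0)
    (ht : t ∉ elS) (hE : Eqn x q (elsg t) s) (α : (Idx → ℂ) →L[ℂ] ℂ) :
    SD R e m (Zv x (elU t) (elG t) q s) α = Dfun R e m x t q s α := by
  unfold SD
  have h : ∃ r : (Fin 3 → ℂ) × ℂ × (Fin 3 → ℂ) × ℂ, r.2.1 ∉ elS ∧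
      Eqn r.1 r.2.2.1 (elsg r.2.1) r.2.2.2 ∧ Zv x (elU t) (elG t) q s =
        Zv r.1 (elU r.2.1) (elG r.2.1) r.2.2.1 r.2.2.2 := ⟨(x, t, q, s), ht, hE, rfl⟩
  rw [dif_pos h]
  obtain ⟨_, _, h3⟩ := h.choose_spec
  obtain ⟨l, μ, hlm, hx', hS, hq', hs'⟩ := rep_unique x h.choose.1 t h.choose.2.1 q
    h.choose.2.2.1 s h.choose.2.2.2 h3.symm (Zv_ne hx (elU_ne t) (elG_ne t) hqs)
  rw [hx', hq', hs']
  exact D12_SD_Dfun_inv he hDs m x t h.choose.2.1 q s l μ hlm hS α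

theorem SD_zero {R : ℕ → MvPolynomial (Fin 3 ⊕ Fin 3) ℂ} {e : ℕ → ℂ → ℂ}
    (m : ℕ) (x : Fin 3 → ℂ) (t : ℂ) (q : Fin 3 → ℂ) (s : ℂ) (hx : x ≠ 0) (hqs : q ≠ 0 ∨ s ≠ 0)
    (ht : t ∈ elS) (α : (Idx → ℂ) →L[ℂ] ℂ) :
    SD R e m (Zv x (elU t) (elG t) q s) α = 0 := by
  unfold SD
  rw [dif_neg]
  rintro ⟨⟨x', t', q', s'⟩, h1, _, h3⟩
  obtain ⟨l, μ, _, _, hS, _, _⟩ := rep_unique x x' t t' q q' s s' h3.symm
    (Zv_ne hx (elU_ne t) (elG_ne t) hqs)
  have := (el_add_mem (t' - t) hS t).mpr ht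
  rw [add_sub_cancel] at this
  exact h1 this

theorem D12_SD_Dfun_hom {R : ℕ → MvPolynomial (Fin 3 ⊕ Fin 3) ℂ} {e : ℕ → ℂ → ℂ}
    (hDh : ∀ (e : ℕ → ℂ) (m : ℕ) (x K : Fin 3 → ℂ) (s τ θ c : ℂ),
      Dm R e m x K (c * s) (c * τ) (c * θ) = c ^ m * Dm R e m x K s τ θ)
    (m : ℕ) (x : Fin 3 → ℂ) (t : ℂ) (q : Fin 3 → ℂ) (s b : ℂ) (α : (Idx → ℂ) →L[ℂ] ℂ) :
    Dfun R e m x t (b • q) (b * s) α = b ^ (1 + m) * Dfun R e m x t q s α := by
  have hd : deriv (fun t' => Zv x (elU t') (elG t') (b • q) (b * s)) t =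
      b • deriv (fun t' => Zv x (elU t') (elG t') q s) t := by
    have e1 : (fun t' => Zv x (elU t') (elG t') (b • q) (b * s)) =
        fun t' => b • Zv x (elU t') (elG t') q s := by
      funext t'; exact D12_SD_Zv_smul _ _ _ _ _ _
    rw [e1]
    exact deriv_fun_const_smul_field b _
  have hθ : (∑ i, (b • q) i * α (Zq x (elU t) (elG t) i)) =
      b * ∑ i, q i * α (Zq x (elU t) (elG t) i) := by
    rw [Finset.mul_sum]
    refine Finset.sum_congr rfl fun i _ => ?_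
    rw [Pi.smul_apply, smul_eq_mul]; ring
  unfold Dfun
  rw [hd, hθ, map_smul, smul_eq_mul, hDh]
  rw [pow_add, pow_one]
  ring

theorem SD_hom {R : ℕ → MvPolynomial (Fin 3 ⊕ Fin 3) ℂ} {e : ℕ → ℂ → ℂ} (hR : IsR R) (he : IsE e)
    (hDs : ∀ (e : ℕ → ℂ) (m : ℕ) (x K : Fin 3 → ℂ) (s τ θ l μ : ℂ), l ^ 4 * μ = 1 →
      Dm R e m (l • x) (l • K) (μ * s) τ θ = l * Dm R e m x K s τ θ)
    (hDh : ∀ (e : ℕ → ℂ) (m : ℕ) (x K : Fin 3 → ℂ) (s τ θ c : ℂ),
      Dm R e m x K (c * s) (c * τ) (c * θ) = c ^ m * Dm R e m x K s τ θ)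
    (m : ℕ) (z : Idx → ℂ) (hz : z ≠ 0) (hX : Projectivization.mk ℂ z hz ∈ XX)
    (α : (Idx → ℂ) →L[ℂ] ℂ) (b : ℂ) (hb : b ≠ 0) :
    SD R e m (b • z) α = b ^ (1 + m) * SD R e m z α := by
  obtain ⟨x, t, q, s, hx, hqs, hE, hmk⟩ := hX
  obtain ⟨c, hc⟩ := (Projectivization.mk_eq_mk_iff _ _ _ _ _).mp hmk
  have hc0 : (c : ℂ) ≠ 0 := c.ne_zero
  have hz1 : z = Zv x (elU t) (elG t) ((c : ℂ) • q) (c * s) := by
    rw [D12_SD_Zv_smul, ← hc]; rfl
  have hqs1 : ((c : ℂ) • q) ≠ 0 ∨ (c : ℂ) * s ≠ 0 := by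
    rcases hqs with h | h
    · exact Or.inl (smul_ne_zero hc0 h)
    · exact Or.inr (mul_ne_zero hc0 h)
  have hE1 : Eqn x ((c : ℂ) • q) (elsg t) (c * s) := by
    unfold Eqn at hE ⊢
    have : ∑ i, x i ^ 3 * ((c : ℂ) • q) i = c * ∑ i, x i ^ 3 * q i := by
      rw [Finset.mul_sum]
      refine Finset.sum_congr rfl fun i _ => ?_
      rw [Pi.smul_apply, smul_eq_mul]; ring
    rw [this]
    linear_combination (c : ℂ) * hE
  generalize ((c : ℂ) • q) = q1 at hz1 hqs1 hE1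
  generalize (c : ℂ) * s = s1 at hz1 hqs1 hE1
  have hqs2 : (b • q1) ≠ 0 ∨ b * s1 ≠ 0 := by
    rcases hqs1 with h | h
    · exact Or.inl (smul_ne_zero hb h)
    · exact Or.inr (mul_ne_zero hb h)
  have hE2 : Eqn x (b • q1) (elsg t) (b * s1) := by
    unfold Eqn at hE1 ⊢
    have : ∑ i, x i ^ 3 * (b • q1) i = b * ∑ i, x i ^ 3 * q1 i := by
      rw [Finset.mul_sum]
      refine Finset.sum_congr rfl fun i _ => ?_
      rw [Pi.smul_apply, smul_eq_mul]; ring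
    rw [this]
    linear_combination b * hE1
  rw [hz1, ← D12_SD_Zv_smul]
  by_cases ht : t ∈ elS
  · rw [SD_zero m x t _ _ hx hqs2 ht, SD_zero m x t _ _ hx hqs1 ht, mul_zero]
  · rw [SD_eq hR he hDs m x t _ _ hx hqs2 ht hE2, SD_eq hR he hDs m x t _ _ hx hqs1 ht hE1]
    exact D12_SD_Dfun_hom hDh m x t q1 s1 b α

end Pool.Agent.Helper922.MR
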