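import Pool.Agent.Helper922.MR.Model2

/-! The section `SD` in a frame. -/

open scoped LinearAlgebra.Projectivization

namespace Pool.Agent.Helper922.MR

variable {w₀ : ℂ}

theorem D13_SF_Zv_scale (x U : Fin 3 → ℂ) (G : Fin 2 → ℂ) (q : Fin 3 → ℂ) (s c : ℂ) :
    Zv x (c ^ 3 • U) (c ^ 2 • G) q s = Zv x U G (c ^ 5 • q) (c ^ 6 * s) := by
  funext p
  rcases p with ⟨p1, p2, p3 | p3⟩
  · simp only [Zv, Sum.elim_inl, Pi.smul_apply, smul_eq_mul]; ring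
  · simp only [Zv, Sum.elim_inr, Pi.smul_apply, smul_eq_mul]; ring

theorem D13_SF_Zv_scale2 (x U : Fin 3 → ℂ) (G : Fin 2 → ℂ) (q : Fin 3 → ℂ) (s c : ℂ) :
    Zv x (c ^ 3 • U) (c ^ 2 • G) (c • q) s = c ^ 6 • Zv x U G q s := by
  funext p
  rcases p with ⟨p1, p2, p3 | p3⟩
  · simp only [Zv, Sum.elim_inl, Pi.smul_apply, smul_eq_mul]; ring
  · simp only [Zv, Sum.elim_inr, Pi.smul_apply, smul_eq_mul]; ring

theorem D13_SF_Zv_smul (x U : Fin 3 → ℂ) (G : Fin 2 → ℂ) (q : Fin 3 → ℂ) (s b : ℂ) :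
    Zv x U G (b • q) (b * s) = b • Zv x U G q s := by
  funext p
  rcases p with ⟨p1, p2, p3 | p3⟩
  · simp only [Zv, Sum.elim_inl, Pi.smul_apply, smul_eq_mul]; ring
  · simp only [Zv, Sum.elim_inr, Pi.smul_apply, smul_eq_mul]; ring

theorem D13_SF_Zv_split (x U : Fin 3 → ℂ) (G : Fin 2 → ℂ) (q : Fin 3 → ℂ) (s b : ℂ) :
    Zv x U G (b • q) s = Zv x U G 0 s + b • Zv x U G q 0 := by
  funext p
  rcases p with ⟨p1, p2, p3 | p3⟩
  · simp only [Zv, Sum.elim_inl, Pi.smul_apply, smul_eq_mul, Pi.add_apply]; ring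
  · simp only [Zv, Sum.elim_inr, Pi.smul_apply, smul_eq_mul, Pi.add_apply, Pi.zero_apply]; ring

theorem D13_SF_Zq_scale (x U : Fin 3 → ℂ) (G : Fin 2 → ℂ) (i : Fin 3) (c : ℂ) :
    Zq x (c ^ 3 • U) (c ^ 2 • G) i = c ^ 5 • Zq x U G i := by
  funext p
  rcases p with ⟨p1, p2, p3 | p3⟩
  · simp only [Zq, Zv, Sum.elim_inl, Pi.smul_apply, smul_eq_mul]; ring
  · simp only [Zq, Zv, Sum.elim_inr, Pi.smul_apply, smul_eq_mul]; ring

theorem D13_SF_Zv_q (x U : Fin 3 → ℂ) (G : Fin 2 → ℂ) (q : Fin 3 → ℂ) :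
    Zv x U G q 0 = ∑ i, q i • Zq x U G i := by
  funext p
  rcases p with ⟨p1, p2, p3 | p3⟩
  · simp [Zq, Zv, Finset.sum_apply]
  · rcases p3 with ⟨a, b⟩
    simp only [Zq, Zv, Sum.elim_inr, Finset.sum_apply, Pi.smul_apply, smul_eq_mul,
      Fin.sum_univ_three, Pi.single_apply]
    fin_cases a <;> simp <;> ring

/-- differentiability of `Zv` along a curve -/
theorem D13_SF_Zv_diff {U : ℂ → Fin 3 → ℂ} {G : ℂ → Fin 2 → ℂ} {t : ℂ} (hU : DifferentiableAt ℂ U t)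
    (hG : DifferentiableAt ℂ G t) (x q : Fin 3 → ℂ) (s : ℂ) :
    DifferentiableAt ℂ (fun t' => Zv x (U t') (G t') q s) t := by
  rw [differentiableAt_pi]
  have hU' := fun i => differentiableAt_pi.1 hU i
  have hG' := fun i => differentiableAt_pi.1 hG i
  rintro ⟨p1, p2, p3 | p3⟩
  · simp only [Zv, Sum.elim_inl]
    exact ((hU' p2).const_mul _).mul ((hU' p3.2).const_mul _)
  · simp only [Zv, Sum.elim_inr]
    exact ((hU' p2).const_mul _).mul ((hG' p3.2).const_mul _)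

theorem D13_SF_near (fr : Frame w₀) {t : ℂ} (ht : t ∈ Metric.ball w₀ fr.r) (hS : t ∉ elS) :
    DifferentiableAt ℂ fr.c t ∧ ∀ᶠ t' in nhds t, t' ∈ Metric.ball w₀ fr.r ∧ t' ∉ elS := by
  have h1 : ∀ᶠ t' in nhds t, t' ∈ Metric.ball w₀ fr.r := Metric.isOpen_ball.mem_nhds ht
  have h2 : ∀ᶠ t' in nhds t, t' ∉ elS := el_closed.isOpen_compl.mem_nhds hS
  refine ⟨?_, h1.and h2⟩
  rcases fr.type with h | ⟨hw, h⟩
  · have h3 : fr.c =ᶠ[nhds t] fun _ => (1 : ℂ) := by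
      filter_upwards [h1] with t' ht'
      exact (h t' ht').2
    exact h3.differentiableAt_iff.2 (differentiableAt_const _)
  · have h3 : fr.c =ᶠ[nhds t] fun t' => t' - w₀ := by
      filter_upwards [h1, h2] with t' ht' hs'
      exact (h t' ht' (fun h4 => hs' (h4 ▸ hw))).2
    exact h3.differentiableAt_iff.2 (differentiableAt_id.sub_const _)

theorem D13_SF_DG0 (R : ℕ → MvPolynomial (Fin 3 ⊕ Fin 3) ℂ) (m : ℕ) (x K : Fin 3 → ℂ) (s τ θ : ℂ)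
    (Γ : ℕ → ℕ → ℂ) (h : ∀ j l, Γ j l = 0) : DG R Γ m x K s τ θ = 0 := by
  unfold DG
  apply Finset.sum_eq_zero
  intro j _
  rw [Finset.sum_eq_zero (fun l _ => by rw [h, mul_zero]), mul_zero]

theorem D13_SF_SG0 {R : ℕ → MvPolynomial (Fin 3 ⊕ Fin 3) ℂ} {e : ℕ → ℂ → ℂ}
    (fr : Frame w₀) {Γ : ℕ → ℕ → ℂ → ℂ} (hΓ : IsGam fr e Γ) (m : ℕ) (t : ℂ)
    (ht : t ∈ Metric.ball w₀ fr.r) (hS : t ∈ elS) (x q : Fin 3 → ℂ) (s : ℂ) (κ : Fin 3 → ℂ)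
    (τ : ℂ) : SG R Γ m x t q s κ τ = 0 := by
  unfold SG
  rw [D13_SF_DG0 _ _ _ _ _ _ _ _ (fun j l => hΓ.zero j l t ht hS), mul_zero]

theorem D13_SF_SG {R : ℕ → MvPolynomial (Fin 3 ⊕ Fin 3) ℂ} {e : ℕ → ℂ → ℂ}
    (fr : Frame w₀) {Γ : ℕ → ℕ → ℂ → ℂ} (hΓ : IsGam fr e Γ)
    (hDe : ∀ (e : ℕ → ℂ) (m : ℕ) (x K : Fin 3 → ℂ) (s τ θ c d : ℂ),
      Dm R e m x (c • K) s (τ + d * θ) θ =
        DG R (fun j l => c ^ j * ∑ k ∈ Finset.range (l + 1), (l.choose k : ℂ) * e (j + k) *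
          d ^ (l - k)) m x K s τ θ)
    (hDGs : ∀ (Γ : ℕ → ℕ → ℂ) (m : ℕ) (x K : Fin 3 → ℂ) (s τ θ c : ℂ),
      DG R (fun j l => c * Γ j l) m x K s τ θ = c * DG R Γ m x K s τ θ)
    (m : ℕ) (t : ℂ) (ht : t ∈ Metric.ball w₀ fr.r) (hS : t ∉ elS) (x q : Fin 3 → ℂ) (s : ℂ)
    (κ : Fin 3 → ℂ) (τ : ℂ) :
    SG R Γ m x t q s κ τ = x 0 ^ 3 * s * (fr.c t ^ 6 * Dm R (fun k => e k t) m x (fr.c t • κ) s
      (τ + deriv fr.c t / fr.c t * ∑ i, q i * κ i) (∑ i, q i * κ i)) := by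
  rw [hDe, ← hDGs]
  unfold SG
  congr 2
  funext j l
  rw [hΓ.eq j l t ht hS, pow_add]
  ring

theorem D13_SF_Dm {R : ℕ → MvPolynomial (Fin 3 ⊕ Fin 3) ℂ} (hR : IsR R) (e : ℕ → ℂ) (m : ℕ)
    (x K κ : Fin 3 → ℂ) (s τ θ c : ℂ) (hκ : κ = c ^ 5 • K) :
    Dm R e m x K (c ^ 6 * s) τ θ = Dm R e m x (c • κ) s τ θ := by
  unfold Dm Bk
  refine Finset.sum_congr rfl fun k _ => ?_
  congr 1
  refine Finset.sum_congr rfl fun j _ => ?_
  rw [hκ, smul_smul, hR.homK]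
  ring

theorem SD_frame {R : ℕ → MvPolynomial (Fin 3 ⊕ Fin 3) ℂ} {e : ℕ → ℂ → ℂ} (hR : IsR R)
    (fr : Frame w₀) {Γ : ℕ → ℕ → ℂ → ℂ} (hΓ : IsGam fr e Γ)
    (hDe : ∀ (e : ℕ → ℂ) (m : ℕ) (x K : Fin 3 → ℂ) (s τ θ c d : ℂ),
      Dm R e m x (c • K) s (τ + d * θ) θ =
        DG R (fun j l => c ^ j * ∑ k ∈ Finset.range (l + 1), (l.choose k : ℂ) * e (j + k) *
          d ^ (l - k)) m x K s τ θ)
    (hDGs : ∀ (Γ : ℕ → ℕ → ℂ) (m : ℕ) (x K : Fin 3 → ℂ) (s τ θ c : ℂ),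
      DG R (fun j l => c * Γ j l) m x K s τ θ = c * DG R Γ m x K s τ θ)
    (hSD : ∀ (m : ℕ) (x : Fin 3 → ℂ) (t : ℂ) (q : Fin 3 → ℂ) (s : ℂ), x ≠ 0 → (q ≠ 0 ∨ s ≠ 0) →
      t ∉ elS → Eqn x q (elsg t) s → ∀ α : (Idx → ℂ) →L[ℂ] ℂ,
      SD R e m (Zv x (elU t) (elG t) q s) α = Dfun R e m x t q s α)
    (hSD0 : ∀ (m : ℕ) (x : Fin 3 → ℂ) (t : ℂ) (q : Fin 3 → ℂ) (s : ℂ), x ≠ 0 → (q ≠ 0 ∨ s ≠ 0) →
      t ∈ elS → ∀ α : (Idx → ℂ) →L[ℂ] ℂ, SD R e m (Zv x (elU t) (elG t) q s) α = 0)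
    (m : ℕ) (t : ℂ) (ht : t ∈ Metric.ball w₀ fr.r) (x q : Fin 3 → ℂ) (s : ℂ) (hx : x ≠ 0)
    (hqs : q ≠ 0 ∨ s ≠ 0) (hE : Eqn x q (fr.σ t) s) (α : (Idx → ℂ) →L[ℂ] ℂ)
    (hα : α (Zv x (fr.U t) (fr.G t) q s) = 0) :
    SD R e m (Zv x (fr.U t) (fr.G t) q s) α =
      SG R Γ m x t q s (fun i => α (Zq x (fr.U t) (fr.G t) i))
        (α (deriv (fun t' => Zv x (fr.U t') (fr.G t') q s) t)) := by
  have hc := fr.c_ne t ht
  set c := fr.c t with hcdef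
  have hqs' : c ^ 5 • q ≠ 0 ∨ c ^ 6 * s ≠ 0 := by
    rcases hqs with h | h
    · exact Or.inl (smul_ne_zero (pow_ne_zero _ hc) h)
    · exact Or.inr (mul_ne_zero (pow_ne_zero _ hc) h)
  have hZ : Zv x (fr.U t) (fr.G t) q s = Zv x (elU t) (elG t) (c ^ 5 • q) (c ^ 6 * s) := by
    rw [fr.U_eq t ht, fr.G_eq t ht, D13_SF_Zv_scale]
  by_cases hS : t ∈ elS
  · rw [D13_SF_SG0 fr hΓ m t ht hS, hZ]
    exact hSD0 m x t _ _ hx hqs' hS α
  obtain ⟨hcd, hnear⟩ := D13_SF_near fr ht hS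
  have hU : DifferentiableAt ℂ fr.U t := fr.dU.differentiableAt (Metric.isOpen_ball.mem_nhds ht)
  have hG : DifferentiableAt ℂ fr.G t := fr.dG.differentiableAt (Metric.isOpen_ball.mem_nhds ht)
  have hσ1 : fr.σ t = c := by rw [fr.σ_eq t ht, elsg, if_neg hS, mul_one]
  have hE' : Eqn x (c ^ 5 • q) (elsg t) (c ^ 6 * s) := by
    unfold Eqn at hE ⊢
    rw [hσ1] at hE
    have h1 : elsg t = 1 := by rw [elsg, if_neg hS]
    rw [h1]
    have h2 : (∑ i, x i ^ 3 * (c ^ 5 • q) i) = c ^ 5 * ∑ i, x i ^ 3 * q i := by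
      rw [Finset.mul_sum]
      exact Finset.sum_congr rfl fun i _ => by simp only [Pi.smul_apply, smul_eq_mul]; ring
    rw [h2]
    linear_combination c ^ 5 * hE
  rw [D13_SF_SG fr hΓ hDe hDGs m t ht hS, hZ, hSD m x t _ _ hx hqs' hS hE' α]
  unfold Dfun
  -- κ
  set K : Fin 3 → ℂ := fun i => α (Zq x (elU t) (elG t) i) with hK
  have hκ : (fun i => α (Zq x (fr.U t) (fr.G t) i)) = c ^ 5 • K := by
    funext i
    rw [fr.U_eq t ht, fr.G_eq t ht, D13_SF_Zq_scale, map_smul]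
    rfl
  rw [hκ]
  have hθ : ∑ i, (c ^ 5 • q) i * K i = ∑ i, q i * (c ^ 5 • K) i :=
    Finset.sum_congr rfl fun i _ => by simp only [Pi.smul_apply, smul_eq_mul]; ring
  rw [hθ]
  set θ : ℂ := ∑ i, q i * (c ^ 5 • K) i with hθdef
  -- τ
  have hτ : α (deriv (fun t' => Zv x (elU t') (elG t') (c ^ 5 • q) (c ^ 6 * s)) t) =
      α (deriv (fun t' => Zv x (fr.U t') (fr.G t') q s) t) + deriv fr.c t / c * θ := by
    set Q0 : Fin 3 → ℂ := c⁻¹ • q with hQ0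
    have hq : q = c • Q0 := by rw [hQ0, smul_smul, mul_inv_cancel₀ hc, one_smul]
    -- differentiability
    have hU' : DifferentiableAt ℂ elU t := el_diff_away t hS
    have hG' : DifferentiableAt ℂ elG t := by
      have h3 : elG =ᶠ[nhds t] fun t' => (fr.c t' ^ 2)⁻¹ • fr.G t' := by
        filter_upwards [hnear] with t' ht'
        rw [fr.G_eq t' ht'.1, smul_smul, inv_mul_cancel₀ (pow_ne_zero _ (fr.c_ne t' ht'.1)),
          one_smul]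
      exact h3.differentiableAt_iff.2 (((hcd.pow 2).inv (pow_ne_zero _ hc)).smul hG)
    have hZ1 := D13_SF_Zv_diff hU' hG' x Q0 s
    have hZ2 := D13_SF_Zv_diff hU hG x 0 s
    have hZ3 := D13_SF_Zv_diff hU hG x Q0 0
    have e1 : (fun t' => Zv x (elU t') (elG t') (c ^ 5 • q) (c ^ 6 * s)) =
        fun t' => c ^ 6 • Zv x (elU t') (elG t') Q0 s := by
      funext t'
      rw [← D13_SF_Zv_smul, hq, smul_smul]
      ring_nf
    have e2 : (fun t' => Zv x (fr.U t') (fr.G t') q s) =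
        fun t' => Zv x (fr.U t') (fr.G t') 0 s + c • Zv x (fr.U t') (fr.G t') Q0 0 := by
      funext t'
      rw [← D13_SF_Zv_split, ← hq]
    have e3 : (fun t' => Zv x (fr.U t') (fr.G t') 0 s + fr.c t' • Zv x (fr.U t') (fr.G t') Q0 0)
        =ᶠ[nhds t] fun t' => fr.c t' ^ 6 • Zv x (elU t') (elG t') Q0 s := by
      filter_upwards [hnear] with t' ht'
      rw [← D13_SF_Zv_split, fr.U_eq t' ht'.1, fr.G_eq t' ht'.1, D13_SF_Zv_scale2]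
    have d1 : deriv (fun t' => Zv x (elU t') (elG t') (c ^ 5 • q) (c ^ 6 * s)) t =
        c ^ 6 • deriv (fun t' => Zv x (elU t') (elG t') Q0 s) t := by
      rw [e1]
      exact (hZ1.hasDerivAt.const_smul (c ^ 6)).deriv
    have d2 : deriv (fun t' => Zv x (fr.U t') (fr.G t') q s) t =
        deriv (fun t' => Zv x (fr.U t') (fr.G t') 0 s) t +
          c • deriv (fun t' => Zv x (fr.U t') (fr.G t') Q0 0) t := by
      rw [e2]
      exact (hZ2.hasDerivAt.add (hZ3.hasDerivAt.const_smul c)).deriv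
    have d3 := (hZ2.hasDerivAt.add (hcd.hasDerivAt.smul hZ3.hasDerivAt)).deriv
    have d4 := ((hcd.hasDerivAt.pow 6).smul hZ1.hasDerivAt).deriv
    have d5 := e3.deriv_eq
    have d6 := congrArg α ((d3.symm.trans d5).trans d4)
    have a1 : α (Zv x (elU t) (elG t) Q0 s) = 0 := by
      rw [hZ, hq, smul_smul] at hα
      have h6 : Zv x (elU t) (elG t) ((c ^ 5 * c) • Q0) (c ^ 6 * s) =
          c ^ 6 • Zv x (elU t) (elG t) Q0 s := by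
        rw [← D13_SF_Zv_smul]
        ring_nf
      rw [h6, map_smul, smul_eq_mul] at hα
      exact (mul_eq_zero.1 hα).resolve_left (pow_ne_zero _ hc)
    have a2 : c * α (Zv x (fr.U t) (fr.G t) Q0 0) = θ := by
      have h7 : c • Zv x (fr.U t) (fr.G t) Q0 0 = Zv x (fr.U t) (fr.G t) q 0 := by
        rw [← D13_SF_Zv_smul, ← hq, mul_zero]
      have h8 := congrArg α h7
      rw [map_smul, smul_eq_mul] at h8
      rw [h8, D13_SF_Zv_q, map_sum, hθdef]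
      refine Finset.sum_congr rfl fun i _ => ?_
      rw [map_smul, smul_eq_mul]
      congr 1
      exact congrFun hκ i
    rw [d1, d2, map_smul, map_add, map_smul]
    simp only [map_add, map_smul, smul_eq_mul, a1, mul_zero, add_zero, Pi.pow_apply, ← hcdef] at d6
    rw [← a2]
    simp only [smul_eq_mul]
    field_simp
    linear_combination (-1 : ℂ) * d6
  have hs2 : ∑ i, q i * α (Zq x (fr.U t) (fr.G t) i) = θ :=
    Finset.sum_congr rfl fun i _ => by rw [← congrFun hκ i]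
  rw [hτ, D13_SF_Dm hR _ m x K (c ^ 5 • K) s _ _ c rfl]
  simp only [hs2, ← hcdef]
  ring

theorem SG_gauge {R : ℕ → MvPolynomial (Fin 3 ⊕ Fin 3) ℂ} {e : ℕ → ℂ → ℂ} (hR : IsR R)
    (fr : Frame w₀) {Γ : ℕ → ℕ → ℂ → ℂ} (hΓ : IsGam fr e Γ)
    (hDe : ∀ (e : ℕ → ℂ) (m : ℕ) (x K : Fin 3 → ℂ) (s τ θ c d : ℂ),
      Dm R e m x (c • K) s (τ + d * θ) θ =
        DG R (fun j l => c ^ j * ∑ k ∈ Finset.range (l + 1), (l.choose k : ℂ) * e (j + k) *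
          d ^ (l - k)) m x K s τ θ)
    (hDGs : ∀ (Γ : ℕ → ℕ → ℂ) (m : ℕ) (x K : Fin 3 → ℂ) (s τ θ c : ℂ),
      DG R (fun j l => c * Γ j l) m x K s τ θ = c * DG R Γ m x K s τ θ)
    (hDs : ∀ (e : ℕ → ℂ) (m : ℕ) (x K : Fin 3 → ℂ) (s τ θ l : ℂ),
      Dm R e m x (fun i => K i + l * x i ^ 3) s τ (θ - l * (x 0 * x 1 * x 2) ^ 2 * s) =
        Dm R e m x K s τ θ)
    (m : ℕ) (t : ℂ) (ht : t ∈ Metric.ball w₀ fr.r) (x q : Fin 3 → ℂ) (s : ℂ)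
    (hE : Eqn x q (fr.σ t) s) (κ : Fin 3 → ℂ) (τ l : ℂ) :
    SG R Γ m x t q s (fun i => κ i - l * x i ^ 3)
      (τ - l * (deriv fr.σ t * (x 0 * x 1 * x 2) ^ 2 * s)) = SG R Γ m x t q s κ τ := by
  have hc := fr.c_ne t ht
  by_cases hS : t ∈ elS
  · rw [D13_SF_SG0 fr hΓ m t ht hS, D13_SF_SG0 fr hΓ m t ht hS]
  obtain ⟨hcd, hnear⟩ := D13_SF_near fr ht hS
  have hσ1 : fr.σ t = fr.c t := by rw [fr.σ_eq t ht, elsg, if_neg hS, mul_one]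
  have hσ2 : deriv fr.σ t = deriv fr.c t := by
    apply Filter.EventuallyEq.deriv_eq
    filter_upwards [hnear] with t' ht'
    rw [fr.σ_eq t' ht'.1, elsg, if_neg ht'.2, mul_one]
  rw [D13_SF_SG fr hΓ hDe hDGs m t ht hS, D13_SF_SG fr hΓ hDe hDGs m t ht hS, hσ2]
  unfold Eqn at hE
  rw [hσ1] at hE
  have hθ : ∑ i, q i * (κ i - l * x i ^ 3) =
      (∑ i, q i * κ i) - (-(fr.c t * l)) * (x 0 * x 1 * x 2) ^ 2 * s := by
    simp only [Fin.sum_univ_three] at hE ⊢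
    linear_combination (-l) * hE
  have hK : (fr.c t • fun i => κ i - l * x i ^ 3) =
      fun i => (fr.c t • κ) i + (-(fr.c t * l)) * x i ^ 3 := by
    funext i
    simp only [Pi.smul_apply, smul_eq_mul]
    ring
  have hτ : τ - l * (deriv fr.c t * (x 0 * x 1 * x 2) ^ 2 * s) + deriv fr.c t / fr.c t *
      ((∑ i, q i * κ i) - (-(fr.c t * l)) * (x 0 * x 1 * x 2) ^ 2 * s) =
      τ + deriv fr.c t / fr.c t * ∑ i, q i * κ i := by
    field_simp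
    ring
  rw [hθ, hτ, hK, hDs]

end Pool.Agent.Helper922.MR
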