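import Pool.Agent.Helper922.MR.Model2

/-! Derivatives of the charts. -/

namespace Pool.Agent.Helper922.MR

variable {w₀ : ℂ}

theorem E1_cq_lin_j21672 (a : Fin 3) (x : Fin 3 → ℂ) (σ : ℂ) (ω ω' : Fin 3 → ℂ) (b : ℂ) :
    cq a x σ (ω + b • ω') = cq a x σ ω + b • cq a x σ ω' := by
  funext i
  simp only [cq, Pi.add_apply, Pi.smul_apply, smul_eq_mul]
  split_ifs
  · have h1 : ∑ j ∈ Finset.univ.erase a, x j ^ 3 * (ω j + b * ω' j) =
        ∑ j ∈ Finset.univ.erase a, x j ^ 3 * ω j +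
          b * ∑ j ∈ Finset.univ.erase a, x j ^ 3 * ω' j := by
      rw [Finset.mul_sum, ← Finset.sum_add_distrib]
      exact Finset.sum_congr rfl fun j _ => by ring
    rw [h1]
    ring
  · rfl

theorem E1_Zv_lin_j21672 (x U : Fin 3 → ℂ) (G : Fin 2 → ℂ) (q q' : Fin 3 → ℂ) (s s' b : ℂ) :
    Zv x U G (q + b • q') (s + b * s') = Zv x U G q s + b • Zv x U G q' s' := by
  funext p
  rcases p with ⟨p1, p2, p3 | p3⟩
  · simp only [Zv, Sum.elim_inl, Pi.add_apply, Pi.smul_apply, smul_eq_mul]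
    ring
  · simp only [Zv, Sum.elim_inr, Pi.add_apply, Pi.smul_apply, smul_eq_mul]
    ring

theorem Psi_lin (fr : Frame w₀) (a : Fin 3) (x : Fin 3 → ℂ) (t : ℂ) (ω ω' : Fin 3 → ℂ) (b : ℂ) :
    Psi fr a x t (ω + b • ω') = Psi fr a x t ω + b • Psi fr a x t ω' := by
  unfold Psi
  rw [E1_cq_lin_j21672]
  exact E1_Zv_lin_j21672 _ _ _ _ _ _ _ _

theorem Psi_single (fr : Frame w₀) (a i : Fin 3) (hi : i ≠ a) (x : Fin 3 → ℂ) (t : ℂ) :
    Psi fr a x t (Pi.single i 1) = Zq x (fr.U t) (fr.G t) i - x i ^ 3 • Zq x (fr.U t) (fr.G t) a := by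
  have h1 : cq a x (fr.σ t) (Pi.single i 1) =
      (Pi.single i 1 : Fin 3 → ℂ) + (-(x i ^ 3)) • (Pi.single a 1 : Fin 3 → ℂ) := by
    funext k
    simp only [cq, Pi.add_apply, Pi.smul_apply, smul_eq_mul]
    split_ifs with hk
    · subst hk
      rw [Finset.sum_eq_single i]
      · simp [Pi.single_eq_of_ne hi.symm]
      · intro b _ hb
        simp [Pi.single_eq_of_ne hb]
      · intro h
        exact absurd (Finset.mem_erase.2 ⟨hi, Finset.mem_univ _⟩) h
    · simp [Pi.single_eq_of_ne hk]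
  have h2 : (Pi.single i 1 : Fin 3 → ℂ) a = 0 + (-(x i ^ 3)) * 0 := by
    rw [Pi.single_eq_of_ne hi.symm]
    ring
  unfold Psi Zq
  rw [h1, h2, E1_Zv_lin_j21672, neg_smul, ← sub_eq_add_neg]

theorem E1_Zv_hasDeriv_j21672 (x : Fin 3 → ℂ) (U : ℂ → Fin 3 → ℂ) (G : ℂ → Fin 2 → ℂ)
    (q : Fin 3 → ℂ) (s t : ℂ) (hU : DifferentiableAt ℂ U t) (hG : DifferentiableAt ℂ G t) :
    DifferentiableAt ℂ (fun t => Zv x (U t) (G t) q s) t := by
  rw [differentiableAt_pi] at hU hG ⊢
  rintro ⟨p1, p2, p3 | p3⟩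
  · simp only [Zv, Sum.elim_inl]
    exact ((hU p2).const_mul _).mul ((hU p3.2).const_mul _)
  · simp only [Zv, Sum.elim_inr]
    exact ((hU p2).const_mul _).mul ((hG p3.2).const_mul _)

theorem E1_cq_sigma_j21672 (a : Fin 3) (x : Fin 3 → ℂ) (σ σ' : ℂ) (ω : Fin 3 → ℂ) :
    cq a x σ ω = cq a x σ' ω +
      (-((σ - σ') * (x 0 * x 1 * x 2) ^ 2 * ω a)) • (Pi.single a 1 : Fin 3 → ℂ) := by
  funext i
  simp only [cq, Pi.add_apply, Pi.smul_apply, smul_eq_mul]
  split_ifs with h
  · subst h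
    rw [Pi.single_eq_same]
    ring
  · rw [Pi.single_eq_of_ne h]
    ring

theorem fderiv_chart_t (fr : Frame w₀) (a c : Fin 3) (v : P5) (hv : v ∈ dom fr)
    (hd : DifferentiableAt ℂ (chart fr a c) v) :
    fderiv ℂ (chart fr a c) v (0, 1, 0) =
      deriv (fun t => Zv (ins a v.1) (fr.U t) (fr.G t)
        (cq a (ins a v.1) (fr.σ v.2.1) (ins c v.2.2)) (ins c v.2.2 a)) v.2.1 -
      (deriv fr.σ v.2.1 * (ins a v.1 0 * ins a v.1 1 * ins a v.1 2) ^ 2 * ins c v.2.2 a) •
        Zq (ins a v.1) (fr.U v.2.1) (fr.G v.2.1) a := by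
  have hball : Metric.ball w₀ fr.r ∈ nhds v.2.1 := Metric.isOpen_ball.mem_nhds hv
  have hU : DifferentiableAt ℂ fr.U v.2.1 := fr.dU.differentiableAt hball
  have hG : DifferentiableAt ℂ fr.G v.2.1 := fr.dG.differentiableAt hball
  have hσ : DifferentiableAt ℂ fr.σ v.2.1 := fr.dσ.differentiableAt hball
  have hcurve : HasDerivAt (fun t : ℂ => ((v.1, t, v.2.2) : P5)) (0, 1, 0) v.2.1 :=
    (hasDerivAt_const _ _).prodMk ((hasDerivAt_id _).prodMk (hasDerivAt_const _ _))
  have h1 : HasDerivAt (fun t : ℂ => chart fr a c (v.1, t, v.2.2))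
      (fderiv ℂ (chart fr a c) v (0, 1, 0)) v.2.1 :=
    HasFDerivAt.comp_hasDerivAt (l := chart fr a c) v.2.1 hd.hasFDerivAt hcurve
  have h2 : ∀ t : ℂ, chart fr a c (v.1, t, v.2.2) =
      Zv (ins a v.1) (fr.U t) (fr.G t)
        (cq a (ins a v.1) (fr.σ v.2.1) (ins c v.2.2)) (ins c v.2.2 a) -
      ((fr.σ t - fr.σ v.2.1) * (ins a v.1 0 * ins a v.1 1 * ins a v.1 2) ^ 2 * ins c v.2.2 a) •
        Zq (ins a v.1) (fr.U t) (fr.G t) a := by
    intro t
    unfold chart Psi
    simp only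
    rw [E1_cq_sigma_j21672 a (ins a v.1) (fr.σ t) (fr.σ v.2.1) (ins c v.2.2)]
    have h3 : ins c v.2.2 a = ins c v.2.2 a +
        (-((fr.σ t - fr.σ v.2.1) * (ins a v.1 0 * ins a v.1 1 * ins a v.1 2) ^ 2 *
          ins c v.2.2 a)) * 0 := by ring
    conv_lhs => rw [h3]
    rw [mul_zero, add_zero]
    have h4 := E1_Zv_lin_j21672 (ins a v.1) (fr.U t) (fr.G t)
      (cq a (ins a v.1) (fr.σ v.2.1) (ins c v.2.2)) (Pi.single a 1) (ins c v.2.2 a) 0
      (-((fr.σ t - fr.σ v.2.1) * (ins a v.1 0 * ins a v.1 1 * ins a v.1 2) ^ 2 *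
          ins c v.2.2 a))
    rw [mul_zero, add_zero] at h4
    rw [h4, neg_smul, ← sub_eq_add_neg]
    rfl
  have h5 : HasDerivAt (fun t => Zv (ins a v.1) (fr.U t) (fr.G t)
        (cq a (ins a v.1) (fr.σ v.2.1) (ins c v.2.2)) (ins c v.2.2 a))
      (deriv (fun t => Zv (ins a v.1) (fr.U t) (fr.G t)
        (cq a (ins a v.1) (fr.σ v.2.1) (ins c v.2.2)) (ins c v.2.2 a)) v.2.1) v.2.1 :=
    (E1_Zv_hasDeriv_j21672 _ _ _ _ _ _ hU hG).hasDerivAt
  have h6 : HasDerivAt (fun t => Zq (ins a v.1) (fr.U t) (fr.G t) a)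
      (deriv (fun t => Zq (ins a v.1) (fr.U t) (fr.G t) a) v.2.1) v.2.1 := by
    unfold Zq
    exact (E1_Zv_hasDeriv_j21672 _ _ _ _ _ _ hU hG).hasDerivAt
  have h7 : HasDerivAt (fun t => (fr.σ t - fr.σ v.2.1) *
        (ins a v.1 0 * ins a v.1 1 * ins a v.1 2) ^ 2 * ins c v.2.2 a)
      (deriv fr.σ v.2.1 * (ins a v.1 0 * ins a v.1 1 * ins a v.1 2) ^ 2 * ins c v.2.2 a)
      v.2.1 :=
    ((hσ.hasDerivAt.sub_const _).mul_const _).mul_const _
  have h8 := h5.sub (h7.smul h6)
  have h9 : HasDerivAt (fun t : ℂ => chart fr a c (v.1, t, v.2.2)) _ v.2.1 :=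
    h8.congr_of_eventuallyEq (Filter.Eventually.of_forall fun t => h2 t)
  rw [h1.unique h9]
  simp

theorem E1_ins_same_j21672 (a : Fin 3) (y : Fin 2 → ℂ) : ins a y a = 1 :=
  Fin.insertNth_apply_same _ _ _

theorem E1_ins_succ_j21672 (a : Fin 3) (y : Fin 2 → ℂ) (k : Fin 2) :
    ins a y (a.succAbove k) = y k :=
  Fin.insertNth_apply_succAbove _ _ _ _

theorem fderiv_chart_kv (fr : Frame w₀) (a c i : Fin 3) (v : P5) (hv : v ∈ dom fr)
    (hd : DifferentiableAt ℂ (chart fr a c) v) :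
    ∃ η : ℂ, fderiv ℂ (chart fr a c) v (kv a c i v) =
      Zq (ins a v.1) (fr.U v.2.1) (fr.G v.2.1) i -
        (ins a v.1 i) ^ 3 • Zq (ins a v.1) (fr.U v.2.1) (fr.G v.2.1) a - η • chart fr a c v := by
  by_cases hia : i = a
  · subst hia
    refine ⟨0, ?_⟩
    rw [kv, if_pos rfl, map_zero, E1_ins_same_j21672]
    simp
  · set η : ℂ := if i = c then 1 else 0 with hη
    refine ⟨η, ?_⟩
    set d : Fin 2 → ℂ := fun k => (Pi.single i (1 : ℂ) : Fin 3 → ℂ) (c.succAbove k) -
      if i = c then v.2.2 k else 0 with hd'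
    have hkv : kv a c i v = (0, 0, d) := by rw [kv, if_neg hia]
    have hins : ∀ ε : ℂ, ins c (v.2.2 + ε • d) =
        ins c v.2.2 + ε • ((Pi.single i (1 : ℂ) : Fin 3 → ℂ) + (-η) • ins c v.2.2) := by
      intro ε
      funext b
      by_cases hb : b = c
      · subst hb
        simp only [Pi.add_apply, Pi.smul_apply, smul_eq_mul, E1_ins_same_j21672]
        by_cases hib : i = b
        · subst hib
          simp [hη]
        · simp [hη, hib, Pi.single_eq_of_ne (Ne.symm hib)]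
      · obtain ⟨k, rfl⟩ := Fin.exists_succAbove_eq hb
        simp only [Pi.add_apply, Pi.smul_apply, smul_eq_mul, E1_ins_succ_j21672, hd', hη]
        split_ifs <;> ring
    have hcurve : HasDerivAt (fun ε : ℂ => ((v.1, v.2.1, v.2.2 + ε • d) : P5)) (0, 0, d) 0 := by
      refine (hasDerivAt_const _ _).prodMk ((hasDerivAt_const _ _).prodMk ?_)
      have := ((hasDerivAt_id (0 : ℂ)).smul_const d).const_add v.2.2
      rw [one_smul] at this
      exact this
    have hv0 : ((v.1, v.2.1, v.2.2 + (0 : ℂ) • d) : P5) = v := by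
      rw [zero_smul, add_zero]
    have h1 : HasDerivAt (fun ε : ℂ => chart fr a c (v.1, v.2.1, v.2.2 + ε • d))
        (fderiv ℂ (chart fr a c) v (0, 0, d)) 0 := by
      have h2 : HasFDerivAt (chart fr a c) (fderiv ℂ (chart fr a c) v)
          ((v.1, v.2.1, v.2.2 + (0 : ℂ) • d) : P5) := by
        rw [hv0]
        exact hd.hasFDerivAt
      exact HasFDerivAt.comp_hasDerivAt (l := chart fr a c) 0 h2 hcurve
    have h3 : ∀ ε : ℂ, chart fr a c (v.1, v.2.1, v.2.2 + ε • d) =
        chart fr a c v + ε • (Psi fr a (ins a v.1) v.2.1 (Pi.single i (1 : ℂ)) +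
          (-η) • chart fr a c v) := by
      intro ε
      unfold chart
      simp only
      rw [hins, Psi_lin, Psi_lin]
    have h4 : HasDerivAt (fun ε : ℂ => chart fr a c v +
        ε • (Psi fr a (ins a v.1) v.2.1 (Pi.single i (1 : ℂ)) + (-η) • chart fr a c v))
        (Psi fr a (ins a v.1) v.2.1 (Pi.single i (1 : ℂ)) + (-η) • chart fr a c v) 0 := by
      have := ((hasDerivAt_id (0 : ℂ)).smul_const
        (Psi fr a (ins a v.1) v.2.1 (Pi.single i (1 : ℂ)) + (-η) • chart fr a c v)).const_add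
        (chart fr a c v)
      rw [one_smul] at this
      exact this
    have h5 := h4.congr_of_eventuallyEq (Filter.Eventually.of_forall fun ε => h3 ε)
    rw [hkv, h1.unique h5, Psi_single fr a i hia, neg_smul, ← sub_eq_add_neg]

theorem differentiable_kv (a c i : Fin 3) : Differentiable ℂ (kv a c i) := by
  unfold kv
  by_cases h : i = a
  · simp only [h, if_true]
    exact differentiable_const _
  · simp only [h, if_false]
    refine (differentiable_const _).prodMk ((differentiable_const _).prodMk ?_)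
    refine differentiable_pi.2 fun k => ?_
    split_ifs
    · fun_prop
    · fun_prop

theorem E1_ins_scale_j21672 (ε : ℂ) (a : Fin 3) (f : Fin 3 → ℂ) (y : Fin 2 → ℂ) (b : Fin 3) :
    ins a (fun k => Complex.exp (ε * (f (a.succAbove k) - f a)) * y k) b =
      Complex.exp (ε * (f b - f a)) * ins a y b := by
  by_cases hb : b = a
  · subst hb
    rw [E1_ins_same_j21672, E1_ins_same_j21672]
    simp
  · obtain ⟨k, rfl⟩ := Fin.exists_succAbove_eq hb
    rw [E1_ins_succ_j21672, E1_ins_succ_j21672]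

theorem fderiv_chart_kL (fr : Frame w₀) (a c j : Fin 3) (v : P5) (hv : v ∈ dom fr)
    (hd : DifferentiableAt ℂ (chart fr a c) v) :
    ∃ η : ℂ, fderiv ℂ (chart fr a c) v (kL a c j v) =
      Lt j (chart fr a c v) - η • chart fr a c v := by
  set δ : Fin 3 → ℂ := fun b => if b = j then 1 else 0 with hδ
  set η : ℂ := 4 * δ a + ww a j c with hη
  refine ⟨η, ?_⟩
  have hδs : δ 0 + δ 1 + δ 2 = 1 := by
    simp only [hδ]
    fin_cases j <;> simp
  -- the curve
  set γ : ℂ → P5 := fun ε => (fun k => Complex.exp (ε * (δ (a.succAbove k) - δ a)) * v.1 k, v.2.1,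
    fun k => Complex.exp (ε * (ww a j (c.succAbove k) - ww a j c)) * v.2.2 k) with hγ
  have hγ0 : γ 0 = v := by
    simp [hγ]
  have hexp : ∀ (w y : ℂ), HasDerivAt (fun ε : ℂ => Complex.exp (ε * w) * y) (w * y) 0 := by
    intro w y
    have h1 : HasDerivAt (fun ε : ℂ => ε * w) w 0 := by
      have := (hasDerivAt_id (0 : ℂ)).mul_const w
      rw [one_mul] at this
      exact this
    have h2 := (h1.cexp).mul_const y
    rw [zero_mul, Complex.exp_zero, one_mul] at h2
    exact h2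
  have hγd : HasDerivAt γ (kL a c j v) 0 := by
    refine HasDerivAt.prodMk (hasDerivAt_pi.2 fun k => hexp _ _)
      ((hasDerivAt_const _ _).prodMk (hasDerivAt_pi.2 fun k => hexp _ _))
  have h1 : HasDerivAt (fun ε : ℂ => chart fr a c (γ ε))
      (fderiv ℂ (chart fr a c) v (kL a c j v)) 0 := by
    have h2 : HasFDerivAt (chart fr a c) (fderiv ℂ (chart fr a c) v) (γ 0) := by
      rw [hγ0]
      exact hd.hasFDerivAt
    exact HasFDerivAt.comp_hasDerivAt (l := chart fr a c) 0 h2 hγd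
  have hkey : ∀ ε : ℂ, chart fr a c (γ ε) =
      fun p => Complex.exp (ε * (wt j p - η)) * chart fr a c v p := by
    intro ε
    set e : ℂ → ℂ := fun w => Complex.exp (ε * w) with he
    have he_add : ∀ u w, e u * e w = e (u + w) := by
      intro u w
      simp only [he]
      rw [← Complex.exp_add, mul_add]
    have he_3 : ∀ u, e u ^ 3 = e (3 * u) := by
      intro u
      simp only [he]
      rw [← Complex.exp_nat_mul]
      congr 1
      push_cast
      ring
    have he_2 : ∀ u, e u ^ 2 = e (2 * u) := by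
      intro u
      simp only [he]
      rw [← Complex.exp_nat_mul]
      congr 1
      push_cast
      ring
    have hx : ∀ b, ins a (γ ε).1 b = e (δ b - δ a) * ins a v.1 b := fun b =>
      E1_ins_scale_j21672 ε a δ v.1 b
    have hω : ∀ b, ins c (γ ε).2.2 b = e (ww a j b - ww a j c) * ins c v.2.2 b := fun b =>
      E1_ins_scale_j21672 ε c (ww a j) v.2.2 b
    have hwwa : ww a j a = 0 := by simp [ww]
    have hww : ∀ m, m ≠ a → ww a j m = 2 - 3 * δ m - 3 * δ a := by
      intro m hm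
      simp only [ww, if_neg hm, hδ]
      split_ifs <;> ring
    have hq : ∀ m, cq a (ins a (γ ε).1) (fr.σ v.2.1) (ins c (γ ε).2.2) m =
        e (2 - 3 * δ m - 3 * δ a - ww a j c) *
          cq a (ins a v.1) (fr.σ v.2.1) (ins c v.2.2) m := by
      intro m
      unfold cq
      split_ifs with hm
      · subst hm
        have hs : ∑ i ∈ Finset.univ.erase m, ins m (γ ε).1 i ^ 3 * ins c (γ ε).2.2 i =
            e (2 - 3 * δ m - 3 * δ m - ww m j c) *
              ∑ i ∈ Finset.univ.erase m, ins m v.1 i ^ 3 * ins c v.2.2 i := by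
          rw [Finset.mul_sum]
          refine Finset.sum_congr rfl fun i hi => ?_
          rw [hx, hω, hww i (Finset.ne_of_mem_erase hi), mul_pow, he_3]
          have : e (3 * (δ i - δ m)) * e (2 - 3 * δ i - 3 * δ m - ww m j c) =
              e (2 - 3 * δ m - 3 * δ m - ww m j c) := by
            rw [he_add]
            congr 1
            ring
          rw [← this]
          ring
        rw [hs, hx, hx, hx, hω, hwwa]
        have : (e (δ 0 - δ m) * e (δ 1 - δ m) * e (δ 2 - δ m)) ^ 2 * e (0 - ww m j c) =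
            e (2 - 3 * δ m - 3 * δ m - ww m j c) := by
          rw [he_add, he_add, he_2, he_add]
          congr 1
          linear_combination 2 * hδs
        rw [← this]
        ring
      · rw [hω, hww m hm]
    funext p
    rcases p with ⟨p1, p2, p3 | p3⟩
    · show Zv _ _ _ _ _ _ = e _ * Zv _ _ _ _ _ _
      simp only [Zv, Sum.elim_inl]
      rw [hx, hx, hω, hwwa, mul_pow, he_3]
      have hfin : e (wt j (p1, p2, Sum.inl p3) - η) =
          e (δ p1 - δ a) * (e (3 * (δ p3.1 - δ a)) * e (0 - ww a j c)) := by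
        rw [he_add, he_add]
        congr 1
        simp only [wt, Sum.elim_inl, hη, hδ]
        split_ifs <;> ring
      rw [hfin]
      ring
    · show Zv _ _ _ _ _ _ = e _ * Zv _ _ _ _ _ _
      simp only [Zv, Sum.elim_inr]
      rw [hx]
      have hq' := hq p3.1
      have hfin : e (wt j (p1, p2, Sum.inr p3) - η) =
          e (δ p1 - δ a) * e (2 - 3 * δ p3.1 - 3 * δ a - ww a j c) := by
        rw [he_add]
        congr 1
        simp only [wt, Sum.elim_inr, hη, hδ]
        split_ifs <;> ring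
      rw [hfin]
      have hγ2 : (γ ε).2.1 = v.2.1 := rfl
      rw [hγ2, hq']
      ring
  have h5 : HasDerivAt (fun ε : ℂ => (fun p => Complex.exp (ε * (wt j p - η)) * chart fr a c v p :
      Idx → ℂ)) (fun p => (wt j p - η) * chart fr a c v p) 0 :=
    hasDerivAt_pi.2 fun p => hexp _ _
  have h6 := h5.congr_of_eventuallyEq (Filter.Eventually.of_forall fun ε => hkey ε)
  rw [h1.unique h6]
  funext p
  show (wt j p - η) * chart fr a c v p = wt j p * chart fr a c v p - η * chart fr a c v p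
  ring

end Pool.Agent.Helper922.MR
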