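import Pool.Agent.Helper922.MR.Model2

/-! The vertical fields in the charts; linear fields. -/

namespace Pool.Agent.Helper922.MR

variable {w₀ : ℂ}

theorem E3_Nt_Zv_key (fr : Frame w₀) (t : ℂ) (ht : t ∈ Metric.ball w₀ fr.r) (l : Fin 2) :
    fr.U t l.castSucc = fr.σ t * fr.G t l := by
  rw [fr.U_eq t ht, fr.G_eq t ht, fr.σ_eq t ht, Pi.smul_apply, Pi.smul_apply, smul_eq_mul,
    smul_eq_mul]
  have h : elU t l.castSucc = elsg t * elG t l := by
    fin_cases l
    · exact elU_zero t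
    · exact elU_one' t
  rw [h]
  ring

theorem E3_Zq_inl (x U : Fin 3 → ℂ) (G : Fin 2 → ℂ) (i : Fin 3) (a b : Fin 3) (ik : Fin 3 × Fin 3) :
    Zq x U G i (a, b, Sum.inl ik) = 0 := by
  simp [Zq, Zv]

theorem E3_Zq_inr (x U : Fin 3 → ℂ) (G : Fin 2 → ℂ) (i : Fin 3) (a b : Fin 3) (il : Fin 3 × Fin 2) :
    Zq x U G i (a, b, Sum.inr il) = x a * U b * ((if il.1 = i then 1 else 0) * G il.2) := by
  simp [Zq, Zv, Pi.single_apply]

theorem Nt_Zv (fr : Frame w₀) (j : Fin 3) (x : Fin 3 → ℂ) (t : ℂ) (ht : t ∈ Metric.ball w₀ fr.r)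
    (q : Fin 3 → ℂ) (s : ℂ) :
    Nt j (Zv x (fr.U t) (fr.G t) q s) = (fr.σ t * s) • (x (j + 2) ^ 3 •
      Zq x (fr.U t) (fr.G t) (j + 1) - x (j + 1) ^ 3 • Zq x (fr.U t) (fr.G t) (j + 2)) := by
  funext p
  rcases p with ⟨a, b, ik | ⟨i, l⟩⟩
  · simp only [Pi.smul_apply, Pi.sub_apply, E3_Zq_inl, smul_eq_mul]
    show (0 : ℂ) = _
    ring
  · simp only [Pi.smul_apply, Pi.sub_apply, E3_Zq_inr, smul_eq_mul]
    show (if i = j + 1 then Zv x (fr.U t) (fr.G t) q s (a, b, Sum.inl (j + 2, l.castSucc))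
      else if i = j + 2 then -Zv x (fr.U t) (fr.G t) q s (a, b, Sum.inl (j + 1, l.castSucc))
        else 0) = _
    have hv : ∀ i', Zv x (fr.U t) (fr.G t) q s (a, b, Sum.inl (i', l.castSucc))
        = x a * fr.U t b * (x i' ^ 3 * s * fr.U t l.castSucc) := fun i' => rfl
    rw [hv, hv, E3_Nt_Zv_key fr t ht l]
    have hne : j + 1 ≠ j + 2 := by
      revert j
      decide
    by_cases h1 : i = j + 1
    · have h2 : ¬ i = j + 2 := fun h => hne (h1.symm.trans h)
      rw [if_pos h1, if_pos h1, if_neg h2]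
      ring
    · by_cases h2 : i = j + 2
      · rw [if_neg h1, if_pos h2, if_neg h1, if_pos h2]
        ring
      · rw [if_neg h1, if_neg h2, if_neg h1, if_neg h2]
        ring

theorem fderiv_chart_kN (fr : Frame w₀) (a c j : Fin 3) (v : P5) (hv : v ∈ dom fr)
    (hk : ∀ i : Fin 3, ∃ η : ℂ, fderiv ℂ (chart fr a c) v (kv a c i v) =
      Zq (ins a v.1) (fr.U v.2.1) (fr.G v.2.1) i -
        (ins a v.1 i) ^ 3 • Zq (ins a v.1) (fr.U v.2.1) (fr.G v.2.1) a - η • chart fr a c v) :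
    ∃ η : ℂ, fderiv ℂ (chart fr a c) v (kN fr a c j v) =
      Nt j (chart fr a c v) - η • chart fr a c v := by
  obtain ⟨η1, h1⟩ := hk (j + 1)
  obtain ⟨η2, h2⟩ := hk (j + 2)
  refine ⟨(fr.σ v.2.1 * ins c v.2.2 a) * (ins a v.1 (j + 2) ^ 3 * η1 - ins a v.1 (j + 1) ^ 3 * η2),
    ?_⟩
  have h3 : Nt j (chart fr a c v) = (fr.σ v.2.1 * ins c v.2.2 a) • ((ins a v.1) (j + 2) ^ 3 •
      Zq (ins a v.1) (fr.U v.2.1) (fr.G v.2.1) (j + 1) - (ins a v.1) (j + 1) ^ 3 •
        Zq (ins a v.1) (fr.U v.2.1) (fr.G v.2.1) (j + 2)) :=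
    Nt_Zv fr j (ins a v.1) v.2.1 hv _ _
  rw [h3]
  unfold kN
  rw [map_smul, map_sub, map_smul, map_smul, h1, h2]
  module

theorem E3_ins_diff (a i : Fin 3) : Differentiable ℂ (fun y : Fin 2 → ℂ => ins a y i) := by
  rcases Fin.eq_self_or_eq_succAbove a i with rfl | ⟨k, rfl⟩
  · simp only [ins, Fin.insertNth_apply_same]
    exact differentiable_const _
  · simp only [ins, Fin.insertNth_apply_succAbove]
    exact differentiable_apply k

theorem isLinField_Lt (hk : ∀ (w₀ : ℂ) (fr : Frame w₀) (a c j : Fin 3), ∀ v ∈ dom fr, ∃ η : ℂ,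
      fderiv ℂ (chart fr a c) v (kL a c j v) = Lt j (chart fr a c v) - η • chart fr a c v)
    (j : Fin 3) : IsLinField (Lt j) := by
  intro w₀ fr a c
  refine ⟨kL a c j, ?_, fun v hv => hk w₀ fr a c j v hv⟩
  refine Differentiable.differentiableOn ?_
  unfold kL
  have h1 : Differentiable ℂ (fun v : P5 => v.1) := differentiable_fst
  have h2 : Differentiable ℂ (fun v : P5 => v.2.2) := differentiable_snd.comp differentiable_snd
  refine Differentiable.prodMk ?_ (Differentiable.prodMk (differentiable_const _) ?_)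
  · rw [differentiable_pi]
    intro k
    exact ((differentiable_apply k).comp h1).const_mul _
  · rw [differentiable_pi]
    intro k
    exact ((differentiable_apply k).comp h2).const_mul _

theorem isLinField_Nt (hkv : ∀ a c i : Fin 3, Differentiable ℂ (kv a c i))
    (hk : ∀ (w₀ : ℂ) (fr : Frame w₀) (a c j : Fin 3), ∀ v ∈ dom fr, ∃ η : ℂ,
      fderiv ℂ (chart fr a c) v (kN fr a c j v) = Nt j (chart fr a c v) - η • chart fr a c v)
    (j : Fin 3) : IsLinField (Nt j) := by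
  intro w₀ fr a c
  refine ⟨kN fr a c j, ?_, fun v hv => hk w₀ fr a c j v hv⟩
  have h1 : Differentiable ℂ (fun v : P5 => v.1) := differentiable_fst
  have ht : Differentiable ℂ (fun v : P5 => v.2.1) := differentiable_fst.comp differentiable_snd
  have h2 : Differentiable ℂ (fun v : P5 => v.2.2) := differentiable_snd.comp differentiable_snd
  have hσ : DifferentiableOn ℂ (fun v : P5 => fr.σ v.2.1) (dom fr) :=
    fr.dσ.comp ht.differentiableOn (fun v hv => hv)
  have hs : DifferentiableOn ℂ (fun v : P5 => ins c v.2.2 a) (dom fr) :=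
    ((E3_ins_diff c a).comp h2).differentiableOn
  have hx : ∀ i, DifferentiableOn ℂ (fun v : P5 => ins a v.1 i) (dom fr) := fun i =>
    ((E3_ins_diff a i).comp h1).differentiableOn
  unfold kN
  exact (hσ.mul hs).smul ((((hx (j + 2)).pow 3).smul (hkv a c (j + 1)).differentiableOn).sub
    (((hx (j + 1)).pow 3).smul (hkv a c (j + 2)).differentiableOn))

end Pool.Agent.Helper922.MR
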