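import Pool.Agent.Helper922.MR.Model2

/-! Calculus of the sections `IsMF`. -/

open scoped LinearAlgebra.Projectivization

namespace Pool.Agent.Helper922.MR

theorem IsMF_mul {n m n' m' : ℕ} {S S' : (Idx → ℂ) → ((Idx → ℂ) →L[ℂ] ℂ) → ℂ} (h : IsMF n m S)
    (h' : IsMF n' m' S') : IsMF (n + n') (m + m') (fun z α => S z α * S' z α) := by
  refine ⟨fun z hz hX α hα b hb => ?_, fun w₀ fr a c => ?_⟩
  · beta_reduce
    rw [h.1 z hz hX α hα b hb, h'.1 z hz hX α hα b hb]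
    ring
  · obtain ⟨F, hF1, hF2, hF3⟩ := h.2 w₀ fr a c
    obtain ⟨F', hF1', hF2', hF3'⟩ := h'.2 w₀ fr a c
    refine ⟨fun v ξ => F v ξ * F' v ξ, hF1.mul hF1', fun v hv b ξ => ?_, fun v hv α hα => ?_⟩
    · beta_reduce
      rw [hF2 v hv, hF2' v hv]
      ring
    · beta_reduce
      rw [hF3 v hv α hα, hF3' v hv α hα]

theorem IsMF_add {n m : ℕ} {S S' : (Idx → ℂ) → ((Idx → ℂ) →L[ℂ] ℂ) → ℂ} (h : IsMF n m S)
    (h' : IsMF n m S') : IsMF n m (fun z α => S z α + S' z α) := by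
  refine ⟨fun z hz hX α hα b hb => ?_, fun w₀ fr a c => ?_⟩
  · beta_reduce
    rw [h.1 z hz hX α hα b hb, h'.1 z hz hX α hα b hb]
    ring
  · obtain ⟨F, hF1, hF2, hF3⟩ := h.2 w₀ fr a c
    obtain ⟨F', hF1', hF2', hF3'⟩ := h'.2 w₀ fr a c
    refine ⟨fun v ξ => F v ξ + F' v ξ, hF1.add hF1', fun v hv b ξ => ?_, fun v hv α hα => ?_⟩
    · beta_reduce
      rw [hF2 v hv, hF2' v hv]
      ring
    · beta_reduce
      rw [hF3 v hv α hα, hF3' v hv α hα]

theorem IsMF_smul {n m : ℕ} {S : (Idx → ℂ) → ((Idx → ℂ) →L[ℂ] ℂ) → ℂ} (h : IsMF n m S) (b : ℂ) :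
    IsMF n m (fun z α => b * S z α) := by
  refine ⟨fun z hz hX α hα b' hb' => ?_, fun w₀ fr a c => ?_⟩
  · beta_reduce
    rw [h.1 z hz hX α hα b' hb']
    ring
  · obtain ⟨F, hF1, hF2, hF3⟩ := h.2 w₀ fr a c
    refine ⟨fun v ξ => b * F v ξ, hF1.const_mul b, fun v hv b' ξ => ?_, fun v hv α hα => ?_⟩
    · beta_reduce
      rw [hF2 v hv]
      ring
    · beta_reduce
      rw [hF3 v hv α hα]

theorem IsMF_zero {n m : ℕ} : IsMF n m (fun _ _ => 0) := by
  refine ⟨fun z hz hX α hα b hb => (mul_zero _).symm, fun w₀ fr a c => ?_⟩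
  exact ⟨fun _ _ => 0, differentiableOn_const _, fun v hv b ξ => (mul_zero _).symm,
    fun v hv α hα => rfl⟩

theorem IsMF_one : IsMF 0 0 (fun _ _ => 1) := by
  refine ⟨fun z hz hX α hα b hb => by simp, fun w₀ fr a c => ?_⟩
  exact ⟨fun _ _ => 1, differentiableOn_const _, fun v hv b ξ => by simp,
    fun v hv α hα => rfl⟩

theorem IsMF_lin {L : (Idx → ℂ) →ₗ[ℂ] (Idx → ℂ)} (h : IsLinField L) :
    IsMF 0 1 (fun z α => α (L z)) := by
  refine ⟨fun z hz hX α hα b hb => by simp [map_smul], fun w₀ fr a c => ?_⟩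
  obtain ⟨k, hk1, hk2⟩ := h w₀ fr a c
  refine ⟨fun v ξ => ξ (k v), ?_, fun v hv b ξ => by simp, fun v hv α hα => ?_⟩
  · refine DifferentiableOn.clm_apply differentiableOn_snd ?_
    exact hk1.comp differentiableOn_fst (fun y hy => hy.1)
  · obtain ⟨η, hη⟩ := hk2 v hv
    beta_reduce
    rw [ContinuousLinearMap.comp_apply, hη, map_sub, map_smul, hα, smul_zero, sub_zero]

theorem IsMF_prod {k : ℕ} (L : Fin k → (Idx → ℂ) →ₗ[ℂ] (Idx → ℂ)) (h : ∀ i, IsLinField (L i)) :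
    IsMF 0 k (fun z α => ∏ i, α (L i z)) := by
  induction k with
  | zero =>
    have h1 := IsMF_one
    have h2 : (fun (z : Idx → ℂ) (α : (Idx → ℂ) →L[ℂ] ℂ) => ∏ i : Fin 0, α (L i z)) =
        fun _ _ => 1 := by
      funext z α
      simp
    rw [h2]
    exact h1
  | succ k ih =>
    have h1 := IsMF_mul (IsMF_lin (h 0)) (ih (fun i => L i.succ) (fun i => h i.succ))
    rw [Nat.add_comm 1 k] at h1
    have h2 : (fun (z : Idx → ℂ) (α : (Idx → ℂ) →L[ℂ] ℂ) => ∏ i : Fin (k + 1), α (L i z)) =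
        fun z α => α (L 0 z) * ∏ i : Fin k, α (L i.succ z) := by
      funext z α
      rw [Fin.prod_univ_succ]
    rw [h2]
    exact h1

theorem IsMF_toTwisted {n m : ℕ} {S : (Idx → ℂ) → ((Idx → ℂ) →L[ℂ] ℂ) → ℂ} (h : IsMF n m S)
    (hchart : ∀ (w₀ : ℂ) (fr : Frame w₀) (a c : Fin 3), ∃ P : LocalParam 5 XX,
      P.V = e5 ⁻¹' (dom fr) ∧ P.φ = fun v => chart fr a c (e5 v))
    (hd : ∀ (w₀ : ℂ) (fr : Frame w₀) (a c : Fin 3), DifferentiableOn ℂ (chart fr a c) (dom fr))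
    (hopen : ∀ (w₀ : ℂ) (fr : Frame w₀), IsOpen (dom fr))
    (hcover : ∀ p ∈ XX, ∃ (w₀ : ℂ) (fr : Frame w₀) (a c : Fin 3) (v : P5) (_ : v ∈ dom fr)
      (h : chart fr a c v ≠ 0), Projectivization.mk ℂ (chart fr a c v) h = p) :
    IsTwistedSymField 5 n m XX S := by
  refine ⟨h.1, fun p hp => ?_⟩
  obtain ⟨w₀, fr, a, c, v, hv, hne, hmk⟩ := hcover p hp
  obtain ⟨P, hV, hφ⟩ := hchart w₀ fr a c
  have hv₀ : e5.symm v ∈ P.V := by
    rw [hV, Set.mem_preimage, ContinuousLinearEquiv.apply_symm_apply]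
    exact hv
  have hφv : P.φ (e5.symm v) = chart fr a c v := by
    rw [hφ]
    beta_reduce
    rw [ContinuousLinearEquiv.apply_symm_apply]
  refine ⟨P, e5.symm v, hv₀, ?_, ?_⟩
  · rw [← hmk]
    unfold LocalParam.pt
    exact (Projectivization.mk_eq_mk_iff ℂ _ _ _ _).2 ⟨1, by rw [one_smul, hφv]⟩
  · obtain ⟨F, hF1, hF2, hF3⟩ := h.2 w₀ fr a c
    refine ⟨fun v ξ => F (e5 v) (ξ.comp (e5.symm : P5 →L[ℂ] (Fin 5 → ℂ))), ?_, ?_, ?_⟩
    · have h1 : DifferentiableOn ℂ (fun y : (Fin 5 → ℂ) × ((Fin 5 → ℂ) →L[ℂ] ℂ) =>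
          ((e5 y.1, y.2.comp (e5.symm : P5 →L[ℂ] (Fin 5 → ℂ))) : P5 × (P5 →L[ℂ] ℂ)))
          (P.V ×ˢ Set.univ) := by
        refine Differentiable.differentiableOn ?_
        refine Differentiable.prodMk ?_ ?_
        · exact e5.differentiable.comp differentiable_fst
        · exact Differentiable.clm_comp differentiable_snd (differentiable_const _)
      exact hF1.comp h1 (fun y hy => by
        refine ⟨?_, Set.mem_univ _⟩
        have h2 := hy.1
        rw [hV] at h2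
        exact h2)
    · intro v hv b ξ
      beta_reduce
      rw [ContinuousLinearMap.smul_comp]
      refine hF2 _ ?_ b _
      rw [hV] at hv
      exact hv
    · intro v hv α hα
      beta_reduce
      rw [hV] at hv
      have h1 : P.φ v = chart fr a c (e5 v) := by rw [hφ]
      rw [h1] at hα ⊢
      have h2 : fderiv ℂ P.φ v = (fderiv ℂ (chart fr a c) (e5 v)).comp (e5 : (Fin 5 → ℂ) →L[ℂ] P5) := by
        rw [hφ]
        exact ContinuousLinearEquiv.comp_right_fderiv (f := chart fr a c) (x := v) e5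
      rw [hF3 (e5 v) hv α hα, h2]
      congr 1
      ext y
      · simp
      · simp
      · simp

end Pool.Agent.Helper922.MR
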