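import Pool.Agent.Helper922.MR.Model2

/-! The sections `SD` in the charts. -/

open scoped LinearAlgebra.Projectivization

namespace Pool.Agent.Helper922.MR

variable {w₀ : ℂ}

theorem F2_ins_same (a : Fin 3) (y : Fin 2 → ℂ) : ins a y a = 1 := by
  unfold ins
  exact Fin.insertNth_apply_same (α := fun _ => ℂ) a 1 y

theorem F2_ins_succ (a : Fin 3) (y : Fin 2 → ℂ) (k : Fin 2) : ins a y (a.succAbove k) = y k := by
  unfold ins
  exact Fin.insertNth_apply_succAbove (α := fun _ => ℂ) a 1 y k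

theorem F2_ins_diff {E : Type} [NormedAddCommGroup E] [NormedSpace ℂ E] (a : Fin 3)
    (g : E → Fin 2 → ℂ) (hg : Differentiable ℂ g) (i : Fin 3) :
    Differentiable ℂ (fun y => ins a (g y) i) := by
  rcases Fin.eq_self_or_eq_succAbove a i with h | ⟨k, h⟩
  · subst h
    simp only [F2_ins_same]
    exact differentiable_const _
  · subst h
    simp only [F2_ins_succ]
    exact differentiable_pi.1 hg k

theorem F2_mvp_diff {E : Type} [NormedAddCommGroup E] [NormedSpace ℂ E] {ι : Type} (S : Set E)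
    (f : ι → E → ℂ) (hf : ∀ i, DifferentiableOn ℂ (f i) S) (P : MvPolynomial ι ℂ) :
    DifferentiableOn ℂ (fun y => MvPolynomial.eval (fun i => f i y) P) S := by
  induction P using MvPolynomial.induction_on with
  | C a =>
    simp only [MvPolynomial.eval_C]
    exact differentiableOn_const a
  | add p q hp hq =>
    simp only [map_add]
    exact hp.add hq
  | mul_X p i hp =>
    simp only [map_mul, MvPolynomial.eval_X]
    exact hp.mul (hf i)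

theorem SD_chart {R : ℕ → MvPolynomial (Fin 3 ⊕ Fin 3) ℂ} {e : ℕ → ℂ → ℂ}
    (fr : Frame w₀) {Γ : ℕ → ℕ → ℂ → ℂ}
    (hEq : ∀ (a : Fin 3) (x : Fin 3 → ℂ), x a = 1 → ∀ (σ : ℂ) (ω : Fin 3 → ℂ),
      Eqn x (cq a x σ ω) σ (ω a))
    (hSDf : ∀ (m : ℕ) (t : ℂ), t ∈ Metric.ball w₀ fr.r → ∀ (x q : Fin 3 → ℂ) (s : ℂ), x ≠ 0 →
      (q ≠ 0 ∨ s ≠ 0) → Eqn x q (fr.σ t) s → ∀ α : (Idx → ℂ) →L[ℂ] ℂ,
      α (Zv x (fr.U t) (fr.G t) q s) = 0 →
      SD R e m (Zv x (fr.U t) (fr.G t) q s) α =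
      SG R Γ m x t q s (fun i => α (Zq x (fr.U t) (fr.G t) i))
        (α (deriv (fun t' => Zv x (fr.U t') (fr.G t') q s) t)))
    (hSGg : ∀ (m : ℕ) (t : ℂ), t ∈ Metric.ball w₀ fr.r → ∀ (x q : Fin 3 → ℂ) (s : ℂ),
      Eqn x q (fr.σ t) s → ∀ (κ : Fin 3 → ℂ) (τ l : ℂ),
      SG R Γ m x t q s (fun i => κ i - l * x i ^ 3)
        (τ - l * (deriv fr.σ t * (x 0 * x 1 * x 2) ^ 2 * s)) = SG R Γ m x t q s κ τ)
    (ht : ∀ (a c : Fin 3) (v : P5), v ∈ dom fr → fderiv ℂ (chart fr a c) v (0, 1, 0) =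
      deriv (fun t => Zv (ins a v.1) (fr.U t) (fr.G t)
        (cq a (ins a v.1) (fr.σ v.2.1) (ins c v.2.2)) (ins c v.2.2 a)) v.2.1 -
      (deriv fr.σ v.2.1 * (ins a v.1 0 * ins a v.1 1 * ins a v.1 2) ^ 2 * ins c v.2.2 a) •
        Zq (ins a v.1) (fr.U v.2.1) (fr.G v.2.1) a)
    (hk : ∀ (a c i : Fin 3) (v : P5), v ∈ dom fr → ∃ η : ℂ,
      fderiv ℂ (chart fr a c) v (kv a c i v) = Zq (ins a v.1) (fr.U v.2.1) (fr.G v.2.1) i -
        (ins a v.1 i) ^ 3 • Zq (ins a v.1) (fr.U v.2.1) (fr.G v.2.1) a - η • chart fr a c v)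
    (m : ℕ) (a c : Fin 3) (v : P5) (hv : v ∈ dom fr) (α : (Idx → ℂ) →L[ℂ] ℂ)
    (hα : α (chart fr a c v) = 0) :
    SD R e m (chart fr a c v) α =
      SG R Γ m (ins a v.1) v.2.1 (cq a (ins a v.1) (fr.σ v.2.1) (ins c v.2.2)) (ins c v.2.2 a)
        (fun i => α (fderiv ℂ (chart fr a c) v (kv a c i v)))
        (α (fderiv ℂ (chart fr a c) v (0, 1, 0))) := by
  have hxa := F2_ins_same a v.1
  have hE := hEq a (ins a v.1) hxa (fr.σ v.2.1) (ins c v.2.2)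
  have hx : ins a v.1 ≠ 0 := by
    intro h
    rw [h] at hxa
    simp at hxa
  have hqs : cq a (ins a v.1) (fr.σ v.2.1) (ins c v.2.2) ≠ 0 ∨ ins c v.2.2 a ≠ 0 := by
    by_cases hca : c = a
    · right
      rw [← hca, F2_ins_same]
      exact one_ne_zero
    · left
      intro h
      have h1 := congrFun h c
      rw [cq, if_neg hca, F2_ins_same] at h1
      simp at h1
  have h1 := hSDf m v.2.1 hv (ins a v.1) _ _ hx hqs hE α hα
  have h2 := hSGg m v.2.1 hv (ins a v.1) _ _ hE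
    (fun i => α (Zq (ins a v.1) (fr.U v.2.1) (fr.G v.2.1) i))
    (α (deriv (fun t' => Zv (ins a v.1) (fr.U t') (fr.G t')
      (cq a (ins a v.1) (fr.σ v.2.1) (ins c v.2.2)) (ins c v.2.2 a)) v.2.1))
    (α (Zq (ins a v.1) (fr.U v.2.1) (fr.G v.2.1) a))
  refine h1.trans (h2.symm.trans ?_)
  congr 1
  · funext i
    obtain ⟨η, hη⟩ := hk a c i v hv
    rw [hη, map_sub, map_sub, map_smul, map_smul, hα, smul_eq_mul, smul_eq_mul]
    ring
  · rw [ht a c v hv, map_sub, map_smul, smul_eq_mul]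
    ring

theorem SG_diff {R : ℕ → MvPolynomial (Fin 3 ⊕ Fin 3) ℂ} {e : ℕ → ℂ → ℂ}
    (fr : Frame w₀) {Γ : ℕ → ℕ → ℂ → ℂ} (hΓ : IsGam fr e Γ) (m : ℕ) (a c : Fin 3)
    (hkd : ∀ i : Fin 3, Differentiable ℂ (kv a c i)) :
    DifferentiableOn ℂ (fun y : P5 × (P5 →L[ℂ] ℂ) =>
      SG R Γ m (ins a y.1.1) y.1.2.1 (cq a (ins a y.1.1) (fr.σ y.1.2.1) (ins c y.1.2.2))
        (ins c y.1.2.2 a) (fun i => y.2 (kv a c i y.1)) (y.2 (0, 1, 0))) (dom fr ×ˢ Set.univ) := by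
  have hfst : Differentiable ℂ (fun y : P5 × (P5 →L[ℂ] ℂ) => y.1.1) :=
    differentiable_fst.fst
  have hsnd : Differentiable ℂ (fun y : P5 × (P5 →L[ℂ] ℂ) => y.1.2.2) :=
    differentiable_fst.snd.snd
  have htt : Differentiable ℂ (fun y : P5 × (P5 →L[ℂ] ℂ) => y.1.2.1) :=
    differentiable_fst.snd.fst
  have hmaps : Set.MapsTo (fun y : P5 × (P5 →L[ℂ] ℂ) => y.1.2.1) (dom fr ×ˢ Set.univ)
      (Metric.ball w₀ fr.r) := fun y hy => hy.1
  have hx : ∀ i, DifferentiableOn ℂ (fun y : P5 × (P5 →L[ℂ] ℂ) => ins a y.1.1 i)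
      (dom fr ×ˢ Set.univ) := fun i => (F2_ins_diff a _ hfst i).differentiableOn
  have hω : ∀ i, DifferentiableOn ℂ (fun y : P5 × (P5 →L[ℂ] ℂ) => ins c y.1.2.2 i)
      (dom fr ×ˢ Set.univ) := fun i => (F2_ins_diff c _ hsnd i).differentiableOn
  have hσ : DifferentiableOn ℂ (fun y : P5 × (P5 →L[ℂ] ℂ) => fr.σ y.1.2.1)
      (dom fr ×ˢ Set.univ) := fr.dσ.comp htt.differentiableOn hmaps
  have hΓd : ∀ j l, DifferentiableOn ℂ (fun y : P5 × (P5 →L[ℂ] ℂ) => Γ j l y.1.2.1)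
      (dom fr ×ˢ Set.univ) := fun j l => (hΓ.diff j l).comp htt.differentiableOn hmaps
  have hq : ∀ i, DifferentiableOn ℂ (fun y : P5 × (P5 →L[ℂ] ℂ) =>
      cq a (ins a y.1.1) (fr.σ y.1.2.1) (ins c y.1.2.2) i) (dom fr ×ˢ Set.univ) := by
    intro i
    unfold cq
    by_cases hi : i = a
    · simp only [if_pos hi]
      refine DifferentiableOn.neg (DifferentiableOn.add ?_ ?_)
      · exact DifferentiableOn.fun_sum fun j _ => ((hx j).pow 3).mul (hω j)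
      · exact (hσ.mul ((((hx 0).mul (hx 1)).mul (hx 2)).pow 2)).mul (hω a)
    · simp only [if_neg hi]
      exact hω i
  have hκ : ∀ i, DifferentiableOn ℂ (fun y : P5 × (P5 →L[ℂ] ℂ) => y.2 (kv a c i y.1))
      (dom fr ×ˢ Set.univ) := fun i =>
    (differentiable_snd.clm_apply ((hkd i).comp differentiable_fst)).differentiableOn
  have hτ : DifferentiableOn ℂ (fun y : P5 × (P5 →L[ℂ] ℂ) => y.2 (0, 1, 0))
      (dom fr ×ˢ Set.univ) :=
    (differentiable_snd.clm_apply (differentiable_const _)).differentiableOn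
  have hθ : DifferentiableOn ℂ (fun y : P5 × (P5 →L[ℂ] ℂ) =>
      ∑ i, cq a (ins a y.1.1) (fr.σ y.1.2.1) (ins c y.1.2.2) i * y.2 (kv a c i y.1))
      (dom fr ×ˢ Set.univ) := DifferentiableOn.fun_sum fun i _ => (hq i).mul (hκ i)
  have hR : ∀ j, DifferentiableOn ℂ (fun y : P5 × (P5 →L[ℂ] ℂ) =>
      MvPolynomial.eval (Sum.elim (ins a y.1.1) (fun i => y.2 (kv a c i y.1))) (R j))
      (dom fr ×ˢ Set.univ) := by
    intro j
    refine F2_mvp_diff _ (fun p (y : P5 × (P5 →L[ℂ] ℂ)) =>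
      Sum.elim (ins a y.1.1) (fun i => y.2 (kv a c i y.1)) p) ?_ (R j)
    rintro (i | i)
    · exact hx i
    · exact hκ i
  unfold SG DG
  refine (((hx 0).pow 3).mul (hω a)).mul ?_
  refine DifferentiableOn.fun_sum fun j _ => ?_
  refine ((((hω a).pow j).mul (hR j)).mul (differentiableOn_const _)).mul ?_
  refine DifferentiableOn.fun_sum fun l _ => ?_
  exact ((((differentiableOn_const _).mul (hτ.pow _)).mul (hθ.pow _)).mul (hΓd j l))

theorem SG_hom {R : ℕ → MvPolynomial (Fin 3 ⊕ Fin 3) ℂ} (Γ : ℕ → ℕ → ℂ → ℂ)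
    (hDG : ∀ (Γ : ℕ → ℕ → ℂ) (m : ℕ) (x K : Fin 3 → ℂ) (s τ θ c : ℂ),
      DG R Γ m x (c • K) s (c * τ) (c * θ) = c ^ m * DG R Γ m x K s τ θ)
    (m : ℕ) (x : Fin 3 → ℂ) (t : ℂ) (q : Fin 3 → ℂ) (s : ℂ) (κ : Fin 3 → ℂ) (τ b : ℂ) :
    SG R Γ m x t q s (fun i => b * κ i) (b * τ) = b ^ m * SG R Γ m x t q s κ τ := by
  unfold SG
  have h1 : ∑ i, q i * (b * κ i) = b * ∑ i, q i * κ i := by
    rw [Finset.mul_sum]
    exact Finset.sum_congr rfl fun i _ => by ring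
  have h2 := hDG (fun j l => Γ j l t) m x κ s τ (∑ i, q i * κ i) b
  have h3 : (fun i => b * κ i) = b • κ := rfl
  rw [h1, h3, h2]
  ring

end Pool.Agent.Helper922.MR
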