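import Pool.Agent.Helper922.MR.Asm1
import Pool.Agent.Helper922.MR.A1
import Pool.Agent.Helper922.MR.A2
import Pool.Agent.Helper922.MR.B1
import Pool.Agent.Helper922.MR.C2
import Pool.Agent.Helper922.MR.D12
import Pool.Agent.Helper922.MR.D13
import Pool.Agent.Helper922.MR.E1
import Pool.Agent.Helper922.MR.E3
import Pool.Agent.Helper922.MR.F1
import Pool.Agent.Helper922.MR.F2

/-! Assembly: the sections. -/

open scoped LinearAlgebra.Projectivization

namespace Pool.Agent.Helper922.MR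

variable {w₀ : ℂ}

theorem exists_isR : ∃ R : ℕ → MvPolynomial (Fin 3 ⊕ Fin 3) ℂ, IsR R := by
  obtain ⟨R, h1, h2, h3, h4⟩ := exists_R
  exact ⟨R, h1, h2, h3, h4⟩

theorem exists_isE : ∃ e : ℕ → ℂ → ℂ, IsE e ∧ ∀ (w₀ : ℂ) (fr : Frame w₀),
    ∃ Γ : ℕ → ℕ → ℂ → ℂ, IsGam fr e Γ := exists_IsE (exists_e elL)

theorem chart_differentiableAt (fr : Frame w₀) (a c : Fin 3) (v : P5) (hv : v ∈ dom fr) :
    DifferentiableAt ℂ (chart fr a c) v :=
  (differentiableOn_chart fr a c).differentiableAt ((isOpen_dom fr).mem_nhds hv)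

theorem kv_facts (fr : Frame w₀) (a c i : Fin 3) (v : P5) (hv : v ∈ dom fr) :
    ∃ η : ℂ, fderiv ℂ (chart fr a c) v (kv a c i v) =
      Zq (ins a v.1) (fr.U v.2.1) (fr.G v.2.1) i -
        (ins a v.1 i) ^ 3 • Zq (ins a v.1) (fr.U v.2.1) (fr.G v.2.1) a - η • chart fr a c v :=
  fderiv_chart_kv fr a c i v hv (chart_differentiableAt fr a c v hv)

theorem kL_facts (fr : Frame w₀) (a c j : Fin 3) (v : P5) (hv : v ∈ dom fr) :
    ∃ η : ℂ, fderiv ℂ (chart fr a c) v (kL a c j v) =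
      Lt j (chart fr a c v) - η • chart fr a c v :=
  fderiv_chart_kL fr a c j v hv (chart_differentiableAt fr a c v hv)

theorem kN_facts (fr : Frame w₀) (a c j : Fin 3) (v : P5) (hv : v ∈ dom fr) :
    ∃ η : ℂ, fderiv ℂ (chart fr a c) v (kN fr a c j v) =
      Nt j (chart fr a c v) - η • chart fr a c v :=
  fderiv_chart_kN fr a c j v hv (fun i => kv_facts fr a c i v hv)

theorem lin_Lt (j : Fin 3) : IsLinField (Lt j) :=
  isLinField_Lt (fun _ fr a c j v hv => kL_facts fr a c j v hv) j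

theorem lin_Nt (j : Fin 3) : IsLinField (Nt j) :=
  isLinField_Nt (fun a c i => differentiable_kv a c i)
    (fun _ fr a c j v hv => kN_facts fr a c j v hv) j

theorem SD_chart' {R : ℕ → MvPolynomial (Fin 3 ⊕ Fin 3) ℂ} {e : ℕ → ℂ → ℂ} (hR : IsR R)
    (he : IsE e) (fr : Frame w₀) {Γ : ℕ → ℕ → ℂ → ℂ} (hΓ : IsGam fr e Γ)
    (m : ℕ) (a c : Fin 3) (v : P5) (hv : v ∈ dom fr) (α : (Idx → ℂ) →L[ℂ] ℂ)
    (hα : α (chart fr a c v) = 0) :
    SD R e m (chart fr a c v) α =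
      SG R Γ m (ins a v.1) v.2.1 (cq a (ins a v.1) (fr.σ v.2.1) (ins c v.2.2)) (ins c v.2.2 a)
        (fun i => α (fderiv ℂ (chart fr a c) v (kv a c i v)))
        (α (fderiv ℂ (chart fr a c) v (0, 1, 0))) := by
  apply SD_chart fr (fun a x hx σ ω => Eqn_cq a x hx σ ω) _ _ _ _ m a c v hv α hα
  · intro m t ht x q s hx hqs hE α hα
    exact SD_frame hR fr hΓ (fun e m x K s τ θ c d => Dm_expand hR e m x K s τ θ c d)
      (fun Γ m x K s τ θ c => DG_smul Γ m x K s τ θ c)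
      (fun m x t q s hx hqs ht hE α => SD_eq hR he
        (fun e m x K s τ θ l μ h => Dm_scale hR e m x K s τ θ l μ h) m x t q s hx hqs ht hE α)
      (fun m x t q s hx hqs ht α => SD_zero m x t q s hx hqs ht α) m t ht x q s hx hqs hE α hα
  · intro m t ht x q s hE κ τ l
    exact SG_gauge hR fr hΓ (fun e m x K s τ θ c d => Dm_expand hR e m x K s τ θ c d)
      (fun Γ m x K s τ θ c => DG_smul Γ m x K s τ θ c)
      (fun e m x K s τ θ l => Dm_shift hR e m x K s τ θ l) m t ht x q s hE κ τ l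
  · intro a c v hv
    exact fderiv_chart_t fr a c v hv (chart_differentiableAt fr a c v hv)
  · intro a c i v hv
    exact kv_facts fr a c i v hv

theorem IsMF_SD {R : ℕ → MvPolynomial (Fin 3 ⊕ Fin 3) ℂ} {e : ℕ → ℂ → ℂ} (hR : IsR R)
    (he : IsE e) (hΓ : ∀ (w₀ : ℂ) (fr : Frame w₀), ∃ Γ : ℕ → ℕ → ℂ → ℂ, IsGam fr e Γ) (m : ℕ) :
    IsMF 1 m (SD R e m) := by
  constructor
  · intro z hz hX α _ b hb
    exact SD_hom hR he (fun e m x K s τ θ l μ h => Dm_scale hR e m x K s τ θ l μ h)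
      (fun e m x K s τ θ c => Dm_homs e m x K s τ θ c) m z hz hX α b hb
  · intro w₀ fr a c
    obtain ⟨Γ, hΓ⟩ := hΓ w₀ fr
    refine ⟨fun v ξ => SG R Γ m (ins a v.1) v.2.1 (cq a (ins a v.1) (fr.σ v.2.1) (ins c v.2.2))
      (ins c v.2.2 a) (fun i => ξ (kv a c i v)) (ξ (0, 1, 0)), ?_, ?_, ?_⟩
    · exact SG_diff fr hΓ m a c (fun i => differentiable_kv a c i)
    · intro v _ b ξ
      exact SG_hom Γ (fun Γ m x K s τ θ c => DG_hom hR Γ m x K s τ θ c) m _ _ _ _ _ _ b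
    · intro v hv α hα
      exact SD_chart' hR he fr hΓ m a c v hv α hα

theorem IsMF_twisted {n m : ℕ} {S : (Idx → ℂ) → ((Idx → ℂ) →L[ℂ] ℂ) → ℂ} (h : IsMF n m S) :
    IsTwistedSymField 5 n m XX S :=
  IsMF_toTwisted h (fun _ fr a c => exists_chartParam fr a c)
    (fun _ fr a c => differentiableOn_chart fr a c) (fun _ fr => isOpen_dom fr)
    (fun p hp => XX_cover frame p hp)

end Pool.Agent.Helper922.MR
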