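import Pool.Agent.Helper922.MR.Asm2

/-! Assembly: generation at general points. -/

open scoped LinearAlgebra.Projectivization

namespace Pool.Agent.Helper922.MR

variable {w₀ : ℂ}

theorem exists_chart00 (z : Idx → ℂ) (hz : z ≠ 0) (hX : Projectivization.mk ℂ z hz ∈ XX)
    (h1 : z (0, 0, Sum.inl (1, 0)) ≠ 0) (h2 : z (2, 0, Sum.inl (1, 0)) ≠ 0) :
    ∃ (w₀ : ℂ) (fr : Frame w₀) (v : P5) (_ : v ∈ dom fr) (_ : v.1 0 ≠ 0) (_ : v.1 1 ≠ 0)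
      (_ : v.2.1 ∉ elS) (b : ℂ), b ≠ 0 ∧ chart fr 0 0 v = b • z := by
  obtain ⟨x, t, q, s, hx, hqs, hE, h⟩ := hX
  rw [Projectivization.mk_eq_mk_iff'] at h
  obtain ⟨l, hl⟩ := h
  have hl0 : l ≠ 0 := by
    rintro rfl
    rw [zero_smul] at hl
    exact hz hl.symm
  have e1 : z (0, 0, Sum.inl (1, 0)) = l * (x 0 * elU t 0 * (x 1 ^ 3 * s * elU t 0)) := by
    rw [← hl]; rfl
  have e2 : z (2, 0, Sum.inl (1, 0)) = l * (x 2 * elU t 0 * (x 1 ^ 3 * s * elU t 0)) := by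
    rw [← hl]; rfl
  rw [e1] at h1
  rw [e2] at h2
  simp only [ne_eq, pow_eq_zero_iff, OfNat.ofNat_ne_zero, not_false_eq_true,
    mul_eq_zero, not_or] at h1 h2
  obtain ⟨-, ⟨hx0, hU⟩, ⟨hx1, hs⟩, -⟩ := h1
  obtain ⟨-, ⟨hx2, -⟩, -⟩ := h2
  have ht : t ∉ elS := by
    intro ht
    apply hU
    rw [elU_mem ht]
    rfl
  obtain ⟨fr⟩ := frame t
  have htb : t ∈ Metric.ball t fr.r := Metric.mem_ball_self fr.r_pos
  have hE' := D1b_frame_Eqn fr x q t s htb hE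
  have hom : D1b_om 0 x (fr.c t • q) s 0 ≠ 0 := by
    have : D1b_om 0 x (fr.c t • q) s 0 = x 0 ^ 3 * s := by simp [D1b_om]
    rw [this]
    exact mul_ne_zero (pow_ne_zero _ hx0) hs
  have hch := D1b_chart_om fr 0 0 x (fr.c t • q) t s hx0 hom hE'
  rw [D1b_frame_Zv fr x q t s htb] at hch
  refine ⟨t, fr, (fun k => x ((0 : Fin 3).succAbove k) / x 0, t,
      fun k => D1b_om 0 x (fr.c t • q) s ((0 : Fin 3).succAbove k) / D1b_om 0 x (fr.c t • q) s 0),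
      htb, ?_, ?_, ht,
      (x 0)⁻¹ ^ 4 * (x 0 ^ 3 * (D1b_om 0 x (fr.c t • q) s 0)⁻¹) * fr.c t ^ 6 * l⁻¹, ?_, ?_⟩
  · show x 1 / x 0 ≠ 0
    exact div_ne_zero hx1 hx0
  · show x 2 / x 0 ≠ 0
    exact div_ne_zero hx2 hx0
  · exact mul_ne_zero (mul_ne_zero (mul_ne_zero (pow_ne_zero _ (inv_ne_zero hx0))
      (mul_ne_zero (pow_ne_zero _ hx0) (inv_ne_zero hom))) (pow_ne_zero _ (fr.c_ne t htb)))
      (inv_ne_zero hl0)
  · rw [hch, smul_smul, ← hl, smul_smul]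
    congr 1
    rw [mul_assoc _ l⁻¹ l, inv_mul_cancel₀ hl0, mul_one]

theorem generated_at
    (hgen : ∀ (w₀ : ℂ) (fr : Frame w₀) (v : P5), v ∈ dom fr → v.1 0 ≠ 0 → v.1 1 ≠ 0 →
      v.2.1 ∉ elS → ∀ (m : ℕ) (b : Fin 5 → P5) (f : MvPolynomial (Fin 5) ℂ), f.IsHomogeneous m →
      ∃ S : (Idx → ℂ) → ((Idx → ℂ) →L[ℂ] ℂ) → ℂ, IsMF 1 m S ∧
      ∀ α : (Idx → ℂ) →L[ℂ] ℂ, α (chart fr 0 0 v) = 0 → S (chart fr 0 0 v) α =
        MvPolynomial.eval (fun i => α (fderiv ℂ (chart fr 0 0) v (b i))) f)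
    (m : ℕ) (z : Idx → ℂ) (hz : z ≠ 0) (hX : Projectivization.mk ℂ z hz ∈ XX)
    (h1 : z (0, 0, Sum.inl (1, 0)) ≠ 0) (h2 : z (2, 0, Sum.inl (1, 0)) ≠ 0) :
    IsGeneratedAt 5 1 m XX (Projectivization.mk ℂ z hz) := by
  obtain ⟨w₀, fr, v, hv, hv0, hv1, hvt, b, hb, hchart⟩ := exists_chart00 z hz hX h1 h2
  obtain ⟨P, hV, hφ⟩ := exists_chartParam fr 0 0
  have hmem : e5.symm v ∈ P.V := by
    rw [hV]
    show e5 (e5.symm v) ∈ dom fr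
    rw [e5.apply_symm_apply]
    exact hv
  have hPφ : P.φ (e5.symm v) = chart fr 0 0 v := by
    rw [hφ]
    show chart fr 0 0 (e5 (e5.symm v)) = _
    rw [e5.apply_symm_apply]
  have hD : fderiv ℂ P.φ (e5.symm v) =
      (fderiv ℂ (chart fr 0 0) v).comp (e5 : (Fin 5 → ℂ) →L[ℂ] P5) := by
    rw [hφ]
    have h3 : DifferentiableAt ℂ (chart fr 0 0) (e5 (e5.symm v)) := by
      rw [e5.apply_symm_apply]
      exact chart_differentiableAt fr 0 0 v hv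
    have h4 := fderiv_comp (e5.symm v) h3 e5.differentiableAt
    rw [e5.apply_symm_apply, e5.fderiv] at h4
    exact h4
  refine ⟨P, e5.symm v, hmem, ?_, ?_⟩
  · unfold LocalParam.pt
    rw [Projectivization.mk_eq_mk_iff']
    exact ⟨b, by rw [hPφ, hchart]⟩
  · intro f hf
    obtain ⟨S, hS, hSv⟩ := hgen w₀ fr v hv hv0 hv1 hvt m (fun i => e5 (Pi.single i 1)) f hf
    refine ⟨S, IsMF_twisted hS, ?_⟩
    intro α hα
    rw [hPφ] at hα ⊢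
    rw [hSv α hα, hD]
    rfl

/-- The tangent bundle of `XX` is pseudo-effective. -/
theorem XX_pseff
    (hgen : ∀ (w₀ : ℂ) (fr : Frame w₀) (v : P5), v ∈ dom fr → v.1 0 ≠ 0 → v.1 1 ≠ 0 →
      v.2.1 ∉ elS → ∀ (m : ℕ) (b : Fin 5 → P5) (f : MvPolynomial (Fin 5) ℂ), f.IsHomogeneous m →
      ∃ S : (Idx → ℂ) → ((Idx → ℂ) →L[ℂ] ℂ) → ℂ, IsMF 1 m S ∧
      ∀ α : (Idx → ℂ) →L[ℂ] ℂ, α (chart fr 0 0 v) = 0 → S (chart fr 0 0 v) α =
        MvPolynomial.eval (fun i => α (fderiv ℂ (chart fr 0 0) v (b i))) f) :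
    HasPseudoEffectiveTangentBundle 5 XX := by
  refine ⟨1, one_pos, fun m _ => ⟨2, MvPolynomial.X (0, 0, Sum.inl (1, 0)) *
    MvPolynomial.X (2, 0, Sum.inl (1, 0)), ?_, ?_, ?_⟩⟩
  · exact (MvPolynomial.isHomogeneous_X ℂ _).mul (MvPolynomial.isHomogeneous_X ℂ _)
  · have ht : (1 / 2 : ℂ) ∉ elS := el_half
    have hx : (![1, 1, 1] : Fin 3 → ℂ) ≠ 0 := by
      intro h
      have := congrFun h 0
      simp at this
    have hqs : (![-1, 0, 0] : Fin 3 → ℂ) ≠ 0 ∨ (1 : ℂ) ≠ 0 := Or.inr one_ne_zero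
    refine ⟨Zv ![1, 1, 1] (elU (1 / 2)) (elG (1 / 2)) ![-1, 0, 0] 1,
      Zv_ne hx (elU_ne _) (elG_ne _) hqs, ⟨_, _, _, _, hx, hqs, ?_, rfl⟩, ?_⟩
    · unfold Eqn elsg
      rw [if_neg ht]
      simp [Fin.sum_univ_three]
    · rw [map_mul, MvPolynomial.eval_X, MvPolynomial.eval_X]
      have ht' : (2 : ℂ)⁻¹ ∉ elS := by simpa using ht
      simp [Zv, elU_notMem ht']
  · intro z hz hX hH
    rw [map_mul, MvPolynomial.eval_X, MvPolynomial.eval_X] at hH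
    exact generated_at hgen m z hz hX (left_ne_zero_of_mul hH) (right_ne_zero_of_mul hH)

end Pool.Agent.Helper922.MR
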