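import Pool.Agent.Helper922.MR.Model

/-! Rational curves in the fibres of `XX → YY`. -/

open scoped LinearAlgebra.Projectivization

namespace Pool.Agent.Helper922.MR

/-- The base point of the fibre over `t`. -/
theorem base_aux : (![0, 0, 1] : Fin 3 → ℂ) ≠ 0 ∧ (![1, 0, 0] : Fin 3 → ℂ) ≠ 0 := by
  constructor
  · intro h
    have := congrFun h 2
    simp at this
  · intro h
    have := congrFun h 0
    simp at this

theorem D7_ctb_eval_smul {n : ℕ} {P : MvPolynomial (Fin 2) ℂ} (hP : P.IsHomogeneous n) (a : ℂ)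
    (w : Fin 2 → ℂ) : MvPolynomial.eval (a • w) P = a ^ n * MvPolynomial.eval w P := by
  rw [MvPolynomial.eval_eq, MvPolynomial.eval_eq, Finset.mul_sum]
  refine Finset.sum_congr rfl fun d hd => ?_
  have hdn : ∑ i ∈ d.support, d i = n := by
    have := hP (MvPolynomial.mem_support_iff.1 hd)
    rw [Finsupp.weight_apply] at this
    simpa [Finsupp.sum] using this
  have : ∏ i ∈ d.support, (a • w) i ^ d i = a ^ n * ∏ i ∈ d.support, w i ^ d i := by
    simp only [Pi.smul_apply, smul_eq_mul, mul_pow]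
    rw [Finset.prod_mul_distrib, Finset.prod_pow_eq_pow_sum, hdn]
  rw [this]
  ring

theorem D7_ctb_curve (n : ℕ) (P : Idx → MvPolynomial (Fin 2) ℂ) (hP : ∀ i, (P i).IsHomogeneous n)
    (hne : ∀ w : Fin 2 → ℂ, w ≠ 0 → (fun i => MvPolynomial.eval w (P i)) ≠ 0)
    (hX : ∀ (w : Fin 2 → ℂ) (hw : w ≠ 0),
      Projectivization.mk ℂ (fun i => MvPolynomial.eval w (P i)) (hne w hw) ∈ XX)
    (w w' : Fin 2 → ℂ) (hw : w ≠ 0) (hw' : w' ≠ 0) :
    OnRationalCurve XX (Projectivization.mk ℂ (fun i => MvPolynomial.eval w (P i)) (hne w hw))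
      (Projectivization.mk ℂ (fun i => MvPolynomial.eval w' (P i)) (hne w' hw')) := by
  let f : ℙ ℂ (Fin 2 → ℂ) → ℙ ℂ (Idx → ℂ) := fun p =>
    Projectivization.mk ℂ (fun i => MvPolynomial.eval p.rep (P i)) (hne p.rep p.rep_nonzero)
  have key : ∀ (w : Fin 2 → ℂ) (hw : w ≠ 0), f (Projectivization.mk ℂ w hw) =
      Projectivization.mk ℂ (fun i => MvPolynomial.eval w (P i)) (hne w hw) := by
    intro w hw
    obtain ⟨a, ha⟩ := Projectivization.exists_smul_eq_mk_rep ℂ w hw
    rw [Projectivization.mk_eq_mk_iff']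
    refine ⟨(a : ℂ) ^ n, ?_⟩
    funext i
    have h1 : (Projectivization.mk ℂ w hw).rep = (a : ℂ) • w := ha.symm
    rw [h1, D7_ctb_eval_smul (hP i)]
    rfl
  refine ⟨f, ⟨n, P, hP, fun w hw => ⟨hne w hw, key w hw⟩⟩, fun p => ?_, ⟨_, key w hw⟩, ⟨_, key w' hw'⟩⟩
  exact hX p.rep p.rep_nonzero

theorem D7_ctb_w10 : (![1, 0] : Fin 2 → ℂ) ≠ 0 := by
  intro h
  have := congrFun h 0
  simp at this

theorem D7_ctb_w01 : (![0, 1] : Fin 2 → ℂ) ≠ 0 := by
  intro h
  have := congrFun h 1
  simp at this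

/-- equality of points -/
theorem D7_ctb_congr {v v' : Idx → ℂ} (hv : v ≠ 0) (hv' : v' ≠ 0) (h : v = v') :
    Projectivization.mk ℂ v hv = Projectivization.mk ℂ v' hv' := by
  subst h; rfl

theorem D7_ctb_fibre (x : Fin 3 → ℂ) (t : ℂ) (q q' : Fin 3 → ℂ) (s s' : ℂ) (hx : x ≠ 0)
    (hqs : q ≠ 0 ∨ s ≠ 0) (hqs' : q' ≠ 0 ∨ s' ≠ 0) (hE : Eqn x q (elsg t) s)
    (hE' : Eqn x q' (elsg t) s') :
    RationallyChainConnected XX
      (Projectivization.mk ℂ (Zv x (elU t) (elG t) q s) (Zv_ne hx (elU_ne t) (elG_ne t) hqs))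
      (Projectivization.mk ℂ (Zv x (elU t) (elG t) q' s') (Zv_ne hx (elU_ne t) (elG_ne t) hqs')) := by
  have hZ : ∀ (a b : ℂ) (p : Idx), Zv x (elU t) (elG t) (a • q + b • q') (a * s + b * s') p
      = a * Zv x (elU t) (elG t) q s p + b * Zv x (elU t) (elG t) q' s' p := by
    intro a b p
    rcases p with ⟨p1, p2, p3 | p3⟩
    · simp only [Zv, Sum.elim_inl]; ring
    · simp only [Zv, Sum.elim_inr, Pi.add_apply, Pi.smul_apply, smul_eq_mul]; ring
  by_cases h : ∃ w : Fin 2 → ℂ, w ≠ 0 ∧ w 0 • q + w 1 • q' = 0 ∧ w 0 * s + w 1 * s' = 0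
  · obtain ⟨w, hw, h1, h2⟩ := h
    have hw0 : w 0 ≠ 0 := by
      intro h0
      rw [h0] at h1 h2
      have hw1 : w 1 ≠ 0 := by
        intro h3
        apply hw
        funext i
        fin_cases i
        · exact h0
        · exact h3
      rcases hqs' with h4 | h4
      · rw [zero_smul, zero_add, smul_eq_zero] at h1
        exact h1.elim hw1 h4
      · rw [zero_mul, zero_add, mul_eq_zero] at h2
        exact h2.elim hw1 h4
    have : Projectivization.mk ℂ (Zv x (elU t) (elG t) q s) (Zv_ne hx (elU_ne t) (elG_ne t) hqs)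
        = Projectivization.mk ℂ (Zv x (elU t) (elG t) q' s')
          (Zv_ne hx (elU_ne t) (elG_ne t) hqs') := by
      rw [Projectivization.mk_eq_mk_iff']
      refine ⟨-(w 1 / w 0), ?_⟩
      funext p
      have h3 := hZ (w 0) (w 1) p
      rw [h1, h2] at h3
      have h4 : Zv x (elU t) (elG t) (0 : Fin 3 → ℂ) 0 p = 0 := by
        rcases p with ⟨p1, p2, p3 | p3⟩
        · simp only [Zv, Sum.elim_inl]; ring
        · simp only [Zv, Sum.elim_inr, Pi.zero_apply]; ring
      rw [h4] at h3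
      rw [Pi.smul_apply, smul_eq_mul]
      field_simp
      linear_combination h3
    rw [this]
    exact Relation.ReflTransGen.refl
  · push Not at h
    let P : Idx → MvPolynomial (Fin 2) ℂ := fun p =>
      MvPolynomial.C (Zv x (elU t) (elG t) q s p) * MvPolynomial.X 0 +
      MvPolynomial.C (Zv x (elU t) (elG t) q' s' p) * MvPolynomial.X 1
    have hP : ∀ p, (P p).IsHomogeneous 1 := fun p =>
      (MvPolynomial.isHomogeneous_C_mul_X _ _).add (MvPolynomial.isHomogeneous_C_mul_X _ _)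
    have hev : ∀ w : Fin 2 → ℂ, (fun p => MvPolynomial.eval w (P p))
        = Zv x (elU t) (elG t) (w 0 • q + w 1 • q') (w 0 * s + w 1 * s') := by
      intro w
      funext p
      rw [hZ]
      simp only [P, map_add, map_mul, MvPolynomial.eval_C, MvPolynomial.eval_X]
      ring
    have hqsw : ∀ w : Fin 2 → ℂ, w ≠ 0 → (w 0 • q + w 1 • q' ≠ 0 ∨ w 0 * s + w 1 * s' ≠ 0) := by
      intro w hw
      by_contra hcon
      push Not at hcon
      exact h w hw hcon.1 hcon.2
    have hne : ∀ w : Fin 2 → ℂ, w ≠ 0 → (fun i => MvPolynomial.eval w (P i)) ≠ 0 := by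
      intro w hw
      rw [hev]
      exact Zv_ne hx (elU_ne t) (elG_ne t) (hqsw w hw)
    have hX : ∀ (w : Fin 2 → ℂ) (hw : w ≠ 0),
        Projectivization.mk ℂ (fun i => MvPolynomial.eval w (P i)) (hne w hw) ∈ XX := by
      intro w hw
      refine ⟨x, t, w 0 • q + w 1 • q', w 0 * s + w 1 * s', hx, hqsw w hw, ?_, D7_ctb_congr _ _ (hev w)⟩
      unfold Eqn at *
      simp only [Fin.sum_univ_three, Pi.add_apply, Pi.smul_apply, smul_eq_mul] at *
      linear_combination w 0 * hE + w 1 * hE'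
    have hfin := D7_ctb_curve 1 P hP hne hX ![1, 0] ![0, 1] D7_ctb_w10 D7_ctb_w01
    refine Relation.ReflTransGen.single ?_
    have e1 : Projectivization.mk ℂ (Zv x (elU t) (elG t) q s)
        (Zv_ne hx (elU_ne t) (elG_ne t) hqs) =
        Projectivization.mk ℂ (fun i => MvPolynomial.eval ![1, 0] (P i)) (hne _ D7_ctb_w10) := by
      apply D7_ctb_congr
      rw [hev]
      simp
    have e2 : Projectivization.mk ℂ (Zv x (elU t) (elG t) q' s')
        (Zv_ne hx (elU_ne t) (elG_ne t) hqs') =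
        Projectivization.mk ℂ (fun i => MvPolynomial.eval ![0, 1] (P i)) (hne _ D7_ctb_w01) := by
      apply D7_ctb_congr
      rw [hev]
      simp
    rw [e1, e2]
    exact hfin

theorem D7_ctb_quartic (t : ℂ) (xP qP : Fin 3 → MvPolynomial (Fin 2) ℂ)
    (hx1 : ∀ i, (xP i).IsHomogeneous 1) (hq3 : ∀ i, (qP i).IsHomogeneous 3)
    (hx : ∀ w : Fin 2 → ℂ, w ≠ 0 → (fun i => MvPolynomial.eval w (xP i)) ≠ 0)
    (hq : ∀ w : Fin 2 → ℂ, w ≠ 0 → (fun i => MvPolynomial.eval w (qP i)) ≠ 0)
    (hE : ∀ w : Fin 2 → ℂ, ∑ i, MvPolynomial.eval w (xP i) ^ 3 * MvPolynomial.eval w (qP i) = 0)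
    (w w' : Fin 2 → ℂ) (hw : w ≠ 0) (hw' : w' ≠ 0) :
    OnRationalCurve XX
      (Projectivization.mk ℂ (Zv (fun i => MvPolynomial.eval w (xP i)) (elU t) (elG t)
          (fun i => MvPolynomial.eval w (qP i)) 0)
        (Zv_ne (hx w hw) (elU_ne t) (elG_ne t) (Or.inl (hq w hw))))
      (Projectivization.mk ℂ (Zv (fun i => MvPolynomial.eval w' (xP i)) (elU t) (elG t)
          (fun i => MvPolynomial.eval w' (qP i)) 0)
        (Zv_ne (hx w' hw') (elU_ne t) (elG_ne t) (Or.inl (hq w' hw')))) := by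
  let P : Idx → MvPolynomial (Fin 2) ℂ := fun p =>
    xP p.1 * MvPolynomial.C (elU t p.2.1) * Sum.elim (fun _ : Fin 3 × Fin 3 => 0)
      (fun il : Fin 3 × Fin 2 => qP il.1 * MvPolynomial.C (elG t il.2)) p.2.2
  have hP : ∀ p, (P p).IsHomogeneous 4 := by
    rintro ⟨p1, p2, p3 | p3⟩
    · simp only [P, Sum.elim_inl, mul_zero]
      exact MvPolynomial.isHomogeneous_zero _ _ _
    · simp only [P, Sum.elim_inr]
      have h1 := ((hx1 p1).mul (MvPolynomial.isHomogeneous_C (Fin 2) (elU t p2))).mul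
        ((hq3 p3.1).mul (MvPolynomial.isHomogeneous_C (Fin 2) (elG t p3.2)))
      exact h1
  have hev : ∀ w : Fin 2 → ℂ, (fun p => MvPolynomial.eval w (P p))
      = Zv (fun i => MvPolynomial.eval w (xP i)) (elU t) (elG t)
          (fun i => MvPolynomial.eval w (qP i)) 0 := by
    intro w
    funext p
    rcases p with ⟨p1, p2, p3 | p3⟩
    · simp only [P, Zv, Sum.elim_inl, mul_zero, map_zero, zero_mul]
    · simp only [P, Zv, Sum.elim_inr, map_mul, MvPolynomial.eval_C]
  have hne : ∀ w : Fin 2 → ℂ, w ≠ 0 → (fun i => MvPolynomial.eval w (P i)) ≠ 0 := by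
    intro w hw
    rw [hev]
    exact Zv_ne (hx w hw) (elU_ne t) (elG_ne t) (Or.inl (hq w hw))
  have hX : ∀ (w : Fin 2 → ℂ) (hw : w ≠ 0),
      Projectivization.mk ℂ (fun i => MvPolynomial.eval w (P i)) (hne w hw) ∈ XX := by
    intro w hw
    refine ⟨_, t, _, 0, hx w hw, Or.inl (hq w hw), ?_, D7_ctb_congr _ _ (hev w)⟩
    unfold Eqn
    rw [hE w]
    ring
  have hfin := D7_ctb_curve 4 P hP hne hX w w' hw hw'
  rw [D7_ctb_congr (hne w hw) (Zv_ne (hx w hw) (elU_ne t) (elG_ne t) (Or.inl (hq w hw))) (hev w),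
    D7_ctb_congr (hne w' hw') (Zv_ne (hx w' hw') (elU_ne t) (elG_ne t) (Or.inl (hq w' hw'))) (hev w')] at hfin
  exact hfin

theorem chain_to_base (x : Fin 3 → ℂ) (t : ℂ) (q : Fin 3 → ℂ) (s : ℂ) (hx : x ≠ 0)
    (hqs : q ≠ 0 ∨ s ≠ 0) (hE : Eqn x q (elsg t) s) :
    RationallyChainConnected XX
      (Projectivization.mk ℂ (Zv x (elU t) (elG t) q s) (Zv_ne hx (elU_ne t) (elG_ne t) hqs))
      (Projectivization.mk ℂ (Zv ![0, 0, 1] (elU t) (elG t) ![1, 0, 0] 0)
        (Zv_ne base_aux.1 (elU_ne t) (elG_ne t) (Or.inl base_aux.2))) := by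
  have hEe : ∀ q : Fin 3 → ℂ, q 2 = 0 → Eqn ![0, 0, 1] q (elsg t) 0 := by
    intro q hq
    unfold Eqn
    simp [Fin.sum_univ_three, hq]
  have hEb : Eqn ![0, 0, 1] ![1, 0, 0] (elsg t) 0 := hEe _ (by simp)
  -- the linear form `u x2 + v`
  have hl : (MvPolynomial.C (x 2) * MvPolynomial.X 0 + MvPolynomial.X 1 :
      MvPolynomial (Fin 2) ℂ).IsHomogeneous 1 :=
    (MvPolynomial.isHomogeneous_C_mul_X _ _).add (MvPolynomial.isHomogeneous_X _ _)
  have hw1 : ∀ w : Fin 2 → ℂ, w ≠ 0 → w 0 = 0 → w 1 ≠ 0 := by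
    intro w hw h0 h1
    apply hw
    funext i
    fin_cases i
    · exact h0
    · exact h1
  let xP : Fin 3 → MvPolynomial (Fin 2) ℂ := ![MvPolynomial.C (x 0) * MvPolynomial.X 0,
    MvPolynomial.C (x 1) * MvPolynomial.X 0,
    MvPolynomial.C (x 2) * MvPolynomial.X 0 + MvPolynomial.X 1]
  have hx1 : ∀ i, (xP i).IsHomogeneous 1 := by
    intro i
    fin_cases i
    · exact MvPolynomial.isHomogeneous_C_mul_X _ _
    · exact MvPolynomial.isHomogeneous_C_mul_X _ _
    · exact hl
  have hxev : ∀ w : Fin 2 → ℂ, (fun i => MvPolynomial.eval w (xP i))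
      = ![x 0 * w 0, x 1 * w 0, x 2 * w 0 + w 1] := by
    intro w
    funext i
    fin_cases i
    · simp [xP]
    · simp [xP]
    · simp [xP]
  by_cases h0 : x 0 = 0
  · by_cases h1 : x 1 = 0
    · have h2 : x 2 ≠ 0 := by
        intro h2
        apply hx
        funext i
        fin_cases i
        · exact h0
        · exact h1
        · exact h2
      have hEx : Eqn x ![1, 0, 0] (elsg t) 0 := by
        unfold Eqn
        simp [Fin.sum_univ_three, h0]
      refine (D7_ctb_fibre x t q ![1, 0, 0] s 0 hx hqs (Or.inl base_aux.2) hE hEx).trans ?_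
      have : Projectivization.mk ℂ (Zv x (elU t) (elG t) ![1, 0, 0] 0)
          (Zv_ne hx (elU_ne t) (elG_ne t) (Or.inl base_aux.2))
          = Projectivization.mk ℂ (Zv ![0, 0, 1] (elU t) (elG t) ![1, 0, 0] 0)
            (Zv_ne base_aux.1 (elU_ne t) (elG_ne t) (Or.inl base_aux.2)) := by
        rw [Projectivization.mk_eq_mk_iff']
        refine ⟨x 2, ?_⟩
        have hxe : x = x 2 • ![0, 0, 1] := by
          funext i
          fin_cases i
          · simp [h0]
          · simp [h1]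
          · simp
        funext p
        rcases p with ⟨p1, p2, p3 | p3⟩
        · simp only [Zv, Sum.elim_inl, Pi.smul_apply, smul_eq_mul]; ring
        · simp only [Zv, Sum.elim_inr, Pi.smul_apply, smul_eq_mul]
          have : x p1 = x 2 * (![0, 0, 1] : Fin 3 → ℂ) p1 := by
            conv_lhs => rw [hxe]
            rfl
          rw [this]
          ring
      rw [this]
    · -- x 1 ≠ 0
      let qP : Fin 3 → MvPolynomial (Fin 2) ℂ := ![0,
        (MvPolynomial.C (x 2) * MvPolynomial.X 0 + MvPolynomial.X 1) ^ 3,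
        -(MvPolynomial.C (x 1) * MvPolynomial.X 0) ^ 3]
      have hq3 : ∀ i, (qP i).IsHomogeneous 3 := by
        intro i
        fin_cases i
        · exact MvPolynomial.isHomogeneous_zero _ _ _
        · exact hl.pow 3
        · exact ((MvPolynomial.isHomogeneous_C_mul_X _ _).pow 3).neg
      have hqev : ∀ w : Fin 2 → ℂ, (fun i => MvPolynomial.eval w (qP i))
          = ![0, (x 2 * w 0 + w 1) ^ 3, -(x 1 * w 0) ^ 3] := by
        intro w
        funext i
        fin_cases i
        · simp [qP]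
        · simp [qP]
        · simp [qP]
      have hxn : ∀ w : Fin 2 → ℂ, w ≠ 0 → (fun i => MvPolynomial.eval w (xP i)) ≠ 0 := by
        intro w hw
        rw [hxev]
        intro h
        have e1 := congrFun h 1
        have e2 := congrFun h 2
        simp at e1 e2
        have e3 : w 0 = 0 := e1.resolve_left h1
        rw [e3, mul_zero, zero_add] at e2
        exact hw1 w hw e3 e2
      have hqn : ∀ w : Fin 2 → ℂ, w ≠ 0 → (fun i => MvPolynomial.eval w (qP i)) ≠ 0 := by
        intro w hw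
        rw [hqev]
        intro h
        have e1 := congrFun h 1
        have e2 := congrFun h 2
        simp at e1 e2
        have e3 : w 0 = 0 := e2.resolve_left h1
        rw [e3, mul_zero, zero_add] at e1
        exact hw1 w hw e3 e1
      have hEq : ∀ w : Fin 2 → ℂ,
          ∑ i, MvPolynomial.eval w (xP i) ^ 3 * MvPolynomial.eval w (qP i) = 0 := by
        intro w
        have e1 := hxev w
        have e2 := hqev w
        have f1 : ∀ i, MvPolynomial.eval w (xP i) = ![x 0 * w 0, x 1 * w 0, x 2 * w 0 + w 1] i :=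
          fun i => congrFun e1 i
        have f2 : ∀ i, MvPolynomial.eval w (qP i) = ![0, (x 2 * w 0 + w 1) ^ 3, -(x 1 * w 0) ^ 3] i :=
          fun i => congrFun e2 i
        simp only [f1, f2, Fin.sum_univ_three, Matrix.cons_val_zero, Matrix.cons_val_one,
          Matrix.cons_val]
        ring
      have hc := D7_ctb_quartic t xP qP hx1 hq3 hxn hqn hEq ![1, 0] ![0, 1] D7_ctb_w10 D7_ctb_w01
      have hqa : (![0, x 2 ^ 3, -(x 1) ^ 3] : Fin 3 → ℂ) ≠ 0 := by
        intro h
        have := congrFun h 2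
        simp at this
        exact h1 this
      have hqb : (![0, 1, 0] : Fin 3 → ℂ) ≠ 0 := by
        intro h
        have := congrFun h 1
        simp at this
      have ex : x = ![x 0, x 1, x 2] := by
        funext i
        fin_cases i <;> rfl
      have e1 : Projectivization.mk ℂ (Zv (fun i => MvPolynomial.eval ![1, 0] (xP i)) (elU t) (elG t)
          (fun i => MvPolynomial.eval ![1, 0] (qP i)) 0)
          (Zv_ne (hxn _ D7_ctb_w10) (elU_ne t) (elG_ne t) (Or.inl (hqn _ D7_ctb_w10)))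
          = Projectivization.mk ℂ (Zv x (elU t) (elG t) ![0, x 2 ^ 3, -(x 1) ^ 3] 0)
            (Zv_ne hx (elU_ne t) (elG_ne t) (Or.inl hqa)) := by
        apply D7_ctb_congr
        rw [hxev, hqev]
        conv_rhs => rw [ex]
        simp
      have e2 : Projectivization.mk ℂ (Zv (fun i => MvPolynomial.eval ![0, 1] (xP i)) (elU t) (elG t)
          (fun i => MvPolynomial.eval ![0, 1] (qP i)) 0)
          (Zv_ne (hxn _ D7_ctb_w01) (elU_ne t) (elG_ne t) (Or.inl (hqn _ D7_ctb_w01)))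
          = Projectivization.mk ℂ (Zv ![0, 0, 1] (elU t) (elG t) ![0, 1, 0] 0)
            (Zv_ne base_aux.1 (elU_ne t) (elG_ne t) (Or.inl hqb)) := by
        apply D7_ctb_congr
        rw [hxev, hqev]
        simp
      rw [e1, e2] at hc
      have hEx : Eqn x ![0, x 2 ^ 3, -(x 1) ^ 3] (elsg t) 0 := by
        unfold Eqn
        simp only [Fin.sum_univ_three, Matrix.cons_val_zero, Matrix.cons_val_one, Matrix.cons_val]
        ring
      refine (D7_ctb_fibre x t q _ s 0 hx hqs (Or.inl hqa) hE hEx).trans ?_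
      refine (Relation.ReflTransGen.single hc).trans ?_
      exact D7_ctb_fibre _ t _ _ 0 0 base_aux.1 (Or.inl hqb) (Or.inl base_aux.2) (hEe _ (by simp)) hEb
  · -- x 0 ≠ 0
    let qP : Fin 3 → MvPolynomial (Fin 2) ℂ := ![
      -(MvPolynomial.C (x 2) * MvPolynomial.X 0 + MvPolynomial.X 1) ^ 3, 0,
      (MvPolynomial.C (x 0) * MvPolynomial.X 0) ^ 3]
    have hq3 : ∀ i, (qP i).IsHomogeneous 3 := by
      intro i
      fin_cases i
      · exact (hl.pow 3).neg
      · exact MvPolynomial.isHomogeneous_zero _ _ _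
      · exact (MvPolynomial.isHomogeneous_C_mul_X _ _).pow 3
    have hqev : ∀ w : Fin 2 → ℂ, (fun i => MvPolynomial.eval w (qP i))
        = ![-(x 2 * w 0 + w 1) ^ 3, 0, (x 0 * w 0) ^ 3] := by
      intro w
      funext i
      fin_cases i
      · simp [qP]
      · simp [qP]
      · simp [qP]
    have hxn : ∀ w : Fin 2 → ℂ, w ≠ 0 → (fun i => MvPolynomial.eval w (xP i)) ≠ 0 := by
      intro w hw
      rw [hxev]
      intro h
      have e1 := congrFun h 0
      have e2 := congrFun h 2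
      simp at e1 e2
      have e3 : w 0 = 0 := e1.resolve_left h0
      rw [e3, mul_zero, zero_add] at e2
      exact hw1 w hw e3 e2
    have hqn : ∀ w : Fin 2 → ℂ, w ≠ 0 → (fun i => MvPolynomial.eval w (qP i)) ≠ 0 := by
      intro w hw
      rw [hqev]
      intro h
      have e1 := congrFun h 0
      have e2 := congrFun h 2
      simp at e1 e2
      have e3 : w 0 = 0 := e2.resolve_left h0
      rw [e3, mul_zero, zero_add] at e1
      exact hw1 w hw e3 e1
    have hEq : ∀ w : Fin 2 → ℂ,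
        ∑ i, MvPolynomial.eval w (xP i) ^ 3 * MvPolynomial.eval w (qP i) = 0 := by
      intro w
      have e1 := hxev w
      have e2 := hqev w
      have f1 : ∀ i, MvPolynomial.eval w (xP i) = ![x 0 * w 0, x 1 * w 0, x 2 * w 0 + w 1] i :=
        fun i => congrFun e1 i
      have f2 : ∀ i, MvPolynomial.eval w (qP i) = ![-(x 2 * w 0 + w 1) ^ 3, 0, (x 0 * w 0) ^ 3] i :=
        fun i => congrFun e2 i
      simp only [f1, f2, Fin.sum_univ_three, Matrix.cons_val_zero, Matrix.cons_val_one,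
        Matrix.cons_val]
      ring
    have hc := D7_ctb_quartic t xP qP hx1 hq3 hxn hqn hEq ![1, 0] ![0, 1] D7_ctb_w10 D7_ctb_w01
    have hqa : (![-(x 2) ^ 3, 0, x 0 ^ 3] : Fin 3 → ℂ) ≠ 0 := by
      intro h
      have := congrFun h 2
      simp at this
      exact h0 this
    have hqb : (![-1, 0, 0] : Fin 3 → ℂ) ≠ 0 := by
      intro h
      have := congrFun h 0
      simp at this
    have ex : x = ![x 0, x 1, x 2] := by
      funext i
      fin_cases i <;> rfl
    have e1 : Projectivization.mk ℂ (Zv (fun i => MvPolynomial.eval ![1, 0] (xP i)) (elU t) (elG t)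
        (fun i => MvPolynomial.eval ![1, 0] (qP i)) 0)
        (Zv_ne (hxn _ D7_ctb_w10) (elU_ne t) (elG_ne t) (Or.inl (hqn _ D7_ctb_w10)))
        = Projectivization.mk ℂ (Zv x (elU t) (elG t) ![-(x 2) ^ 3, 0, x 0 ^ 3] 0)
          (Zv_ne hx (elU_ne t) (elG_ne t) (Or.inl hqa)) := by
      apply D7_ctb_congr
      rw [hxev, hqev]
      conv_rhs => rw [ex]
      simp
    have e2 : Projectivization.mk ℂ (Zv (fun i => MvPolynomial.eval ![0, 1] (xP i)) (elU t) (elG t)
        (fun i => MvPolynomial.eval ![0, 1] (qP i)) 0)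
        (Zv_ne (hxn _ D7_ctb_w01) (elU_ne t) (elG_ne t) (Or.inl (hqn _ D7_ctb_w01)))
        = Projectivization.mk ℂ (Zv ![0, 0, 1] (elU t) (elG t) ![-1, 0, 0] 0)
          (Zv_ne base_aux.1 (elU_ne t) (elG_ne t) (Or.inl hqb)) := by
      apply D7_ctb_congr
      rw [hxev, hqev]
      simp
    rw [e1, e2] at hc
    have hEx : Eqn x ![-(x 2) ^ 3, 0, x 0 ^ 3] (elsg t) 0 := by
      unfold Eqn
      simp only [Fin.sum_univ_three, Matrix.cons_val_zero, Matrix.cons_val_one, Matrix.cons_val]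
      ring
    refine (D7_ctb_fibre x t q _ s 0 hx hqs (Or.inl hqa) hE hEx).trans ?_
    refine (Relation.ReflTransGen.single hc).trans ?_
    exact D7_ctb_fibre _ t _ _ 0 0 base_aux.1 (Or.inl hqb) (Or.inl base_aux.2) (hEe _ (by simp)) hEb

theorem onRationalCurve_symm (X : Set (ℙ ℂ (Idx → ℂ))) (p q : ℙ ℂ (Idx → ℂ))
    (h : RationallyChainConnected X p q) : RationallyChainConnected X q p := by
  have hs : ∀ a b, OnRationalCurve X a b → OnRationalCurve X b a := by
    rintro a b ⟨f, h1, h2, h3, h4⟩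
    exact ⟨f, h1, h2, h4, h3⟩
  unfold RationallyChainConnected at *
  induction h with
  | refl => exact Relation.ReflTransGen.refl
  | tail _ hbc ih => exact Relation.ReflTransGen.head (hs _ _ hbc) ih

end Pool.Agent.Helper922.MR
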