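import Pool.Agent.Helper922.MR.Model

/-! Holomorphic maps from `ℙ¹` to the elliptic curve are constant. -/

open scoped LinearAlgebra.Projectivization

namespace Pool.Agent.Helper922.MR

theorem vec1u_ne (u : ℂ) : (![1, u] : Fin 2 → ℂ) ≠ 0 := by
  intro h
  have := congrFun h 0
  simp at this

theorem vecu1_ne (u : ℂ) : (![u, 1] : Fin 2 → ℂ) ≠ 0 := by
  intro h
  have := congrFun h 1
  simp at this

open Filter Topology

/-- the point of the curve -/
noncomputable def D8_cohJ (t : ℂ) : ℙ ℂ (Fin 3 → ℂ) := Projectivization.mk ℂ (elU t) (elU_ne t)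

/-- local lift -/
def D8_CohLift (g : ℂ → ℙ ℂ (Fin 3 → ℂ)) (w : ℂ → ℂ) (u₀ : ℂ) : Prop :=
  ∀ᶠ u in 𝓝 u₀, DifferentiableAt ℂ w u ∧ g u = D8_cohJ (w u)

theorem D8_CohLift.ev {g : ℂ → ℙ ℂ (Fin 3 → ℂ)} {w : ℂ → ℂ} {u₀ : ℂ} (h : D8_CohLift g w u₀) :
    ∀ᶠ u in 𝓝 u₀, D8_CohLift g w u := Filter.Eventually.eventually_nhds h

theorem D8_coh_congr {t t' : ℂ} (h : elU t = elU t') : D8_cohJ t = D8_cohJ t' := by
  unfold D8_cohJ
  simp only [h]

theorem D8_coh_sep {t t' : ℂ} (h : D8_cohJ t = D8_cohJ t') : t - t' ∈ elS := by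
  unfold D8_cohJ at h
  obtain ⟨a, ha⟩ := (Projectivization.mk_eq_mk_iff' ℂ _ _ _ _).1 h
  exact elU_sep t t' a ha.symm

theorem D8_CohLift.unique {g : ℂ → ℙ ℂ (Fin 3 → ℂ)} {w w' : ℂ → ℂ} {u₀ : ℂ} (h : D8_CohLift g w u₀)
    (h' : D8_CohLift g w' u₀) : deriv w u₀ = deriv w' u₀ := by
  have hd : ∀ᶠ u in 𝓝 u₀, w u - w' u ∈ elS := by
    filter_upwards [h, h'] with u hu hu'
    exact D8_coh_sep (hu.2.symm.trans hu'.2)
  have d1 : DifferentiableAt ℂ w u₀ := h.self_of_nhds.1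
  have d2 : DifferentiableAt ℂ w' u₀ := h'.self_of_nhds.1
  have hc : ContinuousAt (fun u => w u - w' u) u₀ := d1.continuousAt.sub d2.continuousAt
  have h3 : ∀ᶠ z in 𝓝 (w u₀ - w' u₀), z ∈ elS → z = w u₀ - w' u₀ := by
    have := eventually_nhdsWithin_iff.1 (el_notMem_near (w u₀ - w' u₀))
    filter_upwards [this] with z hz hzS
    by_contra hne
    exact hz hne hzS
  have h4 : ∀ᶠ u in 𝓝 u₀, (w u - w' u ∈ elS → w u - w' u = w u₀ - w' u₀) := hc.eventually h3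
  have h5 : (fun u => w u - w' u) =ᶠ[𝓝 u₀] fun _ => w u₀ - w' u₀ := by
    filter_upwards [h4, hd] with u hu hu'
    exact hu hu'
  have h6 := h5.deriv_eq
  rw [deriv_fun_sub d1 d2, deriv_const] at h6
  exact sub_eq_zero.1 h6

theorem D8_CohLift.inv {g g' : ℂ → ℙ ℂ (Fin 3 → ℂ)} (hgg : ∀ u, u ≠ 0 → g u = g' u⁻¹) {w' : ℂ → ℂ}
    {u₀ : ℂ} (hu₀ : u₀ ≠ 0) (h' : D8_CohLift g' w' u₀⁻¹) : D8_CohLift g (fun u => w' u⁻¹) u₀ := by
  have h1 := (continuousAt_inv₀ hu₀).eventually h'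
  filter_upwards [h1, isOpen_ne.mem_nhds hu₀] with u hu hu0
  refine ⟨?_, ?_⟩
  · exact DifferentiableAt.comp u hu.1 (differentiableAt_inv hu0)
  · rw [hgg u hu0]; exact hu.2

/-- the derivative function of the lifts -/
theorem D8_coh_deriv {g : ℂ → ℙ ℂ (Fin 3 → ℂ)} (hg : ∀ u, ∃ w, D8_CohLift g w u) :
    ∃ a : ℂ → ℂ, Differentiable ℂ a ∧ ∀ u w, D8_CohLift g w u → deriv w u = a u := by
  choose W hW using hg
  have key : ∀ u w, D8_CohLift g w u → deriv w u = deriv (W u) u := fun u w h => h.unique (hW u)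
  refine ⟨fun u => deriv (W u) u, ?_, key⟩
  intro u₀
  have h1 : (fun u => deriv (W u) u) =ᶠ[𝓝 u₀] deriv (W u₀) := by
    filter_upwards [(hW u₀).ev] with u hu
    exact (key u _ hu).symm
  have h2 : AnalyticAt ℂ (W u₀) u₀ := by
    rw [Complex.analyticAt_iff_eventually_differentiableAt]
    filter_upwards [hW u₀] with u hu
    exact hu.1
  exact h2.deriv.differentiableAt.congr_of_eventuallyEq h1

theorem D8_coh_zero {g g' : ℂ → ℙ ℂ (Fin 3 → ℂ)} (hgg : ∀ u, u ≠ 0 → g u = g' u⁻¹)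
    (hg : ∀ u, ∃ w, D8_CohLift g w u) (hg' : ∀ u, ∃ w, D8_CohLift g' w u) :
    ∀ u w, D8_CohLift g w u → deriv w u = 0 := by
  obtain ⟨a, ha, hak⟩ := D8_coh_deriv hg
  obtain ⟨b, hb, hbk⟩ := D8_coh_deriv hg'
  have hab : ∀ u, u ≠ 0 → a u = b u⁻¹ * -(u ^ 2)⁻¹ := by
    intro u hu
    obtain ⟨w', hw'⟩ := hg' u⁻¹
    rw [← hak u _ (D8_CohLift.inv hgg hu hw'), ← hbk _ _ hw']
    have h1 : HasDerivAt w' (deriv w' u⁻¹) u⁻¹ := hw'.self_of_nhds.1.hasDerivAt
    exact (h1.comp u (hasDerivAt_inv hu)).deriv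
  have hinv : Tendsto (fun u : ℂ => u⁻¹) (cocompact ℂ) (𝓝 0) := by
    rw [← Metric.cobounded_eq_cocompact]
    exact tendsto_inv₀_cobounded
  have hlim : Tendsto a (cocompact ℂ) (𝓝 0) := by
    have h1 : Tendsto (fun u : ℂ => b u⁻¹ * -(u⁻¹ ^ 2)) (cocompact ℂ) (𝓝 (b 0 * -(0 ^ 2))) :=
      ((hb.continuous.tendsto 0).comp hinv).mul (hinv.pow 2).neg
    have h2 : b 0 * -((0 : ℂ) ^ 2) = 0 := by ring
    rw [h2] at h1
    refine h1.congr' ?_
    have h3 : ∀ᶠ u : ℂ in cocompact ℂ, u ≠ 0 := by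
      have : ({0} : Set ℂ)ᶜ ∈ cocompact ℂ := isCompact_singleton.compl_mem_cocompact
      filter_upwards [this] with u hu
      exact hu
    filter_upwards [h3] with u hu
    rw [hab u hu, inv_pow]
  intro u w h
  rw [hak u w h]
  exact ha.apply_eq_of_tendsto_cocompact u hlim

theorem D8_coh_const {g g' : ℂ → ℙ ℂ (Fin 3 → ℂ)} (hgg : ∀ u, u ≠ 0 → g u = g' u⁻¹)
    (hg : ∀ u, ∃ w, D8_CohLift g w u) (hg' : ∀ u, ∃ w, D8_CohLift g' w u) : ∀ u v, g u = g v := by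
  have h0 := D8_coh_zero hgg hg hg'
  have hloc : IsLocallyConstant g := by
    rw [IsLocallyConstant.iff_eventually_eq]
    intro u₀
    obtain ⟨w, hw⟩ := hg u₀
    obtain ⟨ε, hε, hball⟩ := Metric.eventually_nhds_iff_ball.1 (hw.and hw.ev)
    filter_upwards [Metric.ball_mem_nhds u₀ hε] with u hu
    have hconst : w u = w u₀ := by
      refine Metric.isOpen_ball.is_const_of_deriv_eq_zero (convex_ball u₀ ε).isPreconnected
        (fun y hy => (hball y hy).1.1.differentiableWithinAt) (fun y hy => h0 y w (hball y hy).2)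
        hu (Metric.mem_ball_self hε)
    rw [(hball u hu).1.2, (hball u₀ (Metric.mem_ball_self hε)).1.2, hconst]
  intro u v
  exact hloc.apply_eq_of_preconnectedSpace u v

theorem D8_coh_lift (hF : ∀ w : ℂ, Nonempty (Frame w)) (G : (Fin 1 → ℂ) → ℙ ℂ (Fin 3 → ℂ))
    (hG : HoloOn (n := 1) Set.univ G) (g : ℂ → ℙ ℂ (Fin 3 → ℂ)) (hgG : ∀ u, g u = G (fun _ => u))
    (hY : ∀ u, g u ∈ YY) (u₀ : ℂ) : ∃ w, D8_CohLift g w u₀ := by
  obtain ⟨N, hN, huN, γ, hγ, hγe⟩ := hG (fun _ => u₀) (Set.mem_univ _)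
  have hcont : Continuous (fun (u : ℂ) (_ : Fin 1) => u) := by fun_prop
  have hNev : ∀ᶠ u in 𝓝 u₀, (fun _ : Fin 1 => u) ∈ N :=
    hcont.continuousAt.eventually (hN.mem_nhds huN)
  have hγd : ∀ u, (fun _ : Fin 1 => u) ∈ N →
      DifferentiableAt ℂ (fun u : ℂ => γ (fun _ => u)) u := by
    intro u hu
    have h1 : DifferentiableAt ℂ γ (fun _ => u) := hγ.differentiableAt (hN.mem_nhds hu)
    have h2 : DifferentiableAt ℂ (fun (u : ℂ) (_ : Fin 1) => u) u := by fun_prop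
    exact DifferentiableAt.comp (g := γ) u h1 h2
  have hpt : ∀ u, (fun _ : Fin 1 => u) ∈ N → ∃ (t : ℂ) (b : ℂ), b ≠ 0 ∧
      γ (fun _ => u) = b • elU t ∧ g u = D8_cohJ t := by
    intro u hu
    obtain ⟨hne, he⟩ := hγe _ hu
    obtain ⟨t, ht⟩ := hY u
    have h1 := ht
    rw [hgG, he] at h1
    obtain ⟨b, hb⟩ := (Projectivization.mk_eq_mk_iff' ℂ _ _ _ _).1 h1
    refine ⟨t, b, ?_, hb.symm, ht⟩
    rintro rfl
    rw [zero_smul] at hb
    exact hne hb.symm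
  obtain ⟨t₀, b, hb0, hb, -⟩ := hpt u₀ huN
  obtain ⟨fr⟩ := hF t₀
  have ht₀ := Metric.mem_ball_self (x := t₀) fr.r_pos
  have hc := fr.c_ne t₀ ht₀
  have hO : γ (fun _ => u₀) ∈ fr.O := by
    have h1 := (fr.cone _ (fr.T_U t₀ ht₀).1 (b * (fr.c t₀ ^ 3)⁻¹)
      (mul_ne_zero hb0 (inv_ne_zero (pow_ne_zero _ hc)))).1
    rw [fr.U_eq t₀ ht₀, smul_smul, mul_assoc, inv_mul_cancel₀ (pow_ne_zero _ hc), mul_one, ← hb]
      at h1
    exact h1
  have hOev : ∀ᶠ u in 𝓝 u₀, γ (fun _ : Fin 1 => u) ∈ fr.O :=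
    (hγd u₀ huN).continuousAt.eventually (fr.O_open.mem_nhds hO)
  refine ⟨fun u => fr.T (γ (fun _ => u)), ?_⟩
  filter_upwards [hNev, hOev] with u hu huO
  refine ⟨?_, ?_⟩
  · exact DifferentiableAt.comp (g := fr.T) u (fr.dT.differentiableAt (fr.O_open.mem_nhds huO))
      (hγd u hu)
  · obtain ⟨t, b', hb'0, hb', hgt⟩ := hpt u hu
    have h1 := fr.cone _ huO b'⁻¹ (inv_ne_zero hb'0)
    rw [hb', smul_smul, inv_mul_cancel₀ hb'0, one_smul] at h1
    have h2 := fr.T_back t h1.1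
    rw [h1.2] at h2
    rw [hgt, hb']
    have h3 := el_period _ h2 (fr.T (b' • elU t))
    rw [add_sub_cancel] at h3
    exact D8_coh_congr h3

theorem const_of_holo (hF : ∀ w : ℂ, Nonempty (Frame w))
    (f : ℙ ℂ (Fin 2 → ℂ) → ℙ ℂ (Fin 3 → ℂ)) (hf : ∀ x, f x ∈ YY)
    (h1 : HoloOn (n := 1) Set.univ (fun v => f (Projectivization.mk ℂ ![1, v 0] (vec1u_ne _))))
    (h2 : HoloOn (n := 1) Set.univ (fun v => f (Projectivization.mk ℂ ![v 0, 1] (vecu1_ne _)))) :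
    ∀ x y, f x = f y := by
  let g : ℂ → ℙ ℂ (Fin 3 → ℂ) := fun u => f (Projectivization.mk ℂ ![1, u] (vec1u_ne u))
  let g' : ℂ → ℙ ℂ (Fin 3 → ℂ) := fun u => f (Projectivization.mk ℂ ![u, 1] (vecu1_ne u))
  have hg : ∀ u, ∃ w, D8_CohLift g w u := D8_coh_lift hF _ h1 g (fun u => rfl) (fun u => hf _)
  have hg' : ∀ u, ∃ w, D8_CohLift g' w u := D8_coh_lift hF _ h2 g' (fun u => rfl) (fun u => hf _)
  have e : ∀ u : ℂ, u ≠ 0 → Projectivization.mk ℂ ![1, u] (vec1u_ne u) =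
      Projectivization.mk ℂ ![u⁻¹, 1] (vecu1_ne _) := by
    intro u hu
    rw [Projectivization.mk_eq_mk_iff']
    refine ⟨u, ?_⟩
    ext i
    fin_cases i <;> simp [hu]
  have e' : ∀ u : ℂ, u ≠ 0 → Projectivization.mk ℂ ![u, 1] (vecu1_ne u) =
      Projectivization.mk ℂ ![1, u⁻¹] (vec1u_ne _) := by
    intro u hu
    rw [Projectivization.mk_eq_mk_iff']
    refine ⟨u, ?_⟩
    ext i
    fin_cases i <;> simp [hu]
  have hgg : ∀ u, u ≠ 0 → g u = g' u⁻¹ := fun u hu => congrArg f (e u hu)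
  have hgg' : ∀ u, u ≠ 0 → g' u = g u⁻¹ := fun u hu => congrArg f (e' u hu)
  have c1 := D8_coh_const hgg hg hg'
  have c2 := D8_coh_const hgg' hg' hg
  have c3 : g 1 = g' 1 := rfl
  have key : ∀ x, f x = g 1 := by
    intro x
    induction x using Projectivization.ind with
    | h v hv =>
      by_cases h0 : v 0 = 0
      · have h1 : v 1 ≠ 0 := by
          intro h1
          apply hv
          ext i
          fin_cases i
          · exact h0
          · exact h1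
        have : Projectivization.mk ℂ v hv = Projectivization.mk ℂ ![0, 1] (vecu1_ne 0) := by
          rw [Projectivization.mk_eq_mk_iff']
          refine ⟨v 1, ?_⟩
          ext i
          fin_cases i
          · simp [h0]
          · simp
        rw [this, c3]
        exact c2 0 1
      · have : Projectivization.mk ℂ v hv =
            Projectivization.mk ℂ ![1, v 1 / v 0] (vec1u_ne _) := by
          rw [Projectivization.mk_eq_mk_iff']
          refine ⟨v 0, ?_⟩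
          ext i
          fin_cases i
          · simp
          · simp; field_simp
        rw [this]
        exact c1 _ 1
  intro x y
  rw [key x, key y]

end Pool.Agent.Helper922.MR
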