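import Pool.Agent.Helper922.MR.Model2

/-! `pr` is the MRC fibration; `XX` is connected. -/

open scoped LinearAlgebra.Projectivization Topology

namespace Pool.Agent.Helper922.MR

theorem vec1u_ne' (u : ℂ) : (![1, u] : Fin 2 → ℂ) ≠ 0 := by
  intro h
  have := congrFun h 0
  simp at this

theorem vecu1_ne' (u : ℂ) : (![u, 1] : Fin 2 → ℂ) ≠ 0 := by
  intro h
  have := congrFun h 1
  simp at this

theorem base_aux' : (![0, 0, 1] : Fin 3 → ℂ) ≠ 0 ∧ (![1, 0, 0] : Fin 3 → ℂ) ≠ 0 := by
  constructor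
  · intro h
    have := congrFun h 2
    simp at this
  · intro h
    have := congrFun h 0
    simp at this

/-- evaluation of a polynomial at differentiable functions is differentiable -/
theorem D9_diff_eval_22292 {n : ℕ} (p : MvPolynomial (Fin 2) ℂ) (g : (Fin n → ℂ) → Fin 2 → ℂ)
    (hg : ∀ i, Differentiable ℂ (fun u => g u i)) :
    Differentiable ℂ (fun u => MvPolynomial.eval (g u) p) := by
  induction p using MvPolynomial.induction_on with
  | C a => simp
  | add p q hp hq =>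
    have h := hp.fun_add hq
    refine (funext fun u => ?_ : (fun u => MvPolynomial.eval (g u) (p + q)) = _) ▸ h
    simp
  | mul_X p i hp =>
    have h := hp.fun_mul (hg i)
    refine (funext fun u => ?_ : (fun u => MvPolynomial.eval (g u) (p * MvPolynomial.X i)) = _) ▸ h
    simp

/-- TO PROVE: a morphism `ℙ¹ → ℙ(ℂ^ι)` is holomorphic in the two affine charts. -/
theorem holoOn_of_morphism {ι : Type} [Fintype ι] (f : ℙ ℂ (Fin 2 → ℂ) → ℙ ℂ (ι → ℂ))
    (hf : IsMorphismP1 f) :
    HoloOn (n := 1) Set.univ (fun v => f (Projectivization.mk ℂ ![1, v 0] (vec1u_ne' _))) ∧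
    HoloOn (n := 1) Set.univ (fun v => f (Projectivization.mk ℂ ![v 0, 1] (vecu1_ne' _))) := by
  obtain ⟨n, P, -, hP⟩ := hf
  constructor
  · intro v _
    refine ⟨Set.univ, isOpen_univ, Set.mem_univ v,
      fun u i => MvPolynomial.eval ![1, u 0] (P i), ?_, ?_⟩
    · apply Differentiable.differentiableOn
      rw [differentiable_pi]
      intro i
      apply D9_diff_eval_22292 (P i) (fun u : Fin 1 → ℂ => ![1, u 0])
      intro j
      fin_cases j
      · exact differentiable_const _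
      · exact differentiable_apply 0
    · intro u _
      exact hP _ _
  · intro v _
    refine ⟨Set.univ, isOpen_univ, Set.mem_univ v,
      fun u i => MvPolynomial.eval ![u 0, 1] (P i), ?_, ?_⟩
    · apply Differentiable.differentiableOn
      rw [differentiable_pi]
      intro i
      apply D9_diff_eval_22292 (P i) (fun u : Fin 1 → ℂ => ![u 0, 1])
      intro j
      fin_cases j
      · exact differentiable_apply 0
      · exact differentiable_const _
    · intro u _
      exact hP _ _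

theorem pr_isMRC
    (hconst : ∀ f : ℙ ℂ (Fin 2 → ℂ) → ℙ ℂ (Fin 3 → ℂ), (∀ x, f x ∈ YY) →
      HoloOn (n := 1) Set.univ (fun v => f (Projectivization.mk ℂ ![1, v 0] (vec1u_ne' _))) →
      HoloOn (n := 1) Set.univ (fun v => f (Projectivization.mk ℂ ![v 0, 1] (vecu1_ne' _))) →
      ∀ x y, f x = f y)
    (hprh : IsHolomorphicOn XX pr) (hprI : pr '' XX = YY)
    (hpr : ∀ (x : Fin 3 → ℂ) (t : ℂ) (q : Fin 3 → ℂ) (s : ℂ) (hx : x ≠ 0)
      (hqs : q ≠ 0 ∨ s ≠ 0), pr (Projectivization.mk ℂ (Zv x (elU t) (elG t) q s)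
      (Zv_ne hx (elU_ne t) (elG_ne t) hqs)) = Projectivization.mk ℂ (elU t) (elU_ne t))
    (hch : ∀ (x : Fin 3 → ℂ) (t : ℂ) (q : Fin 3 → ℂ) (s : ℂ) (hx : x ≠ 0)
      (hqs : q ≠ 0 ∨ s ≠ 0), Eqn x q (elsg t) s → RationallyChainConnected XX
      (Projectivization.mk ℂ (Zv x (elU t) (elG t) q s) (Zv_ne hx (elU_ne t) (elG_ne t) hqs))
      (Projectivization.mk ℂ (Zv ![0, 0, 1] (elU t) (elG t) ![1, 0, 0] 0)
        (Zv_ne base_aux'.1 (elU_ne t) (elG_ne t) (Or.inl base_aux'.2))))
    (hsymm : ∀ p q : ℙ ℂ (Idx → ℂ), RationallyChainConnected XX p q →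
      RationallyChainConnected XX q p) :
    IsMRCFibration XX YY pr := by
  refine ⟨hprh, hprI, ?_, ?_⟩
  · intro p hp q hq
    constructor
    · intro h
      clear hp hq
      induction h with
      | refl => rfl
      | tail _ hbc ih =>
        rw [ih]
        obtain ⟨f, hf, hfX, ⟨x, rfl⟩, ⟨y, rfl⟩⟩ := hbc
        exact hconst (fun z => pr (f z)) (fun z => hprI ▸ Set.mem_image_of_mem _ (hfX z))
          (hprh 1 Set.univ _ isOpen_univ (holoOn_of_morphism f hf).1 (fun v _ => hfX _))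
          (hprh 1 Set.univ _ isOpen_univ (holoOn_of_morphism f hf).2 (fun v _ => hfX _)) x y
    · intro h
      obtain ⟨x, t, q₁, s, hx, hqs, hE, rfl⟩ := hp
      obtain ⟨x', t', q₂, s', hx', hqs', hE', rfl⟩ := hq
      rw [hpr x t q₁ s hx hqs, hpr x' t' q₂ s' hx' hqs', Projectivization.mk_eq_mk_iff'] at h
      obtain ⟨a, ha⟩ := h
      have hmem := elU_sep t t' a ha.symm
      have hU : elU t = elU t' := by
        have := el_period (t - t') hmem t'
        rwa [add_sub_cancel] at this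
      have hG : elG t = elG t' := by
        have := elG_period (t - t') hmem t'
        rwa [add_sub_cancel] at this
      have h1 := hch x t q₁ s hx hqs hE
      have h2 := hsymm _ _ (hch x' t' q₂ s' hx' hqs' hE')
      have h3 : (Projectivization.mk ℂ (Zv ![0, 0, 1] (elU t) (elG t) ![1, 0, 0] 0)
          (Zv_ne base_aux'.1 (elU_ne t) (elG_ne t) (Or.inl base_aux'.2)) : ℙ ℂ (Idx → ℂ)) =
          Projectivization.mk ℂ (Zv ![0, 0, 1] (elU t') (elG t') ![1, 0, 0] 0)
          (Zv_ne base_aux'.1 (elU_ne t') (elG_ne t') (Or.inl base_aux'.2)) := by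
        rw [Projectivization.mk_eq_mk_iff']
        exact ⟨1, by rw [hU, hG, one_smul]⟩
      rw [h3] at h1
      exact Relation.ReflTransGen.trans h1 h2
  · intro f hf hfY
    exact hconst f hfY (holoOn_of_morphism f hf).1 (holoOn_of_morphism f hf).2

/-- the base point over `t` -/
noncomputable def D9_basePt_22292 (t : ℂ) : ℙ ℂ (Idx → ℂ) :=
  Projectivization.mk ℂ (Zv ![0, 0, 1] (elU t) (elG t) ![1, 0, 0] 0)
    (Zv_ne base_aux'.1 (elU_ne t) (elG_ne t) (Or.inl base_aux'.2))

theorem D9_basePt_mem_22292 (t : ℂ) : D9_basePt_22292 t ∈ XX := by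
  refine ⟨![0, 0, 1], t, ![1, 0, 0], 0, base_aux'.1, Or.inl base_aux'.2, ?_, rfl⟩
  unfold Eqn
  simp [Fin.sum_univ_three]

theorem D9_basePt_cont_22292 (hF : ∀ w : ℂ, Nonempty (Frame w))
    (hc : Continuous
      (fun z : {z : Idx → ℂ // z ≠ 0} => (Projectivization.mk ℂ z.1 z.2 : ℙ ℂ (Idx → ℂ)))) :
    Continuous D9_basePt_22292 := by
  rw [continuous_iff_continuousAt]
  intro t₀
  obtain ⟨fr⟩ := hF t₀
  have hon : ContinuousOn D9_basePt_22292 (Metric.ball t₀ fr.r) := by
    rw [continuousOn_iff_continuous_restrict]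
    have hUne : ∀ t ∈ Metric.ball t₀ fr.r, fr.U t ≠ 0 := by
      intro t ht h
      exact fr.U_ne t ht (congrFun h _)
    have hGne : ∀ t ∈ Metric.ball t₀ fr.r, fr.G t ≠ 0 := by
      intro t ht h
      exact fr.G_ne t ht (congrFun h _)
    let F : Metric.ball t₀ fr.r → {z : Idx → ℂ // z ≠ 0} := fun t =>
      ⟨Zv ![0, 0, 1] (fr.U t) (fr.G t) ![1, 0, 0] 0,
        Zv_ne base_aux'.1 (hUne t t.2) (hGne t t.2) (Or.inl base_aux'.2)⟩
    have hUc : Continuous (fun t : Metric.ball t₀ fr.r => fr.U t) :=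
      continuousOn_iff_continuous_restrict.1 fr.dU.continuousOn
    have hGc : Continuous (fun t : Metric.ball t₀ fr.r => fr.G t) :=
      continuousOn_iff_continuous_restrict.1 fr.dG.continuousOn
    have hFc : Continuous F := by
      apply Continuous.subtype_mk
      apply continuous_pi
      rintro ⟨a, b, il | il⟩
      · show Continuous (fun t : Metric.ball t₀ fr.r => (![0, 0, 1] : Fin 3 → ℂ) a * fr.U t b *
          ((![0, 0, 1] : Fin 3 → ℂ) il.1 ^ 3 * 0 * fr.U t il.2))
        have h1 : Continuous (fun t : Metric.ball t₀ fr.r => fr.U t b) :=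
          (continuous_apply b).comp hUc
        have h2 : Continuous (fun t : Metric.ball t₀ fr.r => fr.U t il.2) :=
          (continuous_apply il.2).comp hUc
        exact (continuous_const.mul h1).mul (continuous_const.mul h2)
      · show Continuous (fun t : Metric.ball t₀ fr.r => (![0, 0, 1] : Fin 3 → ℂ) a * fr.U t b *
          ((![1, 0, 0] : Fin 3 → ℂ) il.1 * fr.G t il.2))
        have h1 : Continuous (fun t : Metric.ball t₀ fr.r => fr.U t b) :=
          (continuous_apply b).comp hUc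
        have h2 : Continuous (fun t : Metric.ball t₀ fr.r => fr.G t il.2) :=
          (continuous_apply il.2).comp hGc
        exact (continuous_const.mul h1).mul (continuous_const.mul h2)
    have hEq : (Metric.ball t₀ fr.r).domRestrict D9_basePt_22292 =
        (fun z : {z : Idx → ℂ // z ≠ 0} => (Projectivization.mk ℂ z.1 z.2 : ℙ ℂ (Idx → ℂ))) ∘ F := by
      funext t
      show D9_basePt_22292 t = Projectivization.mk ℂ (F t).1 (F t).2
      unfold D9_basePt_22292
      rw [eq_comm, Projectivization.mk_eq_mk_iff']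
      refine ⟨fr.c t ^ 5, ?_⟩
      show fr.c t ^ 5 • Zv ![0, 0, 1] (elU t) (elG t) ![1, 0, 0] 0 =
        Zv ![0, 0, 1] (fr.U t) (fr.G t) ![1, 0, 0] 0
      rw [fr.U_eq t t.2, fr.G_eq t t.2]
      funext p
      rcases p with ⟨a, b, il | il⟩
      · simp [Zv]
      · simp only [Zv, Sum.elim_inr, Pi.smul_apply, smul_eq_mul]
        ring
    rw [hEq]
    exact hc.comp hFc
  exact hon.continuousAt (Metric.ball_mem_nhds t₀ fr.r_pos)

theorem D9_range_preconn_22292
    (hc : Continuous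
      (fun z : {z : Idx → ℂ // z ≠ 0} => (Projectivization.mk ℂ z.1 z.2 : ℙ ℂ (Idx → ℂ))))
    (f : ℙ ℂ (Fin 2 → ℂ) → ℙ ℂ (Idx → ℂ)) (hf : IsMorphismP1 f) :
    IsPreconnected (Set.range f) := by
  obtain ⟨n, P, -, hP⟩ := hf
  have hconn : IsConnected ({0}ᶜ : Set (Fin 2 → ℂ)) := by
    apply isConnected_compl_singleton_of_one_lt_rank
    have h1 : Module.rank ℝ (Fin 2 → ℂ) = 4 := by
      rw [rank_pi]
      simp [Complex.rank_real_complex]
      norm_num
    rw [h1]
    norm_num
  haveI : PreconnectedSpace {w : Fin 2 → ℂ // w ≠ 0} :=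
    isPreconnected_iff_preconnectedSpace.1 hconn.isPreconnected
  have hne : ∀ w : {w : Fin 2 → ℂ // w ≠ 0}, (fun i => MvPolynomial.eval w.1 (P i)) ≠ 0 :=
    fun w => (hP w.1 w.2).choose
  have hcont : Continuous (fun w : {w : Fin 2 → ℂ // w ≠ 0} =>
      (⟨fun i => MvPolynomial.eval w.1 (P i), hne w⟩ : {z : Idx → ℂ // z ≠ 0})) := by
    apply Continuous.subtype_mk
    apply continuous_pi
    intro i
    exact (MvPolynomial.continuous_eval (P i)).comp continuous_subtype_val
  have h2 := hc.comp hcont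
  have h3 : Set.range f = Set.range ((fun z : {z : Idx → ℂ // z ≠ 0} =>
      (Projectivization.mk ℂ z.1 z.2 : ℙ ℂ (Idx → ℂ))) ∘ (fun w : {w : Fin 2 → ℂ // w ≠ 0} =>
      (⟨fun i => MvPolynomial.eval w.1 (P i), hne w⟩ : {z : Idx → ℂ // z ≠ 0}))) := by
    ext y
    constructor
    · rintro ⟨x, rfl⟩
      induction x using Projectivization.ind with
      | h w hw =>
        refine ⟨⟨w, hw⟩, ?_⟩
        obtain ⟨h, e⟩ := hP w hw
        exact e.symm
    · rintro ⟨w, rfl⟩
      refine ⟨Projectivization.mk ℂ w.1 w.2, ?_⟩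
      obtain ⟨h, e⟩ := hP w.1 w.2
      exact e
  rw [h3]
  exact isPreconnected_range h2

theorem D9_chain_preconn_22292
    (hc : Continuous
      (fun z : {z : Idx → ℂ // z ≠ 0} => (Projectivization.mk ℂ z.1 z.2 : ℙ ℂ (Idx → ℂ))))
    {p q : ℙ ℂ (Idx → ℂ)} (hp : p ∈ XX) (h : RationallyChainConnected XX p q) :
    ∃ s ⊆ XX, IsPreconnected s ∧ p ∈ s ∧ q ∈ s := by
  induction h with
  | refl => exact ⟨{p}, by simpa using hp, isPreconnected_singleton, rfl, rfl⟩
  | tail _ hbc ih =>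
    obtain ⟨s, hsX, hs, hps, hbs⟩ := ih
    obtain ⟨f, hf, hfX, hb, hcc⟩ := hbc
    refine ⟨s ∪ Set.range f, Set.union_subset hsX ?_, ?_, Or.inl hps, Or.inr hcc⟩
    · rintro _ ⟨x, rfl⟩
      exact hfX x
    · exact IsPreconnected.union _ hbs hb hs (D9_range_preconn_22292 hc f hf)

theorem XX_connected (hF : ∀ w : ℂ, Nonempty (Frame w))
    (hc : Continuous
      (fun z : {z : Idx → ℂ // z ≠ 0} => (Projectivization.mk ℂ z.1 z.2 : ℙ ℂ (Idx → ℂ))))
    (hc2 : Continuous
      (fun z : {z : Fin 2 → ℂ // z ≠ 0} => (Projectivization.mk ℂ z.1 z.2 : ℙ ℂ (Fin 2 → ℂ))))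
    (hch : ∀ (x : Fin 3 → ℂ) (t : ℂ) (q : Fin 3 → ℂ) (s : ℂ) (hx : x ≠ 0)
      (hqs : q ≠ 0 ∨ s ≠ 0), Eqn x q (elsg t) s → RationallyChainConnected XX
      (Projectivization.mk ℂ (Zv x (elU t) (elG t) q s) (Zv_ne hx (elU_ne t) (elG_ne t) hqs))
      (Projectivization.mk ℂ (Zv ![0, 0, 1] (elU t) (elG t) ![1, 0, 0] 0)
        (Zv_ne base_aux'.1 (elU_ne t) (elG_ne t) (Or.inl base_aux'.2)))) :
    IsConnected XX := by
  refine ⟨⟨D9_basePt_22292 0, D9_basePt_mem_22292 0⟩, ?_⟩
  have hB : IsPreconnected (Set.range D9_basePt_22292) :=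
    isPreconnected_range (D9_basePt_cont_22292 hF hc)
  apply isPreconnected_of_forall (D9_basePt_22292 0)
  intro p hp
  obtain ⟨x, t, q, s, hx, hqs, hE, hpe⟩ := id hp
  have h1 : RationallyChainConnected XX p (D9_basePt_22292 t) := by
    rw [hpe]
    exact hch x t q s hx hqs hE
  obtain ⟨S, hSX, hS, hpS, htS⟩ := D9_chain_preconn_22292 hc hp h1
  refine ⟨S ∪ Set.range D9_basePt_22292, Set.union_subset hSX ?_, Or.inr ⟨0, rfl⟩, Or.inl hpS, ?_⟩
  · rintro _ ⟨t', rfl⟩
    exact D9_basePt_mem_22292 t'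
  · exact IsPreconnected.union _ htS ⟨t, rfl⟩ hS hB

end Pool.Agent.Helper922.MR
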