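import Pool.Agent.Helper922.MR.Asm1
import Pool.Agent.Helper922.MR.D7
import Pool.Agent.Helper922.MR.D8
import Pool.Agent.Helper922.MR.D9

/-! Assembly: MRC fibration and connectedness. -/

open scoped LinearAlgebra.Projectivization

namespace Pool.Agent.Helper922.MR

theorem XX_MRC : IsMRCFibration XX YY pr :=
  pr_isMRC (fun f hf h1 h2 => const_of_holo frame f hf h1 h2) pr_holomorphic pr_image
    (fun x t q s hx hqs => pr_mk x t q s hx hqs)
    (fun x t q s hx hqs hE => chain_to_base x t q s hx hqs hE)
    (fun p q h => onRationalCurve_symm XX p q h)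

theorem XX_smooth : IsSmoothProjectiveVariety 5 XX :=
  ⟨XX_submanifold, XX_connected frame continuous_mk continuous_mk
    (fun x t q s hx hqs hE => chain_to_base x t q s hx hqs hE)⟩

end Pool.Agent.Helper922.MR
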