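import Mathlib

/-! Directional derivatives of holomorphic functions of several variables are holomorphic. -/

namespace Pool.Agent.Helper922.MR

open Metric MeasureTheory intervalIntegral Complex in
theorem T0_differentiableOn_fderiv_dir_est {n : ℕ} {f : (Fin n → ℂ) → ℂ} {y : Fin n → ℂ} {ρ M : ℝ}
    (hρ : 0 < ρ) (hf : ∀ x ∈ closedBall y ρ, DifferentiableAt ℂ f x)
    (hM : ∀ x ∈ closedBall y ρ, ‖f x‖ ≤ M) : ‖fderiv ℂ f y‖ ≤ M / ρ := by
  have hM0 : 0 ≤ M := (norm_nonneg _).trans (hM y (mem_closedBall_self hρ.le))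
  refine ContinuousLinearMap.opNorm_le_bound _ (div_nonneg hM0 hρ.le) fun v => ?_
  rcases eq_or_ne v 0 with rfl | hv
  · simp
  have hv' : 0 < ‖v‖ := norm_pos_iff.2 hv
  have hr : 0 < ρ / ‖v‖ := div_pos hρ hv'
  have hmem : ∀ s ∈ closedBall (0:ℂ) (ρ / ‖v‖), y + s • v ∈ closedBall y ρ := by
    intro s hs
    rw [mem_closedBall, dist_eq_norm, add_sub_cancel_left, norm_smul]
    rw [mem_closedBall_zero_iff] at hs
    calc ‖s‖ * ‖v‖ ≤ ρ / ‖v‖ * ‖v‖ := mul_le_mul_of_nonneg_right hs hv'.le
      _ = ρ := div_mul_cancel₀ _ hv'.ne'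
  have hgd : ∀ s ∈ closedBall (0:ℂ) (ρ / ‖v‖),
      HasDerivAt (fun s : ℂ => f (y + s • v)) (fderiv ℂ f (y + s • v) v) s := by
    intro s hs
    have h1 := (hf _ (hmem s hs)).hasFDerivAt
    have h2 : HasDerivAt (fun s : ℂ => y + s • v) v s := by
      simpa using ((hasDerivAt_id s).smul_const v).const_add y
    exact h1.comp_hasDerivAt s h2
  have hg0 : deriv (fun s : ℂ => f (y + s • v)) 0 = fderiv ℂ f y v := by
    have h1 := (hgd 0 (mem_closedBall_self hr.le)).deriv
    rw [h1, zero_smul, add_zero]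
  have hcl : DiffContOnCl ℂ (fun s : ℂ => f (y + s • v)) (ball 0 (ρ / ‖v‖)) := by
    refine DifferentiableOn.diffContOnCl ?_
    intro s hs
    exact (hgd s (closure_ball_subset_closedBall hs)).differentiableAt.differentiableWithinAt
  have h3 := norm_deriv_le_of_forall_mem_sphere_norm_le hr hcl
    (C := M) (fun s hs => hM _ (hmem s (sphere_subset_closedBall hs)))
  rw [hg0] at h3
  calc ‖fderiv ℂ f y v‖ ≤ M / (ρ / ‖v‖) := h3
    _ = M / ρ * ‖v‖ := by field_simp

theorem differentiableOn_fderiv_dir {n : ℕ} {f : (Fin n → ℂ) → ℂ} {Ω : Set (Fin n → ℂ)}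
    (hΩ : IsOpen Ω) (hf : DifferentiableOn ℂ f Ω) (e : Fin n → ℂ) :
    DifferentiableOn ℂ (fun x => fderiv ℂ f x e) Ω := by
  classical
  intro x0 hx0
  obtain ⟨R, hR, hRΩ⟩ := Metric.nhds_basis_closedBall.mem_iff.1 (hΩ.mem_nhds hx0)
  have hfc : ContinuousOn f (Metric.closedBall x0 R) := hf.continuousOn.mono hRΩ
  obtain ⟨M, hM⟩ := (isCompact_closedBall x0 R).exists_bound_of_continuousOn hfc
  have hd : ∀ x ∈ Metric.closedBall x0 R, DifferentiableAt ℂ f x := fun x hx =>
    hf.differentiableAt (hΩ.mem_nhds (hRΩ hx))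
  set r := R / (3 * (‖e‖ + 1)) with hr
  have hr0 : 0 < r := by positivity
  have hre : r * ‖e‖ ≤ R / 3 := by
    rw [hr, div_mul_eq_mul_div, div_le_div_iff₀ (by positivity) (by norm_num)]
    nlinarith [norm_nonneg e]
  have hmem : ∀ x ∈ Metric.ball x0 (R / 3), ∀ z : ℂ, ‖z‖ ≤ r →
      x + z • e ∈ Metric.closedBall x0 (2 * R / 3) := by
    intro x hx z hz
    rw [Metric.mem_closedBall, dist_eq_norm]
    rw [Metric.mem_ball, dist_eq_norm] at hx
    calc ‖x + z • e - x0‖ = ‖(x - x0) + z • e‖ := by congr 1; abel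
      _ ≤ ‖x - x0‖ + ‖z • e‖ := norm_add_le _ _
      _ ≤ R / 3 + r * ‖e‖ := by
          rw [norm_smul]
          exact add_le_add hx.le (mul_le_mul_of_nonneg_right hz (norm_nonneg _))
      _ ≤ 2 * R / 3 := by linarith
  have hball : ∀ y ∈ Metric.closedBall x0 (2 * R / 3),
      Metric.closedBall y (R / 3) ⊆ Metric.closedBall x0 R := by
    intro y hy
    apply Metric.closedBall_subset_closedBall'
    rw [Metric.mem_closedBall] at hy
    linarith
  have hest : ∀ y ∈ Metric.closedBall x0 (2 * R / 3), ‖fderiv ℂ f y‖ ≤ M / (R / 3) :=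
    fun y hy => T0_differentiableOn_fderiv_dir_est (by positivity)
      (fun x hx => hd x (hball y hy hx)) (fun x hx => hM x (hball y hy hx))
  have hsub : Metric.closedBall x0 (2 * R / 3) ⊆ Metric.closedBall x0 R :=
    Metric.closedBall_subset_closedBall (by linarith)
  have hcn : ∀ θ : ℝ, ‖circleMap 0 r θ‖ ≤ r := by
    intro θ
    rw [norm_circleMap_zero, abs_of_pos hr0]
  set k : ℝ → ℂ := fun θ => deriv (circleMap 0 r) θ * (1 / (circleMap 0 r θ - 0) ^ 2) with hk
  have hkn : ∀ θ, ‖k θ‖ ≤ 1 / r := by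
    intro θ
    rw [hk]
    simp only [deriv_circleMap, norm_mul, norm_div, norm_one, norm_pow, sub_zero, Complex.norm_I,
      norm_circleMap_zero, abs_of_pos hr0]
    apply le_of_eq
    field_simp
  have hkc : Continuous k := by
    rw [hk]
    simp only [deriv_circleMap, sub_zero]
    refine ((continuous_circleMap 0 r).mul continuous_const).mul ?_
    refine continuous_const.div ((continuous_circleMap 0 r).pow 2) ?_
    intro θ
    exact pow_ne_zero 2 (circleMap_ne_center hr0.ne')
  -- Cauchy formula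
  have hform : ∀ x ∈ Metric.ball x0 (R / 3), fderiv ℂ f x e =
      (2 * Real.pi * Complex.I : ℂ)⁻¹ • ∫ θ in (0:ℝ)..2 * Real.pi,
        k θ • f (x + circleMap 0 r θ • e) := by
    intro x hx
    have hgd : ∀ z ∈ Metric.closedBall (0:ℂ) r,
        HasDerivAt (fun z : ℂ => f (x + z • e)) (fderiv ℂ f (x + z • e) e) z := by
      intro z hz
      rw [mem_closedBall_zero_iff] at hz
      have h1 := (hd _ (hsub (hmem x hx z hz))).hasFDerivAt
      have h2 : HasDerivAt (fun z : ℂ => x + z • e) e z := by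
        simpa using ((hasDerivAt_id z).smul_const e).const_add x
      exact h1.comp_hasDerivAt z h2
    have h1 : DifferentiableOn ℂ (fun z : ℂ => f (x + z • e)) (Metric.closedBall 0 r) :=
      fun z hz => (hgd z hz).differentiableAt.differentiableWithinAt
    have h2 : deriv (fun z : ℂ => f (x + z • e)) 0 = fderiv ℂ f x e := by
      rw [(hgd 0 (Metric.mem_closedBall_self hr0.le)).deriv, zero_smul, add_zero]
    have h3 := h1.deriv_eq_smul_circleIntegral hr0
    rw [h2] at h3
    have h4 : (2 * Real.pi * Complex.I : ℂ) ≠ 0 := Complex.two_pi_I_ne_zero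
    rw [eq_inv_smul_iff₀ h4, ← h3]
    unfold circleIntegral
    simp only [hk, smul_eq_mul, mul_assoc]
  have hcont : ∀ x ∈ Metric.ball x0 (R / 3),
      Continuous (fun θ : ℝ => k θ • f (x + circleMap 0 r θ • e)) := by
    intro x hx
    refine hkc.smul (hfc.comp_continuous ?_ fun θ => hsub (hmem x hx _ (hcn θ)))
    exact continuous_const.add ((continuous_circleMap 0 r).smul continuous_const)
  have hx0b : x0 ∈ Metric.ball x0 (R / 3) := Metric.mem_ball_self (by positivity)
  have hnb : Metric.ball x0 (R / 3) ∈ nhds x0 := Metric.ball_mem_nhds x0 (by positivity)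
  have hint : HasFDerivAt (fun x => ∫ θ in (0:ℝ)..2 * Real.pi, k θ • f (x + circleMap 0 r θ • e))
      (∫ θ in (0:ℝ)..2 * Real.pi, k θ • fderiv ℂ f (x0 + circleMap 0 r θ • e)) x0 := by
    refine intervalIntegral.hasFDerivAt_integral_of_dominated_of_fderiv_le
      (F := fun x θ => k θ • f (x + circleMap 0 r θ • e))
      (F' := fun x θ => k θ • fderiv ℂ f (x + circleMap 0 r θ • e))
      (bound := fun _ => 1 / r * (M / (R / 3))) hnb ?_ ?_ ?_ ?_ ?_ ?_
    · filter_upwards [hnb] with x hx
      exact (hcont x hx).aestronglyMeasurable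
    · exact (hcont x0 hx0b).intervalIntegrable _ _
    · haveI : ProperSpace ((Fin n → ℂ) →L[ℂ] ℂ) := FiniteDimensional.proper ℂ _
      haveI : SecondCountableTopology ((Fin n → ℂ) →L[ℂ] ℂ) := secondCountable_of_proper
      have h1 : Measurable (fun θ : ℝ => fderiv ℂ f (x0 + circleMap 0 r θ • e)) :=
        (measurable_fderiv ℂ f).comp
          (continuous_const.add ((continuous_circleMap 0 r).smul continuous_const)).measurable
      exact (hkc.measurable.smul h1).aestronglyMeasurable
    · filter_upwards with θ _ x hx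
      rw [norm_smul]
      exact mul_le_mul (hkn θ) (hest _ (hmem x hx _ (hcn θ))) (norm_nonneg _) (by positivity)
    · exact intervalIntegrable_const
    · filter_upwards with θ _ x hx
      have h1 := (hd _ (hsub (hmem x hx _ (hcn θ)))).hasFDerivAt
      have h2 : HasFDerivAt (fun x : Fin n → ℂ => x + circleMap 0 r θ • e)
          (ContinuousLinearMap.id ℂ (Fin n → ℂ)) x := (hasFDerivAt_id x).add_const _
      have h3 := h1.comp x h2
      rw [ContinuousLinearMap.comp_id] at h3
      exact h3.const_smul (k θ)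
  have h5 : DifferentiableAt ℂ (fun x => fderiv ℂ f x e) x0 := by
    have h6 := (hint.const_smul ((2 * Real.pi * Complex.I : ℂ)⁻¹)).differentiableAt
    refine h6.congr_of_eventuallyEq ?_
    filter_upwards [hnb] with x hx
    exact hform x hx
  exact h5.differentiableWithinAt

end Pool.Agent.Helper922.MR
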