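import Pool.Agent.Helper922.MR.Model2

/-! Relations on the cone over `XX`. -/

open scoped LinearAlgebra.Projectivization Topology

namespace Pool.Agent.Helper922.MR

theorem exists_rep (hpr : ∀ (x : Fin 3 → ℂ) (t : ℂ) (q : Fin 3 → ℂ) (s : ℂ) (hx : x ≠ 0)
      (hqs : q ≠ 0 ∨ s ≠ 0), pr (Projectivization.mk ℂ (Zv x (elU t) (elG t) q s)
      (Zv_ne hx (elU_ne t) (elG_ne t) hqs)) = Projectivization.mk ℂ (elU t) (elU_ne t))
    (z : Idx → ℂ) (hz : z ≠ 0) (hX : Projectivization.mk ℂ z hz ∈ XX) (t : ℂ)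
    (ht : pr (Projectivization.mk ℂ z hz) = Projectivization.mk ℂ (elU t) (elU_ne t)) :
    ∃ (x q : Fin 3 → ℂ) (s : ℂ), x ≠ 0 ∧ (q ≠ 0 ∨ s ≠ 0) ∧ Eqn x q (elsg t) s ∧
      z = Zv x (elU t) (elG t) q s := by
  obtain ⟨x', t', q', s', hx', hqs', hE, hmk⟩ := hX
  have h1 : Projectivization.mk ℂ (elU t') (elU_ne t') =
      Projectivization.mk ℂ (elU t) (elU_ne t) := by
    rw [← ht, hmk, hpr x' t' q' s' hx' hqs']
  rw [Projectivization.mk_eq_mk_iff'] at hmk h1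
  obtain ⟨lam, hlam⟩ := hmk
  obtain ⟨b, hb⟩ := h1
  have hS : t' - t ∈ elS := elU_sep t' t b hb.symm
  have ht' : t + (t' - t) = t' := by ring
  have hU : elU t' = elU t := by rw [← el_period (t' - t) hS t, ht']
  have hG : elG t' = elG t := by rw [← elG_period (t' - t) hS t, ht']
  have hsg : elsg t' = elsg t := by rw [← elsg_period (t' - t) hS t, ht']
  rw [hU, hG] at hlam
  rw [hsg] at hE
  have hlam0 : lam ≠ 0 := by
    rintro rfl
    rw [zero_smul] at hlam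
    exact hz hlam.symm
  refine ⟨x', lam • q', lam * s', hx', ?_, ?_, ?_⟩
  · rcases hqs' with h | h
    · exact Or.inl (smul_ne_zero hlam0 h)
    · exact Or.inr (mul_ne_zero hlam0 h)
  · unfold Eqn at hE ⊢
    rw [Fin.sum_univ_three] at hE ⊢
    simp only [Pi.smul_apply, smul_eq_mul]
    linear_combination lam * hE
  · rw [← hlam]
    funext p
    rcases p with ⟨a, b', c | c⟩
    · simp only [Zv, Pi.smul_apply, smul_eq_mul, Sum.elim_inl]
      ring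
    · simp only [Zv, Pi.smul_apply, smul_eq_mul, Sum.elim_inr]
      ring

theorem cone_rel1 (x q : Fin 3 → ℂ) (t s : ℂ) (z : Idx → ℂ)
    (hz : z = Zv x (elU t) (elG t) q s) (a a' j i : Fin 3) :
    z (a', 2, Sum.inl (j, 2)) * z (a, 2, Sum.inr (i, 1)) =
      z (a, 2, Sum.inl (j, 2)) * z (a', 2, Sum.inr (i, 1)) := by
  subst hz
  simp only [Zv, Sum.elim_inl, Sum.elim_inr]
  ring

theorem cone_rel2 (x q : Fin 3 → ℂ) (t s : ℂ) (z : Idx → ℂ)
    (hz : z = Zv x (elU t) (elG t) q s) (hE : Eqn x q (elsg t) s) :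
    z (0, 2, Sum.inl (0, 2)) ^ 2 * (∑ i, z (0, 2, Sum.inl (i, 2)) * z (0, 2, Sum.inr (i, 1))) *
      elU t 2 = -(elU t 1 * z (1, 2, Sum.inl (0, 2)) ^ 2 * z (2, 2, Sum.inl (0, 2)) ^ 2) := by
  subst hz
  unfold Eqn at hE
  rw [Fin.sum_univ_three] at hE ⊢
  simp only [Zv, Sum.elim_inl, Sum.elim_inr]
  have h1 := elU_one' t
  linear_combination (x 0 ^ 10 * s ^ 3 * elU t 2 ^ 8 * elG t 1) * hE +
    (x 1 ^ 2 * x 2 ^ 2 * x 0 ^ 12 * s ^ 4 * elU t 2 ^ 8) * h1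

theorem elV_facts : elV 0 0 1 = 0 ∧ elV 0 0 2 = -2 ∧ HasDerivAt (fun w => elV 0 w 1) 1 0 ∧
    ∃ r : ℝ, 0 < r ∧ DifferentiableOn ℂ (elV 0) (Metric.ball 0 r) ∧
      ∀ t ∈ Metric.ball (0 : ℂ) r, ∃ b : ℂ, b ≠ 0 ∧ elV 0 t = b • elU t := by
  classical
  refine ⟨by simp [elV], by simp [elV], ?_, ?_⟩
  · have h1 : HasDerivAt (elL.weierstrassPExcept 0) (deriv (elL.weierstrassPExcept 0) 0) 0 :=
      (elL.analyticAt_weierstrassPExcept 0).differentiableAt.hasDerivAt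
    show HasDerivAt (fun w : ℂ => (w - 0) ^ 3 * elL.weierstrassPExcept 0 w + (w - 0) -
      (w - 0) ^ 3 / 0 ^ 2) 1 0
    have a1 : HasDerivAt (fun w : ℂ => w - 0) 1 0 := (hasDerivAt_id (0 : ℂ)).sub_const 0
    have a2 := a1.pow 3
    have a3 := ((a2.mul h1).add a1).sub (a2.div_const ((0 : ℂ) ^ 2))
    refine a3.congr_deriv ?_
    simp
  · obtain ⟨r, hr, hball⟩ := Metric.mem_nhds_iff.mp
      (elL.compl_lattice_sdiff_singleton_mem_nhds 0)
    have hb : ∀ w ∈ Metric.ball (0 : ℂ) r, w ∈ elS → w = 0 := by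
      intro w hw hwS
      by_contra hne
      exact hball hw ⟨hwS, hne⟩
    refine ⟨r, hr, fun w hw => (el_V_diff 0 w (hb w hw)).differentiableWithinAt, ?_⟩
    intro t ht
    have h1 := el_local 0 el_zero_mem t (hb t ht)
    refine ⟨if t = 0 then (1 : ℂ) else (t - 0) ^ 3, ?_, h1.symm⟩
    split_ifs with h
    · exact one_ne_zero
    · exact pow_ne_zero _ (by rw [sub_zero]; exact h)

end Pool.Agent.Helper922.MR
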