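import Pool.Agent.Helper922.MR.Model2

/-! The first order deformation argument. -/

open scoped LinearAlgebra.Projectivization Topology

namespace Pool.Agent.Helper922.MR

/-- The first three coordinates. -/
def x3 (u : Fin 4 → ℂ) : Fin 3 → ℂ := fun i => u i.castSucc

theorem rep0_ne {x : Fin 3 → ℂ} (hx : x ≠ 0) : Zv x (elU 0) (elG 0) 0 1 ≠ 0 :=
  Zv_ne hx (elU_ne 0) (elG_ne 0) (Or.inr one_ne_zero)

/-- the inclusion `x ↦ (x, 0)` -/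
noncomputable def T1b_nfL : (Fin 3 → ℂ) →L[ℂ] (Fin 4 → ℂ) :=
  ContinuousLinearMap.pi (fun k => if h : k.1 < 3 then ContinuousLinearMap.proj ⟨k.1, h⟩ else 0)

/-- the last unit vector -/
def T1b_nfe : Fin 4 → ℂ := Pi.single 3 1

theorem T1b_nfL_cast (x : Fin 3 → ℂ) (i : Fin 3) : T1b_nfL x i.castSucc = x i := by
  have h : (i.castSucc : Fin 4).1 < 3 := i.2
  simp only [T1b_nfL, ContinuousLinearMap.coe_pi', dif_pos h, ContinuousLinearMap.proj_apply]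
  rfl

theorem T1b_nfL_three (x : Fin 3 → ℂ) : T1b_nfL x 3 = 0 := by
  have h : ¬ ((3 : Fin 4).1 < 3) := by decide
  simp only [T1b_nfL, ContinuousLinearMap.coe_pi', dif_neg h, zero_apply]

theorem T1b_nfe_cast (i : Fin 3) : T1b_nfe i.castSucc = 0 := by
  unfold T1b_nfe
  rw [Pi.single_eq_of_ne]
  intro h
  have := congrArg Fin.val h
  simp at this
  omega

theorem T1b_nfe_three : T1b_nfe 3 = 1 := by
  unfold T1b_nfe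
  simp

theorem T1b_x3_line (x : Fin 3 → ℂ) (s : ℂ) : x3 (T1b_nfL x + s • T1b_nfe) = x := by
  funext i
  simp only [x3, Pi.add_apply, Pi.smul_apply, T1b_nfL_cast, T1b_nfe_cast, smul_zero, add_zero]

theorem T1b_line_three (x : Fin 3 → ℂ) (s : ℂ) : (T1b_nfL x + s • T1b_nfe) 3 = s := by
  simp only [Pi.add_apply, Pi.smul_apply, T1b_nfL_three, T1b_nfe_three, smul_eq_mul, mul_one, zero_add]

theorem T1b_x3_nfL (x : Fin 3 → ℂ) : x3 (T1b_nfL x) = x := by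
  funext i
  exact T1b_nfL_cast x i

/-- local data: a lift near `(x, 0)` -/
structure T1b_NfD (Ξ : (Fin 4 → ℂ) → ℙ ℂ (Idx → ℂ)) (ε : ℝ) (x : Fin 3 → ℂ) (c : ℂ)
    (γ : (Fin 4 → ℂ) → Idx → ℂ) (N : Set (Fin 4 → ℂ)) : Prop where
  hN : IsOpen N
  mem : T1b_nfL x ∈ N
  sub : ∀ u ∈ N, x3 u ≠ 0 ∧ ‖u 3‖ < ε
  hc : c ≠ 0
  diff : DifferentiableOn ℂ γ N
  eq : ∀ u ∈ N, ∃ h : γ u ≠ 0, Ξ u = Projectivization.mk ℂ (γ u) h
  val : γ (T1b_nfL x) = c • Zv x (elU 0) (elG 0) 0 1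

theorem T1b_nfD_exists {ε : ℝ} (hε : 0 < ε) {Ξ : (Fin 4 → ℂ) → ℙ ℂ (Idx → ℂ)}
    (hΞ : HoloOn {u : Fin 4 → ℂ | x3 u ≠ 0 ∧ ‖u 3‖ < ε} Ξ)
    (h0 : ∀ (u : Fin 4 → ℂ) (hu : x3 u ≠ 0), u 3 = 0 →
      Ξ u = Projectivization.mk ℂ (Zv (x3 u) (elU 0) (elG 0) 0 1) (rep0_ne hu))
    {x : Fin 3 → ℂ} (hx : x ≠ 0) : ∃ c γ N, T1b_NfD Ξ ε x c γ N := by
  have hmem : T1b_nfL x ∈ {u : Fin 4 → ℂ | x3 u ≠ 0 ∧ ‖u 3‖ < ε} := by
    refine ⟨by rw [T1b_x3_nfL]; exact hx, ?_⟩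
    rw [T1b_nfL_three, norm_zero]; exact hε
  obtain ⟨N, hN, hm, γ, hγ, heq⟩ := hΞ _ hmem
  have hopen : IsOpen {u : Fin 4 → ℂ | x3 u ≠ 0 ∧ ‖u 3‖ < ε} := by
    have h1 : Continuous x3 := by unfold x3; fun_prop
    have h2 : Continuous (fun u : Fin 4 → ℂ => ‖u 3‖) := by fun_prop
    exact (isOpen_ne.preimage h1).inter (isOpen_lt h2 continuous_const)
  have hx3 : x3 (T1b_nfL x) ≠ 0 := by rw [T1b_x3_nfL]; exact hx
  obtain ⟨hne, he⟩ := heq _ hm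
  have h1 := h0 (T1b_nfL x) hx3 (T1b_nfL_three x)
  rw [he, Projectivization.mk_eq_mk_iff] at h1
  obtain ⟨b, hb⟩ := h1
  refine ⟨(b : ℂ), γ, N ∩ {u : Fin 4 → ℂ | x3 u ≠ 0 ∧ ‖u 3‖ < ε}, hN.inter hopen, ⟨hm, hmem⟩,
    fun u hu => hu.2, b.ne_zero, hγ.mono Set.inter_subset_left, fun u hu => heq u hu.1, ?_⟩
  rw [← hb, T1b_x3_nfL]
  rfl

/-- the ratio functions -/
noncomputable def T1b_nfR (Ξ : (Fin 4 → ℂ) → ℙ ℂ (Idx → ℂ)) (a i : Fin 3) (u : Fin 4 → ℂ) : ℂ :=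
  (Ξ u).rep (a, 2, Sum.inr (i, 1)) / (Ξ u).rep (a, 2, Sum.inl (a, 2))

theorem T1b_nfR_eq {Ξ : (Fin 4 → ℂ) → ℙ ℂ (Idx → ℂ)} {u : Fin 4 → ℂ} {z : Idx → ℂ} {hz : z ≠ 0}
    (h : Ξ u = Projectivization.mk ℂ z hz) (a i : Fin 3) :
    T1b_nfR Ξ a i u = z (a, 2, Sum.inr (i, 1)) / z (a, 2, Sum.inl (a, 2)) := by
  unfold T1b_nfR
  rw [h]
  obtain ⟨b, hb⟩ := Projectivization.exists_smul_eq_mk_rep ℂ z hz
  rw [← hb]
  simp only [Pi.smul_apply, Units.smul_def, smul_eq_mul]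
  exact mul_div_mul_left _ _ b.ne_zero

theorem T1b_nf_line {f : (Fin 4 → ℂ) → ℂ} {x : Fin 3 → ℂ} (hf : DifferentiableAt ℂ f (T1b_nfL x)) :
    HasDerivAt (fun s : ℂ => f (T1b_nfL x + s • T1b_nfe)) (fderiv ℂ f (T1b_nfL x) T1b_nfe) 0 := by
  have h1 : HasDerivAt (fun s : ℂ => T1b_nfL x + s • T1b_nfe) T1b_nfe 0 := by
    simpa using ((hasDerivAt_id (0 : ℂ)).smul_const T1b_nfe).const_add (T1b_nfL x)
  have h2 : HasFDerivAt f (fderiv ℂ f (T1b_nfL x)) (T1b_nfL x + (0 : ℂ) • T1b_nfe) := by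
    simpa using hf.hasFDerivAt
  exact h2.comp_hasDerivAt (0 : ℂ) h1

theorem T1b_nf_mul {f g : ℂ → ℂ} {f' g' : ℂ} (hf : HasDerivAt f f' 0) (hg : HasDerivAt g g' 0)
    (h : f 0 = 0) : HasDerivAt (fun s => f s * g s) (f' * g 0) 0 := by
  have h1 := hf.mul hg
  rw [h, zero_mul, add_zero] at h1
  exact h1

theorem T1b_nf_ev {x : Fin 3 → ℂ} {N : Set (Fin 4 → ℂ)} (hN : IsOpen N) (hm : T1b_nfL x ∈ N) :
    ∀ᶠ s : ℂ in 𝓝 0, T1b_nfL x + s • T1b_nfe ∈ N := by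
  have h1 : Continuous (fun s : ℂ => T1b_nfL x + s • T1b_nfe) := by fun_prop
  apply h1.continuousAt.eventually_mem
  rw [zero_smul, add_zero]
  exact hN.mem_nhds hm

section

variable {Ξ : (Fin 4 → ℂ) → ℙ ℂ (Idx → ℂ)} {ε : ℝ} {x : Fin 3 → ℂ} {c : ℂ}
  {γ : (Fin 4 → ℂ) → Idx → ℂ} {N : Set (Fin 4 → ℂ)}

theorem T1b_NfD.dA (D : T1b_NfD Ξ ε x c γ N) (p : Idx) : DifferentiableOn ℂ (fun u => γ u p) N :=
  differentiableOn_pi.1 D.diff p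

theorem T1b_NfD.at (D : T1b_NfD Ξ ε x c γ N) (p : Idx) : DifferentiableAt ℂ (fun u => γ u p) (T1b_nfL x) :=
  (D.dA p).differentiableAt (D.hN.mem_nhds D.mem)

theorem T1b_NfD.A (D : T1b_NfD Ξ ε x c γ N) (a j : Fin 3) :
    γ (T1b_nfL x) (a, 2, Sum.inl (j, 2)) = 4 * c * x a * x j ^ 3 := by
  rw [D.val]
  simp only [Pi.smul_apply, Zv, Sum.elim_inl, elU_mem el_zero_mem, smul_eq_mul]
  simp
  ring

theorem T1b_NfD.B (D : T1b_NfD Ξ ε x c γ N) (a i : Fin 3) :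
    γ (T1b_nfL x) (a, 2, Sum.inr (i, 1)) = 0 := by
  rw [D.val]
  simp [Zv]

theorem T1b_NfD.R (D : T1b_NfD Ξ ε x c γ N) (a i : Fin 3) (u : Fin 4 → ℂ) (hu : u ∈ N) :
    T1b_nfR Ξ a i u = γ u (a, 2, Sum.inr (i, 1)) / γ u (a, 2, Sum.inl (a, 2)) := by
  obtain ⟨h, he⟩ := D.eq u hu
  exact T1b_nfR_eq he a i

/-- derivative of the coordinate `B_{ai}` -/
noncomputable def T1b_nfB (γ : (Fin 4 → ℂ) → Idx → ℂ) (x : Fin 3 → ℂ) (a i : Fin 3) : ℂ :=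
  fderiv ℂ (fun u => γ u (a, 2, Sum.inr (i, 1))) (T1b_nfL x) T1b_nfe

theorem T1b_NfD.Aa (D : T1b_NfD Ξ ε x c γ N) (a : Fin 3) (ha : x a ≠ 0) :
    γ (T1b_nfL x) (a, 2, Sum.inl (a, 2)) ≠ 0 := by
  rw [D.A]
  exact mul_ne_zero (mul_ne_zero (mul_ne_zero (by norm_num : (4 : ℂ) ≠ 0) D.hc) ha) (pow_ne_zero 3 ha)

theorem T1b_NfD.Rdiff (D : T1b_NfD Ξ ε x c γ N) (a i : Fin 3) (ha : x a ≠ 0) :
    ∃ N' : Set (Fin 4 → ℂ), IsOpen N' ∧ T1b_nfL x ∈ N' ∧ DifferentiableOn ℂ (T1b_nfR Ξ a i) N' := by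
  refine ⟨N ∩ (fun u => γ u (a, 2, Sum.inl (a, 2))) ⁻¹' {0}ᶜ, ?_, ⟨D.mem, D.Aa a ha⟩, ?_⟩
  · exact (D.dA _).continuousOn.isOpen_inter_preimage D.hN isOpen_compl_singleton
  · have h1 : DifferentiableOn ℂ (fun u => γ u (a, 2, Sum.inr (i, 1)) / γ u (a, 2, Sum.inl (a, 2)))
        (N ∩ (fun u => γ u (a, 2, Sum.inl (a, 2))) ⁻¹' {0}ᶜ) := by
      simp only [div_eq_mul_inv]
      exact ((D.dA (a, 2, Sum.inr (i, 1))).mono Set.inter_subset_left).fun_mul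
        (((D.dA (a, 2, Sum.inl (a, 2))).mono Set.inter_subset_left).fun_inv
          (fun u hu => hu.2))
    exact h1.congr (fun u hu => D.R a i u hu.1)

theorem T1b_NfD.h (D : T1b_NfD Ξ ε x c γ N) (a i : Fin 3) (ha : x a ≠ 0) :
    4 * x a ^ 3 * fderiv ℂ (T1b_nfR Ξ a i) (T1b_nfL x) T1b_nfe = T1b_nfB γ x a i / (c * x a) := by
  obtain ⟨N', hN', hm', hd'⟩ := D.Rdiff a i ha
  have h1 := T1b_nf_line (hd'.differentiableAt (hN'.mem_nhds hm'))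
  have h2 := T1b_nf_line (D.at (a, 2, Sum.inr (i, 1)))
  have h3 := T1b_nf_line (D.at (a, 2, Sum.inl (a, 2)))
  have h4 := T1b_nf_mul h1 h3 (by
    rw [zero_smul, add_zero, D.R a i _ D.mem, D.B, zero_div])
  have hA0 : ∀ᶠ s : ℂ in 𝓝 0, γ (T1b_nfL x + s • T1b_nfe) (a, 2, Sum.inl (a, 2)) ≠ 0 := by
    apply h3.continuousAt.eventually_ne
    rw [zero_smul, add_zero]
    exact D.Aa a ha
  have h5 : (fun s : ℂ => γ (T1b_nfL x + s • T1b_nfe) (a, 2, Sum.inr (i, 1))) =ᶠ[𝓝 0]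
      (fun s : ℂ => T1b_nfR Ξ a i (T1b_nfL x + s • T1b_nfe) * γ (T1b_nfL x + s • T1b_nfe) (a, 2, Sum.inl (a, 2))) := by
    filter_upwards [T1b_nf_ev D.hN D.mem, hA0] with s hs hs2
    rw [D.R a i _ hs, div_mul_cancel₀ _ hs2]
  have h6 := (h4.congr_of_eventuallyEq h5).unique h2
  rw [zero_smul, add_zero, D.A] at h6
  unfold T1b_nfB
  rw [← h6]
  have := D.hc
  field_simp

theorem T1b_NfD.rel1 (D : T1b_NfD Ξ ε x c γ N)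
    (hrel : ∀ u : Fin 4 → ℂ, x3 u ≠ 0 → ‖u 3‖ < ε → ∀ (z : Idx → ℂ) (hz : z ≠ 0),
      Ξ u = Projectivization.mk ℂ z hz →
      (∀ a a' j i : Fin 3, z (a', 2, Sum.inl (j, 2)) * z (a, 2, Sum.inr (i, 1)) =
        z (a, 2, Sum.inl (j, 2)) * z (a', 2, Sum.inr (i, 1))) ∧
      z (0, 2, Sum.inl (0, 2)) ^ 2 * (∑ i, z (0, 2, Sum.inl (i, 2)) * z (0, 2, Sum.inr (i, 1))) *
        elU (u 3) 2 =
          -(elU (u 3) 1 * z (1, 2, Sum.inl (0, 2)) ^ 2 * z (2, 2, Sum.inl (0, 2)) ^ 2))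
    (a a' i : Fin 3) (ha : x a ≠ 0) : x a' * T1b_nfB γ x a i = x a * T1b_nfB γ x a' i := by
  have h1 := T1b_nf_line (D.at (a, 2, Sum.inr (i, 1)))
  have h2 := T1b_nf_line (D.at (a', 2, Sum.inl (a, 2)))
  have h3 := T1b_nf_line (D.at (a', 2, Sum.inr (i, 1)))
  have h4 := T1b_nf_line (D.at (a, 2, Sum.inl (a, 2)))
  have h5 := T1b_nf_mul h1 h2 (by rw [zero_smul, add_zero, D.B])
  have h6 := T1b_nf_mul h3 h4 (by rw [zero_smul, add_zero, D.B])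
  have h7 : (fun s : ℂ => γ (T1b_nfL x + s • T1b_nfe) (a, 2, Sum.inr (i, 1)) *
        γ (T1b_nfL x + s • T1b_nfe) (a', 2, Sum.inl (a, 2))) =ᶠ[𝓝 0]
      (fun s : ℂ => γ (T1b_nfL x + s • T1b_nfe) (a', 2, Sum.inr (i, 1)) *
        γ (T1b_nfL x + s • T1b_nfe) (a, 2, Sum.inl (a, 2))) := by
    filter_upwards [T1b_nf_ev D.hN D.mem] with s hs
    obtain ⟨hne, he⟩ := D.eq _ hs
    have := (hrel _ (D.sub _ hs).1 (D.sub _ hs).2 _ hne he).1 a a' a i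
    rw [mul_comm, this, mul_comm]
  have h8 := (h6.congr_of_eventuallyEq h7).unique h5
  rw [zero_smul, add_zero, D.A, D.A] at h8
  have hc := D.hc
  change T1b_nfB γ x a' i * _ = T1b_nfB γ x a i * _ at h8
  have h9 : 4 * c * x a ^ 3 ≠ 0 := mul_ne_zero (mul_ne_zero (by norm_num : (4 : ℂ) ≠ 0) hc) (pow_ne_zero 3 ha)
  apply mul_left_cancel₀ h9
  linear_combination -h8

theorem T1b_NfD.rel2 (D : T1b_NfD Ξ ε x c γ N)
    (hV : elV 0 0 1 = 0 ∧ elV 0 0 2 = -2 ∧ HasDerivAt (fun w => elV 0 w 1) 1 0 ∧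
      ∃ r : ℝ, 0 < r ∧ DifferentiableOn ℂ (elV 0) (Metric.ball 0 r) ∧
        ∀ t ∈ Metric.ball (0 : ℂ) r, ∃ b : ℂ, b ≠ 0 ∧ elV 0 t = b • elU t)
    (hrel : ∀ u : Fin 4 → ℂ, x3 u ≠ 0 → ‖u 3‖ < ε → ∀ (z : Idx → ℂ) (hz : z ≠ 0),
      Ξ u = Projectivization.mk ℂ z hz →
      (∀ a a' j i : Fin 3, z (a', 2, Sum.inl (j, 2)) * z (a, 2, Sum.inr (i, 1)) =
        z (a, 2, Sum.inl (j, 2)) * z (a', 2, Sum.inr (i, 1))) ∧
      z (0, 2, Sum.inl (0, 2)) ^ 2 * (∑ i, z (0, 2, Sum.inl (i, 2)) * z (0, 2, Sum.inr (i, 1))) *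
        elU (u 3) 2 =
          -(elU (u 3) 1 * z (1, 2, Sum.inl (0, 2)) ^ 2 * z (2, 2, Sum.inl (0, 2)) ^ 2))
    (h0 : x 0 ≠ 0) :
    ∑ i, x i ^ 3 * (T1b_nfB γ x 0 i / (c * x 0)) = 2 * (x 0 * x 1 * x 2) ^ 2 := by
  obtain ⟨hV1, hV2, hV3, r, hr, hVd, hVb⟩ := hV
  -- the sum
  have hS : HasDerivAt (fun s : ℂ => ∑ i, γ (T1b_nfL x + s • T1b_nfe) (0, 2, Sum.inr (i, 1)) *
      γ (T1b_nfL x + s • T1b_nfe) (0, 2, Sum.inl (i, 2)))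
      (∑ i, T1b_nfB γ x 0 i * (4 * c * x 0 * x i ^ 3)) 0 := by
    have h1 : ∀ i ∈ (Finset.univ : Finset (Fin 3)), HasDerivAt
        (fun s : ℂ => γ (T1b_nfL x + s • T1b_nfe) (0, 2, Sum.inr (i, 1)) *
      γ (T1b_nfL x + s • T1b_nfe) (0, 2, Sum.inl (i, 2))) (T1b_nfB γ x 0 i * (4 * c * x 0 * x i ^ 3)) 0 := by
      intro i _
      have h2 := T1b_nf_mul (T1b_nf_line (D.at (0, 2, Sum.inr (i, 1)))) (T1b_nf_line (D.at (0, 2, Sum.inl (i, 2))))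
        (by rw [zero_smul, add_zero, D.B])
      rw [zero_smul, add_zero, D.A] at h2
      exact h2
    exact HasDerivAt.fun_sum h1
  have hA := T1b_nf_line (D.at (0, 2, Sum.inl (0, 2)))
  have hA1 := T1b_nf_line (D.at (1, 2, Sum.inl (0, 2)))
  have hA2 := T1b_nf_line (D.at (2, 2, Sum.inl (0, 2)))
  have hVdiff : DifferentiableAt ℂ (fun w => elV 0 w 2) 0 :=
    differentiableAt_pi.1 (hVd.differentiableAt (Metric.ball_mem_nhds _ hr)) 2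
  have hP := (hA.pow 2).mul hVdiff.hasDerivAt
  have hQ := (((hA1.pow 2).mul (hA2.pow 2))).neg
  have hF := T1b_nf_mul hS hP (by
    simp only [zero_smul, add_zero]
    exact Finset.sum_eq_zero fun i _ => by rw [D.B, zero_mul])
  have hG := T1b_nf_mul hV3 hQ hV1
  have hev : (fun s : ℂ => (∑ i, γ (T1b_nfL x + s • T1b_nfe) (0, 2, Sum.inr (i, 1)) *
      γ (T1b_nfL x + s • T1b_nfe) (0, 2, Sum.inl (i, 2))) *
        ((fun s : ℂ => γ (T1b_nfL x + s • T1b_nfe) (0, 2, Sum.inl (0, 2))) ^ 2 * fun w => elV 0 w 2) s)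
      =ᶠ[𝓝 0] (fun s : ℂ => elV 0 s 1 *
        (-((fun s : ℂ => γ (T1b_nfL x + s • T1b_nfe) (1, 2, Sum.inl (0, 2))) ^ 2 *
          (fun s : ℂ => γ (T1b_nfL x + s • T1b_nfe) (2, 2, Sum.inl (0, 2))) ^ 2)) s) := by
    filter_upwards [T1b_nf_ev D.hN D.mem, Metric.ball_mem_nhds (0 : ℂ) hr] with s hs hsr
    obtain ⟨hne, he⟩ := D.eq _ hs
    have h1 := (hrel _ (D.sub _ hs).1 (D.sub _ hs).2 _ hne he).2
    rw [T1b_line_three] at h1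
    obtain ⟨b, hb, hb2⟩ := hVb s hsr
    have hb1 : elV 0 s 1 = b * elU s 1 := by rw [hb2]; rfl
    have hb3 : elV 0 s 2 = b * elU s 2 := by rw [hb2]; rfl
    simp only [Pi.mul_apply, Pi.pow_apply, Pi.neg_apply]
    rw [hb1, hb3]
    have h2 : ∑ i, γ (T1b_nfL x + s • T1b_nfe) (0, 2, Sum.inr (i, 1)) *
      γ (T1b_nfL x + s • T1b_nfe) (0, 2, Sum.inl (i, 2)) = ∑ i, γ (T1b_nfL x + s • T1b_nfe) (0, 2, Sum.inl (i, 2)) *
      γ (T1b_nfL x + s • T1b_nfe) (0, 2, Sum.inr (i, 1)) := Finset.sum_congr rfl fun i _ => mul_comm _ _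
    rw [h2]
    linear_combination b * h1
  have key := (hG.congr_of_eventuallyEq hev).unique hF
  simp only [Pi.mul_apply, Pi.pow_apply, Pi.neg_apply, zero_smul, add_zero, D.A, hV2] at key
  have hc := D.hc
  have e1 : ∑ i, x i ^ 3 * (T1b_nfB γ x 0 i / (c * x 0)) =
      (∑ i, T1b_nfB γ x 0 i * (4 * c * x 0 * x i ^ 3)) / (4 * c ^ 2 * x 0 ^ 2) := by
    rw [Finset.sum_div]
    apply Finset.sum_congr rfl
    intro i _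
    field_simp
  have h8 : 4 * c ^ 2 * x 0 ^ 2 ≠ 0 :=
    mul_ne_zero (mul_ne_zero (by norm_num : (4 : ℂ) ≠ 0) (pow_ne_zero 2 hc)) (pow_ne_zero 2 h0)
  rw [e1, div_eq_iff h8]
  have h9 : 32 * c ^ 2 * x 0 ^ 8 ≠ 0 :=
    mul_ne_zero (mul_ne_zero (by norm_num) (pow_ne_zero 2 hc)) (pow_ne_zero 8 h0)
  apply mul_left_cancel₀ h9
  linear_combination key

end

theorem no_family
    (htor : ∀ (g : Fin 3 → (Fin 3 → ℂ) → ℂ),
      (∀ i, DifferentiableOn ℂ (g i) {x : Fin 3 → ℂ | x ≠ 0}) → ∀ C : ℂ,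
      (∀ x : Fin 3 → ℂ, x 0 ≠ 0 → x 1 ≠ 0 → x 2 ≠ 0 →
        ∑ i, x i ^ 3 * g i x = C * (x 0 * x 1 * x 2) ^ 2) → C = 0)
    (hdir : ∀ (n : ℕ) (f : (Fin n → ℂ) → ℂ) (Ω : Set (Fin n → ℂ)), IsOpen Ω →
      DifferentiableOn ℂ f Ω → ∀ e : Fin n → ℂ, DifferentiableOn ℂ (fun x => fderiv ℂ f x e) Ω)
    (hV : elV 0 0 1 = 0 ∧ elV 0 0 2 = -2 ∧ HasDerivAt (fun w => elV 0 w 1) 1 0 ∧
      ∃ r : ℝ, 0 < r ∧ DifferentiableOn ℂ (elV 0) (Metric.ball 0 r) ∧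
        ∀ t ∈ Metric.ball (0 : ℂ) r, ∃ b : ℂ, b ≠ 0 ∧ elV 0 t = b • elU t)
    (ε : ℝ) (hε : 0 < ε) (Ξ : (Fin 4 → ℂ) → ℙ ℂ (Idx → ℂ))
    (hΞ : HoloOn {u : Fin 4 → ℂ | x3 u ≠ 0 ∧ ‖u 3‖ < ε} Ξ)
    (h0 : ∀ (u : Fin 4 → ℂ) (hu : x3 u ≠ 0), u 3 = 0 →
      Ξ u = Projectivization.mk ℂ (Zv (x3 u) (elU 0) (elG 0) 0 1) (rep0_ne hu))
    (hrel : ∀ u : Fin 4 → ℂ, x3 u ≠ 0 → ‖u 3‖ < ε → ∀ (z : Idx → ℂ) (hz : z ≠ 0),
      Ξ u = Projectivization.mk ℂ z hz →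
      (∀ a a' j i : Fin 3, z (a', 2, Sum.inl (j, 2)) * z (a, 2, Sum.inr (i, 1)) =
        z (a, 2, Sum.inl (j, 2)) * z (a', 2, Sum.inr (i, 1))) ∧
      z (0, 2, Sum.inl (0, 2)) ^ 2 * (∑ i, z (0, 2, Sum.inl (i, 2)) * z (0, 2, Sum.inr (i, 1))) *
        elU (u 3) 2 =
          -(elU (u 3) 1 * z (1, 2, Sum.inl (0, 2)) ^ 2 * z (2, 2, Sum.inl (0, 2)) ^ 2)) :
    False := by
  classical
  let g : Fin 3 → (Fin 3 → ℂ) → ℂ := fun i x =>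
    if h : ∃ a, x a ≠ 0 then 4 * x h.choose ^ 3 * fderiv ℂ (T1b_nfR Ξ h.choose i) (T1b_nfL x) T1b_nfe else 0
  have hg : ∀ i x a, x a ≠ 0 → g i x = 4 * x a ^ 3 * fderiv ℂ (T1b_nfR Ξ a i) (T1b_nfL x) T1b_nfe := by
    intro i x a ha
    have hex : ∃ a, x a ≠ 0 := ⟨a, ha⟩
    have hx : x ≠ 0 := fun h => ha (by rw [h]; rfl)
    obtain ⟨c, γ, N, D⟩ := T1b_nfD_exists hε hΞ h0 hx
    have hb := hex.choose_spec
    simp only [g, dif_pos hex]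
    generalize hex.choose = b at hb
    rw [D.h b i hb, D.h a i ha]
    have h1 := D.rel1 hrel b a i hb
    have hc := D.hc
    rw [div_eq_div_iff (by positivity) (by positivity)]
    linear_combination c * h1
  have key := htor g ?_ 2 ?_
  · exact two_ne_zero key
  · intro i x0 hx0
    apply DifferentiableAt.differentiableWithinAt
    obtain ⟨a, ha⟩ := Function.ne_iff.1 (show x0 ≠ 0 from hx0)
    simp only [Pi.zero_apply] at ha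
    obtain ⟨c, γ, N, D⟩ := T1b_nfD_exists hε hΞ h0 hx0
    obtain ⟨N', hN', hm', hd'⟩ := D.Rdiff a i ha
    have h1 := hdir 4 (T1b_nfR Ξ a i) N' hN' hd' T1b_nfe
    have h2 : DifferentiableAt ℂ (fun x => 4 * x a ^ 3 * fderiv ℂ (T1b_nfR Ξ a i) (T1b_nfL x) T1b_nfe) x0 := by
      have h3 : DifferentiableAt ℂ (fun x : Fin 3 → ℂ => fderiv ℂ (T1b_nfR Ξ a i) (T1b_nfL x) T1b_nfe) x0 :=
        DifferentiableAt.comp x0 (h1.differentiableAt (hN'.mem_nhds hm')) T1b_nfL.differentiableAt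
      have h4 : DifferentiableAt ℂ (fun x : Fin 3 → ℂ => 4 * x a ^ 3) x0 := by fun_prop
      exact h4.mul h3
    refine h2.congr_of_eventuallyEq ?_
    have h5 : ∀ᶠ x : Fin 3 → ℂ in 𝓝 x0, x a ≠ 0 := by
      have : Continuous (fun x : Fin 3 → ℂ => x a) := by fun_prop
      exact this.continuousAt.eventually_ne ha
    filter_upwards [h5] with x hx
    exact hg i x a hx
  · intro x hx0 hx1 hx2
    have hx : x ≠ 0 := fun h => hx0 (by rw [h]; rfl)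
    obtain ⟨c, γ, N, D⟩ := T1b_nfD_exists hε hΞ h0 hx
    rw [← D.rel2 hV hrel hx0]
    apply Finset.sum_congr rfl
    intro i _
    rw [hg i x 0 hx0, D.h 0 i hx0]

end Pool.Agent.Helper922.MR
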