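import Pool.Agent.Helper922.MR.Model2

/-! `XX → YY` is not locally trivial. -/

open scoped LinearAlgebra.Projectivization Topology

namespace Pool.Agent.Helper922.MR

/-- The first three coordinates. -/
def x3' (u : Fin 4 → ℂ) : Fin 3 → ℂ := fun i => u i.castSucc

theorem rep0_ne' {x : Fin 3 → ℂ} (hx : x ≠ 0) : Zv x (elU 0) (elG 0) 0 1 ≠ 0 :=
  Zv_ne hx (elU_ne 0) (elG_ne 0) (Or.inr one_ne_zero)

theorem exists_family (hpr : ∀ (x : Fin 3 → ℂ) (t : ℂ) (q : Fin 3 → ℂ) (s : ℂ) (hx : x ≠ 0)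
      (hqs : q ≠ 0 ∨ s ≠ 0), pr (Projectivization.mk ℂ (Zv x (elU t) (elG t) q s)
      (Zv_ne hx (elU_ne t) (elG_ne t) hqs)) = Projectivization.mk ℂ (elU t) (elU_ne t))
    (hcU : Continuous (fun t : ℂ => (Projectivization.mk ℂ (elU t) (elU_ne t) : ℙ ℂ (Fin 3 → ℂ))))
    (hV : elV 0 0 1 = 0 ∧ elV 0 0 2 = -2 ∧ HasDerivAt (fun w => elV 0 w 1) 1 0 ∧
      ∃ r : ℝ, 0 < r ∧ DifferentiableOn ℂ (elV 0) (Metric.ball 0 r) ∧
        ∀ t ∈ Metric.ball (0 : ℂ) r, ∃ b : ℂ, b ≠ 0 ∧ elV 0 t = b • elU t)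
    (h : IsLocallyTrivial XX YY pr) :
    ∃ (ε : ℝ) (_ : 0 < ε) (Ξ : (Fin 4 → ℂ) → ℙ ℂ (Idx → ℂ)),
      HoloOn {u : Fin 4 → ℂ | x3' u ≠ 0 ∧ ‖u 3‖ < ε} Ξ ∧
      (∀ (u : Fin 4 → ℂ) (hu : x3' u ≠ 0), u 3 = 0 →
        Ξ u = Projectivization.mk ℂ (Zv (x3' u) (elU 0) (elG 0) 0 1) (rep0_ne' hu)) ∧
      ∀ u : Fin 4 → ℂ, x3' u ≠ 0 → ‖u 3‖ < ε → Ξ u ∈ XX ∧
        pr (Ξ u) = Projectivization.mk ℂ (elU (u 3)) (elU_ne _) := by
  classical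
  obtain ⟨n, e, F, _, hloc⟩ := h
  obtain ⟨U, hUo, hy0, Ψ, Θ, h1, h2, h3, h4⟩ := hloc _ ⟨0, rfl⟩
  obtain ⟨_, _, _, r, hr, hVd, hVb⟩ := hV
  have hopen : IsOpen {t : ℂ | (Projectivization.mk ℂ (elU t) (elU_ne t) : ℙ ℂ (Fin 3 → ℂ)) ∈ U} :=
    hUo.preimage hcU
  obtain ⟨ε0, hε0, hball⟩ := Metric.isOpen_iff.1 hopen 0 hy0
  obtain ⟨ε, hεdef⟩ : ∃ ε : ℝ, ε = min ε0 r := ⟨_, rfl⟩
  have hε : 0 < ε := by rw [hεdef]; exact lt_min hε0 hr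
  have hU : ∀ t : ℂ, ‖t‖ < ε →
      (Projectivization.mk ℂ (elU t) (elU_ne t) : ℙ ℂ (Fin 3 → ℂ)) ∈ U := by
    intro t ht
    apply hball
    rw [Metric.mem_ball, dist_zero_right]
    exact lt_of_lt_of_le ht (by rw [hεdef]; exact min_le_left _ _)
  have hr' : ∀ t : ℂ, ‖t‖ < ε → t ∈ Metric.ball (0:ℂ) r := by
    intro t ht
    rw [Metric.mem_ball, dist_zero_right]
    exact lt_of_lt_of_le ht (by rw [hεdef]; exact min_le_right _ _)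
  have hx3c : Continuous x3' := by
    unfold x3'
    exact continuous_pi (fun i => continuous_apply _)
  have hN1 : IsOpen {u : Fin 4 → ℂ | x3' u ≠ 0} := isOpen_ne.preimage hx3c
  have hN2 : IsOpen {u : Fin 4 → ℂ | ‖u 3‖ < ε} :=
    isOpen_lt ((continuous_apply 3).norm) continuous_const
  obtain ⟨Ω, hΩ⟩ : ∃ Ω : Set (Fin 4 → ℂ), Ω = {u : Fin 4 → ℂ | x3' u ≠ 0 ∧ ‖u 3‖ < ε} := ⟨_, rfl⟩
  have hΩo : IsOpen Ω := by
    rw [hΩ]; exact hN1.inter hN2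
  obtain ⟨Z, hZ⟩ : ∃ Z : (Fin 4 → ℂ) → ℙ ℂ (Idx → ℂ), ∀ (u : Fin 4 → ℂ) (hu : x3' u ≠ 0),
      Z u = Projectivization.mk ℂ (Zv (x3' u) (elU 0) (elG 0) 0 1) (rep0_ne' hu) := by
    refine ⟨fun u => if hu : x3' u ≠ 0 then
      Projectivization.mk ℂ (Zv (x3' u) (elU 0) (elG 0) 0 1) (rep0_ne' hu) else
      Projectivization.mk ℂ (Zv ![1, 0, 0] (elU 0) (elG 0) 0 1) (rep0_ne' vec100_ne), ?_⟩
    intro u hu
    exact dif_pos hu
  have hZh : HoloOn Ω Z := by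
    intro v hv
    rw [hΩ] at hv
    refine ⟨_, hN1, hv.1, fun u => Zv (x3' u) (elU 0) (elG 0) 0 1, ?_, ?_⟩
    · apply Differentiable.differentiableOn
      rw [differentiable_pi]
      rintro ⟨i, j, k⟩
      have hx : ∀ i : Fin 3, Differentiable ℂ (fun u : Fin 4 → ℂ => x3' u i) := by
        intro i
        show Differentiable ℂ (fun u : Fin 4 → ℂ => u i.castSucc)
        exact differentiable_apply _
      rcases k with k | k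
      · show Differentiable ℂ (fun u : Fin 4 → ℂ =>
          x3' u i * elU 0 j * (x3' u k.1 ^ 3 * 1 * elU 0 k.2))
        exact ((hx i).mul_const _).mul ((((hx k.1).pow 3).mul_const _).mul_const _)
      · show Differentiable ℂ (fun u : Fin 4 → ℂ =>
          x3' u i * elU 0 j * ((0 : Fin 3 → ℂ) k.1 * elG 0 k.2))
        exact ((hx i).mul_const _).mul_const _
    · intro u hu
      exact ⟨rep0_ne' hu, hZ u hu⟩
  have hsg : elsg 0 = 0 := if_pos el_zero_mem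
  have hZX : ∀ u : Fin 4 → ℂ, x3' u ≠ 0 → Z u ∈ XX := by
    intro u hu
    rw [hZ u hu]
    refine ⟨x3' u, 0, 0, 1, hu, Or.inr one_ne_zero, ?_, rfl⟩
    unfold Eqn
    rw [hsg]
    simp
  have hZpr : ∀ u : Fin 4 → ℂ, x3' u ≠ 0 →
      pr (Z u) = Projectivization.mk ℂ (elU 0) (elU_ne 0) := by
    intro u hu
    rw [hZ u hu]
    exact hpr (x3' u) 0 0 1 hu (Or.inr one_ne_zero)
  have hZmem : ∀ v ∈ Ω, Z v ∈ {p | p ∈ XX ∧ pr p ∈ U} := by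
    intro v hv
    rw [hΩ] at hv
    refine ⟨hZX v hv.1, ?_⟩
    rw [hZpr v hv.1]
    exact hy0
  have hYh : HoloOn Ω (fun u : Fin 4 → ℂ =>
      (Projectivization.mk ℂ (elU (u 3)) (elU_ne _) : ℙ ℂ (Fin 3 → ℂ))) := by
    intro v hv
    rw [hΩ] at hv
    refine ⟨_, hN2, hv.2, fun u => elV 0 (u 3), ?_, ?_⟩
    · refine hVd.comp (differentiable_apply _).differentiableOn ?_
      intro u hu
      exact hr' _ hu
    · intro u hu
      obtain ⟨b, hb, hbe⟩ := hVb (u 3) (hr' _ hu)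
      have hne : elV 0 (u 3) ≠ 0 := by
        rw [hbe]
        exact smul_ne_zero hb (elU_ne _)
      refine ⟨hne, ?_⟩
      rw [Projectivization.mk_eq_mk_iff']
      refine ⟨b⁻¹, ?_⟩
      show b⁻¹ • elV 0 (u 3) = elU (u 3)
      rw [hbe, smul_smul, inv_mul_cancel₀ hb, one_smul]
  have hYmem : ∀ v ∈ Ω, (Projectivization.mk ℂ (elU (v 3)) (elU_ne _) : ℙ ℂ (Fin 3 → ℂ)) ∈
      U ∩ YY := by
    intro v hv
    rw [hΩ] at hv
    exact ⟨hU _ hv.2, ⟨v 3, rfl⟩⟩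
  have hWh : HoloOn Ω (fun u => Θ (Z u)) := h4 4 Ω Z hΩo hZh hZmem
  have hWmem : ∀ v ∈ Ω, Θ (Z v) ∈ F := by
    intro v hv
    have := hZmem v hv
    exact (h2 (Z v) this.1 this.2).1
  refine ⟨ε, hε, fun u => Ψ (Projectivization.mk ℂ (elU (u 3)) (elU_ne _)) (Θ (Z u)), ?_, ?_, ?_⟩
  · rw [← hΩ]
    exact h3 4 Ω _ _ hΩo hYh hWh hYmem hWmem
  · intro u hu hu3
    show Ψ (Projectivization.mk ℂ (elU (u 3)) (elU_ne _)) (Θ (Z u)) = _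
    have hv : u ∈ Ω := by
      rw [hΩ]
      refine ⟨hu, ?_⟩
      rw [hu3, norm_zero]
      exact hε
    have hm := hZmem u hv
    have h5 := (h2 (Z u) hm.1 hm.2).2
    rw [hZpr u hu] at h5
    rw [← hZ u hu]
    have h6 : (Projectivization.mk ℂ (elU (u 3)) (elU_ne _) : ℙ ℂ (Fin 3 → ℂ)) =
        Projectivization.mk ℂ (elU 0) (elU_ne 0) := by
      congr 1
      rw [hu3]
    rw [h6]
    exact h5
  · intro u hu hu3
    have hv : u ∈ Ω := by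
      rw [hΩ]
      exact ⟨hu, hu3⟩
    have := h1 _ (hYmem u hv) _ (hWmem u hv)
    exact ⟨this.1, this.2.1⟩

end Pool.Agent.Helper922.MR
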