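import Pool.Agent.Helper922.MR.Asm1
import Pool.Agent.Helper922.MR.A3
import Pool.Agent.Helper922.MR.T0
import Pool.Agent.Helper922.MR.T1a
import Pool.Agent.Helper922.MR.T1b
import Pool.Agent.Helper922.MR.T1c

/-! Assembly: `pr : XX → YY` is not locally trivial. -/

open scoped LinearAlgebra.Projectivization

namespace Pool.Agent.Helper922.MR

theorem XX_not_locallyTrivial : ¬ IsLocallyTrivial XX YY pr := by
  intro h
  obtain ⟨ε, hε, Ξ, hΞ, h0, h1⟩ := exists_family (fun x t q s hx hqs => pr_mk x t q s hx hqs)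
    elU_cont elV_facts h
  refine no_family (fun g hg C h => torus_lemma g hg C h)
    (fun n f Ω hΩ hf e => differentiableOn_fderiv_dir hΩ hf e) elV_facts ε hε Ξ hΞ h0 ?_
  intro u hu ht z hz hzΞ
  obtain ⟨hX, hpr⟩ := h1 u hu ht
  rw [hzΞ] at hX hpr
  obtain ⟨x, q, s, hx, hqs, hE, hzeq⟩ :=
    exists_rep (fun x t q s hx hqs => pr_mk x t q s hx hqs) z hz hX (u 3) hpr
  exact ⟨fun a a' j i => cone_rel1 x q (u 3) s z hzeq a a' j i,
    cone_rel2 x q (u 3) s z hzeq hE⟩

end Pool.Agent.Helper922.MR
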