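import Pool.Agent.Helper922.MR.Defs

/-! Local parametrisations from local holomorphic left inverses. -/

open scoped LinearAlgebra.Projectivization

namespace Pool.Agent.Helper922.MR

universe u

theorem continuous_mk {ι : Type u} [Fintype ι] :
    Continuous (fun z : {z : ι → ℂ // z ≠ 0} => (Projectivization.mk ℂ z.1 z.2 : ℙ ℂ (ι → ℂ))) := by
  have h : (fun z : {z : ι → ℂ // z ≠ 0} => (Projectivization.mk ℂ z.1 z.2 : ℙ ℂ (ι → ℂ)))
      = Projectivization.mk' ℂ := by
    funext z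
    exact (Projectivization.mk'_eq_mk ℂ z).symm
  rw [h]
  exact continuous_coinduced_rng

theorem B2_isOpen_proj_iff {ι : Type u} [Fintype ι] (W : Set (ℙ ℂ (ι → ℂ))) :
    IsOpen W ↔ IsOpen {z : {z : ι → ℂ // z ≠ 0} | Projectivization.mk ℂ z.1 z.2 ∈ W} := by
  have h1 : IsOpen W ↔ IsOpen ((Projectivization.mk' ℂ : {v : ι → ℂ // v ≠ 0} → _) ⁻¹' W) :=
    isOpen_coinduced
  rw [h1]
  have h2 : ((Projectivization.mk' ℂ : {v : ι → ℂ // v ≠ 0} → _) ⁻¹' W)
      = {z : {z : ι → ℂ // z ≠ 0} | Projectivization.mk ℂ z.1 z.2 ∈ W} := by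
    ext z
    rw [Set.mem_preimage, Projectivization.mk'_eq_mk]
    rfl
  rw [h2]

theorem exists_localParam {ι : Type u} [Fintype ι] {d : ℕ} (X : Set (ℙ ℂ (ι → ℂ)))
    (V : Set (Fin d → ℂ)) (hV : IsOpen V) (φ : (Fin d → ℂ) → ι → ℂ) (hφ : DifferentiableOn ℂ φ V)
    (hne : ∀ v ∈ V, φ v ≠ 0) (hX : ∀ v, ∀ hv : v ∈ V, Projectivization.mk ℂ (φ v) (hne v hv) ∈ X)
    (O : Set (ι → ℂ)) (hO : IsOpen O) (Λ : (ι → ℂ) → Fin d → ℂ) (hΛ : DifferentiableOn ℂ Λ O)
    (hcone : ∀ z ∈ O, ∀ c : ℂ, c ≠ 0 → c • z ∈ O ∧ Λ (c • z) = Λ z)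
    (hφO : ∀ v ∈ V, φ v ∈ O ∧ Λ (φ v) = v)
    (hback : ∀ z ∈ O, ∀ hz : z ≠ 0, Projectivization.mk ℂ z hz ∈ X →
      Λ z ∈ V ∧ ∃ c : ℂ, c ≠ 0 ∧ φ (Λ z) = c • z) :
    ∃ P : LocalParam d X, P.V = V ∧ P.φ = φ := by
  refine ⟨⟨V, φ, hV, hφ, hne, hX, ?_, ?_⟩, rfl, rfl⟩
  · apply Topology.IsOpenEmbedding.of_continuous_injective_isOpenMap
    · apply Continuous.subtype_mk
      have h1 : Continuous (fun v : V => φ v) :=
        continuousOn_iff_continuous_domRestrict.mp hφ.continuousOn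
      have h2 : Continuous (fun v : V => (⟨φ v, hne v v.2⟩ : {z : ι → ℂ // z ≠ 0})) :=
        h1.subtype_mk _
      exact continuous_mk.comp h2
    · intro v v' hvv
      have h1 : Projectivization.mk ℂ (φ v) (hne v v.2) = Projectivization.mk ℂ (φ v') (hne v' v'.2) :=
        congrArg (fun x : X => (x : ℙ ℂ (ι → ℂ))) hvv
      rw [Projectivization.mk_eq_mk_iff'] at h1
      obtain ⟨a, ha⟩ := h1
      have ha0 : a ≠ 0 := by
        rintro rfl
        rw [zero_smul] at ha
        exact hne v v.2 ha.symm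
      obtain ⟨hO', hL'⟩ := hφO v' v'.2
      obtain ⟨-, hL⟩ := hφO v v.2
      have h3 := (hcone (φ v') hO' a ha0).2
      rw [ha, hL, hL'] at h3
      exact Subtype.ext h3
    · intro N hN
      obtain ⟨N', hN', rfl⟩ := isOpen_induced_iff.mp hN
      set W : Set (ℙ ℂ (ι → ℂ)) := {p | ∃ z, ∃ hz : z ≠ 0, z ∈ O ∧ Λ z ∈ N' ∧
        p = Projectivization.mk ℂ z hz} with hW
      have hWo : IsOpen W := by
        rw [B2_isOpen_proj_iff]
        have h1 : {z : {z : ι → ℂ // z ≠ 0} | Projectivization.mk ℂ z.1 z.2 ∈ W}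
            = Subtype.val ⁻¹' (O ∩ Λ ⁻¹' N') := by
          ext z
          constructor
          · rintro ⟨z', hz', hO', hN'', he⟩
            rw [Projectivization.mk_eq_mk_iff'] at he
            obtain ⟨a, ha⟩ := he
            have ha0 : a ≠ 0 := by
              rintro rfl
              rw [zero_smul] at ha
              exact z.2 ha.symm
            obtain ⟨h3, h4⟩ := hcone z' hO' a ha0
            rw [ha] at h3 h4
            refine ⟨h3, ?_⟩
            rw [Set.mem_preimage, h4]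
            exact hN''
          · rintro ⟨h3, h4⟩
            exact ⟨z.1, z.2, h3, h4, rfl⟩
        rw [h1]
        exact (hΛ.continuousOn.isOpen_inter_preimage hO hN').preimage continuous_subtype_val
      have h2 : (fun v : V => (⟨Projectivization.mk ℂ (φ v) (hne v v.2), hX v v.2⟩ : X)) ''
          (Subtype.val ⁻¹' N') = Subtype.val ⁻¹' W := by
        ext x
        constructor
        · rintro ⟨v, hv, rfl⟩
          refine ⟨φ v, hne v v.2, (hφO v v.2).1, ?_, rfl⟩
          rw [(hφO v v.2).2]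
          exact hv
        · rintro ⟨z, hz, hzO, hzN, hx⟩
          have hxX : Projectivization.mk ℂ z hz ∈ X := by rw [← hx]; exact x.2
          obtain ⟨hzV, c, hc, hcz⟩ := hback z hzO hz hxX
          refine ⟨⟨Λ z, hzV⟩, hzN, ?_⟩
          apply Subtype.ext
          rw [hx]
          change Projectivization.mk ℂ (φ (Λ z)) _ = _
          rw [Projectivization.mk_eq_mk_iff']
          exact ⟨c, hcz.symm⟩
      rw [h2]
      exact hWo.preimage continuous_subtype_val
  · intro v hv h hc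
    obtain ⟨c, hc⟩ := hc
    obtain ⟨hvO, hvL⟩ := hφO v hv
    have hΛd : DifferentiableAt ℂ Λ (φ v) := hΛ.differentiableAt (hO.mem_nhds hvO)
    have hφd : DifferentiableAt ℂ φ v := hφ.differentiableAt (hV.mem_nhds hv)
    have h1 : fderiv ℂ Λ (φ v) (fderiv ℂ φ v h) = h := by
      have h2 : fderiv ℂ (Λ ∘ φ) v = (fderiv ℂ Λ (φ v)).comp (fderiv ℂ φ v) :=
        fderiv_comp v hΛd hφd
      have h3 : (Λ ∘ φ) =ᶠ[nhds v] id := by
        filter_upwards [hV.mem_nhds hv] with u hu
        exact (hφO u hu).2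
      rw [h3.fderiv_eq, fderiv_id] at h2
      have := congrArg (fun T : (Fin d → ℂ) →L[ℂ] (Fin d → ℂ) => T h) h2
      simpa using this.symm
    have h4 : fderiv ℂ Λ (φ v) (φ v) = 0 := by
      have h5 : HasDerivAt (fun t : ℂ => t • φ v) (φ v) 1 := by
        have := (hasDerivAt_id (1 : ℂ)).smul_const (φ v)
        simpa using this
      have h6 : HasFDerivAt Λ (fderiv ℂ Λ (φ v)) ((fun t : ℂ => t • φ v) 1) := by
        simpa using hΛd.hasFDerivAt
      have h7 := h6.comp_hasDerivAt (1 : ℂ) h5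
      have h8 : (Λ ∘ fun t : ℂ => t • φ v) =ᶠ[nhds 1] fun _ => Λ (φ v) := by
        have : ∀ᶠ t : ℂ in nhds 1, t ≠ 0 := isOpen_ne.mem_nhds one_ne_zero
        filter_upwards [this] with t ht
        exact (hcone (φ v) hvO t ht).2
      have h9 : HasDerivAt (Λ ∘ fun t : ℂ => t • φ v) 0 1 :=
        (hasDerivAt_const (1 : ℂ) (Λ (φ v))).congr_of_eventuallyEq h8
      exact h7.unique h9
    rw [hc, map_smul, h4, smul_zero] at h1
    exact h1.symm

theorem t2Space_proj {ι : Type u} [Fintype ι] : T2Space (ℙ ℂ (ι → ℂ)) := by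
  have hq : IsOpenQuotientMap
      (fun z : {z : ι → ℂ // z ≠ 0} => (Projectivization.mk ℂ z.1 z.2 : ℙ ℂ (ι → ℂ))) := by
    refine ⟨?_, continuous_mk, ?_⟩
    · intro p
      induction p with
      | h z hz => exact ⟨⟨z, hz⟩, rfl⟩
    · intro U hU
      rw [B2_isOpen_proj_iff]
      have h1 : {z : {z : ι → ℂ // z ≠ 0} | Projectivization.mk ℂ z.1 z.2 ∈
          (fun z : {z : ι → ℂ // z ≠ 0} => (Projectivization.mk ℂ z.1 z.2 : ℙ ℂ (ι → ℂ))) '' U}
          = ⋃ c : ℂˣ, (fun z : {z : ι → ℂ // z ≠ 0} =>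
            (⟨(c : ℂ) • z.1, smul_ne_zero c.ne_zero z.2⟩ : {z : ι → ℂ // z ≠ 0})) ⁻¹' U := by
        ext z
        simp only [Set.mem_ofPred_eq, Set.mem_image, Set.mem_iUnion, Set.mem_preimage]
        constructor
        · rintro ⟨w, hw, he⟩
          rw [Projectivization.mk_eq_mk_iff'] at he
          obtain ⟨a, ha⟩ := he
          have ha0 : a ≠ 0 := by
            rintro rfl
            rw [zero_smul] at ha
            exact w.2 ha.symm
          refine ⟨Units.mk0 a ha0, ?_⟩
          have : (⟨((Units.mk0 a ha0 : ℂˣ) : ℂ) • z.1, smul_ne_zero (Units.ne_zero _) z.2⟩ :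
            {z : ι → ℂ // z ≠ 0}) = w := Subtype.ext ha
          rw [this]
          exact hw
        · rintro ⟨c, hc⟩
          refine ⟨_, hc, ?_⟩
          rw [Projectivization.mk_eq_mk_iff']
          exact ⟨(c : ℂ), rfl⟩
      rw [h1]
      apply isOpen_iUnion
      intro c
      apply hU.preimage
      apply Continuous.subtype_mk
      fun_prop
  rw [t2Space_iff_of_isOpenQuotientMap hq]
  have h2 : {q : {z : ι → ℂ // z ≠ 0} × {z : ι → ℂ // z ≠ 0} |
      Projectivization.mk ℂ q.1.1 q.1.2 = Projectivization.mk ℂ q.2.1 q.2.2}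
      = ⋂ i, ⋂ j, {q | q.1.1 i * q.2.1 j = q.1.1 j * q.2.1 i} := by
    ext q
    simp only [Set.mem_ofPred_eq, Set.mem_iInter]
    rw [Projectivization.mk_eq_mk_iff']
    constructor
    · rintro ⟨a, ha⟩ i j
      rw [← ha]
      simp only [Pi.smul_apply, smul_eq_mul]
      ring
    · intro h
      obtain ⟨k, hk⟩ : ∃ k, q.2.1 k ≠ 0 := by
        by_contra hcon
        push Not at hcon
        exact q.2.2 (funext hcon)
      refine ⟨q.1.1 k / q.2.1 k, ?_⟩
      funext i
      simp only [Pi.smul_apply, smul_eq_mul]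
      have := h i k
      field_simp
      rw [← this]
      ring
  have h3 := isClosed_iInter (fun i : ι => isClosed_iInter (fun j : ι =>
    isClosed_eq
      (f := fun q : {z : ι → ℂ // z ≠ 0} × {z : ι → ℂ // z ≠ 0} => q.1.1 i * q.2.1 j)
      (g := fun q => q.1.1 j * q.2.1 i)
      (((continuous_apply i).comp (continuous_subtype_val.comp continuous_fst)).mul
        ((continuous_apply j).comp (continuous_subtype_val.comp continuous_snd)))
      (((continuous_apply j).comp (continuous_subtype_val.comp continuous_fst)).mul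
        ((continuous_apply i).comp (continuous_subtype_val.comp continuous_snd)))))
  rw [← h2] at h3
  exact h3

end Pool.Agent.Helper922.MR
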