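import Mathlib

/-! An abstract generation lemma for symmetric powers. -/

namespace Pool.Agent.Helper922.MR

/-- The functions on a dual space which are linear combinations of products of `n` evaluations at
vectors of `W`. -/
noncomputable def Sy {E : Type*} [NormedAddCommGroup E] [NormedSpace ℂ E] (W : Submodule ℂ E) (n : ℕ) :
    Submodule ℂ ((E →L[ℂ] ℂ) → ℂ) :=
  Submodule.span ℂ {f | ∃ w : Fin n → E, (∀ i, w i ∈ W) ∧ f = fun ξ => ∏ i, ξ (w i)}


/-- helper: the evaluations -/
theorem B3_aux_Sy_eq {E : Type*} [NormedAddCommGroup E] [NormedSpace ℂ E] (W : Submodule ℂ E) (n : ℕ) :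
    Sy W n = (Submodule.span ℂ {f : (E →L[ℂ] ℂ) → ℂ | ∃ w ∈ W, f = fun ξ => ξ w}) ^ n := by
  rw [Submodule.span_pow]
  unfold Sy
  congr 1
  ext f
  rw [Set.mem_pow]
  constructor
  · rintro ⟨w, hw, rfl⟩
    refine ⟨fun i => ⟨fun ξ => ξ (w i), w i, hw i, rfl⟩, ?_⟩
    rw [List.prod_ofFn]
    funext ξ
    simp
  · rintro ⟨g, rfl⟩
    choose w hw hg using fun i => (g i).2
    refine ⟨w, hw, ?_⟩
    rw [List.prod_ofFn]
    funext ξ
    rw [Finset.prod_apply]
    refine Finset.prod_congr rfl fun i _ => ?_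
    rw [hg i]

theorem B3_aux_eval {E : Type*} [NormedAddCommGroup E] [NormedSpace ℂ E]
    {σ : Type*} (M : Submodule ℂ ((E →L[ℂ] ℂ) → ℂ)) (m : ℕ) (f : MvPolynomial σ ℂ)
    (hf : f.IsHomogeneous m) (b : σ → E) (hb : ∀ i, (fun ξ : E →L[ℂ] ℂ => ξ (b i)) ∈ M) :
    (fun ξ : E →L[ℂ] ℂ => MvPolynomial.eval (fun i => ξ (b i)) f) ∈ M ^ m := by
  classical
  have key : ∀ (d : σ →₀ ℕ) (s : Finset σ),
      (∏ i ∈ s, (fun ξ : E →L[ℂ] ℂ => ξ (b i)) ^ d i) ∈ M ^ (∑ i ∈ s, d i) := by
    intro d s
    induction s using Finset.induction_on with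
    | empty =>
      simp only [Finset.prod_empty, Finset.sum_empty, pow_zero]
      exact Submodule.one_le.mp le_rfl
    | insert a s ha ih =>
      rw [Finset.prod_insert ha, Finset.sum_insert ha, pow_add]
      exact Submodule.mul_mem_mul (Submodule.pow_mem_pow _ (hb a) _) ih
  have h1 : (fun ξ : E →L[ℂ] ℂ => MvPolynomial.eval (fun i => ξ (b i)) f) =
      ∑ d ∈ f.support, f.coeff d • ∏ i ∈ d.support, (fun ξ : E →L[ℂ] ℂ => ξ (b i)) ^ d i := by
    funext ξ
    rw [MvPolynomial.eval_eq]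
    simp [Finset.sum_apply, Finset.prod_apply]
  rw [h1]
  refine Submodule.sum_mem _ fun d hd => Submodule.smul_mem _ _ ?_
  have h2 := key d d.support
  have h3 : ∑ i ∈ d.support, d i = m := by
    have := hf (MvPolynomial.mem_support_iff.mp hd)
    rw [← this]
    rw [Finsupp.weight_apply]
    simp [Finsupp.sum]
  rw [h3] at h2
  exact h2

theorem B3_aux_homog {σ : Type*} (n : ℕ) (P : MvPolynomial σ ℂ)
    (hP : ∀ (κ : σ → ℂ) (c : ℂ),
      MvPolynomial.eval (c • κ) P = c ^ n * MvPolynomial.eval κ P) : P.IsHomogeneous n := by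
  classical
  have h1 : ∀ (j : ℕ), j ≠ n → ∀ κ : σ → ℂ,
      MvPolynomial.eval κ (MvPolynomial.homogeneousComponent j P) = 0 := by
    intro j hj κ
    by_cases hjt : j ∈ Finset.range (P.totalDegree + 1)
    swap
    · have : MvPolynomial.homogeneousComponent j P = 0 := by
        apply MvPolynomial.homogeneousComponent_eq_zero
        simp only [Finset.mem_range, not_lt] at hjt
        omega
      rw [this, map_zero]
    set q : Polynomial ℂ := (∑ i ∈ Finset.range (P.totalDegree + 1),
      Polynomial.C (MvPolynomial.eval κ (MvPolynomial.homogeneousComponent i P)) * Polynomial.X ^ i)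
      - Polynomial.C (MvPolynomial.eval κ P) * Polynomial.X ^ n with hq
    have hq0 : q = 0 := by
      apply Polynomial.funext
      intro c
      rw [hq]
      simp only [Polynomial.eval_sub, Polynomial.eval_finsetSum, Polynomial.eval_mul,
        Polynomial.eval_C, Polynomial.eval_pow, Polynomial.eval_X, Polynomial.eval_zero]
      have h2 : MvPolynomial.eval (c • κ) P = ∑ i ∈ Finset.range (P.totalDegree + 1),
          MvPolynomial.eval κ (MvPolynomial.homogeneousComponent i P) * c ^ i := by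
        conv_lhs => rw [← MvPolynomial.sum_homogeneousComponent P]
        rw [map_sum]
        refine Finset.sum_congr rfl fun i _ => ?_
        have hh := MvPolynomial.homogeneousComponent_isHomogeneous i P
        have : MvPolynomial.eval (c • κ) (MvPolynomial.homogeneousComponent i P)
            = c ^ i * MvPolynomial.eval κ (MvPolynomial.homogeneousComponent i P) := by
          rw [MvPolynomial.eval_eq, MvPolynomial.eval_eq, Finset.mul_sum]
          refine Finset.sum_congr rfl fun d hd => ?_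
          have h3 : ∑ l ∈ d.support, d l = i := by
            have := hh (MvPolynomial.mem_support_iff.mp hd)
            rw [← this, Finsupp.weight_apply]
            simp [Finsupp.sum]
          simp only [Pi.smul_apply, smul_eq_mul, mul_pow]
          rw [Finset.prod_mul_distrib, Finset.prod_pow_eq_pow_sum, h3]
          ring
        rw [this]; ring
      rw [← h2, hP κ c]
      ring
    have h4 : q.coeff j = 0 := by rw [hq0]; simp
    rw [hq] at h4
    simp only [Polynomial.coeff_sub, Polynomial.finsetSum_coeff, Polynomial.coeff_C_mul,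
      Polynomial.coeff_X_pow] at h4
    simpa [hj, hjt] using h4
  intro d hd
  have hdw : (Finsupp.weight (1 : σ → ℕ)) d = d.degree := by
    rw [Finsupp.weight_apply]
    simp [Finsupp.sum, Finsupp.degree_apply]
  rw [hdw]
  by_contra hne
  apply hd
  have h5 : MvPolynomial.homogeneousComponent d.degree P = 0 := by
    apply MvPolynomial.funext
    intro κ
    rw [h1 _ hne κ, map_zero]
  have h6 := MvPolynomial.coeff_homogeneousComponent d.degree P d
  rw [h5] at h6
  simpa using h6.symm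

theorem Sy_mul {E : Type*} [NormedAddCommGroup E] [NormedSpace ℂ E] (W : Submodule ℂ E) (n k : ℕ)
    (f g : (E →L[ℂ] ℂ) → ℂ) (hf : f ∈ Sy W n) (hg : g ∈ Sy W k) :
    (fun ξ => f ξ * g ξ) ∈ Sy W (n + k) := by
  rw [B3_aux_Sy_eq] at *
  rw [pow_add]
  exact Submodule.mul_mem_mul hf hg

theorem Sy_eval {E : Type*} [NormedAddCommGroup E] [NormedSpace ℂ E] (W : Submodule ℂ E) (n : ℕ)
    {σ : Type*} [Fintype σ] (P : MvPolynomial σ ℂ) (hP : ∀ (κ : σ → ℂ) (c : ℂ),
      MvPolynomial.eval (c • κ) P = c ^ n * MvPolynomial.eval κ P)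
    (k : σ → E) (hk : ∀ i, k i ∈ W) :
    (fun ξ : E →L[ℂ] ℂ => MvPolynomial.eval (fun i => ξ (k i)) P) ∈ Sy W n := by
  rw [B3_aux_Sy_eq]
  exact B3_aux_eval _ n P (B3_aux_homog n P hP) k fun i => Submodule.subset_span ⟨k i, hk i, rfl⟩

theorem gen_lemma {σ : Type*} {E : Type*} [NormedAddCommGroup E] [NormedSpace ℂ E] (et : E)
    (W : Submodule ℂ E) (hW : ∀ v : E, ∃ (a : ℂ) (w : E), w ∈ W ∧ v = a • et + w)
    (gens : Set E) (hgens : Submodule.span ℂ gens = W) (m : ℕ)
    (S : Submodule ℂ ((E →L[ℂ] ℂ) → ℂ))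
    (hS : ∀ k ≤ m, ∀ w : Fin (m - k) → E, (∀ i, w i ∈ gens) → ∃ f ∈ S, ∃ (C : ℂ) (g : ℕ → (E →L[ℂ] ℂ) → ℂ),
      C ≠ 0 ∧ (∀ j, 1 ≤ j → j ≤ k → g j ∈ Sy W j) ∧
      f = fun ξ => (C * ξ et ^ k + ∑ j ∈ Finset.Icc 1 k, ξ et ^ (k - j) * g j ξ) * ∏ i, ξ (w i))
    (f : MvPolynomial σ ℂ) (hf : f.IsHomogeneous m) (b : σ → E) :
    (fun ξ : E →L[ℂ] ℂ => MvPolynomial.eval (fun i => ξ (b i)) f) ∈ S := by
  classical
  set L : Submodule ℂ ((E →L[ℂ] ℂ) → ℂ) :=
    Submodule.span ℂ {f : (E →L[ℂ] ℂ) → ℂ | ∃ w ∈ W, f = fun ξ => ξ w} with hL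
  set t : (E →L[ℂ] ℂ) → ℂ := fun ξ => ξ et with ht
  -- L is spanned by the evaluations at gens
  have hLg : L = Submodule.span ℂ {f : (E →L[ℂ] ℂ) → ℂ | ∃ w ∈ gens, f = fun ξ => ξ w} := by
    apply le_antisymm
    · rw [hL, Submodule.span_le]
      rintro _ ⟨w, hw, rfl⟩
      rw [← hgens] at hw
      refine Submodule.span_induction (p := fun w _ => (fun ξ : E →L[ℂ] ℂ => ξ w) ∈
        Submodule.span ℂ {f : (E →L[ℂ] ℂ) → ℂ | ∃ w ∈ gens, f = fun ξ => ξ w}) ?_ ?_ ?_ ?_ hw
      · intro x hx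
        exact Submodule.subset_span ⟨x, hx, rfl⟩
      · have : (fun ξ : E →L[ℂ] ℂ => ξ 0) = 0 := by funext ξ; simp
        rw [this]; exact Submodule.zero_mem _
      · intro x y _ _ hx hy
        have : (fun ξ : E →L[ℂ] ℂ => ξ (x + y)) =
            (fun ξ : E →L[ℂ] ℂ => ξ x) + (fun ξ : E →L[ℂ] ℂ => ξ y) := by funext ξ; simp
        rw [this]; exact Submodule.add_mem _ hx hy
      · intro a x _ hx
        have : (fun ξ : E →L[ℂ] ℂ => ξ (a • x)) =
            a • (fun ξ : E →L[ℂ] ℂ => ξ x) := by funext ξ; simp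
        rw [this]; exact Submodule.smul_mem _ _ hx
    · rw [Submodule.span_le]
      rintro _ ⟨w, hw, rfl⟩
      exact Submodule.subset_span ⟨w, hgens ▸ Submodule.subset_span hw, rfl⟩
  have step1 : ∀ k ≤ m, Submodule.span ℂ {t} ^ k * L ^ (m - k) ≤ S := by
    intro k
    induction k using Nat.strong_induction_on with
    | _ k ih =>
      intro hk
      rw [Submodule.span_pow, Set.singleton_pow]
      rw [hLg, Submodule.span_pow, Submodule.span_mul_span, Submodule.span_le]
      rintro _ ⟨_, h1, _, h2, rfl⟩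
      rw [Set.mem_singleton_iff] at h1
      subst h1
      rw [Set.mem_pow] at h2
      obtain ⟨u, rfl⟩ := h2
      choose w hw hu using fun i => (u i).2
      obtain ⟨f, hfS, C, g, hC, hg, hfe⟩ := hS k hk w hw
      set G : (E →L[ℂ] ℂ) → ℂ := fun ξ => ∏ i, ξ (w i) with hG
      have hGeq : (List.ofFn fun i => (u i : (E →L[ℂ] ℂ) → ℂ)).prod = G := by
        rw [List.prod_ofFn]
        funext ξ
        rw [Finset.prod_apply]
        exact Finset.prod_congr rfl fun i _ => by rw [hu i]
      have hGL : G ∈ L ^ (m - k) := by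
        rw [← hGeq, hLg, Submodule.span_pow]
        exact Submodule.subset_span (Set.mem_pow.mpr ⟨u, rfl⟩)
      show t ^ k * (List.ofFn fun i => (u i : (E →L[ℂ] ℂ) → ℂ)).prod ∈ S
      rw [hGeq]
      have hf2 : f = C • (t ^ k * G) + ∑ j ∈ Finset.Icc 1 k, t ^ (k - j) * (g j * G) := by
        rw [hfe]
        funext ξ
        simp only [Pi.add_apply, Pi.smul_apply, Pi.mul_apply, Pi.pow_apply, Finset.sum_apply,
          smul_eq_mul, ht, hG]
        rw [add_mul, Finset.sum_mul]
        congr 1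
        · ring
        · exact Finset.sum_congr rfl fun j _ => by ring
      have hsum : ∑ j ∈ Finset.Icc 1 k, t ^ (k - j) * (g j * G) ∈ S := by
        refine Submodule.sum_mem _ fun j hj => ?_
        rw [Finset.mem_Icc] at hj
        apply ih (k - j) (by omega) (by omega)
        refine Submodule.mul_mem_mul (Submodule.pow_mem_pow _
          (Submodule.mem_span_singleton_self t) _) ?_
        have : m - (k - j) = j + (m - k) := by omega
        rw [this, pow_add]
        refine Submodule.mul_mem_mul ?_ hGL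
        have := hg j hj.1 hj.2
        rw [B3_aux_Sy_eq] at this
        exact this
      have hC2 : C • (t ^ k * G) ∈ S := by
        have : C • (t ^ k * G) = f - ∑ j ∈ Finset.Icc 1 k, t ^ (k - j) * (g j * G) := by
          rw [hf2]; simp
        rw [this]
        exact Submodule.sub_mem _ hfS hsum
      have : t ^ k * G = C⁻¹ • (C • (t ^ k * G)) := by
        rw [smul_smul, inv_mul_cancel₀ hC, one_smul]
      rw [this]
      exact Submodule.smul_mem _ _ hC2
  have hnat : ∀ c : ℕ, (c : Submodule ℂ ((E →L[ℂ] ℂ) → ℂ)) ≤ 1 := by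
    intro c
    induction c with
    | zero => simp
    | succ c ih =>
      rw [Nat.cast_succ]
      exact sup_le ih le_rfl
  have step2 : (Submodule.span ℂ {t} + L) ^ m ≤ S := by
    rw [add_pow]
    refine Finset.sum_induction _ (fun s => s ≤ S) (fun a b ha hb => sup_le ha hb) bot_le ?_
    intro k hk
    rw [Finset.mem_range] at hk
    calc Submodule.span ℂ {t} ^ k * L ^ (m - k) * ((m.choose k : ℕ) : Submodule ℂ _)
        ≤ Submodule.span ℂ {t} ^ k * L ^ (m - k) * 1 := mul_le_mul' le_rfl (hnat _)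
      _ = Submodule.span ℂ {t} ^ k * L ^ (m - k) := mul_one _
      _ ≤ S := step1 k (by omega)
  apply step2
  refine B3_aux_eval _ m f hf b fun i => ?_
  obtain ⟨a, w, hw, hv⟩ := hW (b i)
  have : (fun ξ : E →L[ℂ] ℂ => ξ (b i)) = a • t + (fun ξ : E →L[ℂ] ℂ => ξ w) := by
    funext ξ
    rw [hv]; simp [ht]
  rw [this]
  exact Submodule.add_mem_sup (Submodule.smul_mem _ _ (Submodule.mem_span_singleton_self t))
    (Submodule.subset_span ⟨w, hw, rfl⟩)

end Pool.Agent.Helper922.MR
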