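import Mathlib

/-! Definitions: smooth projective varieties as closed connected complex submanifolds of projective
space, holomorphic maps, rational curves, MRC fibrations, local triviality, global sections of
`𝒪_X(c) ⊗ Sym^m T_X`, pseudo-effectivity of the tangent bundle. -/

open scoped LinearAlgebra.Projectivization

namespace Pool.Agent.Helper922.MR

universe u v w

/-- The topology of the projective space of a complex topological vector space: the quotient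
topology from the nonzero vectors. -/
noncomputable instance instTopProj (V : Type u) [AddCommGroup V] [Module ℂ V] [TopologicalSpace V] :
    TopologicalSpace (ℙ ℂ V) :=
  TopologicalSpace.coinduced (Projectivization.mk' ℂ : {v : V // v ≠ 0} → ℙ ℂ V) inferInstance

variable {ι : Type u} {κ : Type v}

section Submanifolds

variable [Fintype ι]

/-- A holomorphic local parametrisation of dimension `d` of a subset `X` of `ℙ(ℂ^ι)`:
an open subset `V` of `ℂ^d` and a holomorphic map `φ : V → ℂ^ι ∖ {0}` such that `v ↦ [φ(v)]` maps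
`V` homeomorphically onto an open subset of `X` (with the subspace topology) and has injective
differential at every point of `V`. (A tangent vector `h` at `v` is killed by the differential of
`v ↦ [φ(v)]` iff `dφ(h)` is proportional to `φ(v)`.) -/
structure LocalParam (d : ℕ) (X : Set (ℙ ℂ (ι → ℂ))) where
  /-- the domain -/
  V : Set (Fin d → ℂ)
  /-- homogeneous coordinates -/
  φ : (Fin d → ℂ) → (ι → ℂ)
  isOpen_V : IsOpen V
  holo : DifferentiableOn ℂ φ V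
  φ_ne : ∀ v ∈ V, φ v ≠ 0
  mem : ∀ v, ∀ hv : v ∈ V, Projectivization.mk ℂ (φ v) (φ_ne v hv) ∈ X
  openEmbedding : Topology.IsOpenEmbedding
    (fun v : V => (⟨Projectivization.mk ℂ (φ v) (φ_ne v v.2), mem v v.2⟩ : X))
  immersion : ∀ v ∈ V, ∀ h : Fin d → ℂ, (∃ c : ℂ, fderiv ℂ φ v h = c • φ v) → h = 0

/-- The point of `X` with parameter `v`. -/
noncomputable def LocalParam.pt {d : ℕ} {X : Set (ℙ ℂ (ι → ℂ))} (P : LocalParam d X)
    (v : Fin d → ℂ) (hv : v ∈ P.V) : ℙ ℂ (ι → ℂ) :=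
  Projectivization.mk ℂ (P.φ v) (P.φ_ne v hv)

/-- `X` is a closed complex submanifold of `ℙ(ℂ^ι)`, of dimension `d` everywhere. -/
def IsClosedSubmanifold (d : ℕ) (X : Set (ℙ ℂ (ι → ℂ))) : Prop :=
  IsClosed X ∧ ∀ p ∈ X, ∃ (P : LocalParam d X) (v : Fin d → ℂ) (hv : v ∈ P.V), P.pt v hv = p

/-- `X ⊆ ℙ(ℂ^ι)` is a smooth projective variety of dimension `d` (over `ℂ`): a closed connected
complex submanifold of projective space (which is algebraic by Chow's theorem, and irreducible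
because it is smooth and connected). -/
def IsSmoothProjectiveVariety (d : ℕ) (X : Set (ℙ ℂ (ι → ℂ))) : Prop :=
  IsClosedSubmanifold d X ∧ IsConnected X

end Submanifolds

section HolomorphicMaps

/-- The map `g` to projective space is holomorphic on the open set `Ω ⊆ ℂ^n`: locally on `Ω` it has
nowhere vanishing holomorphic homogeneous coordinates. -/
def HoloOn [Fintype κ] {n : ℕ} (Ω : Set (Fin n → ℂ)) (g : (Fin n → ℂ) → ℙ ℂ (κ → ℂ)) : Prop :=
  ∀ v ∈ Ω, ∃ N : Set (Fin n → ℂ), IsOpen N ∧ v ∈ N ∧ ∃ γ : (Fin n → ℂ) → κ → ℂ,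
    DifferentiableOn ℂ γ N ∧ ∀ u ∈ N, ∃ h : γ u ≠ 0, g u = Projectivization.mk ℂ (γ u) h

/-- `f` is holomorphic on the (locally closed) submanifold `A` of projective space: composition
with `f` turns holomorphic maps `g` from open subsets `Ω ⊆ ℂ^n` (for all `n`) to `A` into
holomorphic maps. -/
def IsHolomorphicOn [Fintype ι] [Fintype κ] (A : Set (ℙ ℂ (ι → ℂ)))
    (f : ℙ ℂ (ι → ℂ) → ℙ ℂ (κ → ℂ)) : Prop :=
  ∀ (n : ℕ) (Ω : Set (Fin n → ℂ)) (g : (Fin n → ℂ) → ℙ ℂ (ι → ℂ)), IsOpen Ω → HoloOn Ω g →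
    (∀ v ∈ Ω, g v ∈ A) → HoloOn Ω (fun v => f (g v))

/-- `f` is holomorphic on the product `A × B` of (locally closed) submanifolds of projective
spaces: composition with `f` turns pairs `(g, h)` of holomorphic maps from open subsets `Ω ⊆ ℂ^n`
to `A` and `B` into holomorphic maps. -/
def IsHolomorphicOn₂ {μ : Type w} [Fintype ι] [Fintype κ] [Fintype μ] (A : Set (ℙ ℂ (ι → ℂ)))
    (B : Set (ℙ ℂ (κ → ℂ))) (f : ℙ ℂ (ι → ℂ) → ℙ ℂ (κ → ℂ) → ℙ ℂ (μ → ℂ)) : Prop :=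
  ∀ (n : ℕ) (Ω : Set (Fin n → ℂ)) (g : (Fin n → ℂ) → ℙ ℂ (ι → ℂ)) (h : (Fin n → ℂ) → ℙ ℂ (κ → ℂ)),
    IsOpen Ω → HoloOn Ω g → HoloOn Ω h → (∀ v ∈ Ω, g v ∈ A) → (∀ v ∈ Ω, h v ∈ B) →
      HoloOn Ω (fun v => f (g v) (h v))

/-- The map `φ : X → Y` of submanifolds of projective spaces is locally trivial: there is a fixed
compact complex manifold `F` (a closed submanifold of a projective space) such that every point of
`Y` has an open neighbourhood `U ∩ Y` with a biholomorphic map `Ψ : (U ∩ Y) × F → φ⁻¹(U ∩ Y)` over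
`U ∩ Y`. Here `Θ : φ⁻¹(U ∩ Y) → F` is the component in `F` of the inverse of `Ψ`. -/
def IsLocallyTrivial [Fintype ι] [Fintype κ] (X : Set (ℙ ℂ (ι → ℂ))) (Y : Set (ℙ ℂ (κ → ℂ)))
    (φ : ℙ ℂ (ι → ℂ) → ℙ ℂ (κ → ℂ)) : Prop :=
  ∃ (n e : ℕ) (F : Set (ℙ ℂ (Fin n → ℂ))), IsClosedSubmanifold e F ∧
    ∀ y ∈ Y, ∃ U : Set (ℙ ℂ (κ → ℂ)), IsOpen U ∧ y ∈ U ∧
      ∃ (Ψ : ℙ ℂ (κ → ℂ) → ℙ ℂ (Fin n → ℂ) → ℙ ℂ (ι → ℂ)) (Θ : ℙ ℂ (ι → ℂ) → ℙ ℂ (Fin n → ℂ)),
        (∀ u ∈ U ∩ Y, ∀ w ∈ F, Ψ u w ∈ X ∧ φ (Ψ u w) = u ∧ Θ (Ψ u w) = w) ∧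
        (∀ p ∈ X, φ p ∈ U → Θ p ∈ F ∧ Ψ (φ p) (Θ p) = p) ∧
        IsHolomorphicOn₂ (U ∩ Y) F Ψ ∧ IsHolomorphicOn {p ∈ X | φ p ∈ U} Θ

end HolomorphicMaps

section RationalCurves

/-- `f : ℙ¹ → ℙ(ℂ^ι)` is a morphism: it is given by homogeneous polynomials of the same degree in
two variables without common zeros. -/
def IsMorphismP1 (f : ℙ ℂ (Fin 2 → ℂ) → ℙ ℂ (ι → ℂ)) : Prop :=
  ∃ (n : ℕ) (P : ι → MvPolynomial (Fin 2) ℂ), (∀ i, (P i).IsHomogeneous n) ∧
    ∀ (w : Fin 2 → ℂ) (hw : w ≠ 0), ∃ h : (fun i => MvPolynomial.eval w (P i)) ≠ 0,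
      f (Projectivization.mk ℂ w hw) = Projectivization.mk ℂ (fun i => MvPolynomial.eval w (P i)) h

/-- The points `p` and `q` of `X` lie on the image of a morphism `ℙ¹ → X`. -/
def OnRationalCurve (X : Set (ℙ ℂ (ι → ℂ))) (p q : ℙ ℂ (ι → ℂ)) : Prop :=
  ∃ f : ℙ ℂ (Fin 2 → ℂ) → ℙ ℂ (ι → ℂ), IsMorphismP1 f ∧ (∀ x, f x ∈ X) ∧
    p ∈ Set.range f ∧ q ∈ Set.range f

/-- The points `p` and `q` are joined by a (finite) chain of rational curves in `X`. -/
def RationallyChainConnected (X : Set (ℙ ℂ (ι → ℂ))) (p q : ℙ ℂ (ι → ℂ)) : Prop :=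
  Relation.ReflTransGen (OnRationalCurve X) p q

/-- `φ : X → Y` is (a holomorphic representative of) the maximal rationally connected fibration
of `X`: a holomorphic map onto `Y`, two points of `X` have the same image iff they are joined by a
chain of rational curves in `X`, and every morphism `ℙ¹ → Y` is constant. -/
def IsMRCFibration [Fintype ι] [Fintype κ] (X : Set (ℙ ℂ (ι → ℂ))) (Y : Set (ℙ ℂ (κ → ℂ)))
    (φ : ℙ ℂ (ι → ℂ) → ℙ ℂ (κ → ℂ)) : Prop :=
  IsHolomorphicOn X φ ∧ φ '' X = Y ∧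
    (∀ p ∈ X, ∀ q ∈ X, RationallyChainConnected X p q ↔ φ p = φ q) ∧
    ∀ f : ℙ ℂ (Fin 2 → ℂ) → ℙ ℂ (κ → ℂ), IsMorphismP1 f → (∀ x, f x ∈ Y) → ∀ x y, f x = f y

end RationalCurves

section SymmetricTensors

variable [Fintype ι]

/-- Global holomorphic sections of `𝒪_X(c) ⊗ Sym^m T_X`, for a `d`-dimensional closed submanifold
`X` of `ℙ(ℂ^ι)`, written in homogeneous coordinates.

Let `z ≠ 0` with `[z] ∈ X`. A linear form `α` on `ℂ^ι` with `α(z) = 0` defines a cotangent vector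
of `ℙ(ℂ^ι)` at `[z]`, hence one of `X`: for a lift `φ` of a local parametrisation of `X` with
`φ(v) = z` it is `α ∘ dφ_v`; all cotangent vectors of `X` at `[z]` are obtained in this way, and
replacing `z` by `a z` replaces the cotangent vector defined by `α` by `a` times it. An element of
`(𝒪_X(c) ⊗ Sym^m T_X)_[z]` is a homogeneous polynomial of degree `m` on the cotangent space with
values in `𝒪(c)_[z] = ((ℂ z)^∨)^{⊗ c}`; evaluating it at the cotangent vector defined by `α` and at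
`z^{⊗ c}` gives a function `S z α` with `S (a z) α = a^(c + m) S z α`, which depends only on
`α ∘ dφ_v`, is homogeneous of degree `m` in it, and is holomorphic (as a function on the total
space of the cotangent bundle). Conversely such functions are the sections (a holomorphic function
on `ℂ^d` which is homogeneous of degree `m` is a homogeneous polynomial of degree `m`). -/
def IsTwistedSymField (d c m : ℕ) (X : Set (ℙ ℂ (ι → ℂ)))
    (S : (ι → ℂ) → ((ι → ℂ) →L[ℂ] ℂ) → ℂ) : Prop :=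
  (∀ (z : ι → ℂ) (hz : z ≠ 0), Projectivization.mk ℂ z hz ∈ X → ∀ α : (ι → ℂ) →L[ℂ] ℂ, α z = 0 →
    ∀ a : ℂ, a ≠ 0 → S (a • z) α = a ^ (c + m) * S z α) ∧
  ∀ p ∈ X, ∃ (P : LocalParam d X) (v₀ : Fin d → ℂ) (hv₀ : v₀ ∈ P.V), P.pt v₀ hv₀ = p ∧
    ∃ F : (Fin d → ℂ) → ((Fin d → ℂ) →L[ℂ] ℂ) → ℂ,
      DifferentiableOn ℂ (fun y : (Fin d → ℂ) × ((Fin d → ℂ) →L[ℂ] ℂ) => F y.1 y.2)
        (P.V ×ˢ Set.univ) ∧
      (∀ v ∈ P.V, ∀ (a : ℂ) (ξ : (Fin d → ℂ) →L[ℂ] ℂ), F v (a • ξ) = a ^ m * F v ξ) ∧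
      ∀ v ∈ P.V, ∀ α : (ι → ℂ) →L[ℂ] ℂ, α (P.φ v) = 0 →
        S (P.φ v) α = F v (α.comp (fderiv ℂ P.φ v))

/-- `𝒪_X(c) ⊗ Sym^m T_X` is generated by its global sections at the point `p` of `X`: in a local
parametrisation `P` of `X` around `p` (with parameter `v₀` at `p`), every element of the fibre at
`p` (every homogeneous polynomial `f` of degree `m` on the cotangent space) is the value of a global
section. -/
def IsGeneratedAt (d c m : ℕ) (X : Set (ℙ ℂ (ι → ℂ))) (p : ℙ ℂ (ι → ℂ)) : Prop :=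
  ∃ (P : LocalParam d X) (v₀ : Fin d → ℂ) (hv₀ : v₀ ∈ P.V), P.pt v₀ hv₀ = p ∧
    ∀ f : MvPolynomial (Fin d) ℂ, f.IsHomogeneous m → ∃ S : (ι → ℂ) → ((ι → ℂ) →L[ℂ] ℂ) → ℂ,
      IsTwistedSymField d c m X S ∧ ∀ α : (ι → ℂ) →L[ℂ] ℂ, α (P.φ v₀) = 0 →
        S (P.φ v₀) α = MvPolynomial.eval (fun i => α (fderiv ℂ P.φ v₀ (Pi.single i 1))) f

/-- The tangent bundle of the `d`-dimensional smooth projective variety `X ⊆ ℙ(ℂ^ι)` is
pseudo-effective, with the ample line bundle `A = 𝒪_X(c)`, `c > 0`: for every `m > 0` the bundle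
`𝒪_X(c) ⊗ Sym^m T_X` is generated by its global sections at a general point, i.e. at every point
of a nonempty Zariski open subset `{H ≠ 0}` of `X`. -/
def HasPseudoEffectiveTangentBundle (d : ℕ) (X : Set (ℙ ℂ (ι → ℂ))) : Prop :=
  ∃ c : ℕ, 0 < c ∧ ∀ m : ℕ, 0 < m → ∃ (k : ℕ) (H : MvPolynomial ι ℂ), H.IsHomogeneous k ∧
    (∃ (z : ι → ℂ) (hz : z ≠ 0), Projectivization.mk ℂ z hz ∈ X ∧ MvPolynomial.eval z H ≠ 0) ∧
    ∀ (z : ι → ℂ) (hz : z ≠ 0), Projectivization.mk ℂ z hz ∈ X → MvPolynomial.eval z H ≠ 0 →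
      IsGeneratedAt d c m X (Projectivization.mk ℂ z hz)

end SymmetricTensors

end Pool.Agent.Helper922.MR
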