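import Pool.Agent.Helper922.MR.Defs

/-! The embedding of `ℂ / (ℤ + ℤ i)` by Weierstrass functions. -/

open scoped Topology

namespace Pool.Agent.Helper922.MR

/-- the square lattice -/
noncomputable def elL : PeriodPair where
  ω₁ := 1
  ω₂ := Complex.I
  indep := by
    rw [LinearIndependent.pair_iff]
    intro s t h
    have h1 := congrArg Complex.re h
    have h2 := congrArg Complex.im h
    simp at h1 h2
    exact ⟨h1, h2⟩

/-- Weierstrass function of the square lattice -/
noncomputable def elP : ℂ → ℂ := elL.weierstrassP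

/-- its derivative -/
noncomputable def elQ : ℂ → ℂ := elL.derivWeierstrassP

/-- the set of lattice points -/
def elS : Set ℂ := (elL.lattice : Set ℂ)

theorem el_countable : elS.Countable := by
  have h : Countable elL.lattice :=
    Function.Injective.countable (elL.latticeEquivProd.injective)
  exact Set.countable_coe_iff.mp h

theorem el_closed : IsClosed elS := elL.isClosed_lattice

theorem el_preconn {s : Set ℂ} (hs : s.Countable) : IsPreconnected sᶜ :=
  (Set.Countable.isPathConnected_compl_of_one_lt_rank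
    (by rw [Complex.rank_real_complex]; norm_num) hs).isConnected.isPreconnected

theorem el_anP : AnalyticOnNhd ℂ elP elSᶜ := elL.analyticOnNhd_weierstrassP

theorem el_anQ : AnalyticOnNhd ℂ elQ elSᶜ := elL.analyticOnNhd_derivWeierstrassP

theorem el_derivP : deriv elP = elQ := elL.deriv_weierstrassP

theorem el_zero_mem : (0 : ℂ) ∈ elS := elL.lattice.zero_mem

theorem el_pole (l : ℂ) (hl : l ∈ elS) (f : ℂ → ℂ) (hf : AnalyticAt ℂ f l)
    (h : elP =ᶠ[𝓝[≠] l] f) : False := by
  have h1 := meromorphicOrderAt_congr h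
  have h2 : meromorphicOrderAt elP l = -2 := elL.order_weierstrassP l hl
  have h3 := hf.meromorphicOrderAt_nonneg
  rw [← h1, h2] at h3
  exact absurd h3 (by decide)

theorem el_notMem_near (l : ℂ) : ∀ᶠ z in 𝓝[≠] l, z ∉ elS := by
  have h := elL.compl_lattice_sdiff_singleton_mem_nhds l
  filter_upwards [mem_nhdsWithin_of_mem_nhds h, self_mem_nhdsWithin] with z hz hz2 hz3
  exact hz ⟨hz3, hz2⟩

theorem el_nonconst (w : ℂ) (hw : w ∉ elS) (c : ℂ) (h : elP =ᶠ[𝓝 w] fun _ => c) : False := by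
  have h1 : Set.EqOn elP (fun _ => c) elSᶜ :=
    el_anP.eqOn_of_preconnected_of_eventuallyEq (fun z _ => analyticAt_const)
      (el_preconn el_countable) hw h
  apply el_pole 0 el_zero_mem (fun _ => c) analyticAt_const
  filter_upwards [el_notMem_near 0] with z hz
  exact h1 hz

theorem el_half : (1 / 2 : ℂ) ∉ elS := by
  have h := elL.ω₁_div_two_notMem_lattice
  exact h

theorem el_hasDerivP (z : ℂ) (hz : z ∉ elS) : HasDerivAt elP (elQ z) z := by
  rw [← el_derivP]
  exact (el_anP z hz).differentiableAt.hasDerivAt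

theorem el_ode1 (z : ℂ) (hz : z ∉ elS) :
    elQ z * (2 * deriv elQ z - (12 * elP z ^ 2 - elL.g₂)) = 0 := by
  have hP := el_hasDerivP z hz
  have hQ : HasDerivAt elQ (deriv elQ z) z := (el_anQ z hz).differentiableAt.hasDerivAt
  have h1 : HasDerivAt (fun y => elQ y ^ 2) _ z := hQ.pow 2
  have h2 : HasDerivAt (fun y => 4 * elP y ^ 3 - elL.g₂ * elP y - elL.g₃) _ z :=
    (((hP.pow 3).const_mul 4).sub (hP.const_mul elL.g₂)).sub_const elL.g₃
  have h3 : (fun y => elQ y ^ 2) =ᶠ[𝓝 z] fun y => 4 * elP y ^ 3 - elL.g₂ * elP y - elL.g₃ := by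
    filter_upwards [el_closed.isOpen_compl.mem_nhds hz] with y hy
    exact elL.derivWeierstrassP_sq y hy
  have h4 := (h1.congr_of_eventuallyEq h3.symm).unique h2
  simp only [Nat.cast_ofNat, Nat.add_one_sub_one, pow_one] at h4
  linear_combination h4

theorem el_ode2 (z : ℂ) (hz : z ∉ elS) :
    deriv elQ z = 6 * elP z ^ 2 - elL.g₂ / 2 := by
  have hF : AnalyticOnNhd ℂ (fun y => 2 * deriv elQ y - (12 * elP y ^ 2 - elL.g₂)) elSᶜ := by
    intro y hy
    have h1 := (el_anQ y hy).deriv
    have h2 := el_anP y hy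
    fun_prop
  rcases AnalyticOnNhd.eq_zero_or_eq_zero_of_mul_eq_zero el_anQ hF (fun y hy => el_ode1 y hy)
    (el_preconn el_countable) with h | h
  · exfalso
    obtain ⟨a, ha⟩ := el_closed.isOpen_compl.exists_is_const_of_deriv_eq_zero
      (el_preconn el_countable) (f := elP) (fun y hy => (el_anP y hy).differentiableAt.differentiableWithinAt)
      (by rw [el_derivP]; exact h)
    apply el_nonconst (1 / 2) el_half a
    filter_upwards [el_closed.isOpen_compl.mem_nhds el_half] with y hy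
    exact ha y hy
  · have h1 := h z hz
    linear_combination h1 / 2

theorem el_uniq (a : ℂ) (f g : ℂ → ℂ) (w : ℂ) (hf : AnalyticAt ℂ f w) (hg : AnalyticAt ℂ g w)
    (hf2 : ∀ᶠ z in 𝓝 w, deriv (deriv f) z = 6 * f z ^ 2 - a)
    (hg2 : ∀ᶠ z in 𝓝 w, deriv (deriv g) z = 6 * g z ^ 2 - a)
    (h0 : f w = g w) (h1 : deriv f w = deriv g w) : f =ᶠ[𝓝 w] g := by
  set h : ℂ → ℂ := fun z => f z - g z with hh
  have hha : AnalyticAt ℂ h w := hf.sub hg
  have e1 : deriv h =ᶠ[𝓝 w] fun z => deriv f z - deriv g z := by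
    filter_upwards [hf.eventually_analyticAt, hg.eventually_analyticAt] with z hz hz'
    exact deriv_fun_sub hz.differentiableAt hz'.differentiableAt
  have e2 : deriv (deriv h) =ᶠ[𝓝 w] fun z => deriv (deriv f) z - deriv (deriv g) z := by
    refine e1.deriv.trans ?_
    filter_upwards [hf.eventually_analyticAt, hg.eventually_analyticAt] with z hz hz'
    exact deriv_fun_sub hz.deriv.differentiableAt hz'.deriv.differentiableAt
  have e3 : deriv (deriv h) =ᶠ[𝓝 w] (fun z => 6 * (f z + g z)) * h := by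
    refine e2.trans ?_
    filter_upwards [hf2, hg2] with z hz hz'
    rw [hz, hz', Pi.mul_apply, hh]
    ring
  have hk : AnalyticAt ℂ (fun z => 6 * (f z + g z)) w := by fun_prop
  have o1 := hha.analyticOrderAt_deriv_add_one
  have o2 := hha.deriv.analyticOrderAt_deriv_add_one
  have z0 : h w = 0 := by rw [hh]; exact sub_eq_zero.mpr h0
  have z1 : deriv h w = 0 := by rw [e1.eq_of_nhds]; exact sub_eq_zero.mpr h1
  rw [z0] at o1
  rw [z1] at o2
  simp only [sub_zero] at o1 o2
  have o3 := analyticOrderAt_congr e3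
  rw [analyticOrderAt_mul hk hha] at o3
  have htop : analyticOrderAt h w = ⊤ := by
    change analyticOrderAt (deriv h) w + 1 = analyticOrderAt h w at o1
    change analyticOrderAt (deriv (deriv h)) w + 1 = analyticOrderAt (deriv h) w at o2
    by_contra hne
    rw [← o1, ← o2] at o3 hne
    generalize analyticOrderAt (deriv (deriv h)) w = x at o3 hne
    generalize analyticOrderAt (fun z => 6 * (f z + g z)) w = y at o3
    cases x with
    | top => exact hne rfl
    | coe x =>
      cases y with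
      | top => simp at o3
      | coe y =>
        norm_cast at o3
        omega
  rw [analyticOrderAt_eq_top] at htop
  filter_upwards [htop] with z hz
  exact sub_eq_zero.mp hz

theorem el_ode2_ev (w : ℂ) (hw : w ∉ elS) :
    ∀ᶠ z in 𝓝 w, deriv (deriv elP) z = 6 * elP z ^ 2 - elL.g₂ / 2 := by
  rw [el_derivP]
  filter_upwards [el_closed.isOpen_compl.mem_nhds hw] with z hz
  exact el_ode2 z hz

/-- no common zeros of the first two derivatives -/
theorem el_immersed (w : ℂ) (hw : w ∉ elS) (h1 : elQ w = 0) (h2 : deriv elQ w = 0) :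
    False := by
  apply el_nonconst w hw (elP w)
  apply el_uniq (elL.g₂ / 2) elP (fun _ => elP w) w (el_anP w hw) analyticAt_const
    (el_ode2_ev w hw)
  · have h3 := el_ode2 w hw
    rw [h2] at h3
    apply Filter.Eventually.of_forall
    intro z
    simp [← h3]
  · rfl
  · rw [el_derivP, h1]
    simp

theorem el_sep (w w' : ℂ) (hw : w ∉ elS) (hw' : w' ∉ elS) (h0 : elP w = elP w')
    (h1 : elQ w = elQ w') : w' - w ∈ elS := by
  by_contra hd
  set δ := w' - w with hδ
  have hwδ : w + δ = w' := by rw [hδ]; ring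
  have hga : ∀ z, z + δ ∉ elS → AnalyticAt ℂ (fun z => elP (z + δ)) z := by
    intro z hz
    exact AnalyticAt.fun_comp (el_anP _ hz) (by fun_prop)
  have hd1 : deriv (fun z => elP (z + δ)) = fun z => elQ (z + δ) := by
    funext z
    rw [deriv_comp_add_const, el_derivP]
  have hd2 : deriv (fun z => elQ (z + δ)) = fun z => deriv elQ (z + δ) := by
    funext z
    rw [deriv_comp_add_const]
  have hnear : ∀ z, z + δ ∉ elS → ∀ᶠ y in 𝓝 z, y + δ ∉ elS := by
    intro z hz
    have hc : ContinuousAt (fun y : ℂ => y + δ) z := by fun_prop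
    exact hc.eventually (el_closed.isOpen_compl.mem_nhds hz)
  have heq : elP =ᶠ[𝓝 w] fun z => elP (z + δ) := by
    apply el_uniq (elL.g₂ / 2) elP (fun z => elP (z + δ)) w (el_anP w hw)
      (hga w (by rw [hwδ]; exact hw')) (el_ode2_ev w hw)
    · rw [hd1, hd2]
      filter_upwards [hnear w (by rw [hwδ]; exact hw')] with z hz
      exact el_ode2 _ hz
    · show elP w = elP (w + δ)
      rw [hwδ]; exact h0
    · rw [hd1, el_derivP]
      show elQ w = elQ (w + δ)
      rw [hwδ]; exact h1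
  -- identity theorem on the complement of a countable set
  have hcount : (elS ∪ (fun z => z + δ) ⁻¹' elS).Countable := by
    apply el_countable.union
    apply el_countable.preimage_of_injOn
    exact (add_left_injective δ).injOn
  have hE : Set.EqOn elP (fun z => elP (z + δ)) (elS ∪ (fun z => z + δ) ⁻¹' elS)ᶜ := by
    have k1 : AnalyticOnNhd ℂ elP (elS ∪ (fun z => z + δ) ⁻¹' elS)ᶜ := by
      intro z hz
      exact el_anP z (fun h => hz (Or.inl h))
    have k2 : AnalyticOnNhd ℂ (fun z => elP (z + δ)) (elS ∪ (fun z => z + δ) ⁻¹' elS)ᶜ := by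
      intro z hz
      exact hga z (fun h => hz (Or.inr h))
    have k3 : w ∈ (elS ∪ (fun z => z + δ) ⁻¹' elS)ᶜ := by
      rintro (h | h)
      · exact hw h
      · have h2 : w + δ ∈ elS := h
        rw [hwδ] at h2
        exact hw' h2
    exact k1.eqOn_of_preconnected_of_eventuallyEq k2 (el_preconn hcount) k3 heq
  have hd0 : (0 : ℂ) + δ ∉ elS := by rw [zero_add]; exact hd
  apply el_pole 0 el_zero_mem (fun z => elP (z + δ)) (hga 0 hd0)
  filter_upwards [el_notMem_near 0, mem_nhdsWithin_of_mem_nhds (hnear 0 hd0)] with z hz hz2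
  apply hE
  rintro (h | h)
  · exact hz h
  · exact hz2 h

open Classical in
/-- the embedding -/
noncomputable def elU (w : ℂ) : Fin 3 → ℂ :=
  if w ∈ elS then ![0, 0, -2] else ![1, elP w, elQ w]

theorem elU_mem {w : ℂ} (hw : w ∈ elS) : elU w = ![0, 0, -2] := if_pos hw

theorem elU_notMem {w : ℂ} (hw : w ∉ elS) : elU w = ![1, elP w, elQ w] := if_neg hw

theorem el_period (l : ℂ) (hl : l ∈ elS) (w : ℂ) : elU (w + l) = elU w := by
  have h1 : w + l ∈ elS ↔ w ∈ elS := elL.lattice.add_mem_iff_left hl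
  by_cases hw : w ∈ elS
  · rw [elU_mem hw, elU_mem (h1.mpr hw)]
  · rw [elU_notMem hw, elU_notMem (fun h => hw (h1.mp h))]
    have h2 : elP (w + l) = elP w := elL.weierstrassP_add_coe w ⟨l, hl⟩
    have h3 : elQ (w + l) = elQ w := elL.derivWeierstrassP_add_coe w ⟨l, hl⟩
    rw [h2, h3]

theorem el_away (w : ℂ) (hw : w ∉ elS) (m : ℂ → ℂ) (m' : ℂ) (hm : HasDerivAt m m' w)
    (hm0 : m w ≠ 0) (G : ℂ → Fin 3 → ℂ) (hG : G =ᶠ[𝓝 w] fun z => m z • ![1, elP z, elQ z])
    (c : ℂ) : deriv G w ≠ c • G w := by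
  have hP := el_hasDerivP w hw
  have hQ : HasDerivAt elQ (deriv elQ w) w := (el_anQ w hw).differentiableAt.hasDerivAt
  have hH : HasDerivAt (fun z => m z • ![1, elP z, elQ z])
      ![m', m' * elP w + m w * elQ w, m' * elQ w + m w * deriv elQ w] w := by
    rw [hasDerivAt_pi]
    intro i
    fin_cases i
    · simpa using hm
    · show HasDerivAt (fun z => m z * elP z) (m' * elP w + m w * elQ w) w
      exact hm.mul hP
    · show HasDerivAt (fun z => m z * elQ z) (m' * elQ w + m w * deriv elQ w) w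
      exact hm.mul hQ
  intro h
  rw [hG.deriv_eq, hH.deriv, hG.eq_of_nhds] at h
  have c0 := congrFun h 0
  have c1 := congrFun h 1
  have c2 := congrFun h 2
  simp at c0 c1 c2
  have d1 : m w * elQ w = 0 := by rw [c0] at c1; linear_combination c1
  have d2 : m w * deriv elQ w = 0 := by rw [c0] at c2; linear_combination c2
  exact el_immersed w hw ((mul_eq_zero.mp d1).resolve_left hm0)
    ((mul_eq_zero.mp d2).resolve_left hm0)

theorem el_diff_away (w : ℂ) (hw : w ∉ elS) : DifferentiableAt ℂ elU w := by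
  have hP := (el_hasDerivP w hw).differentiableAt
  have hQ := (el_anQ w hw).differentiableAt
  have h1 : DifferentiableAt ℂ (fun z => ![1, elP z, elQ z]) w := by
    rw [differentiableAt_pi]
    intro i
    fin_cases i
    · simp
    · simpa using hP
    · simpa using hQ
  apply h1.congr_of_eventuallyEq
  filter_upwards [el_closed.isOpen_compl.mem_nhds hw] with y hy
  exact elU_notMem hy

/-- the local model at a pole -/
noncomputable def elV (w₀ w : ℂ) : Fin 3 → ℂ :=
  ![(w - w₀) ^ 3, (w - w₀) ^ 3 * elL.weierstrassPExcept w₀ w + (w - w₀) - (w - w₀) ^ 3 / w₀ ^ 2,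
    (w - w₀) ^ 3 * elL.derivWeierstrassPExcept w₀ w - 2]

open Classical in
theorem el_local (w₀ : ℂ) (hw₀ : w₀ ∈ elS) (w : ℂ) (hw : w ∈ elS → w = w₀) :
    (if w = w₀ then (1 : ℂ) else (w - w₀) ^ 3) • elU w = elV w₀ w := by
  by_cases h : w = w₀
  · subst h
    rw [if_pos rfl, elU_mem hw₀, one_smul]
    unfold elV
    simp
  · have hn : w ∉ elS := fun h' => h (hw h')
    have h0 : w - w₀ ≠ 0 := sub_ne_zero.mpr h
    rw [if_neg h, elU_notMem hn]
    unfold elV
    have e1 : elP w = elL.weierstrassPExcept w₀ w + (1 / (w - w₀) ^ 2 - 1 / w₀ ^ 2) :=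
      (elL.weierstrassPExcept_add ⟨w₀, hw₀⟩ w).symm
    have e2 : elQ w = elL.derivWeierstrassPExcept w₀ w - 2 / (w - w₀) ^ 3 :=
      (elL.derivWeierstrassPExcept_sub ⟨w₀, hw₀⟩ w).symm
    rw [e1, e2]
    funext i
    fin_cases i
    · simp
    · simp only [Pi.smul_apply, smul_eq_mul]
      show (w - w₀) ^ 3 * (elL.weierstrassPExcept w₀ w + (1 / (w - w₀) ^ 2 - 1 / w₀ ^ 2)) =
        (w - w₀) ^ 3 * elL.weierstrassPExcept w₀ w + (w - w₀) - (w - w₀) ^ 3 / w₀ ^ 2
      have : (w - w₀) ^ 3 * (1 / (w - w₀) ^ 2) = w - w₀ := by field_simp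
      rw [mul_add, mul_sub, this]
      ring
    · simp only [Pi.smul_apply, smul_eq_mul]
      show (w - w₀) ^ 3 * (elL.derivWeierstrassPExcept w₀ w - 2 / (w - w₀) ^ 3) =
        (w - w₀) ^ 3 * elL.derivWeierstrassPExcept w₀ w - 2
      field_simp

theorem el_V_diff (w₀ w : ℂ) (hw : w ∈ elS → w = w₀) : DifferentiableAt ℂ (elV w₀) w := by
  have hmem : w ∈ ((elL.lattice : Set ℂ) \ {w₀})ᶜ := by
    rintro ⟨h1, h2⟩
    exact h2 (hw h1)
  have h1 : DifferentiableAt ℂ (elL.weierstrassPExcept w₀) w :=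
    (elL.analyticOnNhd_weierstrassPExcept w₀ w hmem).differentiableAt
  have h2 : DifferentiableAt ℂ (elL.derivWeierstrassPExcept w₀) w :=
    (elL.analyticOnNhd_derivWeierstrassPExcept w₀ w hmem).differentiableAt
  unfold elV
  rw [differentiableAt_pi]
  intro i
  fin_cases i
  · show DifferentiableAt ℂ (fun w => (w - w₀) ^ 3) w
    fun_prop
  · show DifferentiableAt ℂ (fun w => (w - w₀) ^ 3 * elL.weierstrassPExcept w₀ w + (w - w₀) -
      (w - w₀) ^ 3 / w₀ ^ 2) w
    fun_prop
  · show DifferentiableAt ℂ (fun w => (w - w₀) ^ 3 * elL.derivWeierstrassPExcept w₀ w - 2) w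
    fun_prop

theorem el_V_deriv (w₀ : ℂ) (c : ℂ) : deriv (elV w₀) w₀ ≠ c • elV w₀ w₀ := by
  have hd := el_V_diff w₀ w₀ (fun _ => rfl)
  have h1 : HasDerivAt (elL.weierstrassPExcept w₀) (deriv (elL.weierstrassPExcept w₀) w₀) w₀ :=
    (elL.analyticAt_weierstrassPExcept w₀).differentiableAt.hasDerivAt
  have h2 := (hasDerivAt_pi.mp hd.hasDerivAt) 1
  have h3 : HasDerivAt (fun w => elV w₀ w 1) 1 w₀ := by
    show HasDerivAt (fun w => (w - w₀) ^ 3 * elL.weierstrassPExcept w₀ w + (w - w₀) -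
      (w - w₀) ^ 3 / w₀ ^ 2) 1 w₀
    have a1 : HasDerivAt (fun w : ℂ => w - w₀) 1 w₀ := (hasDerivAt_id w₀).sub_const w₀
    have a2 := a1.pow 3
    have a3 := ((a2.mul h1).add a1).sub (a2.div_const (w₀ ^ 2))
    refine a3.congr_deriv ?_
    simp
  intro h
  have h4 := h2.unique h3
  rw [h] at h4
  simp [elV] at h4

/-- properties of `elU` -/
theorem elU_props : (∀ w, elU w ≠ 0) ∧ (∀ w, elU (w + 1) = elU w) ∧
    (∀ w, elU (w + Complex.I) = elU w) ∧
    (∀ (w w' c : ℂ), elU w = c • elU w' → ∃ m n : ℤ, w = w' + m + n * Complex.I) ∧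
    ∀ w₀ : ℂ, ∃ r : ℝ, 0 < r ∧ ∃ l : ℂ → ℂ, (∀ w ∈ Metric.ball w₀ r, l w ≠ 0) ∧
      DifferentiableOn ℂ (fun w => l w • elU w) (Metric.ball w₀ r) ∧
      ∀ w ∈ Metric.ball w₀ r, ∀ c : ℂ, deriv (fun w => l w • elU w) w ≠ c • (l w • elU w) := by
  classical
  have hlat : ∀ w w' : ℂ, w' - w ∈ elS → ∃ m n : ℤ, w = w' + m + n * Complex.I := by
    intro w w' h
    have h' : w' - w ∈ elL.lattice := h
    obtain ⟨m, n, hmn⟩ := PeriodPair.mem_lattice.mp h'
    refine ⟨-m, -n, ?_⟩
    have e1 : elL.ω₁ = 1 := rfl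
    have e2 : elL.ω₂ = Complex.I := rfl
    rw [e1, e2] at hmn
    push_cast
    linear_combination hmn
  refine ⟨?_, ?_, ?_, ?_, ?_⟩
  · intro w h
    by_cases hw : w ∈ elS
    · rw [elU_mem hw] at h
      have := congrFun h 2
      simp at this
    · rw [elU_notMem hw] at h
      have := congrFun h 0
      simp at this
  · intro w
    exact el_period 1 elL.ω₁_mem_lattice w
  · intro w
    exact el_period Complex.I elL.ω₂_mem_lattice w
  · intro w w' c h
    apply hlat
    by_cases hw' : w' ∈ elS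
    · have hw : w ∈ elS := by
        by_contra hw
        rw [elU_notMem hw, elU_mem hw'] at h
        have := congrFun h 0
        simp at this
      exact elL.lattice.sub_mem hw' hw
    · rw [elU_notMem hw'] at h
      have hw : w ∉ elS := by
        intro hw
        rw [elU_mem hw] at h
        have h0 := congrFun h 0
        have h2 := congrFun h 2
        simp at h0 h2
        rw [← h0] at h2
        simp at h2
      rw [elU_notMem hw] at h
      have h0 := congrFun h 0
      have h1 := congrFun h 1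
      have h2 := congrFun h 2
      simp at h0 h1 h2
      rw [← h0, one_mul] at h1 h2
      exact el_sep w w' hw hw' h1 h2
  · intro w₀
    by_cases hw₀ : w₀ ∈ elS
    · obtain ⟨r, hr, hball⟩ := Metric.mem_nhds_iff.mp
        (elL.compl_lattice_sdiff_singleton_mem_nhds w₀)
      have hb : ∀ w ∈ Metric.ball w₀ r, w ∈ elS → w = w₀ := by
        intro w hw hwS
        by_contra hne
        exact hball hw ⟨hwS, hne⟩
      have hEq : ∀ w ∈ Metric.ball w₀ r,
          (if w = w₀ then (1 : ℂ) else (w - w₀) ^ 3) • elU w = elV w₀ w :=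
        fun w hw => el_local w₀ hw₀ w (hb w hw)
      refine ⟨r, hr, fun w => if w = w₀ then 1 else (w - w₀) ^ 3, ?_, ?_, ?_⟩
      · intro w _
        show (if w = w₀ then (1 : ℂ) else (w - w₀) ^ 3) ≠ 0
        split_ifs with h
        · exact one_ne_zero
        · exact pow_ne_zero _ (sub_ne_zero.mpr h)
      · have hV : DifferentiableOn ℂ (elV w₀) (Metric.ball w₀ r) :=
          fun w hw => (el_V_diff w₀ w (hb w hw)).differentiableWithinAt
        exact hV.congr hEq
      · intro w hw c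
        by_cases h : w = w₀
        · subst h
          have he : (fun z => (if z = w then (1 : ℂ) else (z - w) ^ 3) • elU z) =ᶠ[𝓝 w] elV w := by
            filter_upwards [Metric.ball_mem_nhds w hr] with z hz
            exact hEq z hz
          show deriv (fun z => (if z = w then (1 : ℂ) else (z - w) ^ 3) • elU z) w ≠
            c • ((if w = w then (1 : ℂ) else (w - w) ^ 3) • elU w)
          rw [he.deriv_eq, hEq w (Metric.mem_ball_self hr)]
          exact el_V_deriv w c
        · have hn : w ∉ elS := fun h' => h (hb w hw h')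
          have hm : HasDerivAt (fun z : ℂ => (z - w₀) ^ 3) (3 * (w - w₀) ^ 2) w := by
            have a1 : HasDerivAt (fun z : ℂ => z - w₀) 1 w := (hasDerivAt_id w).sub_const w₀
            have a2 := a1.pow 3
            refine a2.congr_deriv ?_
            simp
          apply el_away w hn (fun z => (z - w₀) ^ 3) _ hm (pow_ne_zero _ (sub_ne_zero.mpr h))
            (fun z => (if z = w₀ then (1 : ℂ) else (z - w₀) ^ 3) • elU z)
          filter_upwards [el_closed.isOpen_compl.mem_nhds hn, isOpen_ne.mem_nhds h] with z hz hz2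
          show (if z = w₀ then (1 : ℂ) else (z - w₀) ^ 3) • elU z = _
          rw [if_neg hz2, elU_notMem hz]
    · obtain ⟨r, hr, hball⟩ := Metric.mem_nhds_iff.mp (el_closed.isOpen_compl.mem_nhds hw₀)
      refine ⟨r, hr, fun _ => 1, fun _ _ => one_ne_zero, ?_, ?_⟩
      · intro w hw
        have := (el_diff_away w (hball hw)).differentiableWithinAt (s := Metric.ball w₀ r)
        simpa using this
      · intro w hw c
        have hn := hball hw
        apply el_away w hn (fun _ => 1) 0 (hasDerivAt_const w (1 : ℂ)) one_ne_zero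
          (fun z => (1 : ℂ) • elU z)
        filter_upwards [el_closed.isOpen_compl.mem_nhds hn] with z hz
        show (1 : ℂ) • elU z = _
        rw [elU_notMem hz]

theorem elU_ne (w : ℂ) : elU w ≠ 0 := elU_props.1 w

theorem elU_sep (w w' c : ℂ) (h : elU w = c • elU w') : w - w' ∈ elS := by
  obtain ⟨m, n, h⟩ := elU_props.2.2.2.1 w w' c h
  show w - w' ∈ elL.lattice
  refine PeriodPair.mem_lattice.mpr ⟨m, n, ?_⟩
  have e1 : elL.ω₁ = 1 := rfl
  have e2 : elL.ω₂ = Complex.I := rfl
  rw [e1, e2, h]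
  ring

open Classical in
/-- The pencil `(1, ℘)`. -/
noncomputable def elG (w : ℂ) : Fin 2 → ℂ :=
  if w ∈ elS then ![0, 1] else ![1, elP w]

open Classical in
/-- The section of `𝒪(o)`. -/
noncomputable def elsg (w : ℂ) : ℂ := if w ∈ elS then 0 else 1

theorem elG_ne (w : ℂ) : elG w ≠ 0 := by
  intro h
  unfold elG at h
  split_ifs at h
  · have := congrFun h 1
    simp at this
  · have := congrFun h 0
    simp at this

theorem elU_zero (w : ℂ) : elU w 0 = elsg w * elG w 0 := by
  unfold elU elG elsg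
  split_ifs <;> simp

theorem elU_one' (w : ℂ) : elU w 1 = elsg w * elG w 1 := by
  unfold elU elG elsg
  split_ifs <;> simp

theorem el_add_mem (l : ℂ) (hl : l ∈ elS) (w : ℂ) : w + l ∈ elS ↔ w ∈ elS :=
  elL.lattice.add_mem_iff_left hl

theorem elG_period (l : ℂ) (hl : l ∈ elS) (w : ℂ) : elG (w + l) = elG w := by
  have h1 := el_add_mem l hl w
  have h2 : elP (w + l) = elP w := elL.weierstrassP_add_coe w ⟨l, hl⟩
  by_cases hw : w ∈ elS
  · simp [elG, hw, h1.mpr hw]
  · have hw' : w + l ∉ elS := fun h => hw (h1.mp h)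
    simp [elG, hw, hw', h2]

theorem elsg_period (l : ℂ) (hl : l ∈ elS) (w : ℂ) : elsg (w + l) = elsg w := by
  have h1 := el_add_mem l hl w
  by_cases hw : w ∈ elS
  · simp [elsg, hw, h1.mpr hw]
  · have hw' : w + l ∉ elS := fun h => hw (h1.mp h)
    simp [elsg, hw, hw']

/-- A frame near `w₀`: on the ball `B = ball w₀ r`, holomorphic `U, G, σ` with
`(U, G, σ) = (c³ elU, c² elG, c elsg)`, and a holomorphic local inverse `T` of `[U]`. -/
structure Frame (w₀ : ℂ) where
  r : ℝ
  r_pos : 0 < r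
  U : ℂ → Fin 3 → ℂ
  G : ℂ → Fin 2 → ℂ
  σ : ℂ → ℂ
  c : ℂ → ℂ
  dU : DifferentiableOn ℂ U (Metric.ball w₀ r)
  dG : DifferentiableOn ℂ G (Metric.ball w₀ r)
  dσ : DifferentiableOn ℂ σ (Metric.ball w₀ r)
  c_ne : ∀ t ∈ Metric.ball w₀ r, c t ≠ 0
  U_eq : ∀ t ∈ Metric.ball w₀ r, U t = c t ^ 3 • elU t
  G_eq : ∀ t ∈ Metric.ball w₀ r, G t = c t ^ 2 • elG t
  σ_eq : ∀ t ∈ Metric.ball w₀ r, σ t = c t * elsg t
  b₀ : Fin 3
  l₀ : Fin 2
  U_ne : ∀ t ∈ Metric.ball w₀ r, U t b₀ ≠ 0
  G_ne : ∀ t ∈ Metric.ball w₀ r, G t l₀ ≠ 0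
  O : Set (Fin 3 → ℂ)
  O_open : IsOpen O
  O_ne : ∀ u ∈ O, u b₀ ≠ 0
  T : (Fin 3 → ℂ) → ℂ
  dT : DifferentiableOn ℂ T O
  cone : ∀ u ∈ O, ∀ a : ℂ, a ≠ 0 → a • u ∈ O ∧ T (a • u) = T u
  T_mem : ∀ u ∈ O, T u ∈ Metric.ball w₀ r
  T_U : ∀ t ∈ Metric.ball w₀ r, U t ∈ O ∧ T (U t) = t
  T_back : ∀ t : ℂ, elU t ∈ O → t - T (elU t) ∈ elS
  type : (∀ t ∈ Metric.ball w₀ r, t ∉ elS ∧ c t = 1) ∨
    (w₀ ∈ elS ∧ ∀ t ∈ Metric.ball w₀ r, t ≠ w₀ → t ∉ elS ∧ c t = t - w₀)

end Pool.Agent.Helper922.MR
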