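import Pool.Agent.Helper922.MR.Model2

/-! Expansion of the sections and spanning by linear fields. -/

namespace Pool.Agent.Helper922.MR

variable {w₀ : ℂ}

/-- The functions on a dual space which are linear combinations of products of `n` evaluations at
vectors of `W`. -/
noncomputable def Sy' {E : Type*} [NormedAddCommGroup E] [NormedSpace ℂ E] (W : Submodule ℂ E) (n : ℕ) :
    Submodule ℂ ((E →L[ℂ] ℂ) → ℂ) :=
  Submodule.span ℂ {f | ∃ w : Fin n → E, (∀ i, w i ∈ W) ∧ f = fun ξ => ∏ i, ξ (w i)}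

theorem G0_aux_poly (x : Fin 3 → ℂ) (R : MvPolynomial (Fin 3 ⊕ Fin 3) ℂ) :
    ∃ P : MvPolynomial (Fin 3) ℂ, ∀ κ : Fin 3 → ℂ,
      MvPolynomial.eval κ P = MvPolynomial.eval (Sum.elim x κ) R := by
  refine ⟨MvPolynomial.bind₁ (Sum.elim (fun i => MvPolynomial.C (x i)) MvPolynomial.X) R, ?_⟩
  intro κ
  induction R using MvPolynomial.induction_on with
  | C a => simp
  | add p q hp hq => rw [map_add, map_add, map_add, hp, hq]
  | mul_X p i hp =>
    rw [map_mul, map_mul, map_mul, hp]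
    congr 1
    rcases i with i | i <;> simp

theorem SG_expand {R : ℕ → MvPolynomial (Fin 3 ⊕ Fin 3) ℂ} (hR : IsR R) {E : Type*}
    [NormedAddCommGroup E] [NormedSpace ℂ E] (W : Submodule ℂ E)
    (hmul : ∀ (n k : ℕ) (f g : (E →L[ℂ] ℂ) → ℂ), f ∈ Sy' W n → g ∈ Sy' W k →
      (fun ξ => f ξ * g ξ) ∈ Sy' W (n + k))
    (heval : ∀ (n : ℕ) (P : MvPolynomial (Fin 3) ℂ), (∀ (κ : Fin 3 → ℂ) (c : ℂ),
      MvPolynomial.eval (c • κ) P = c ^ n * MvPolynomial.eval κ P) →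
      ∀ k : Fin 3 → E, (∀ i, k i ∈ W) →
      (fun ξ : E →L[ℂ] ℂ => MvPolynomial.eval (fun i => ξ (k i)) P) ∈ Sy' W n)
    (Γ : ℕ → ℕ → ℂ → ℂ) (m : ℕ) (x : Fin 3 → ℂ) (t : ℂ) (q : Fin 3 → ℂ) (s : ℂ) (kk : Fin 3 → E)
    (hkk : ∀ i, kk i ∈ W) (et : E) :
    ∃ g : ℕ → (E →L[ℂ] ℂ) → ℂ, (∀ j, 1 ≤ j → j ≤ m → g j ∈ Sy' W j) ∧
      ∀ ξ : E →L[ℂ] ℂ, SG R Γ m x t q s (fun i => ξ (kk i)) (ξ et) =
        (x 0 ^ 3 * s * (x 0 * Γ 0 0 t)) * ξ et ^ m +
          ∑ j ∈ Finset.Icc 1 m, ξ et ^ (m - j) * g j ξ := by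
  let θ : (E →L[ℂ] ℂ) → ℂ := fun ξ => ∑ i, q i * ξ (kk i)
  let co : ℕ → ℕ → ℂ := fun p j => x 0 ^ 3 * s * (s ^ j * (m.descFactorial j : ℂ) *
      ((m - j).choose (p - j) : ℂ) * Γ j (p - j) t)
  let g : ℕ → (E →L[ℂ] ℂ) → ℂ := fun p => ∑ j ∈ Finset.range (p + 1), co p j •
    (fun ξ => MvPolynomial.eval (Sum.elim x (fun i => ξ (kk i))) (R j) * θ ξ ^ (p - j))
  have hg : ∀ p ξ, g p ξ = ∑ j ∈ Finset.range (p + 1), co p j *
      (MvPolynomial.eval (Sum.elim x (fun i => ξ (kk i))) (R j) * θ ξ ^ (p - j)) := by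
    intro p ξ
    simp only [g, Finset.sum_apply, Pi.smul_apply, smul_eq_mul]
  have hθ : θ ∈ Sy' W 1 := by
    have h1 := heval 1 (∑ i, MvPolynomial.C (q i) * MvPolynomial.X i) (by
      intro κ c
      simp only [map_sum, map_mul, MvPolynomial.eval_C, MvPolynomial.eval_X, Pi.smul_apply,
        smul_eq_mul, pow_one, Finset.mul_sum]
      refine Finset.sum_congr rfl fun i _ => ?_
      ring) kk hkk
    have e : (fun ξ : E →L[ℂ] ℂ => MvPolynomial.eval (fun i => ξ (kk i))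
        (∑ i, MvPolynomial.C (q i) * MvPolynomial.X i)) = θ := by
      funext ξ
      simp only [map_sum, map_mul, MvPolynomial.eval_C, MvPolynomial.eval_X, θ]
    rwa [e] at h1
  have hθp : ∀ l, (fun ξ => θ ξ ^ l) ∈ Sy' W l := by
    intro l
    induction l with
    | zero =>
      refine Submodule.subset_span ⟨Fin.elim0, fun i => i.elim0, ?_⟩
      funext ξ
      simp
    | succ l ih =>
      have := hmul l 1 _ _ ih hθ
      simpa only [pow_succ] using this
  refine ⟨g, ?_, ?_⟩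
  · intro p _ _
    refine Submodule.sum_mem _ fun j hj => Submodule.smul_mem _ _ ?_
    rw [Finset.mem_range] at hj
    obtain ⟨P, hP⟩ := G0_aux_poly x (R j)
    have h1 := heval j P (by
      intro κ c
      rw [hP, hP, hR.homK]) kk hkk
    have h2 := hmul j (p - j) _ _ h1 (hθp (p - j))
    rw [show j + (p - j) = p by omega] at h2
    simpa only [hP] using h2
  · intro ξ
    have hDG : SG R Γ m x t q s (fun i => ξ (kk i)) (ξ et)
        = ∑ p ∈ Finset.range (m + 1), ξ et ^ (m - p) * g p ξ := by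
      unfold SG DG
      rw [Finset.mul_sum]
      have hflip := Finset.sum_range_diag_flip (m + 1) (fun j l => x 0 ^ 3 * s *
        (s ^ j * MvPolynomial.eval (Sum.elim x (fun i => ξ (kk i))) (R j) *
        (m.descFactorial j : ℂ) * (((m - j).choose l : ℂ) *
        ξ et ^ (m - j - l) * (∑ i, q i * ξ (kk i)) ^ l * Γ j l t)))
      have hL : ∑ j ∈ Finset.range (m + 1), x 0 ^ 3 * s *
          (s ^ j * MvPolynomial.eval (Sum.elim x (fun i => ξ (kk i))) (R j) *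
          (m.descFactorial j : ℂ) * ∑ l ∈ Finset.range (m - j + 1), ((m - j).choose l : ℂ) *
          ξ et ^ (m - j - l) * (∑ i, q i * ξ (kk i)) ^ l * Γ j l t)
          = ∑ j ∈ Finset.range (m + 1), ∑ l ∈ Finset.range (m + 1 - j), x 0 ^ 3 * s *
        (s ^ j * MvPolynomial.eval (Sum.elim x (fun i => ξ (kk i))) (R j) *
        (m.descFactorial j : ℂ) * (((m - j).choose l : ℂ) *
        ξ et ^ (m - j - l) * (∑ i, q i * ξ (kk i)) ^ l * Γ j l t)) := by
        refine Finset.sum_congr rfl fun j hj => ?_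
        rw [Finset.mem_range] at hj
        rw [show m + 1 - j = m - j + 1 by omega, Finset.mul_sum, Finset.mul_sum]
      rw [hL, ← hflip]
      refine Finset.sum_congr rfl fun p hp => ?_
      rw [Finset.mem_range] at hp
      rw [hg, Finset.mul_sum]
      refine Finset.sum_congr rfl fun j hj => ?_
      rw [Finset.mem_range] at hj
      rw [show m - j - (p - j) = m - p by omega]
      simp only [co, θ]
      ring
    rw [hDG]
    have hins : Finset.range (m + 1) = insert 0 (Finset.Icc 1 m) := by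
      ext a
      simp only [Finset.mem_range, Finset.mem_insert, Finset.mem_Icc]
      omega
    rw [hins, Finset.sum_insert (by simp)]
    congr 1
    rw [hg]
    simp only [zero_add, Finset.range_one, Finset.sum_singleton, co, Nat.sub_zero,
      pow_zero, Nat.descFactorial_zero, Nat.cast_one, Nat.choose_zero_right, Nat.sub_self]
    rw [hR.zero]
    ring

theorem span_fields (fr : Frame w₀) (v : P5) (h0 : v.1 0 ≠ 0) (h1 : v.1 1 ≠ 0)
    (hσ : fr.σ v.2.1 ≠ 0) :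
    Submodule.span ℂ ({k : P5 | ∃ j, k = kL 0 0 j v} ∪ {k : P5 | ∃ j, k = kN fr 0 0 j v}) =
      LinearMap.ker ((LinearMap.fst ℂ ℂ (Fin 2 → ℂ)).comp (LinearMap.snd ℂ (Fin 2 → ℂ)
        (ℂ × (Fin 2 → ℂ)))) := by
  have hker : ∀ w : P5, w ∈ LinearMap.ker ((LinearMap.fst ℂ ℂ (Fin 2 → ℂ)).comp
      (LinearMap.snd ℂ (Fin 2 → ℂ) (ℂ × (Fin 2 → ℂ)))) ↔ w.2.1 = 0 := fun w => Iff.rfl
  have hins : ∀ y : Fin 2 → ℂ, ins 0 y 0 = 1 := by
    intro y
    unfold ins
    rw [Fin.insertNth_apply_same]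
  have hkv0 : kv 0 0 0 v = 0 := by simp [kv]
  have hkv1 : kv 0 0 1 v = ((0 : Fin 2 → ℂ), (0 : ℂ), (![1, 0] : Fin 2 → ℂ)) := by
    unfold kv
    rw [if_neg (by decide)]
    refine Prod.ext rfl (Prod.ext rfl ?_)
    funext k
    fin_cases k <;> simp [Pi.single_apply]
  have hkv2 : kv 0 0 2 v = ((0 : Fin 2 → ℂ), (0 : ℂ), (![0, 1] : Fin 2 → ℂ)) := by
    unfold kv
    rw [if_neg (by decide)]
    refine Prod.ext rfl (Prod.ext rfl ?_)
    funext k
    fin_cases k <;> simp [Pi.single_apply]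
  have hkvm : ∀ i, (kv 0 0 i v).2.1 = 0 := by
    intro i
    unfold kv
    split_ifs <;> rfl
  apply le_antisymm
  · rw [Submodule.span_le]
    rintro w (⟨j, rfl⟩ | ⟨j, rfl⟩)
    · rfl
    · change (kN fr 0 0 j v).2.1 = 0
      unfold kN
      simp only [Prod.snd_sub, Prod.fst_sub, Prod.smul_snd, Prod.smul_fst, hkvm]
      simp
  · intro w hw
    rw [hker] at hw
    set S := Submodule.span ℂ ({k : P5 | ∃ j, k = kL 0 0 j v} ∪ {k : P5 | ∃ j, k = kN fr 0 0 j v})
      with hS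
    have eN2 : kN fr 0 0 2 v = (-(fr.σ v.2.1)) • kv 0 0 1 v := by
      unfold kN
      rw [show (2 : Fin 3) + 2 = 1 from rfl, show (2 : Fin 3) + 1 = 0 from rfl, hkv0, hins, hins]
      simp
    have eN1 : kN fr 0 0 1 v = (fr.σ v.2.1) • kv 0 0 2 v := by
      unfold kN
      rw [show (1 : Fin 3) + 2 = 0 from rfl, show (1 : Fin 3) + 1 = 2 from rfl, hkv0, hins, hins]
      simp
    have m1 : kv 0 0 1 v ∈ S := by
      have h2 : kN fr 0 0 2 v ∈ S := Submodule.subset_span (Or.inr ⟨2, rfl⟩)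
      have h3 := S.smul_mem (-(fr.σ v.2.1))⁻¹ h2
      rwa [eN2, smul_smul, inv_mul_cancel₀ (neg_ne_zero.2 hσ), one_smul] at h3
    have m2 : kv 0 0 2 v ∈ S := by
      have h2 : kN fr 0 0 1 v ∈ S := Submodule.subset_span (Or.inr ⟨1, rfl⟩)
      have h3 := S.smul_mem (fr.σ v.2.1)⁻¹ h2
      rwa [eN1, smul_smul, inv_mul_cancel₀ hσ, one_smul] at h3
    have m3 : ∀ z : Fin 2 → ℂ, ((0 : Fin 2 → ℂ), (0 : ℂ), z) ∈ S := by
      intro z
      have e : (((0 : Fin 2 → ℂ), (0 : ℂ), z) : P5) = z 0 • kv 0 0 1 v + z 1 • kv 0 0 2 v := by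
        rw [hkv1, hkv2]
        refine Prod.ext ?_ (Prod.ext ?_ ?_)
        · simp
        · simp
        · funext k
          fin_cases k <;> simp
      rw [e]
      exact S.add_mem (S.smul_mem _ m1) (S.smul_mem _ m2)
    have m4 : kL 0 0 1 v ∈ S := Submodule.subset_span (Or.inl ⟨1, rfl⟩)
    have m5 : kL 0 0 2 v ∈ S := Submodule.subset_span (Or.inl ⟨2, rfl⟩)
    have e1 : (kL 0 0 1 v).1 = ![v.1 0, 0] := by
      funext k
      fin_cases k <;> simp [kL]
    have e2 : (kL 0 0 2 v).1 = ![0, v.1 1] := by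
      funext k
      fin_cases k <;> simp [kL]
    have e : w = (w.1 0 / v.1 0) • kL 0 0 1 v + (w.1 1 / v.1 1) • kL 0 0 2 v
        + ((0 : Fin 2 → ℂ), (0 : ℂ), w.2.2 - (w.1 0 / v.1 0) • (kL 0 0 1 v).2.2
          - (w.1 1 / v.1 1) • (kL 0 0 2 v).2.2) := by
      refine Prod.ext ?_ (Prod.ext ?_ ?_)
      · simp only [Prod.fst_add, Prod.smul_fst, e1, e2]
        funext k
        fin_cases k
        · simp [div_mul_cancel₀ _ h0]
        · simp [div_mul_cancel₀ _ h1]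
      · rw [hw]
        simp [kL]
      · simp only [Prod.snd_add, Prod.smul_snd]
        abel
    rw [e]
    exact S.add_mem (S.add_mem (S.smul_mem _ m4) (S.smul_mem _ m5)) (m3 _)

end Pool.Agent.Helper922.MR
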