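import Pool.Agent.Helper922.MR.Asm2
import Pool.Agent.Helper922.MR.B3
import Pool.Agent.Helper922.MR.G0

/-! Generation of the twisted symmetric powers at a general point, in a chart. -/

open scoped LinearAlgebra.Projectivization

namespace Pool.Agent.Helper922.MR

variable {w₀ : ℂ}

/-- the constant coefficient does not vanish -/
theorem G1a_const_ne_22842 {e : ℕ → ℂ → ℂ} (he : IsE e) (fr : Frame w₀) {Γ : ℕ → ℕ → ℂ → ℂ}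
    (hΓ : IsGam fr e Γ) (v : P5) (hv : v ∈ dom fr) (ht : v.2.1 ∉ elS) :
    ins 0 v.1 0 ^ 3 * ins 0 v.2.2 0 * (ins 0 v.1 0 * Γ 0 0 v.2.1) ≠ 0 := by
  have hins : ∀ y : Fin 2 → ℂ, ins 0 y 0 = 1 := by
    intro y
    unfold ins
    rw [Fin.insertNth_apply_same]
  have h1 : Γ 0 0 v.2.1 = fr.c v.2.1 ^ 6 := by
    rw [hΓ.eq 0 0 v.2.1 hv ht]
    simp [he.zero]
  rw [hins, hins, h1]
  simpa using fr.c_ne v.2.1 hv

/-- every generator is represented by a linear field -/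
theorem G1a_gens_22842 (fr : Frame w₀) (v : P5) (hv : v ∈ dom fr) (w : P5)
    (hw : w ∈ ({k : P5 | ∃ j, k = kL 0 0 j v} ∪ {k : P5 | ∃ j, k = kN fr 0 0 j v} : Set P5)) :
    ∃ L : (Idx → ℂ) →ₗ[ℂ] (Idx → ℂ), IsLinField L ∧ ∃ η : ℂ,
      fderiv ℂ (chart fr 0 0) v w = L (chart fr 0 0 v) - η • chart fr 0 0 v := by
  rcases hw with ⟨j, rfl⟩ | ⟨j, rfl⟩
  · exact ⟨Lt j, lin_Lt j, kL_facts fr 0 0 j v hv⟩
  · exact ⟨Nt j, lin_Nt j, kN_facts fr 0 0 j v hv⟩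

/-- the values of sections at a point form a submodule -/
def G1a_sub_22842 (fr : Frame w₀) (v : P5) (m : ℕ) (D : P5 →L[ℂ] (Idx → ℂ)) :
    Submodule ℂ ((P5 →L[ℂ] ℂ) → ℂ) where
  carrier := {φ | ∃ S : (Idx → ℂ) → ((Idx → ℂ) →L[ℂ] ℂ) → ℂ, IsMF 1 m S ∧
    ∀ α : (Idx → ℂ) →L[ℂ] ℂ, α (chart fr 0 0 v) = 0 → S (chart fr 0 0 v) α = φ (α.comp D)}
  add_mem' := by
    rintro φ ψ ⟨S, hS, h1⟩ ⟨S', hS', h1'⟩
    refine ⟨fun z α => S z α + S' z α, IsMF_add hS hS', fun α hα => ?_⟩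
    show S _ α + S' _ α = φ _ + ψ _
    rw [h1 α hα, h1' α hα]
  zero_mem' := ⟨fun _ _ => 0, IsMF_zero, fun α hα => rfl⟩
  smul_mem' := by
    rintro b φ ⟨S, hS, h1⟩
    refine ⟨fun z α => b * S z α, IsMF_smul hS b, fun α hα => ?_⟩
    show b * S _ α = b * φ _
    rw [h1 α hα]

theorem G1a_step_22842 {R : ℕ → MvPolynomial (Fin 3 ⊕ Fin 3) ℂ} {e : ℕ → ℂ → ℂ} (hR : IsR R)
    (he : IsE e) (hΓ : ∀ (w₀ : ℂ) (fr : Frame w₀), ∃ Γ : ℕ → ℕ → ℂ → ℂ, IsGam fr e Γ)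
    (fr : Frame w₀) (v : P5) (hv : v ∈ dom fr) (ht : v.2.1 ∉ elS) (m k : ℕ) (hk : k ≤ m)
    (w : Fin (m - k) → P5) (hw : ∀ i, w i ∈ ({k : P5 | ∃ j, k = kL 0 0 j v} ∪
      {k : P5 | ∃ j, k = kN fr 0 0 j v} : Set P5)) :
    ∃ f ∈ G1a_sub_22842 fr v m (fderiv ℂ (chart fr 0 0) v),
      ∃ (C : ℂ) (g : ℕ → (P5 →L[ℂ] ℂ) → ℂ), C ≠ 0 ∧
      (∀ j, 1 ≤ j → j ≤ k → g j ∈ Sy (LinearMap.ker ((LinearMap.fst ℂ ℂ (Fin 2 → ℂ)).comp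
        (LinearMap.snd ℂ (Fin 2 → ℂ) (ℂ × (Fin 2 → ℂ))))) j) ∧
      f = fun ξ => (C * ξ ((0, 1, 0) : P5) ^ k + ∑ j ∈ Finset.Icc 1 k,
        ξ ((0, 1, 0) : P5) ^ (k - j) * g j ξ) * ∏ i, ξ (w i) := by
  obtain ⟨Γ, hΓ'⟩ := hΓ w₀ fr
  choose L hL η hLη using fun i => G1a_gens_22842 fr v hv (w i) (hw i)
  obtain ⟨g, hg, hgξ⟩ := SG_expand hR (E := P5) (LinearMap.ker ((LinearMap.fst ℂ ℂ (Fin 2 → ℂ)).comp
        (LinearMap.snd ℂ (Fin 2 → ℂ) (ℂ × (Fin 2 → ℂ)))))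
    (fun n k f g hf hg => Sy_mul _ n k f g hf hg)
    (fun n P hP k hk => Sy_eval _ n P hP k hk) Γ k (ins 0 v.1) v.2.1
    (cq 0 (ins 0 v.1) (fr.σ v.2.1) (ins 0 v.2.2)) (ins 0 v.2.2 0) (fun i => kv 0 0 i v)
    (by
      intro i
      show (kv 0 0 i v).2.1 = 0
      unfold kv
      split_ifs <;> rfl) ((0, 1, 0) : P5)
  refine ⟨_, ⟨fun z α => SD R e k z α * ∏ i, α (L i z), ?_, ?_⟩, _, g,
    G1a_const_ne_22842 he fr hΓ' v hv ht, hg, rfl⟩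
  · have h1 := IsMF_mul (IsMF_SD hR he hΓ k) (IsMF_prod L hL)
    rw [add_zero, Nat.add_sub_cancel' hk] at h1
    exact h1
  · intro α hα
    have h2 : ∀ i, (α.comp (fderiv ℂ (chart fr 0 0) v)) (w i) = α (L i (chart fr 0 0 v)) := by
      intro i
      rw [ContinuousLinearMap.comp_apply, hLη, map_sub, map_smul, hα, smul_zero, sub_zero]
    show SD R e k (chart fr 0 0 v) α * ∏ i, α (L i (chart fr 0 0 v)) = _
    rw [← hgξ, SD_chart' hR he fr hΓ' k 0 0 v hv α hα]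
    congr 1
    exact Finset.prod_congr rfl fun i _ => (h2 i).symm

theorem gen_chart {R : ℕ → MvPolynomial (Fin 3 ⊕ Fin 3) ℂ} {e : ℕ → ℂ → ℂ} (hR : IsR R)
    (he : IsE e) (hΓ : ∀ (w₀ : ℂ) (fr : Frame w₀), ∃ Γ : ℕ → ℕ → ℂ → ℂ, IsGam fr e Γ)
    (fr : Frame w₀) (v : P5) (hv : v ∈ dom fr) (h0 : v.1 0 ≠ 0) (h1 : v.1 1 ≠ 0)
    (ht : v.2.1 ∉ elS) (m : ℕ) (b : Fin 5 → P5) (f : MvPolynomial (Fin 5) ℂ)
    (hf : f.IsHomogeneous m) :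
    ∃ S : (Idx → ℂ) → ((Idx → ℂ) →L[ℂ] ℂ) → ℂ, IsMF 1 m S ∧
      ∀ α : (Idx → ℂ) →L[ℂ] ℂ, α (chart fr 0 0 v) = 0 → S (chart fr 0 0 v) α =
        MvPolynomial.eval (fun i => α (fderiv ℂ (chart fr 0 0) v (b i))) f := by
  have hσ : fr.σ v.2.1 ≠ 0 := by
    have h2 : elsg v.2.1 = 1 := if_neg ht
    rw [fr.σ_eq v.2.1 hv, h2, mul_one]
    exact fr.c_ne v.2.1 hv
  have hW : ∀ u : P5, ∃ (a : ℂ) (w : P5), w ∈ LinearMap.ker ((LinearMap.fst ℂ ℂ (Fin 2 → ℂ)).comp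
        (LinearMap.snd ℂ (Fin 2 → ℂ) (ℂ × (Fin 2 → ℂ)))) ∧ u = a • ((0, 1, 0) : P5) + w := by
    intro u
    refine ⟨u.2.1, (u.1, 0, u.2.2), rfl, ?_⟩
    refine Prod.ext ?_ (Prod.ext ?_ ?_)
    · simp
    · simp
    · simp
  have key := gen_lemma (σ := Fin 5) ((0, 1, 0) : P5) _ hW _ (span_fields fr v h0 h1 hσ) m
    (G1a_sub_22842 fr v m (fderiv ℂ (chart fr 0 0) v))
    (fun k hk w hw => G1a_step_22842 hR he hΓ fr v hv ht m k hk w hw) f hf b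
  obtain ⟨S, hS, h⟩ := key
  exact ⟨S, hS, h⟩

end Pool.Agent.Helper922.MR
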