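import Pool.Agent.Helper922.MR.Asm3
import Pool.Agent.Helper922.MR.Asm4
import Pool.Agent.Helper922.MR.Asm5
import Pool.Agent.Helper922.MR.G1a

/-! Counterexample to Q1 of MP_cc389e_ag. -/

open scoped LinearAlgebra.Projectivization

namespace Pool.Agent.Helper922.MR

theorem XX_pseudoEffective : HasPseudoEffectiveTangentBundle 5 XX := by
  obtain ⟨R, hR⟩ := exists_isR
  obtain ⟨e, he, hΓ⟩ := exists_isE
  exact XX_pseff (fun _ fr v hv h0 h1 ht m b f hf => gen_chart hR he hΓ fr v hv h0 h1 ht m b f hf)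

theorem result_main : ∃ (ι κ : Type) (_ : Fintype ι) (_ : Fintype κ) (X : Set (ℙ ℂ (ι → ℂ)))
    (Y : Set (ℙ ℂ (κ → ℂ))) (φ : ℙ ℂ (ι → ℂ) → ℙ ℂ (κ → ℂ)),
    IsSmoothProjectiveVariety 5 X ∧ HasPseudoEffectiveTangentBundle 5 X ∧
    IsSmoothProjectiveVariety 1 Y ∧ IsMRCFibration X Y φ ∧ ¬ IsLocallyTrivial X Y φ :=
  ⟨Idx, Fin 3, inferInstance, inferInstance, XX, YY, pr, XX_smooth, XX_pseudoEffective, YY_smooth,
    XX_MRC, XX_not_locallyTrivial⟩

end Pool.Agent.Helper922.MR
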