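import Pool.Agent.Helper922.MR.Defs
import Pool.Agent.Helper922.MR.Ell
import Pool.Agent.Helper922.MR.AlgDefs

/-! The model: the variety `XX`, the elliptic curve `YY`, the projection `pr`, the charts, the
sections. -/

open scoped LinearAlgebra.Projectivization

namespace Pool.Agent.Helper922.MR

/-- The index set of the homogeneous coordinates. -/
abbrev Idx : Type := Fin 3 × Fin 3 × ((Fin 3 × Fin 3) ⊕ (Fin 3 × Fin 2))

/-- Homogeneous coordinates: `x ⊗ U ⊗ (x_i³ s U_k, q_i G_l)`. -/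
def Zv (x U : Fin 3 → ℂ) (G : Fin 2 → ℂ) (q : Fin 3 → ℂ) (s : ℂ) : Idx → ℂ := fun p =>
  x p.1 * U p.2.1 * Sum.elim (fun ik : Fin 3 × Fin 3 => x ik.1 ^ 3 * s * U ik.2)
    (fun il : Fin 3 × Fin 2 => q il.1 * G il.2) p.2.2

/-- The equation `Σ x_i³ q_i + σ (x₀x₁x₂)² s = 0`. -/
def Eqn (x q : Fin 3 → ℂ) (σ s : ℂ) : Prop :=
  ∑ i, x i ^ 3 * q i + σ * (x 0 * x 1 * x 2) ^ 2 * s = 0

theorem Zv_ne {x U : Fin 3 → ℂ} {G : Fin 2 → ℂ} {q : Fin 3 → ℂ} {s : ℂ} (hx : x ≠ 0) (hU : U ≠ 0)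
    (hG : G ≠ 0) (h : q ≠ 0 ∨ s ≠ 0) : Zv x U G q s ≠ 0 := by
  obtain ⟨i, hi⟩ := Function.ne_iff.mp hx
  obtain ⟨j, hj⟩ := Function.ne_iff.mp hU
  obtain ⟨l, hl⟩ := Function.ne_iff.mp hG
  simp only [Pi.zero_apply] at hi hj hl
  intro h0
  rcases h with h | h
  · obtain ⟨k, hk⟩ := Function.ne_iff.mp h
    have := congrFun h0 (i, j, Sum.inr (k, l))
    simp only [Zv, Sum.elim_inr, Pi.zero_apply, mul_eq_zero] at this
    rcases this with (h | h) | h | h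
    · exact hi h
    · exact hj h
    · exact hk h
    · exact hl h
  · have := congrFun h0 (i, j, Sum.inl (i, j))
    simp only [Zv, Sum.elim_inl, Pi.zero_apply, mul_eq_zero, pow_eq_zero_iff, ne_eq,
      OfNat.ofNat_ne_zero, not_false_eq_true] at this
    rcases this with (h' | h') | (h' | h') | h'
    · exact hi h'
    · exact hj h'
    · exact hi h'
    · exact h h'
    · exact hj h'

/-- The fivefold. -/
def XX : Set (ℙ ℂ (Idx → ℂ)) := {p | ∃ (x : Fin 3 → ℂ) (t : ℂ) (q : Fin 3 → ℂ) (s : ℂ)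
  (hx : x ≠ 0) (hqs : q ≠ 0 ∨ s ≠ 0), Eqn x q (elsg t) s ∧
    p = Projectivization.mk ℂ (Zv x (elU t) (elG t) q s) (Zv_ne hx (elU_ne t) (elG_ne t) hqs)}

/-- The elliptic curve. -/
def YY : Set (ℙ ℂ (Fin 3 → ℂ)) := {p | ∃ t : ℂ, p = Projectivization.mk ℂ (elU t) (elU_ne t)}

theorem vec100_ne : (![1, 0, 0] : Fin 3 → ℂ) ≠ 0 := by
  intro h
  have := congrFun h 0
  simp at this

open Classical in
/-- The projection: `x ⊗ U ⊗ W ↦ U`. -/
noncomputable def pr (p : ℙ ℂ (Idx → ℂ)) : ℙ ℂ (Fin 3 → ℂ) :=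
  if h : ∃ aw : Fin 3 × ((Fin 3 × Fin 3) ⊕ (Fin 3 × Fin 2)), (fun b => p.rep (aw.1, b, aw.2)) ≠ 0
  then Projectivization.mk ℂ (fun b => p.rep (h.choose.1, b, h.choose.2)) h.choose_spec
  else Projectivization.mk ℂ ![1, 0, 0] vec100_ne

/-- The parameter space of the charts: `(x_b)_{b ≠ a}, t, (ω_i)_{i ≠ c}`. -/
abbrev P5 : Type := (Fin 2 → ℂ) × ℂ × (Fin 2 → ℂ)

/-- A linear coordinate change. -/
noncomputable def e5 : (Fin 5 → ℂ) ≃L[ℂ] P5 :=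
  ContinuousLinearEquiv.ofFinrankEq (by simp [P5])

/-- `y ↦` the vector with `a`-th coordinate `1` and other coordinates `y`. -/
def ins (a : Fin 3) (y : Fin 2 → ℂ) : Fin 3 → ℂ := a.insertNth (1 : ℂ) y

/-- `q` in terms of `ω` (`ω_i = q_i` for `i ≠ a`, `ω_a = s`), when `x_a = 1`. -/
def cq (a : Fin 3) (x : Fin 3 → ℂ) (σ : ℂ) (ω : Fin 3 → ℂ) : Fin 3 → ℂ := fun i =>
  if i = a then -(∑ j ∈ Finset.univ.erase a, x j ^ 3 * ω j + σ * (x 0 * x 1 * x 2) ^ 2 * ω a)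
  else ω i

variable {w₀ : ℂ}

/-- The point of the cone with parameters `x` (with `x_a = 1`), `t`, `ω`. -/
def Psi (fr : Frame w₀) (a : Fin 3) (x : Fin 3 → ℂ) (t : ℂ) (ω : Fin 3 → ℂ) : Idx → ℂ :=
  Zv x (fr.U t) (fr.G t) (cq a x (fr.σ t) ω) (ω a)

/-- The chart. -/
def chart (fr : Frame w₀) (a c : Fin 3) (v : P5) : Idx → ℂ :=
  Psi fr a (ins a v.1) v.2.1 (ins c v.2.2)

/-- The domain of the chart. -/
def dom (fr : Frame w₀) : Set P5 := {v | v.2.1 ∈ Metric.ball w₀ fr.r}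

/-- The index of the coordinate used to read `ω_i`. -/
def wi (fr : Frame w₀) (a i : Fin 3) : (Fin 3 × Fin 3) ⊕ (Fin 3 × Fin 2) :=
  if i = a then Sum.inl (a, fr.b₀) else Sum.inr (i, fr.l₀)

/-- The factor of the coordinate used to read `ω_i`. -/
def nrm (fr : Frame w₀) (a i : Fin 3) (t : ℂ) : ℂ := if i = a then fr.U t fr.b₀ else fr.G t fr.l₀

/-- The domain of the left inverse of the chart. -/
def OO (fr : Frame w₀) (a c : Fin 3) : Set (Idx → ℂ) :=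
  {z | (fun b => z (a, b, wi fr a c)) ∈ fr.O}

/-- The left inverse of the chart. -/
noncomputable def chartInv (fr : Frame w₀) (a c : Fin 3) (z : Idx → ℂ) : P5 :=
  (fun k => z (a.succAbove k, fr.b₀, wi fr a c) / z (a, fr.b₀, wi fr a c),
    fr.T (fun b => z (a, b, wi fr a c)),
    fun k => z (a, fr.b₀, wi fr a (c.succAbove k)) / z (a, fr.b₀, wi fr a c) *
      (nrm fr a c (fr.T (fun b => z (a, b, wi fr a c))) /
        nrm fr a (c.succAbove k) (fr.T (fun b => z (a, b, wi fr a c)))))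

/-- `∂ Zv / ∂ q_i`. -/
def Zq (x U : Fin 3 → ℂ) (G : Fin 2 → ℂ) (i : Fin 3) : Idx → ℂ := Zv x U G (Pi.single i 1) 0

/-- The tangent vector of the parameter space with image `Zq i - x_i³ Zq a` modulo the chart. -/
def kv (a c i : Fin 3) (v : P5) : P5 :=
  if i = a then 0 else (0, 0, fun k => (Pi.single i (1 : ℂ) : Fin 3 → ℂ) (c.succAbove k) -
    if i = c then v.2.2 k else 0)

/-- A global section of `𝒪(n) ⊗ Sym^m T`, in terms of the charts. -/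
def IsMF (n m : ℕ) (S : (Idx → ℂ) → ((Idx → ℂ) →L[ℂ] ℂ) → ℂ) : Prop :=
  (∀ (z : Idx → ℂ) (hz : z ≠ 0), Projectivization.mk ℂ z hz ∈ XX → ∀ α : (Idx → ℂ) →L[ℂ] ℂ,
    α z = 0 → ∀ b : ℂ, b ≠ 0 → S (b • z) α = b ^ (n + m) * S z α) ∧
  ∀ (w₀ : ℂ) (fr : Frame w₀) (a c : Fin 3), ∃ F : P5 → (P5 →L[ℂ] ℂ) → ℂ,
      DifferentiableOn ℂ (fun y : P5 × (P5 →L[ℂ] ℂ) => F y.1 y.2) (dom fr ×ˢ Set.univ) ∧
      (∀ v ∈ dom fr, ∀ (b : ℂ) (ξ : P5 →L[ℂ] ℂ), F v (b • ξ) = b ^ m * F v ξ) ∧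
      ∀ v ∈ dom fr, ∀ α : (Idx → ℂ) →L[ℂ] ℂ, α (chart fr a c v) = 0 →
        S (chart fr a c v) α = F v (α.comp (fderiv ℂ (chart fr a c) v))

/-- The linear operator `L` is tangent to the cone over `XX`, in terms of the charts. -/
def IsLinField (L : (Idx → ℂ) →ₗ[ℂ] (Idx → ℂ)) : Prop :=
  ∀ (w₀ : ℂ) (fr : Frame w₀) (a c : Fin 3), ∃ k : P5 → P5, DifferentiableOn ℂ k (dom fr) ∧
    ∀ v ∈ dom fr, ∃ η : ℂ, fderiv ℂ (chart fr a c) v (k v) =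
      L (chart fr a c v) - η • chart fr a c v

/-- Weights of the torus action, `j`-th factor. -/
def wt (j : Fin 3) (p : Idx) : ℂ :=
  (if p.1 = j then 1 else 0) + Sum.elim (fun ik : Fin 3 × Fin 3 => if ik.1 = j then 3 else 0)
    (fun il : Fin 3 × Fin 2 => 2 - if il.1 = j then 3 else 0) p.2.2

/-- The torus field `L_j`. -/
def Lt (j : Fin 3) : (Idx → ℂ) →ₗ[ℂ] (Idx → ℂ) where
  toFun z := fun p => wt j p * z p
  map_add' z z' := by funext p; simp [mul_add]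
  map_smul' b z := by funext p; simp; ring

/-- The vertical field `N_j`: `(N_j z)_{(a,b,inr(i,l))} = (X × e_j)_i` with
`X_i = z_{(a,b,inl(i,l))}`. -/
def Nt (j : Fin 3) : (Idx → ℂ) →ₗ[ℂ] (Idx → ℂ) where
  toFun z := fun p => Sum.elim (fun _ => 0) (fun il : Fin 3 × Fin 2 =>
    if il.1 = j + 1 then z (p.1, p.2.1, Sum.inl (j + 2, il.2.castSucc))
    else if il.1 = j + 2 then -z (p.1, p.2.1, Sum.inl (j + 1, il.2.castSucc)) else 0) p.2.2
  map_add' z z' := by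
    funext p
    rcases p with ⟨p1, p2, p3 | p3⟩
    · simp
    · simp only [Sum.elim_inr, Pi.add_apply]
      split_ifs
      · rfl
      · ring
      · simp
  map_smul' b z := by
    funext p
    rcases p with ⟨p1, p2, p3 | p3⟩
    · simp
    · simp only [Sum.elim_inr, Pi.smul_apply, smul_eq_mul, RingHom.id_apply]
      split_ifs
      · rfl
      · ring
      · simp

/-- The value of the section `D_m` at a representation, for `t` off the lattice. -/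
noncomputable def Dfun (R : ℕ → MvPolynomial (Fin 3 ⊕ Fin 3) ℂ) (e : ℕ → ℂ → ℂ) (m : ℕ)
    (x : Fin 3 → ℂ) (t : ℂ) (q : Fin 3 → ℂ) (s : ℂ) (α : (Idx → ℂ) →L[ℂ] ℂ) : ℂ :=
  x 0 ^ 3 * s * Dm R (fun k => e k t) m x (fun i => α (Zq x (elU t) (elG t) i)) s
    (α (deriv (fun t' => Zv x (elU t') (elG t') q s) t))
    (∑ i, q i * α (Zq x (elU t) (elG t) i))

open Classical in
/-- The section `s x_0³ D_m` of `𝒪(1) ⊗ Sym^m T`. -/
noncomputable def SD (R : ℕ → MvPolynomial (Fin 3 ⊕ Fin 3) ℂ) (e : ℕ → ℂ → ℂ) (m : ℕ)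
    (z : Idx → ℂ) (α : (Idx → ℂ) →L[ℂ] ℂ) : ℂ :=
  if h : ∃ r : (Fin 3 → ℂ) × ℂ × (Fin 3 → ℂ) × ℂ, r.2.1 ∉ elS ∧
      Eqn r.1 r.2.2.1 (elsg r.2.1) r.2.2.2 ∧ z = Zv r.1 (elU r.2.1) (elG r.2.1) r.2.2.1 r.2.2.2
  then Dfun R e m h.choose.1 h.choose.2.1 h.choose.2.2.1 h.choose.2.2.2 α
  else 0

/-- Properties of the elliptic functions `e_k`. -/
structure IsE (e : ℕ → ℂ → ℂ) : Prop where
  zero : ∀ z, e 0 z = 1
  period : ∀ k z, ∀ l ∈ elS, e k (z + l) = e k z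
  diff : ∀ k, DifferentiableOn ℂ (e k) elSᶜ

/-- The coefficients of the section in a frame: holomorphic functions `Γ_{j,l}`. -/
structure IsGam (fr : Frame w₀) (e : ℕ → ℂ → ℂ) (Γ : ℕ → ℕ → ℂ → ℂ) : Prop where
  diff : ∀ j l, DifferentiableOn ℂ (Γ j l) (Metric.ball w₀ fr.r)
  zero : ∀ j l, ∀ t ∈ Metric.ball w₀ fr.r, t ∈ elS → Γ j l t = 0
  eq : ∀ j l, ∀ t ∈ Metric.ball w₀ fr.r, t ∉ elS → Γ j l t =
    fr.c t ^ (6 + j) * ∑ k ∈ Finset.range (l + 1), (l.choose k : ℂ) * e (j + k) t *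
      (deriv fr.c t / fr.c t) ^ (l - k)

end Pool.Agent.Helper922.MR
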