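import Pool.Agent.Helper922.MR.Model

/-! More definitions for the model: explicit tangent vectors of the charts. -/

namespace Pool.Agent.Helper922.MR

variable {w₀ : ℂ}

/-- the weight of `ω_i` under the `j`-th factor of the torus, after normalising `x_a = 1` -/
def ww (a j i : Fin 3) : ℂ := if i = a then 0 else
  2 - (if i = j then 3 else 0) - (if a = j then 3 else 0)

/-- The tangent vector of the parameter space which represents the torus field `Lt j`. -/
def kL (a c j : Fin 3) (v : P5) : P5 :=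
  (fun k => ((if a.succAbove k = j then 1 else 0) - (if a = j then 1 else 0)) * v.1 k, 0,
    fun k => (ww a j (c.succAbove k) - ww a j c) * v.2.2 k)

/-- The tangent vector of the parameter space which represents the vertical field `Nt j`. -/
noncomputable def kN (fr : Frame w₀) (a c j : Fin 3) (v : P5) : P5 :=
  (fr.σ v.2.1 * ins c v.2.2 a) • ((ins a v.1 (j + 2)) ^ 3 • kv a c (j + 1) v -
    (ins a v.1 (j + 1)) ^ 3 • kv a c (j + 2) v)

/-- The value of the section `D_m` in a frame. -/
noncomputable def SG (R : ℕ → MvPolynomial (Fin 3 ⊕ Fin 3) ℂ) (Γ : ℕ → ℕ → ℂ → ℂ) (m : ℕ)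
    (x : Fin 3 → ℂ) (t : ℂ) (q : Fin 3 → ℂ) (s : ℂ) (κ : Fin 3 → ℂ) (τ : ℂ) : ℂ :=
  x 0 ^ 3 * s * DG R (fun j l => Γ j l t) m x κ s τ (∑ i, q i * κ i)

end Pool.Agent.Helper922.MR
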